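import Pool.Agent.Q22.SP.Stm

set_option autoImplicit false

namespace Pool.Agent.Q22.SP

open Pool.Agent.Y184.SP Set Topology Filter
open scoped ContDiff Manifold

namespace ACL

/-- the points on the curve `y = 0` or on an exceptional curve -/
def exc : Pt → Prop
  | .ord _ y => y = some 0
  | .e1 _ => True
  | .e2 _ => True

theorem onA_iff (i : Fin 5) (z : E) : onA i z ↔ exc (PP i z) := by
  unfold onA
  fin_cases i
  · simp [PP, exc, tr]
  · simp only [Fin.mk_one, ne_eq, not_true_eq_false, false_and, PP, exc, false_iff]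
    split_ifs with h
    · simp
    · simpa using h
  · simp only [Fin.reduceFinMk, PP]
    by_cases h : z.2 = 0
    · simp [h, exc, tr]
    · simp [h, exc]
  · simp only [Fin.reduceFinMk, PP]
    by_cases h : z.1 = 0
    · simp [h, exc, tr]
    · by_cases h2 : z.2 = 0
      · simp [h, h2, exc, tr]
      · simp [h, h2, exc]
  · simp only [Fin.reduceFinMk, PP]
    by_cases h : z.1 = 0
    · simp [h, exc, tr]
    · simp [h, exc]

theorem isOpen_UU (dens : S_DENS) (i : Idx) : IsOpen (UU i) := by
  by_cases h : i.1 < 2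
  · have : UU i = V i.1 ∩ {z | ‖z.1 - i.2‖ < 1 / 2} := by
      ext z
      simp [UU, h]
    rw [this]
    exact (dens i.1).1.inter (isOpen_lt (by fun_prop) continuous_const)
  · have : UU i = V i.1 := by
      ext z
      simp [UU, h]
    rw [this]
    exact (dens i.1).1

theorem isOpen_not_onA (j : Fin 5) : IsOpen {z | ¬ onA j z} := by
  by_cases h : j = 1
  · have : {z | ¬ onA j z} = univ := by
      ext z
      simp [onA, h]
    rw [this]
    exact isOpen_univ
  · have hc : Continuous (fun z => (tr j z).2) := by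
      fin_cases j
      · exact continuous_snd
      · exact absurd rfl h
      · simp only [tr]
        fun_prop
      · simp only [tr]
        fun_prop
      · simp only [tr]
        fun_prop
    have : {z | ¬ onA j z} = {z | (tr j z).2 ≠ 0} := by
      ext z
      simp [onA, h]
    rw [this]
    exact isOpen_ne_fun hc continuous_const

end ACL

theorem t_ACL (dens : S_DENS) (_trw : S_TRW) : S_ACL := by
  intro Y _ _ Q hS
  have h3 : ∀ i : Idx, ∀ z ∈ UU i, (Q i z ∈ AA Q ↔ onA i.1 z) := by
    intro i z hz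
    constructor
    · rintro ⟨j, z', hz', hon, heq⟩
      have h := (hS.eqv j i z' z hz' hz).1 heq
      rw [ACL.onA_iff, ← h, ← ACL.onA_iff]
      exact hon
    · intro h
      exact ⟨i, z, hz, h, rfl⟩
  refine ⟨?_, ?_, h3⟩
  · rw [← isOpen_compl_iff, isOpen_iff_mem_nhds]
    intro p hp
    obtain ⟨i, z, hz, rfl⟩ := hS.par.surj p
    have hn : ¬ onA i.1 z := fun h => hp ((h3 i z hz).2 h)
    have hO : IsOpen (UU i ∩ {z | ¬ onA i.1 z}) :=
      (ACL.isOpen_UU dens i).inter (ACL.isOpen_not_onA i.1)
    have hQ := hS.par.opn i _ inter_subset_left hO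
    refine mem_of_superset (hQ.mem_nhds (mem_image_of_mem _ ⟨hz, hn⟩)) ?_
    rintro _ ⟨t, ⟨ht, htn⟩, rfl⟩ hmem
    exact htn ((h3 i t ht).1 hmem)
  · intro p
    obtain ⟨i, z, hz, rfl⟩ := hS.par.surj p
    rw [mem_closure_iff_nhds]
    intro N hN
    have hc : ContinuousAt (Q i) z := (hS.par.smooth i z hz).continuousAt
    have h1 : Q i ⁻¹' N ∩ UU i ∈ 𝓝 z := inter_mem (hc hN) ((ACL.isOpen_UU dens i).mem_nhds hz)
    have h2 := ((dens i.1).2 z hz.1).1
    rw [mem_closure_iff_nhds] at h2
    obtain ⟨t, ⟨htN, htU⟩, _, htW⟩ := h2 _ h1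
    refine ⟨Q i t, htN, fun hmem => ?_⟩
    exact htW.2 ((h3 i t htU).1 hmem).2

end Pool.Agent.Q22.SP
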