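import Pool.Agent.Q22.SP.Stm

/-!
# Project SP (helper22), job ALIM: limits at the curves
-/

set_option autoImplicit false

open Set Topology Filter
open scoped ContDiff Manifold

namespace Pool.Agent.Q22.SP.ALIM

open Pool.Agent.Y184.SP

theorem isOpen_UU (dens : S_DENS) (i : Idx) : IsOpen (UU i) := by
  have hV : IsOpen (V i.1) := (dens i.1).1
  by_cases h : i.1 < 2
  · have e : UU i = V i.1 ∩ {z : E | ‖z.1 - i.2‖ < 1 / 2} := by
      ext z
      simp only [UU, mem_setOf_eq, mem_inter_iff]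
      exact ⟨fun hz => ⟨hz.1, hz.2 h⟩, fun hz => ⟨hz.1, fun _ => hz.2⟩⟩
    rw [e]
    exact hV.inter (isOpen_lt (by fun_prop) continuous_const)
  · have e : UU i = V i.1 := by
      ext z
      simp only [UU, mem_setOf_eq]
      exact ⟨fun hz => hz.1, fun hz => ⟨hz, fun h' => absurd h' h⟩⟩
    rw [e]
    exact hV

end Pool.Agent.Q22.SP.ALIM

namespace Pool.Agent.Q22.SP

open Pool.Agent.Y184.SP

theorem t_ALIM (dens : S_DENS) (acl : S_ACL) : S_ALIM := by
  intro Y _ _ Q hS u w hw hwu hlim p hp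
  obtain ⟨i, z, hz, hA, rfl⟩ := hp
  rw [tendsto_atBot]
  intro R
  have h1 : ∀ᶠ t in 𝓝 z, tr i.1 t ∈ W → u (tr i.1 t) ≤ R := by
    have := (hlim i.1 z hz.1 hA).eventually_le_atBot R
    rw [eventually_nhdsWithin_iff] at this
    exact this
  have h2 : ∀ᶠ t in 𝓝 z, t ∈ UU i := (ALIM.isOpen_UU dens i).mem_nhds hz
  obtain ⟨N, hN, hNo, hzN⟩ := eventually_nhds_iff.mp (h1.and h2)
  have hop : IsOpen (Q i '' N) := hS.par.opn i N (fun t ht => (hN t ht).2) hNo
  rw [eventually_nhdsWithin_iff]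
  filter_upwards [hop.mem_nhds ⟨z, hzN, rfl⟩] with q hq hqA
  obtain ⟨t, htN, rfl⟩ := hq
  by_contra hR
  push Not at hR
  have ht : t ∈ UU i := (hN t htN).2
  have hcQ : ContinuousAt (Q i) t := (hS.par.smooth i t ht).continuousAt
  have e1 : ∀ᶠ q in 𝓝 (Q i t), R < w q := (hw (Q i t) hqA).eventually (lt_mem_nhds hR)
  have e2 : ∀ᶠ q in 𝓝 (Q i t), q ∉ AA Q :=
    (acl Y Q hS).1.isOpen_compl.mem_nhds hqA
  have e3 : ∀ᶠ t' in 𝓝 t, R < w (Q i t') ∧ Q i t' ∉ AA Q ∧ t' ∈ N :=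
    (hcQ.eventually e1).and ((hcQ.eventually e2).and (hNo.mem_nhds htN))
  have hcl := ((dens i.1).2 t ht.1).1
  rw [mem_closure_iff_frequently] at hcl
  obtain ⟨t', ht', h3, h4, h5⟩ := (hcl.and_eventually e3).exists
  have h6 := hwu i t' (hN t' h5).2 h4 ht'.2
  have h7 := (hN t' h5).1 ht'.2
  rw [h6] at h3
  exact absurd h7 (not_le.mpr h3)

end Pool.Agent.Q22.SP
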