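import Pool.Agent.Q22.SP.Stm

/-!
# Project SP (helper22), job BIG: the class is big
-/

set_option autoImplicit false

open Set Topology Filter
open scoped ContDiff Manifold

namespace Pool.Agent.Q22.SP

open Pool.Agent.Y184.SP

namespace BIG

theorem two_le : (2 : WithTop ℕ∞) ≤ ∞ := WithTop.coe_le_coe.2 (le_top : (2 : ℕ∞) ≤ ⊤)

/-- the function with logarithmic poles -/
noncomputable def M (z : E) : ℝ := chi z.1 * (L1 z + L2 z)

/-- the function `U` -/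
noncomputable def U (G : ℂ → ℝ) (δ : ℝ) (z : E) : ℝ := far G 0 z + δ * M z

theorem extAt_add {u w : E → ℝ} {j : Fin 5} {z : E} (hu : ExtAt u j z) (hw : ExtAt w j z) (δ : ℝ) :
    ExtAt (fun t => u t + δ * w t) j z := by
  obtain ⟨f, hf, hf'⟩ := hu
  obtain ⟨g, hg, hg'⟩ := hw
  refine ⟨fun t => f t + δ * g t, ?_, ?_⟩
  · have h1 : ∀ᶠ t in 𝓝 z, ContDiffAt ℝ ∞ f t := hf
    have h2 : ∀ᶠ t in 𝓝 z, ContDiffAt ℝ ∞ g t := hg
    show ∀ᶠ t in 𝓝 z, ContDiffAt ℝ ∞ (fun t => f t + δ * g t) t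
    filter_upwards [h1, h2] with t h1 h2
    exact h1.add (contDiffAt_const.mul h2)
  · filter_upwards [hf', hg'] with t h1 h2 ht
    rw [h1 ht, h2 ht]

theorem per (hchi : S_CHI) {G h : ℂ → ℝ} {c : ℝ} (hG : IsGreen G h c) (δ : ℝ) : Per (U G δ) := by
  obtain ⟨-, -, h3, h4, -⟩ := hchi
  intro x y l hl
  simp only [U, M, far, L1, L2, h3 x l hl, h4 x l hl, hG.per x l hl]

/-- the Levi form of the smooth part of the Kaehler potential -/
theorem lev_psi (lo : S_LOPS) (llog : S_LLOG) (phis : S_PHIS) (farl : S_FARL) {G h : ℂ → ℝ} {c : ℝ}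
    (hG : IsGreen G h c) (K : ℝ) (z : E) (hz : z ∈ W) (v : E) :
    lev (Psi G K) z v = K * (c * ‖v.1‖ ^ 2 + 2 * ‖v.2‖ ^ 2 / (1 + ‖z.2‖ ^ 2) ^ 2) +
      K / 2 * (4 * ‖v.2‖ ^ 2 / (1 + ‖z.2‖ ^ 2) ^ 2) + lev M z v := by
  obtain ⟨ladd, lsub, lmul, lgerm, -, -⟩ := lo
  obtain ⟨hf, hl⟩ := farl G h c hG 0 z hz
  have hsnd : AnalyticAt ℂ (fun t : E => t.2) z := (ContinuousLinearMap.snd ℂ ℂ ℂ).analyticAt z
  have hone : AnalyticAt ℂ (fun _ : E => (1 : ℂ)) z := analyticAt_const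
  obtain ⟨c1, l1⟩ := llog.1 (fun t : E => t.2) z v hsnd hz.2
  obtain ⟨c2, l2⟩ := llog.2.2 (fun _ : E => (1 : ℂ)) (fun t : E => t.2) z v hone hsnd (Or.inl one_ne_zero)
  have hfd : fderiv ℂ (fun t : E => t.2) z v = v.2 := by
    rw [show (fun t : E => t.2) = (ContinuousLinearMap.snd ℂ ℂ ℂ : E → ℂ) from rfl,
      ContinuousLinearMap.fderiv]
    rfl
  have hfc : fderiv ℂ (fun _ : E => (1 : ℂ)) z v = 0 := by
    rw [fderiv_const_apply]
    rfl
  rw [hfd, hfc, mul_zero, sub_zero, one_mul, norm_one, one_pow] at l2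
  rw [norm_one, one_pow] at c2
  have hM : ContDiffAt ℝ ∞ M z := phis.2.2.1 z (Or.inl hz.1)
  have c2' : ContDiffAt ℝ 2 (fun t : E => Real.log (1 + ‖t.2‖ ^ 2)) z := by
    exact c2.of_le two_le
  have c1' : ContDiffAt ℝ 2 (fun t : E => Real.log (‖t.2‖ ^ 2)) z := by
    exact c1.of_le two_le
  have hf' : ContDiffAt ℝ 2 (far G 0) z := by
    exact hf.of_le two_le
  have hM' : ContDiffAt ℝ 2 M z := by
    exact hM.of_le two_le
  have e : Psi G K = fun t => K * far G 0 t + (K / 2 * Real.log (1 + ‖t.2‖ ^ 2)) +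
      (-(5 * K / 2)) * Real.log (‖t.2‖ ^ 2) + M t := by
    funext t
    simp only [Psi, far, M]
    ring
  have k1 : ContDiffAt ℝ 2 (fun t => K * far G 0 t) z := contDiffAt_const.mul hf'
  have k2 : ContDiffAt ℝ 2 (fun t : E => K / 2 * Real.log (1 + ‖t.2‖ ^ 2)) z := contDiffAt_const.mul c2'
  have k3 : ContDiffAt ℝ 2 (fun t : E => (-(5 * K / 2)) * Real.log (‖t.2‖ ^ 2)) z := contDiffAt_const.mul c1'
  rw [e, ladd _ _ z v ((k1.add k2).add k3) hM', ladd _ _ z v (k1.add k2) k3, ladd _ _ z v k1 k2,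
    lmul _ _ z v hf', lmul _ _ z v c2', lmul _ _ z v c1', hl v, l1, l2]
  ring

end BIG

open BIG in
/-- **JOB BIG.** -/
theorem t_BIG (chi : S_CHI) (lo : S_LOPS) (llog : S_LLOG) (phis : S_PHIS) : S_BIG := by
  intro farl fare bigl G h c hG K hK
  have hc := hG.pos
  refine ⟨1 / (2 * K), U G (1 / (2 * K)), by positivity, per chi hG _, ?_, ?_, ?_⟩
  · intro z hz v
    obtain ⟨hf, hl⟩ := farl G h c hG 0 z hz
    have hM : ContDiffAt ℝ ∞ M z := phis.2.2.1 z (Or.inl hz.1)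
    have hf' : ContDiffAt ℝ 2 (far G 0) z := by
      exact hf.of_le two_le
    have hM' : ContDiffAt ℝ 2 M z := by
      exact hM.of_le two_le
    rw [lev_psi lo llog phis farl hG K z hz v]
    have e : lev (U G (1 / (2 * K))) z v = lev (far G 0) z v + 1 / (2 * K) * lev M z v := by
      have h1 := lo.1 (far G 0) (fun t => 1 / (2 * K) * M t) z v hf' (contDiffAt_const.mul hM')
      rw [lo.2.2.1 M (1 / (2 * K)) z v hM'] at h1
      exact h1
    rw [e, hl v]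
    have hK' : K ≠ 0 := hK.ne'
    have e2 : 1 / (2 * K) * (K * (c * ‖v.1‖ ^ 2 + 2 * ‖v.2‖ ^ 2 / (1 + ‖z.2‖ ^ 2) ^ 2) +
      K / 2 * (4 * ‖v.2‖ ^ 2 / (1 + ‖z.2‖ ^ 2) ^ 2) + lev M z v) =
      c / 2 * ‖v.1‖ ^ 2 + 2 * ‖v.2‖ ^ 2 / (1 + ‖z.2‖ ^ 2) ^ 2 + 1 / (2 * K) * lev M z v := by
      field_simp
      ring
    rw [e2]
    have h3 : 0 ≤ c * ‖v.1‖ ^ 2 := by positivity
    linarith
  · intro j z hz hA
    obtain ⟨h1, h2⟩ := fare G h c hG 0 j z hz hA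
    have h3 := extAt_add h1 h2 (1 / (2 * K))
    have e : (fun z => U G (1 / (2 * K)) z - Phi z) =
        fun t => far G 0 t - Phi t + 1 / (2 * K) * (Pool.Agent.Y184.SP.chi t.1 * (L1 t + L2 t)) := by
      funext t
      simp only [U, M]
      ring
    rw [e]
    exact h3
  · intro j z hz hA
    exact bigl G h c hG (1 / (2 * K)) (by positivity) j z hz hA

end Pool.Agent.Q22.SP
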