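import Pool.Agent.Q22.SP.Stm

/-!
# Project SP (helper22), job BIGL: the limits at the curve `y = 0`
-/

set_option autoImplicit false

open Set Topology Filter
open scoped ContDiff Manifold

namespace Pool.Agent.Q22.SP

open Pool.Agent.Y184.SP

namespace BIGL

/-- lower bound of the Green function corrected by the logarithm, near any point -/
theorem green_lower (chi_ : S_CHI) {G h : ℂ → ℝ} {c : ℝ} (hG : IsGreen G h c) (x0 : ℂ) :
    ∃ C : ℝ, ∀ᶠ x in 𝓝 x0, x ∉ Lam → C ≤ G x - chi x * Real.log (‖red x‖ ^ 2) := by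
  obtain ⟨-, hb, -, -, hrl, hred, hc1, hc0, hlam, -, -, -, -⟩ := chi_
  by_cases hx0 : x0 ∈ Lam
  · refine ⟨h 0 - 1, ?_⟩
    have hcont : ContinuousAt h 0 := (hG.smooth_h 0 (by simp)).continuousAt
    have h1 : ∀ᶠ x in 𝓝 x0, h 0 - 1 < h (x - x0) := by
      have ht : Tendsto (fun x : ℂ => x - x0) (𝓝 x0) (𝓝 0) := by
        have : Continuous fun x : ℂ => x - x0 := by fun_prop
        have := this.tendsto x0
        simpa using this
      exact ht.eventually (hcont.eventually (lt_mem_nhds (by linarith)))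
    have h2 : ∀ᶠ x in 𝓝 x0, ‖x - x0‖ < 1 / 8 := by
      have : Continuous fun x : ℂ => ‖x - x0‖ := by fun_prop
      exact this.continuousAt.eventually (gt_mem_nhds (by simp))
    filter_upwards [h1, h2] with x hx1 hx2 hx
    have hr : red x = x - x0 := hred x x0 hx0 (by linarith)
    have hne : x - x0 ≠ 0 := by
      intro h0
      apply hx
      rw [sub_eq_zero.1 h0]
      exact hx0
    have hchi : chi x = 1 := hc1 x (by rw [hr]; exact hx2.le)
    have hGx : G x = Real.log (‖x - x0‖ ^ 2) + h (x - x0) := by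
      rw [← hG.eq (x - x0) (by linarith) hne, ← hG.per (x - x0) x0 hx0]
      congr 1
      ring
    rw [hchi, hr, hGx]
    linarith
  · refine ⟨G x0 - 1, ?_⟩
    have hcont : ContinuousAt G x0 := (hG.smooth x0 hx0).continuousAt
    filter_upwards [hcont.eventually (lt_mem_nhds (show G x0 - 1 < G x0 by linarith))] with x hx hxL
    have h1 : chi x * Real.log (‖red x‖ ^ 2) ≤ 0 := by
      by_cases hr : 1 / 4 ≤ ‖red x‖
      · rw [hc0 x hr]; simp
      · push Not at hr
        apply mul_nonpos_of_nonneg_of_nonpos (hb x).1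
        apply Real.log_nonpos (by positivity)
        have := norm_nonneg (red x)
        nlinarith
    linarith

/-- the bound on `W` for small `y` -/
theorem bound (chi_ : S_CHI) (G : ℂ → ℝ) {δ : ℝ} (hδ : 0 < δ) {C : ℝ} {z : E} (hz : z ∈ W)
    (hy : ‖z.2‖ ≤ 1) (hC : C ≤ G z.1 - chi z.1 * Real.log (‖red z.1‖ ^ 2)) :
    far G 0 z + δ * (chi z.1 * (L1 z + L2 z)) - Phi z ≤
      1 / 2 * Real.log (‖z.2‖ ^ 2) + (Real.log 32 + δ * (2 * Real.log 4) - C) := by
  obtain ⟨-, hb, -, -, hrl, hred, hc1, hc0, hlam, -, -, -, -⟩ := chi_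
  obtain ⟨x, y⟩ := z
  obtain ⟨hx, hy0⟩ := hz
  simp only at hx hy0 hy hC ⊢
  have hr0 : red x ≠ 0 := fun h => hx ((hlam x).2 h)
  have hrn : 0 < ‖red x‖ := norm_pos_iff.2 hr0
  have hyn : 0 < ‖y‖ := norm_pos_iff.2 hy0
  have hly : Real.log (‖y‖ ^ 2) ≤ 0 := Real.log_nonpos (by positivity) (by nlinarith)
  have hB1 : (1 : ℝ) ≤ 1 + ‖y‖ ^ 2 := by nlinarith [sq_nonneg ‖y‖]
  have hB2 : 1 + ‖y‖ ^ 2 ≤ 2 := by nlinarith
  have hlB : 0 ≤ Real.log (1 + ‖y‖ ^ 2) := Real.log_nonneg hB1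
  set A1 : ℝ := ‖red x‖ ^ 2 + ‖y - red x‖ ^ 2 with hA1
  set A2 : ℝ := ‖y - red x‖ ^ 2 + ‖red x‖ ^ 4 with hA2
  have hA1p : 0 < A1 := by positivity
  have hA2p : 0 < A2 := by positivity
  have hL1 : L1 (x, y) = Real.log A1 - Real.log (1 + ‖y‖ ^ 2) := by
    unfold L1
    rw [Real.log_div hA1p.ne' (by positivity)]
  have hL2 : L2 (x, y) = Real.log A2 - Real.log (1 + ‖y‖ ^ 2) := by
    unfold L2
    rw [Real.log_div hA2p.ne' (by positivity)]
  -- the lower bound of `A2`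
  have hA2l : ‖y‖ ^ 4 / 16 ≤ A2 := by
    have htri : ‖y‖ ≤ ‖y - red x‖ + ‖red x‖ := by
      calc ‖y‖ = ‖(y - red x) + red x‖ := by ring_nf
        _ ≤ _ := norm_add_le _ _
    rcases le_total (‖y‖ / 2) ‖red x‖ with h | h
    · have h4 : (‖y‖ / 2) ^ 4 ≤ ‖red x‖ ^ 4 := pow_le_pow_left₀ (by positivity) h 4
      have : (‖y‖ / 2) ^ 4 = ‖y‖ ^ 4 / 16 := by ring
      nlinarith [sq_nonneg ‖y - red x‖]
    · have h2 : ‖y‖ / 2 ≤ ‖y - red x‖ := by linarith
      have h4 : (‖y‖ / 2) ^ 2 ≤ ‖y - red x‖ ^ 2 := pow_le_pow_left₀ (by positivity) h2 2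
      have h5 : ‖y‖ ^ 4 ≤ ‖y‖ ^ 2 := by
        apply pow_le_pow_of_le_one (norm_nonneg _) hy (by norm_num)
      have h6 : 0 ≤ ‖red x‖ ^ 4 := by positivity
      nlinarith
  have hlA2 : 2 * Real.log (‖y‖ ^ 2) - Real.log 16 ≤ Real.log A2 := by
    have := Real.log_le_log (by positivity) hA2l
    rw [Real.log_div (by positivity) (by norm_num)] at this
    have e : Real.log (‖y‖ ^ 4) = 2 * Real.log (‖y‖ ^ 2) := by
      rw [Real.log_pow, Real.log_pow]; push_cast; ring
    linarith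
  have hlB2 : Real.log (1 + ‖y‖ ^ 2) ≤ Real.log 2 := Real.log_le_log (by positivity) hB2
  have h32 : Real.log 32 = Real.log 16 + Real.log 2 := by
    rw [← Real.log_mul (by norm_num) (by norm_num)]; norm_num
  have hlog2 : 0 ≤ Real.log 2 := Real.log_nonneg (by norm_num)
  have hlog16 : 0 ≤ Real.log 16 := Real.log_nonneg (by norm_num)
  have hlog4 : 0 ≤ Real.log 4 := Real.log_nonneg (by norm_num)
  obtain ⟨hb0, hb1⟩ := hb x
  -- first term
  have t1 : -(chi x * L2 (x, y)) ≤ -(2 * Real.log (‖y‖ ^ 2)) + Real.log 32 := by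
    have h1 : -L2 (x, y) ≤ -(2 * Real.log (‖y‖ ^ 2)) + Real.log 32 := by
      rw [hL2, h32]; linarith
    have h2 : 0 ≤ -(2 * Real.log (‖y‖ ^ 2)) + Real.log 32 := by rw [h32]; linarith
    calc -(chi x * L2 (x, y)) = chi x * (-L2 (x, y)) := by ring
      _ ≤ chi x * (-(2 * Real.log (‖y‖ ^ 2)) + Real.log 32) := mul_le_mul_of_nonneg_left h1 hb0
      _ ≤ 1 * (-(2 * Real.log (‖y‖ ^ 2)) + Real.log 32) := mul_le_mul_of_nonneg_right hb1 h2
      _ = _ := by ring
  -- second term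
  have t2 : chi x * (L1 (x, y) + L2 (x, y)) ≤ 2 * Real.log 4 := by
    by_cases hr : 1 / 4 ≤ ‖red x‖
    · rw [hc0 x hr]; linarith
    · push Not at hr
      have hw : ‖y - red x‖ ≤ 5 / 4 := by
        calc ‖y - red x‖ ≤ ‖y‖ + ‖red x‖ := norm_sub_le _ _
          _ ≤ _ := by linarith
      have hw2 : ‖y - red x‖ ^ 2 ≤ 25 / 16 := by nlinarith [norm_nonneg (y - red x)]
      have hr2 : ‖red x‖ ^ 2 ≤ 1 / 16 := by nlinarith
      have hr4 : ‖red x‖ ^ 4 ≤ 1 / 16 := by
        have : ‖red x‖ ^ 4 = ‖red x‖ ^ 2 * ‖red x‖ ^ 2 := by ring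
        nlinarith [sq_nonneg ‖red x‖]
      have h1 : Real.log A1 ≤ Real.log 4 := Real.log_le_log hA1p (by linarith)
      have h2 : Real.log A2 ≤ Real.log 4 := Real.log_le_log hA2p (by linarith)
      have h3 : L1 (x, y) + L2 (x, y) ≤ 2 * Real.log 4 := by rw [hL1, hL2]; linarith
      calc chi x * (L1 (x, y) + L2 (x, y)) ≤ chi x * (2 * Real.log 4) :=
            mul_le_mul_of_nonneg_left h3 hb0
        _ ≤ 1 * (2 * Real.log 4) := mul_le_mul_of_nonneg_right hb1 (by linarith)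
        _ = _ := by ring
  have t3 : δ * (chi x * (L1 (x, y) + L2 (x, y))) ≤ δ * (2 * Real.log 4) :=
    mul_le_mul_of_nonneg_left t2 hδ.le
  unfold far Phi
  simp only
  linarith

/-- the limit in the coordinates `(x, y)` -/
theorem lim (chi_ : S_CHI) {G h : ℂ → ℝ} {c : ℝ} (hG : IsGreen G h c) {δ : ℝ} (hδ : 0 < δ)
    (x0 : ℂ) : Tendsto (fun z : E => far G 0 z + δ * (chi z.1 * (L1 z + L2 z)) - Phi z)
      (𝓝[W] (x0, 0)) atBot := by
  obtain ⟨C, hC⟩ := green_lower chi_ hG x0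
  have hlim : Tendsto (fun z : E => 1 / 2 * Real.log (‖z.2‖ ^ 2) +
      (Real.log 32 + δ * (2 * Real.log 4) - C)) (𝓝[W] (x0, 0)) atBot := by
    apply tendsto_atBot_add_const_right
    apply Tendsto.const_mul_atBot (by norm_num)
    apply Real.tendsto_log_nhdsGT_zero.comp
    rw [tendsto_nhdsWithin_iff]
    constructor
    · have : Continuous fun z : E => ‖z.2‖ ^ 2 := by fun_prop
      have := (this.tendsto (x0, 0)).mono_left (nhdsWithin_le_nhds (s := W))
      simpa using this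
    · filter_upwards [self_mem_nhdsWithin] with z hz
      have := norm_pos_iff.2 hz.2
      simp only [Set.mem_Ioi]
      positivity
  apply tendsto_atBot_mono' _ _ hlim
  have h1 : ∀ᶠ z : E in 𝓝[W] (x0, 0), z.1 ∉ Lam → C ≤ G z.1 - chi z.1 * Real.log (‖red z.1‖ ^ 2) := by
    apply Filter.Eventually.filter_mono nhdsWithin_le_nhds
    exact (continuous_fst.tendsto (x0, (0 : ℂ))).eventually hC
  have h2 : ∀ᶠ z : E in 𝓝[W] (x0, 0), ‖z.2‖ ≤ 1 := by
    apply Filter.Eventually.filter_mono nhdsWithin_le_nhds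
    have : Continuous fun z : E => ‖z.2‖ := by fun_prop
    filter_upwards [this.continuousAt.eventually (gt_mem_nhds (show ‖((x0, (0 : ℂ)) : E).2‖ < 1 by simp))] with z hz
    exact hz.le
  filter_upwards [h1, h2, self_mem_nhdsWithin] with z hz1 hz2 hz3
  exact bound chi_ G hδ hz3 hz2 (hz1 hz3.1)

end BIGL

theorem t_BIGL (chi_ : S_CHI) : S_BIGL := by
  intro G h c hG δ hδ j z hz hon
  obtain ⟨hj, hy⟩ := hon
  have hcont : ContinuousAt (tr j) z := by
    fin_cases j
    · exact continuousAt_id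
    · exact absurd rfl hj
    · have : Continuous (tr 2) := by unfold tr; fun_prop
      exact this.continuousAt
    · have : Continuous (tr 3) := by unfold tr; fun_prop
      exact this.continuousAt
    · have : Continuous (tr 4) := by unfold tr; fun_prop
      exact this.continuousAt
  have hlim := BIGL.lim chi_ hG hδ (tr j z).1
  have heq : ((tr j z).1, (0 : ℂ)) = tr j z := by rw [← hy]
  rw [heq] at hlim
  have ht : Tendsto (tr j) (𝓝[{z' | tr j z' ∈ W}] z) (𝓝[W] (tr j z)) := by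
    rw [tendsto_nhdsWithin_iff]
    exact ⟨hcont.tendsto.mono_left nhdsWithin_le_nhds, self_mem_nhdsWithin⟩
  exact hlim.comp ht

end Pool.Agent.Q22.SP
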