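import Pool.Agent.Q22.SP.Stm

/-!
# Project SP (helper22), MP_4ff127_gt: elementary properties of `red` and `chi`
-/

set_option autoImplicit false

open Set Topology Filter
open scoped ContDiff Manifold

namespace Pool.Agent.Q22.SP

open Pool.Agent.Y184.SP

namespace CHI

theorem red_add (x l : ℂ) (hl : l ∈ Lam) : red (x + l) = red x := by
  obtain ⟨m, n, rfl⟩ := hl
  unfold red
  have h1 : (x + ((m : ℂ) + n * Complex.I)).re = x.re + (m : ℤ) := by simp
  have h2 : (x + ((m : ℂ) + n * Complex.I)).im = x.im + (n : ℤ) := by simp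
  rw [h1, h2, round_add_intCast, round_add_intCast]
  push_cast
  ring

theorem sub_mem (x : ℂ) : x - red x ∈ Lam := by
  refine ⟨round x.re, round x.im, ?_⟩
  unfold red
  ring

theorem neg_mem {l : ℂ} (hl : l ∈ Lam) : -l ∈ Lam := by
  obtain ⟨m, n, rfl⟩ := hl
  refine ⟨-m, -n, ?_⟩
  push_cast
  ring

theorem red_sub (x l : ℂ) (hl : l ∈ Lam) : red (x - l) = red x := by
  rw [sub_eq_add_neg]
  exact red_add x (-l) (neg_mem hl)

theorem red_small (x : ℂ) (hx : ‖x‖ < 1 / 2) : red x = x := by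
  have h1 : |x.re| < 1 / 2 := (Complex.abs_re_le_norm x).trans_lt hx
  have h2 : |x.im| < 1 / 2 := (Complex.abs_im_le_norm x).trans_lt hx
  rw [abs_lt] at h1 h2
  have h3 : round x.re = 0 := round_eq_zero_iff.mpr ⟨h1.1.le, h1.2⟩
  have h4 : round x.im = 0 := round_eq_zero_iff.mpr ⟨h2.1.le, h2.2⟩
  unfold red
  rw [h3, h4]
  simp

theorem red_eq (x l : ℂ) (hl : l ∈ Lam) (h : ‖x - l‖ < 1 / 2) : red x = x - l := by
  rw [← red_sub x l hl]
  exact red_small _ h

theorem chi_one (x : ℂ) (h : ‖red x‖ ≤ 1 / 8) : chi x = 1 := by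
  unfold chi
  refine bump.one_of_mem_closedBall ?_
  rw [Metric.mem_closedBall, dist_zero_right]
  exact h

theorem chi_zero (x : ℂ) (h : 1 / 4 ≤ ‖red x‖) : chi x = 0 := by
  unfold chi
  refine bump.zero_of_le_dist ?_
  rw [dist_zero_right]
  exact h

theorem zero_mem : (0 : ℂ) ∈ Lam := ⟨0, 0, by simp⟩

theorem mem_iff (x : ℂ) : x ∈ Lam ↔ red x = 0 := by
  constructor
  · intro h
    have h1 := red_add 0 x h
    rw [zero_add] at h1
    rw [h1, red_small 0 (by simp)]
  · intro h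
    have h1 := sub_mem x
    rwa [h, sub_zero] at h1

theorem red_le (x : ℂ) : ‖red x‖ ≤ ‖x‖ := by
  have h1 : (red x).re = x.re - round x.re := by simp [red]
  have h2 : (red x).im = x.im - round x.im := by simp [red]
  have h3 : ‖red x‖ ^ 2 ≤ ‖x‖ ^ 2 := by
    rw [Complex.sq_norm, Complex.sq_norm, Complex.normSq_apply, Complex.normSq_apply, h1, h2]
    have h4 := round_le x.re 0
    have h5 := round_le x.im 0
    rw [Int.cast_zero, sub_zero] at h4 h5
    have h6 := sq_le_sq.mpr h4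
    have h7 := sq_le_sq.mpr h5
    nlinarith
  exact le_of_sq_le_sq h3 (norm_nonneg _)

theorem red_le_sub (x l : ℂ) (hl : l ∈ Lam) : ‖red x‖ ≤ ‖x - l‖ := by
  rw [← red_sub x l hl]
  exact red_le _

theorem closed : IsClosed Lam := by
  have h : Lam = (Complex.re ⁻¹' Set.range (Int.cast : ℤ → ℝ)) ∩
      (Complex.im ⁻¹' Set.range (Int.cast : ℤ → ℝ)) := by
    ext x
    constructor
    · rintro ⟨m, n, rfl⟩
      exact ⟨⟨m, by simp⟩, ⟨n, by simp⟩⟩
    · rintro ⟨⟨m, hm⟩, ⟨n, hn⟩⟩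
      refine ⟨m, n, ?_⟩
      apply Complex.ext
      · simp [hm]
      · simp [hn]
  rw [h]
  exact (Int.isClosedEmbedding_coe_real.isClosed_range.preimage Complex.continuous_re).inter
    (Int.isClosedEmbedding_coe_real.isClosed_range.preimage Complex.continuous_im)

theorem red_lip (x x' : ℂ) : ‖red x‖ ≤ ‖x - x'‖ + ‖red x'‖ := by
  refine (red_le_sub x _ (sub_mem x')).trans ?_
  have : x - (x' - red x') = (x - x') + red x' := by ring
  rw [this]
  exact norm_add_le _ _

theorem chi_ev (x : ℂ) (h : 1 / 4 < ‖red x‖) : ∀ᶠ x' in 𝓝 x, chi x' = 0 := by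
  have hc : ContinuousAt (fun x' : ℂ => ‖x - x'‖) x := by fun_prop
  have h1 : ∀ᶠ x' in 𝓝 x, ‖x - x'‖ < ‖red x‖ - 1 / 4 := by
    refine hc.eventually_lt continuousAt_const ?_
    simp only [sub_self, norm_zero]
    linarith
  filter_upwards [h1] with x' hx'
  have := red_lip x x'
  exact chi_zero x' (by linarith)

theorem red_ev (x : ℂ) (h : ‖red x‖ < 1 / 2) : ∀ᶠ x' in 𝓝 x, red x' = x' - (x - red x) := by
  have hc : ContinuousAt (fun x' : ℂ => ‖x' - (x - red x)‖) x := by fun_prop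
  have h1 : ∀ᶠ x' in 𝓝 x, ‖x' - (x - red x)‖ < 1 / 2 := by
    refine hc.eventually_lt continuousAt_const ?_
    rw [sub_sub_cancel]
    exact h
  filter_upwards [h1] with x' hx'
  exact red_eq x' _ (sub_mem x) hx'

theorem chi_smooth : ContDiff ℝ ∞ chi := by
  rw [contDiff_iff_contDiffAt]
  intro x
  rcases lt_or_ge ‖red x‖ (1 / 2) with h | h
  · have h1 : ContDiffAt ℝ ∞ (fun x' : ℂ => bump (x' - (x - red x))) x := by
      have h2 : ContDiff ℝ ∞ (fun x' : ℂ => x' - (x - red x)) := by fun_prop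
      exact (bump.contDiff.comp h2).contDiffAt
    refine h1.congr_of_eventuallyEq ?_
    filter_upwards [red_ev x h] with x' hx'
    unfold chi
    rw [hx']
  · have h1 : ContDiffAt ℝ ∞ (fun _ : ℂ => (0 : ℝ)) x := contDiffAt_const
    exact h1.congr_of_eventuallyEq (chi_ev x (by linarith))

end CHI

/-- elementary properties of `red` and `chi` -/
theorem t_CHI : S_CHI := by
  refine ⟨CHI.chi_smooth, fun x => ⟨bump.nonneg, bump.le_one⟩, fun x l hl => ?_,
    CHI.red_add, CHI.sub_mem, CHI.red_eq, CHI.chi_one, CHI.chi_zero, CHI.mem_iff,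
    CHI.red_le_sub, CHI.closed, CHI.chi_ev, CHI.red_ev⟩
  unfold chi
  rw [CHI.red_add x l hl]

end Pool.Agent.Q22.SP
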