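import Pool.Agent.Q22.SP.Stm
import Pool.Agent.Y625.SP.Max

set_option autoImplicit false

open Set Topology Filter
open scoped ContDiff Manifold

namespace Pool.Agent.Q22.SP

open Pool.Agent.Y184.SP

namespace CLEV

theorem second {ρ : E → ℝ} {z : E} (h : ContDiffAt ℝ 2 ρ z) (v : E) (e : ℂ) :
    iteratedFDeriv ℝ 2 (fun ζ : ℂ => ρ (z + ζ • v)) 0 ![e, e] =
      fderiv ℝ (fderiv ℝ ρ) z (e • v) (e • v) := by
  have hA : ContDiffAt ℝ 2 (fun ζ : ℂ => z + ζ • v) 0 := by fun_prop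
  have hL : ContDiffAt ℝ 2 (fun ζ : ℂ => ρ (z + ζ • v)) 0 := by
    have h' : ContDiffAt ℝ 2 ρ ((fun ζ : ℂ => z + ζ • v) 0) := by simpa using h
    exact h'.comp (0 : ℂ) hA
  have hline : ∀ t : ℝ, HasDerivAt (fun s : ℝ => z + (s • e) • v) (e • v) t := by
    intro t
    have h1 : HasDerivAt (fun s : ℝ => s • e) e t := by
      simpa using (hasDerivAt_id t).smul_const e
    have h2 : HasDerivAt (fun s : ℝ => (s • e) • v) (e • v) t := h1.smul_const v
    exact h2.const_add z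
  have ht0 : Tendsto (fun s : ℝ => z + (s • e) • v) (𝓝 0) (𝓝 z) := by
    have := (hline 0).continuousAt.tendsto
    simpa using this
  have hdiff : ∀ᶠ w in 𝓝 z, DifferentiableAt ℝ ρ w := by
    filter_upwards [h.eventually (by simp)] with w hw
    exact hw.differentiableAt (by norm_num)
  have hf : DifferentiableAt ℝ (fderiv ℝ ρ) z := by
    have : ContDiffAt ℝ 1 (fderiv ℝ ρ) z := h.fderiv_right (by norm_num)
    exact this.differentiableAt (by norm_num)
  refine Pool.Agent.Y625.SP.lapline hL e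
    (ψ := fun t : ℝ => fderiv ℝ ρ (z + (t • e) • v) (e • v)) ?_ ?_
  · filter_upwards [ht0.eventually hdiff] with t ht
    exact ht.hasFDerivAt.comp_hasDerivAt t (hline t)
  · have h6 : HasFDerivAt (fderiv ℝ ρ) (fderiv ℝ (fderiv ℝ ρ) z) (z + ((0 : ℝ) • e) • v) := by
      rw [zero_smul, zero_smul, add_zero]; exact hf.hasFDerivAt
    have h7 : HasDerivAt (fun t : ℝ => fderiv ℝ ρ (z + (t • e) • v))
        (fderiv ℝ (fderiv ℝ ρ) z (e • v)) 0 :=
      h6.comp_hasDerivAt (0 : ℝ) (hline 0)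
    have h8 := (ContinuousLinearMap.apply ℝ ℝ (e • v)).hasFDerivAt.comp_hasDerivAt (0 : ℝ) h7
    exact h8

/-- the Levi form by second derivatives -/
theorem lev_eq {ρ : E → ℝ} {z : E} (h : ContDiffAt ℝ 2 ρ z) (v : E) :
    lev ρ z v = fderiv ℝ (fderiv ℝ ρ) z v v +
      fderiv ℝ (fderiv ℝ ρ) z (Complex.I • v) (Complex.I • v) := by
  unfold lev
  rw [InnerProductSpace.laplacian_eq_iteratedFDeriv_complexPlane]
  simp only [second h v]
  rw [one_smul]

/-- the Levi form is continuous -/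
theorem lev_cont {ρ : E → ℝ} {z : E} (h : ContDiffAt ℝ 2 ρ z) (v : E) :
    ContinuousAt (fun z' => lev ρ z' v) z := by
  have h1 : ContDiffAt ℝ 1 (fderiv ℝ ρ) z := h.fderiv_right (by norm_num)
  have h2 : ContDiffAt ℝ 0 (fderiv ℝ (fderiv ℝ ρ)) z := h1.fderiv_right (by norm_num)
  have h3 : ContinuousAt (fderiv ℝ (fderiv ℝ ρ)) z := h2.continuousAt
  have h4 : ContinuousAt (fun z' => fderiv ℝ (fderiv ℝ ρ) z' v v +
      fderiv ℝ (fderiv ℝ ρ) z' (Complex.I • v) (Complex.I • v)) z := by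
    fun_prop
  refine h4.congr ?_
  filter_upwards [h.eventually (by simp)] with w hw
  exact (lev_eq hw v).symm

end CLEV

theorem t_CLEV (dens : S_DENS) : S_CLEV := by
  intro j z hz ρ v a hρ hev
  have h2 : ContDiffAt ℝ 2 ρ z := hρ.self_of_nhds.of_le
    (WithTop.coe_le_coe.2 (le_top : (2 : ℕ∞) ≤ ⊤))
  have hc := CLEV.lev_cont h2 v
  have hfr : ∃ᶠ z' in 𝓝 z, a ≤ lev ρ z' v := by
    have h1 := mem_closure_iff_frequently.1 ((dens j).2 z hz).1
    exact (h1.and_eventually hev).mono fun z' h => h.2 h.1.2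
  exact ge_of_tendsto_of_frequently hc hfr

end Pool.Agent.Q22.SP
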