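import Pool.Agent.Q22.SP.Stm

set_option autoImplicit false

open Set Topology Filter
open scoped ContDiff Manifold

namespace Pool.Agent.Q22.SP.CMP

open Pool.Agent.Y184.SP

theorem red_re (x : ℂ) : |(red x).re| ≤ 1 / 2 := by
  have h : (red x).re = x.re - round x.re := by
    simp [red]
  rw [h]
  exact abs_sub_round x.re

theorem red_im (x : ℂ) : |(red x).im| ≤ 1 / 2 := by
  have h : (red x).im = x.im - round x.im := by
    simp [red]
  rw [h]
  exact abs_sub_round x.im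

theorem red_norm (x : ℂ) : ‖red x‖ ≤ 1 := by
  have h1 := Complex.norm_le_abs_re_add_abs_im (red x)
  have h2 := red_re x
  have h3 := red_im x
  linarith

theorem lam_neg {l : ℂ} (h : l ∈ Lam) : -l ∈ Lam := by
  obtain ⟨m, n, rfl⟩ := h
  exact ⟨-m, -n, by push_cast; ring⟩

/-- the compact set of the reduced points away from `0` -/
def KK : Set ℂ := {r | 1 / 4 ≤ ‖r‖ ∧ |r.re| ≤ 1 / 2 ∧ |r.im| ≤ 1 / 2}

theorem KK_compact : IsCompact KK := by
  have h1 : IsClosed KK := by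
    refine (isClosed_le continuous_const continuous_norm).inter
      ((isClosed_le (Complex.continuous_re.abs) continuous_const).inter
        (isClosed_le (Complex.continuous_im.abs) continuous_const))
  refine (isCompact_closedBall (0 : ℂ) 1).of_isClosed_subset h1 ?_
  rintro r ⟨-, h2, h3⟩
  rw [mem_closedBall_zero_iff]
  have h4 := Complex.norm_le_abs_re_add_abs_im r
  linarith

theorem KK_lam {r : ℂ} (hr : r ∈ KK) : r ∉ Lam := by
  rintro ⟨m, n, rfl⟩
  obtain ⟨h1, h2, h3⟩ := hr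
  have e1 : ((m : ℂ) + n * Complex.I).re = m := by simp
  have e2 : ((m : ℂ) + n * Complex.I).im = n := by simp
  rw [e1] at h2
  rw [e2] at h3
  have hm : m = 0 := by
    by_contra hne
    have h4 : (1 : ℤ) ≤ |m| := Int.one_le_abs hne
    have h5 : (1 : ℝ) ≤ |(m : ℝ)| := by exact_mod_cast h4
    linarith
  have hn : n = 0 := by
    by_contra hne
    have h4 : (1 : ℤ) ≤ |n| := Int.one_le_abs hne
    have h5 : (1 : ℝ) ≤ |(n : ℝ)| := by exact_mod_cast h4
    linarith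
  subst hm
  subst hn
  norm_num at h1

theorem bound_G (hchi : S_CHI) {G h : ℂ → ℝ} {c : ℝ} (hG : IsGreen G h c) :
    ∃ M : ℝ, ∀ x, x ∉ Lam → |G x - Real.log (‖red x‖ ^ 2)| ≤ M := by
  obtain ⟨-, -, -, -, hred, -, -, -, hlam, -⟩ := hchi
  have hh : ContinuousOn h (Metric.closedBall 0 (1 / 4)) := by
    intro x hx
    rw [mem_closedBall_zero_iff] at hx
    exact (hG.smooth_h x (by linarith)).continuousAt.continuousWithinAt
  obtain ⟨M1, hM1⟩ := (isCompact_closedBall (0 : ℂ) (1 / 4)).exists_bound_of_continuousOn hh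
  have hK : ContinuousOn (fun r => G r - Real.log (‖r‖ ^ 2)) KK := by
    intro x hx
    refine ContinuousAt.continuousWithinAt ?_
    refine (hG.smooth x (KK_lam hx)).continuousAt.sub ?_
    refine ContinuousAt.log (continuous_norm.pow 2).continuousAt ?_
    have := hx.1
    have h0 : 0 < ‖x‖ := by linarith
    positivity
  obtain ⟨M2, hM2⟩ := KK_compact.exists_bound_of_continuousOn hK
  refine ⟨max M1 M2, fun x hx => ?_⟩
  have hGr : G x = G (red x) := by
    have h1 := hG.per x (-(x - red x)) (lam_neg (hred x))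
    rw [← h1]
    congr 1
    ring
  have hr0 : red x ≠ 0 := fun h0 => hx ((hlam x).2 h0)
  rw [hGr]
  by_cases hr : ‖red x‖ ≤ 1 / 4
  · rw [hG.eq (red x) (by linarith) hr0, add_sub_cancel_left]
    refine le_max_of_le_left ?_
    have := hM1 (red x) (by rw [mem_closedBall_zero_iff]; exact hr)
    rwa [Real.norm_eq_abs] at this
  · push Not at hr
    refine le_max_of_le_right ?_
    have := hM2 (red x) ⟨hr.le, red_re x, red_im x⟩
    rwa [Real.norm_eq_abs] at this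

/-- the difference of the two functions -/
theorem diff_eq (G : ℂ → ℝ) (k C A : ℝ) (hk : 0 < k) (z : E) (hr : red z.1 ≠ 0) :
    near k C z - far G A z =
      chi z.1 * Real.log (‖z.2 - red z.1‖ ^ 2 + k * ‖red z.1‖ ^ 4)
      + (1 - chi z.1) * Real.log (‖red z.1‖ ^ 2) + (G z.1 - Real.log (‖red z.1‖ ^ 2))
      + C * ‖z.2‖ ^ 2 - 5 / 2 * Real.log (‖z.2‖ ^ 2) - 1 / 2 * Real.log (1 + ‖z.2‖ ^ 2) - A := by
  have hr' : 0 < ‖red z.1‖ := norm_pos_iff.2 hr
  have h1 : ‖z.2 / red z.1 - 1‖ ^ 2 + k * ‖red z.1‖ ^ 2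
      = (‖z.2 - red z.1‖ ^ 2 + k * ‖red z.1‖ ^ 4) / ‖red z.1‖ ^ 2 := by
    have h2 : z.2 / red z.1 - 1 = (z.2 - red z.1) / red z.1 := by field_simp
    rw [h2, norm_div]
    field_simp
  have hP : 0 < ‖z.2 - red z.1‖ ^ 2 + k * ‖red z.1‖ ^ 4 := by positivity
  unfold near far
  rw [h1, Real.log_div hP.ne' (by positivity)]
  ring

end Pool.Agent.Q22.SP.CMP

namespace Pool.Agent.Q22.SP

open Pool.Agent.Y184.SP

theorem t_CMP (hchi : S_CHI) : StComp := by
  intro G h c hG k C η hk hk1 hC hη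
  obtain ⟨M, hM⟩ := CMP.bound_G hchi hG
  obtain ⟨-, h01, -, -, -, -, hone, -, hlam, -⟩ := hchi
  -- the bounded term
  have hb1 : ∀ x : ℂ, x ∉ Lam → |(1 - chi x) * Real.log (‖red x‖ ^ 2)| ≤ Real.log 64 := by
    intro x hx
    have hr0 : red x ≠ 0 := fun h0 => hx ((hlam x).2 h0)
    have hr : 0 < ‖red x‖ := norm_pos_iff.2 hr0
    have hr1 := CMP.red_norm x
    by_cases h8 : ‖red x‖ ≤ 1 / 8
    · rw [hone x h8, sub_self, zero_mul, abs_zero]
      exact Real.log_nonneg (by norm_num)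
    · push Not at h8
      have h2 : Real.log (‖red x‖ ^ 2) ≤ 0 := Real.log_nonpos (by positivity) (by nlinarith)
      have h3 : -Real.log 64 ≤ Real.log (‖red x‖ ^ 2) := by
        rw [← Real.log_inv]
        refine Real.log_le_log (by norm_num) ?_
        nlinarith
      have h4 := h01 x
      rw [abs_le]
      constructor
      · nlinarith
      · have h5 : (1 - chi x) * Real.log (‖red x‖ ^ 2) ≤ 0 :=
          mul_nonpos_of_nonneg_of_nonpos (by linarith) h2
        have h6 : 0 ≤ Real.log 64 := Real.log_nonneg (by norm_num)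
        linarith
  set p : ℝ := (η + 1) ^ 2 + 1 with hp
  have hp1 : 1 ≤ p := by nlinarith
  have hlogp : 0 ≤ Real.log p := Real.log_nonneg hp1
  set A : ℝ := Real.log p + Real.log 64 + M + C * η ^ 2 - 5 / 2 * Real.log ((η / 2) ^ 2) + 1 with hA
  set a : ℝ := 1 + A + M + Real.log 64 - Real.log (k / 16) + 1 / 2 * Real.log 2 with ha
  set η1 : ℝ := min (η / 4) (min 1 (Real.exp (-a))) with hη1
  have hη1pos : 0 < η1 := by
    refine lt_min (by linarith) (lt_min one_pos (Real.exp_pos _))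
  refine ⟨A, η1, η / 2, hη1pos, ?_, by linarith, ?_, ?_⟩
  · have : η1 ≤ η / 4 := min_le_left _ _
    linarith
  · intro z hz hy
    obtain ⟨hx, hy0⟩ := hz
    have hr0 : red z.1 ≠ 0 := fun h0 => hx ((hlam z.1).2 h0)
    have hr : 0 < ‖red z.1‖ := norm_pos_iff.2 hr0
    have hyp : 0 < ‖z.2‖ := norm_pos_iff.2 hy0
    have hy1 : ‖z.2‖ ≤ 1 := hy.trans ((min_le_right _ _).trans (min_le_left _ _))
    have hye : ‖z.2‖ ≤ Real.exp (-a) := hy.trans ((min_le_right _ _).trans (min_le_right _ _))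
    have hkey := CMP.diff_eq G k C A hk z hr0
    have hMz := abs_le.1 (hM z.1 hx)
    have hbz := abs_le.1 (hb1 z.1 hx)
    have hchi01 := h01 z.1
    -- lower bound for the main term
    have hP : k * ‖z.2‖ ^ 4 / 16 ≤ ‖z.2 - red z.1‖ ^ 2 + k * ‖red z.1‖ ^ 4 := by
      by_cases hc : ‖z.2‖ / 2 ≤ ‖red z.1‖
      · have h1 : (‖z.2‖ / 2) ^ 4 ≤ ‖red z.1‖ ^ 4 := pow_le_pow_left₀ (by positivity) hc 4
        have h2 : 0 ≤ ‖z.2 - red z.1‖ ^ 2 := by positivity
        have h3 : k * (‖z.2‖ / 2) ^ 4 ≤ k * ‖red z.1‖ ^ 4 := mul_le_mul_of_nonneg_left h1 hk.le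
        have h4 : k * (‖z.2‖ / 2) ^ 4 = k * ‖z.2‖ ^ 4 / 16 := by ring
        linarith
      · push Not at hc
        have h1 : ‖z.2‖ / 2 ≤ ‖z.2 - red z.1‖ := by
          have := norm_sub_norm_le z.2 (red z.1)
          linarith
        have h2 : (‖z.2‖ / 2) ^ 2 ≤ ‖z.2 - red z.1‖ ^ 2 := pow_le_pow_left₀ (by positivity) h1 2
        have h3 : 0 ≤ k * ‖red z.1‖ ^ 4 := by positivity
        have h4 : ‖z.2‖ ^ 4 ≤ ‖z.2‖ ^ 2 := pow_le_pow_of_le_one hyp.le hy1 (by norm_num)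
        have h5 : k * ‖z.2‖ ^ 4 ≤ 1 * ‖z.2‖ ^ 2 := mul_le_mul hk1 h4 (by positivity) (by norm_num)
        nlinarith
    have hQ0 : 0 < k * ‖z.2‖ ^ 4 / 16 := by positivity
    have hQ1 : k * ‖z.2‖ ^ 4 / 16 ≤ 1 := by
      have h4 : ‖z.2‖ ^ 4 ≤ 1 := pow_le_one₀ hyp.le hy1
      have : k * ‖z.2‖ ^ 4 ≤ 1 * 1 := mul_le_mul hk1 h4 (by positivity) (by norm_num)
      linarith
    have hlogQ : Real.log (k * ‖z.2‖ ^ 4 / 16) ≤ 0 := Real.log_nonpos hQ0.le hQ1
    have hlogP := Real.log_le_log hQ0 hP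
    have hmain : Real.log (k * ‖z.2‖ ^ 4 / 16) ≤
        chi z.1 * Real.log (‖z.2 - red z.1‖ ^ 2 + k * ‖red z.1‖ ^ 4) := by
      calc Real.log (k * ‖z.2‖ ^ 4 / 16) ≤ chi z.1 * Real.log (k * ‖z.2‖ ^ 4 / 16) := by
            nlinarith
        _ ≤ _ := mul_le_mul_of_nonneg_left hlogP hchi01.1
    have hQe : Real.log (k * ‖z.2‖ ^ 4 / 16) = Real.log (k / 16) + 2 * Real.log (‖z.2‖ ^ 2) := by
      have e1 : k * ‖z.2‖ ^ 4 / 16 = (k / 16) * (‖z.2‖ ^ 2) ^ 2 := by ring
      rw [e1, Real.log_mul (by positivity) (by positivity), Real.log_pow]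
      push_cast
      ring
    have h12 : Real.log (1 + ‖z.2‖ ^ 2) ≤ Real.log 2 := by
      refine Real.log_le_log (by positivity) ?_
      nlinarith
    have hly : Real.log (‖z.2‖ ^ 2) ≤ 2 * (-a) := by
      rw [Real.log_pow]
      have := Real.log_le_log hyp hye
      rw [Real.log_exp] at this
      push_cast
      linarith
    have hCy : 0 ≤ C * ‖z.2‖ ^ 2 := by positivity
    have : 1 ≤ near k C z - far G A z := by
      rw [hkey]
      linarith [hMz.1, hbz.1]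
    linarith
  · intro z hz hy1 hy2
    obtain ⟨hx, hy0⟩ := hz
    have hr0 : red z.1 ≠ 0 := fun h0 => hx ((hlam z.1).2 h0)
    have hr : 0 < ‖red z.1‖ := norm_pos_iff.2 hr0
    have hyp : 0 < ‖z.2‖ := norm_pos_iff.2 hy0
    have hkey := CMP.diff_eq G k C A hk z hr0
    have hMz := abs_le.1 (hM z.1 hx)
    have hbz := abs_le.1 (hb1 z.1 hx)
    have hchi01 := h01 z.1
    have hr1 := CMP.red_norm z.1
    have hPp : ‖z.2 - red z.1‖ ^ 2 + k * ‖red z.1‖ ^ 4 ≤ p := by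
      have h1 : ‖z.2 - red z.1‖ ≤ η + 1 := (norm_sub_le _ _).trans (by linarith)
      have h2 : ‖z.2 - red z.1‖ ^ 2 ≤ (η + 1) ^ 2 := pow_le_pow_left₀ (norm_nonneg _) h1 2
      have h3 : ‖red z.1‖ ^ 4 ≤ 1 := pow_le_one₀ hr.le hr1
      have h4 : k * ‖red z.1‖ ^ 4 ≤ 1 * 1 := mul_le_mul hk1 h3 (by positivity) (by norm_num)
      linarith
    have hP0 : 0 < ‖z.2 - red z.1‖ ^ 2 + k * ‖red z.1‖ ^ 4 := by positivity
    have hlogP := Real.log_le_log hP0 hPp
    have hmain : chi z.1 * Real.log (‖z.2 - red z.1‖ ^ 2 + k * ‖red z.1‖ ^ 4) ≤ Real.log p := by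
      calc chi z.1 * Real.log (‖z.2 - red z.1‖ ^ 2 + k * ‖red z.1‖ ^ 4)
          ≤ chi z.1 * Real.log p := mul_le_mul_of_nonneg_left hlogP hchi01.1
        _ ≤ Real.log p := by nlinarith
    have h12 : 0 ≤ Real.log (1 + ‖z.2‖ ^ 2) := Real.log_nonneg (by nlinarith [sq_nonneg ‖z.2‖])
    have hly : Real.log ((η / 2) ^ 2) ≤ Real.log (‖z.2‖ ^ 2) :=
      Real.log_le_log (by positivity) (pow_le_pow_left₀ (by positivity) hy1 2)
    have hCy : C * ‖z.2‖ ^ 2 ≤ C * η ^ 2 :=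
      mul_le_mul_of_nonneg_left (pow_le_pow_left₀ hyp.le hy2 2) hC
    have : near k C z - far G A z ≤ -1 := by
      rw [hkey]
      linarith [hMz.2, hbz.2]
    linarith

end Pool.Agent.Q22.SP
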