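import Pool.Agent.Q22.SP.Stm

set_option autoImplicit false

open Set Topology Filter
open scoped ContDiff Manifold

namespace Pool.Agent.Q22.SP.COMP

open Pool.Agent.Y184.SP

theorem sub_red (x : ℂ) : x - red x ∈ Lam := ⟨round x.re, round x.im, by unfold red; ring⟩

theorem lam_add {l l' : ℂ} (h : l ∈ Lam) (h' : l' ∈ Lam) : l + l' ∈ Lam := by
  obtain ⟨m, n, rfl⟩ := h
  obtain ⟨m', n', rfl⟩ := h'
  exact ⟨m + m', n + n', by push_cast; ring⟩

theorem lam_sub {l l' : ℂ} (h : l ∈ Lam) (h' : l' ∈ Lam) : l - l' ∈ Lam := by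
  obtain ⟨m, n, rfl⟩ := h
  obtain ⟨m', n', rfl⟩ := h'
  exact ⟨m - m', n - n', by push_cast; ring⟩

theorem cls_red (x : ℂ) : cls (red x) = cls x := by
  ext x'
  show x' - red x ∈ Lam ↔ x' - x ∈ Lam
  constructor
  · intro h
    have := lam_sub h (sub_red x)
    have e : x' - red x - (x - red x) = x' - x := by ring
    rwa [e] at this
  · intro h
    have := lam_add h (sub_red x)
    have e : x' - x + (x - red x) = x' - red x := by ring
    rwa [e] at this

theorem red_re (x : ℂ) : |(red x).re| ≤ 1 / 2 := by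
  have h : (red x).re = x.re - round x.re := by
    simp [red]
  rw [h]
  exact abs_sub_round x.re

theorem red_im (x : ℂ) : |(red x).im| ≤ 1 / 2 := by
  have h : (red x).im = x.im - round x.im := by
    simp [red]
  rw [h]
  exact abs_sub_round x.im

theorem red_ne {x : ℂ} (h : x ∉ Lam) : red x ≠ 0 := by
  intro h0
  have := sub_red x
  rw [h0, sub_zero] at this
  exact h this

theorem notMem_lam {r : ℂ} (h1 : r ≠ 0) (h2 : |r.re| ≤ 1 / 2) (h3 : |r.im| ≤ 1 / 2) : r ∉ Lam := by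
  rintro ⟨m, n, rfl⟩
  have e1 : ((m : ℂ) + n * Complex.I).re = m := by simp
  have e2 : ((m : ℂ) + n * Complex.I).im = n := by simp
  rw [e1] at h2
  rw [e2] at h3
  have hm : m = 0 := by
    by_contra hne
    have h4 : (1 : ℤ) ≤ |m| := Int.one_le_abs hne
    have h5 : (1 : ℝ) ≤ |(m : ℝ)| := by exact_mod_cast h4
    linarith
  have hn : n = 0 := by
    by_contra hne
    have h4 : (1 : ℤ) ≤ |n| := Int.one_le_abs hne
    have h5 : (1 : ℝ) ≤ |(n : ℝ)| := by exact_mod_cast h4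
    linarith
  subst hm
  subst hn
  apply h1
  simp

/-- the coordinates of the centres -/
noncomputable def cc (a : Fin 3) : ℝ := ((a : ℕ) - 1 : ℝ) / 3

/-- the centres -/
noncomputable def ctr (a b : Fin 3) : ℂ := (cc a : ℂ) + (cc b : ℂ) * Complex.I

theorem cc_near (t : ℝ) (ht : |t| ≤ 1 / 2) : ∃ a : Fin 3, |t - cc a| ≤ 1 / 6 := by
  rw [abs_le] at ht
  by_cases h1 : t ≤ -(1 / 6)
  · refine ⟨0, ?_⟩
    rw [abs_le]
    simp only [cc, Fin.val_zero]
    push_cast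
    constructor <;> linarith
  by_cases h2 : t ≤ 1 / 6
  · refine ⟨1, ?_⟩
    push Not at h1
    rw [abs_le]
    simp only [cc, Fin.val_one]
    push_cast
    constructor <;> linarith
  · refine ⟨2, ?_⟩
    push Not at h2
    rw [abs_le]
    simp only [cc, Fin.val_two]
    push_cast
    constructor <;> linarith

theorem ctr_near (r : ℂ) (h1 : |r.re| ≤ 1 / 2) (h2 : |r.im| ≤ 1 / 2) :
    ∃ a b : Fin 3, ‖r - ctr a b‖ ≤ 2 / 5 := by
  obtain ⟨a, ha⟩ := cc_near _ h1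
  obtain ⟨b, hb⟩ := cc_near _ h2
  refine ⟨a, b, (Complex.norm_le_abs_re_add_abs_im _).trans ?_⟩
  have e1 : (r - ctr a b).re = r.re - cc a := by simp [ctr]
  have e2 : (r - ctr a b).im = r.im - cc b := by simp [ctr]
  rw [e1, e2]
  linarith

theorem cc_le (a : Fin 3) : |cc a| ≤ 1 / 3 := by
  rw [abs_le]
  fin_cases a <;> simp [cc] <;> norm_num

theorem ctr_norm (a b : Fin 3) : ‖ctr a b‖ ≤ 1 := by
  refine (Complex.norm_le_abs_re_add_abs_im _).trans ?_
  have e1 : (ctr a b).re = cc a := by simp [ctr]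
  have e2 : (ctr a b).im = cc b := by simp [ctr]
  rw [e1, e2]
  have := cc_le a
  have := cc_le b
  linarith

/-- the compact sets -/
def KS (a b : Fin 3) : Fin 5 → Set E
  | 0 => {z | ‖z.1 - ctr a b‖ ≤ 2 / 5 ∧ |z.1.re| ≤ 1 / 2 ∧ |z.1.im| ≤ 1 / 2 ∧ ‖z.2‖ ≤ 1 ∧
      (1 / 20 ≤ ‖z.1‖ ∨ 1 / 20 ≤ ‖z.2‖)}
  | 1 => {z | ‖z.1 - ctr a b‖ ≤ 2 / 5 ∧ ‖z.2‖ ≤ 1}
  | 2 => {z | ‖z.1‖ ≤ 1 ∧ ‖z.2‖ ≤ 1 / 10}
  | 3 => {z | ‖z.1‖ ≤ 1 ∧ ‖z.2‖ ≤ 1 ∧ ‖z.1 * z.2‖ ≤ 1 / 10 ∧ ‖z.1 * z.2 ^ 2‖ ≤ 1 / 10}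
  | 4 => {z | ‖z.1‖ ≤ 1 / 10 ∧ ‖z.2‖ ≤ 1}

theorem KS_closed (a b : Fin 3) (j : Fin 5) : IsClosed (KS a b j) := by
  have c1 : Continuous (fun z : E => z.1) := continuous_fst
  have c2 : Continuous (fun z : E => z.2) := continuous_snd
  match j with
  | 0 =>
    refine (isClosed_le (c1.sub continuous_const).norm continuous_const).inter
      ((isClosed_le (Complex.continuous_re.comp c1).abs continuous_const).inter
      ((isClosed_le (Complex.continuous_im.comp c1).abs continuous_const).inter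
      ((isClosed_le c2.norm continuous_const).inter
      ((isClosed_le continuous_const c1.norm).union (isClosed_le continuous_const c2.norm)))))
  | 1 =>
    exact (isClosed_le (c1.sub continuous_const).norm continuous_const).inter
      (isClosed_le c2.norm continuous_const)
  | 2 =>
    exact (isClosed_le c1.norm continuous_const).inter (isClosed_le c2.norm continuous_const)
  | 3 =>
    exact (isClosed_le c1.norm continuous_const).inter
      ((isClosed_le c2.norm continuous_const).inter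
      ((isClosed_le (c1.mul c2).norm continuous_const).inter
      (isClosed_le (c1.mul (c2.pow 2)).norm continuous_const)))
  | 4 =>
    exact (isClosed_le c1.norm continuous_const).inter (isClosed_le c2.norm continuous_const)

theorem KS_bdd (a b : Fin 3) (j : Fin 5) : KS a b j ⊆ Metric.closedBall 0 2 := by
  intro z hz
  rw [mem_closedBall_zero_iff, Prod.norm_def]
  have hc : ∀ x : ℂ, ‖x - ctr a b‖ ≤ 2 / 5 → ‖x‖ ≤ 2 := by
    intro x hx
    have h1 := ctr_norm a b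
    have h2 : ‖x‖ ≤ ‖x - ctr a b‖ + ‖ctr a b‖ := by
      have := norm_add_le (x - ctr a b) (ctr a b)
      rwa [sub_add_cancel] at this
    linarith
  match j, hz with
  | 0, hz => exact max_le (hc _ hz.1) (by linarith [hz.2.2.2.1])
  | 1, hz => exact max_le (hc _ hz.1) (by linarith [hz.2])
  | 2, hz => exact max_le (by linarith [hz.1]) (by linarith [hz.2])
  | 3, hz => exact max_le (by linarith [hz.1]) (by linarith [hz.2.1])
  | 4, hz => exact max_le (by linarith [hz.1]) (by linarith [hz.2])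

theorem KS_compact (a b : Fin 3) (j : Fin 5) : IsCompact (KS a b j) :=
  (isCompact_closedBall (0 : E) 2).of_isClosed_subset (KS_closed a b j) (KS_bdd a b j)

theorem KS_UU (a b : Fin 3) (j : Fin 5) : KS a b j ⊆ UU (j, ctr a b) := by
  intro z hz
  match j, hz with
  | 0, hz =>
    obtain ⟨h1, h2, h3, h4, h5⟩ := hz
    refine ⟨?_, fun _ => by show ‖z.1 - ctr a b‖ < 1 / 2; linarith⟩
    rcases h5 with h5 | h5
    · left
      refine notMem_lam ?_ h2 h3
      intro h0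
      rw [h0, norm_zero] at h5
      norm_num at h5
    · right
      intro h0
      rw [h0, norm_zero] at h5
      norm_num at h5
  | 1, hz => exact ⟨mem_univ _, fun _ => by show ‖z.1 - ctr a b‖ < 1 / 2; linarith [hz.1]⟩
  | 2, hz =>
    obtain ⟨h1, h2⟩ := hz
    refine ⟨⟨?_, by linarith⟩, fun h => absurd (show (2 : Fin 5) < 2 from h) (by decide)⟩
    rw [norm_mul]
    have := norm_nonneg z.1
    have := norm_nonneg z.2
    nlinarith
  | 3, hz =>
    obtain ⟨h1, h2, h3, h4⟩ := hz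
    exact ⟨⟨by linarith, by linarith⟩, fun h => absurd (show (3 : Fin 5) < 2 from h) (by decide)⟩
  | 4, hz =>
    obtain ⟨h1, h2⟩ := hz
    refine ⟨⟨by linarith, ?_⟩, fun h => absurd (show (4 : Fin 5) < 2 from h) (by decide)⟩
    rw [norm_mul, norm_pow]
    have h3 := norm_nonneg z.1
    have h4 := norm_nonneg z.2
    have h5 : ‖z.1‖ ^ 2 ≤ 1 / 100 := by nlinarith
    have h6 : 0 ≤ ‖z.1‖ ^ 2 := by positivity
    nlinarith

/-- the point with label `p` is in one of the compact sets -/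
def Cov (p : Pt) : Prop := ∃ (a b : Fin 3) (j : Fin 5), ∃ z ∈ KS a b j, PP j z = p

theorem cov_none (x : ℂ) : Cov (.ord (cls x) none) := by
  obtain ⟨a, b, h⟩ := ctr_near (red x) (red_re x) (red_im x)
  refine ⟨a, b, 1, (red x, 0), ⟨h, by simp⟩, ?_⟩
  have e : PP 1 (red x, 0) = .ord (cls (red x)) (if (0 : ℂ) = 0 then none else some (0 : ℂ)⁻¹) := rfl
  rw [e, if_pos rfl, cls_red]

theorem cov_e1_none : Cov (.e1 none) := by
  refine ⟨0, 0, 3, (0, 0), ⟨by simp, by simp, by simp, by simp⟩, ?_⟩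
  have e : PP 3 (0, 0) = if (0 : ℂ) = 0 then .e1 (if (0 : ℂ) = 0 then none else some (0 : ℂ)⁻¹) else
      if (0 : ℂ) = 0 then .e2 (0 : ℂ)⁻¹ else
        .ord (cls (tr 3 ((0 : ℂ), (0 : ℂ))).1) (some (tr 3 ((0 : ℂ), (0 : ℂ))).2) := rfl
  rw [e, if_pos rfl, if_pos rfl]

theorem cov_e1 (s : ℂ) : Cov (.e1 (some s)) := by
  by_cases hs : ‖s‖ ≤ 1
  · refine ⟨0, 0, 2, (s, 0), ⟨hs, by simp⟩, ?_⟩
    have e : PP 2 (s, 0) = if (0 : ℂ) = 0 then .e1 (some s) else
        .ord (cls (tr 2 (s, (0 : ℂ))).1) (some (tr 2 (s, (0 : ℂ))).2) := rfl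
    rw [e, if_pos rfl]
  · push Not at hs
    have hs0 : s ≠ 0 := by
      rintro rfl
      simp at hs
      linarith
    have hsi : ‖s⁻¹‖ ≤ 1 := by
      rw [norm_inv]
      exact inv_le_one_of_one_le₀ hs.le
    refine ⟨0, 0, 3, (0, s⁻¹), ⟨by simp, hsi, by simp, by simp⟩, ?_⟩
    have e : PP 3 (0, s⁻¹) = if (0 : ℂ) = 0 then
        .e1 (if (s⁻¹ : ℂ) = 0 then none else some (s⁻¹ : ℂ)⁻¹) else
        if (s⁻¹ : ℂ) = 0 then .e2 (0 : ℂ)⁻¹ else
        .ord (cls (tr 3 ((0 : ℂ), s⁻¹)).1) (some (tr 3 ((0 : ℂ), s⁻¹)).2) := rfl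
    rw [e, if_pos rfl, if_neg (inv_ne_zero hs0), inv_inv]

theorem cov_e2 (s : ℂ) : Cov (.e2 s) := by
  by_cases hs : ‖s‖ ≤ 1
  · refine ⟨0, 0, 4, (0, s), ⟨by simp, hs⟩, ?_⟩
    have e : PP 4 (0, s) = if (0 : ℂ) = 0 then .e2 s else
        .ord (cls (tr 4 ((0 : ℂ), s)).1) (some (tr 4 ((0 : ℂ), s)).2) := rfl
    rw [e, if_pos rfl]
  · push Not at hs
    have hs0 : s ≠ 0 := by
      rintro rfl
      simp at hs
      linarith
    have hsi : ‖s⁻¹‖ ≤ 1 := by
      rw [norm_inv]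
      exact inv_le_one_of_one_le₀ hs.le
    refine ⟨0, 0, 3, (s⁻¹, 0), ⟨hsi, by simp, by simp, by simp⟩, ?_⟩
    have e : PP 3 (s⁻¹, 0) = if (s⁻¹ : ℂ) = 0 then
        .e1 (if (0 : ℂ) = 0 then none else some (0 : ℂ)⁻¹) else
        if (0 : ℂ) = 0 then .e2 (s⁻¹ : ℂ)⁻¹ else
        .ord (cls (tr 3 (s⁻¹, (0 : ℂ))).1) (some (tr 3 (s⁻¹, (0 : ℂ))).2) := rfl
    rw [e, if_neg (inv_ne_zero hs0), if_pos rfl, inv_inv]

theorem cov_ord (x y : ℂ) (hxy : x ∉ Lam ∨ y ≠ 0) : Cov (.ord (cls x) (some y)) := by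
  rw [← cls_red x]
  have hr1 := red_re x
  have hr2 := red_im x
  have hxy' : red x ≠ 0 ∨ y ≠ 0 := hxy.imp red_ne id
  generalize red x = r at hr1 hr2 hxy'
  by_cases hy : 1 ≤ ‖y‖
  · obtain ⟨a, b, h⟩ := ctr_near r hr1 hr2
    have hy0 : y ≠ 0 := by
      rintro rfl
      simp at hy
      linarith
    have hyi : ‖y⁻¹‖ ≤ 1 := by
      rw [norm_inv]
      exact inv_le_one_of_one_le₀ hy
    refine ⟨a, b, 1, (r, y⁻¹), ⟨h, hyi⟩, ?_⟩
    have e : PP 1 (r, y⁻¹) = .ord (cls r) (if (y⁻¹ : ℂ) = 0 then none else some (y⁻¹ : ℂ)⁻¹) := rfl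
    rw [e, if_neg (inv_ne_zero hy0), inv_inv]
  push Not at hy
  by_cases hb : 1 / 20 ≤ ‖r‖ ∨ 1 / 20 ≤ ‖y‖
  · obtain ⟨a, b, h⟩ := ctr_near r hr1 hr2
    exact ⟨a, b, 0, (r, y), ⟨h, hr1, hr2, hy.le, hb⟩, rfl⟩
  push Not at hb
  obtain ⟨hb1, hb2⟩ := hb
  have hw : ‖y - r‖ ≤ 1 / 10 := (norm_sub_le _ _).trans (by linarith)
  by_cases hc1 : ‖r‖ ≤ ‖y - r‖
  · have hw0 : y - r ≠ 0 := by
      intro h0
      rw [h0, norm_zero] at hc1
      have hr0 : r = 0 := norm_le_zero_iff.1 hc1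
      rw [hr0, sub_zero] at h0
      rcases hxy' with h | h
      · exact h hr0
      · exact h h0
    have hwp : 0 < ‖y - r‖ := norm_pos_iff.2 hw0
    refine ⟨0, 0, 2, (r / (y - r), y - r), ⟨?_, hw⟩, ?_⟩
    · show ‖r / (y - r)‖ ≤ 1
      rw [norm_div]
      exact (div_le_one hwp).2 hc1
    · have e : PP 2 (r / (y - r), y - r) = if y - r = 0 then .e1 (some (r / (y - r))) else
          .ord (cls (r / (y - r) * (y - r))) (some (y - r + r / (y - r) * (y - r))) := rfl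
      rw [e, if_neg hw0, div_mul_cancel₀ _ hw0]
      congr 2
      ring
  push Not at hc1
  have hr0 : r ≠ 0 := by
    rintro rfl
    rw [norm_zero] at hc1
    exact absurd hc1 (not_lt.2 (norm_nonneg _))
  have hrp : 0 < ‖r‖ := norm_pos_iff.2 hr0
  by_cases hc2 : ‖r‖ ^ 2 ≤ ‖y - r‖
  · have hwp : 0 < ‖y - r‖ := lt_of_lt_of_le (by positivity) hc2
    have hw0 : y - r ≠ 0 := norm_pos_iff.1 hwp
    have e1 : r ^ 2 / (y - r) * ((y - r) / r) = r := by field_simp
    have e2 : r ^ 2 / (y - r) * ((y - r) / r) ^ 2 = y - r := by field_simp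
    refine ⟨0, 0, 3, (r ^ 2 / (y - r), (y - r) / r), ⟨?_, ?_, ?_, ?_⟩, ?_⟩
    · show ‖r ^ 2 / (y - r)‖ ≤ 1
      rw [norm_div, norm_pow]
      exact (div_le_one hwp).2 hc2
    · show ‖(y - r) / r‖ ≤ 1
      rw [norm_div]
      exact (div_le_one hrp).2 hc1.le
    · show ‖r ^ 2 / (y - r) * ((y - r) / r)‖ ≤ 1 / 10
      rw [e1]
      linarith
    · show ‖r ^ 2 / (y - r) * ((y - r) / r) ^ 2‖ ≤ 1 / 10
      rw [e2]
      exact hw
    · have e : PP 3 (r ^ 2 / (y - r), (y - r) / r) = if r ^ 2 / (y - r) = 0 then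
          .e1 (if (y - r) / r = 0 then none else some ((y - r) / r)⁻¹) else
          if (y - r) / r = 0 then .e2 (r ^ 2 / (y - r))⁻¹ else
          .ord (cls (r ^ 2 / (y - r) * ((y - r) / r)))
            (some (r ^ 2 / (y - r) * ((y - r) / r) ^ 2 + r ^ 2 / (y - r) * ((y - r) / r))) := rfl
      rw [e, if_neg (div_ne_zero (pow_ne_zero 2 hr0) hw0), if_neg (div_ne_zero hw0 hr0), e1, e2]
      congr 2
      ring
  · push Not at hc2
    have e1 : r ^ 2 * ((y - r) / r ^ 2) = y - r := by field_simp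
    refine ⟨0, 0, 4, (r, (y - r) / r ^ 2), ⟨?_, ?_⟩, ?_⟩
    · show ‖r‖ ≤ 1 / 10
      linarith
    · show ‖(y - r) / r ^ 2‖ ≤ 1
      rw [norm_div, norm_pow]
      exact (div_le_one (by positivity)).2 hc2.le
    · have e : PP 4 (r, (y - r) / r ^ 2) = if r = 0 then .e2 ((y - r) / r ^ 2) else
          .ord (cls r) (some (r ^ 2 * ((y - r) / r ^ 2) + r)) := rfl
      rw [e, if_neg hr0, e1]
      congr 2
      ring

theorem small_notMem {x : ℂ} (h0 : x ≠ 0) (h : ‖x‖ < 1 / 8) : x ∉ Lam := by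
  refine notMem_lam h0 ?_ ?_
  · exact (Complex.abs_re_le_norm x).trans (by linarith)
  · exact (Complex.abs_im_le_norm x).trans (by linarith)

theorem cov_all (j : Fin 5) (z : E) (hz : z ∈ V j) : Cov (PP j z) := by
  classical
  match j, hz with
  | 0, hz => exact cov_ord z.1 z.2 hz
  | 1, _ =>
    have e : PP 1 z = .ord (cls z.1) (if z.2 = 0 then none else some z.2⁻¹) := rfl
    by_cases h : z.2 = 0
    · rw [e, if_pos h]
      exact cov_none _
    · rw [e, if_neg h]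
      exact cov_ord _ _ (Or.inr (inv_ne_zero h))
  | 2, hz =>
    have e : PP 2 z = if z.2 = 0 then .e1 (some z.1) else
        .ord (cls (z.1 * z.2)) (some (z.2 + z.1 * z.2)) := rfl
    by_cases h : z.2 = 0
    · rw [e, if_pos h]
      exact cov_e1 _
    · rw [e, if_neg h]
      by_cases h1 : z.1 = 0
      · refine cov_ord _ _ (Or.inr ?_)
        rw [h1, zero_mul, add_zero]
        exact h
      · exact cov_ord _ _ (Or.inl (small_notMem (mul_ne_zero h1 h) hz.1))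
  | 3, hz =>
    have e : PP 3 z = if z.1 = 0 then .e1 (if z.2 = 0 then none else some z.2⁻¹) else
      if z.2 = 0 then .e2 z.1⁻¹ else .ord (cls (z.1 * z.2)) (some (z.1 * z.2 ^ 2 + z.1 * z.2)) := rfl
    by_cases h1 : z.1 = 0
    · rw [e, if_pos h1]
      by_cases h2 : z.2 = 0
      · rw [if_pos h2]
        exact cov_e1_none
      · rw [if_neg h2]
        exact cov_e1 _
    · rw [e, if_neg h1]
      by_cases h2 : z.2 = 0
      · rw [if_pos h2]
        exact cov_e2 _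
      · rw [if_neg h2]
        exact cov_ord _ _ (Or.inl (small_notMem (mul_ne_zero h1 h2) hz.1))
  | 4, hz =>
    have e : PP 4 z = if z.1 = 0 then .e2 z.2 else
        .ord (cls z.1) (some (z.1 ^ 2 * z.2 + z.1)) := rfl
    by_cases h1 : z.1 = 0
    · rw [e, if_pos h1]
      exact cov_e2 _
    · rw [e, if_neg h1]
      exact cov_ord _ _ (Or.inl (small_notMem h1 hz.1))

end Pool.Agent.Q22.SP.COMP

namespace Pool.Agent.Q22.SP

open Pool.Agent.Y184.SP

theorem t_COMP : S_COMP := by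
  intro Y _ _ Q hS
  have hK : ∀ a b : Fin 3, ∀ j : Fin 5, IsCompact (Q (j, COMP.ctr a b) '' COMP.KS a b j) := by
    intro a b j
    refine (COMP.KS_compact a b j).image_of_continuousOn fun z hz => ?_
    exact (hS.par.smooth _ z (COMP.KS_UU a b j hz)).continuousAt.continuousWithinAt
  refine ⟨?_⟩
  have hU : (Set.univ : Set Y) = ⋃ a : Fin 3, ⋃ b : Fin 3, ⋃ j : Fin 5,
      Q (j, COMP.ctr a b) '' COMP.KS a b j := by
    symm
    rw [Set.eq_univ_iff_forall]
    intro y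
    obtain ⟨i, z, hz, rfl⟩ := hS.par.surj y
    obtain ⟨a, b, j, z', hz', hp⟩ := COMP.cov_all i.1 z hz.1
    simp only [Set.mem_iUnion]
    refine ⟨a, b, j, z', hz', ?_⟩
    exact (hS.eqv (j, COMP.ctr a b) i z' z (COMP.KS_UU a b j hz') hz).2 hp
  rw [hU]
  exact isCompact_iUnion fun a => isCompact_iUnion fun b => isCompact_iUnion fun j => hK a b j

end Pool.Agent.Q22.SP
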