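import Pool.Agent.Q22.SP.Stm

/-!
# Project SP, job CONN: the surface is connected
-/

set_option autoImplicit false

open Set Topology Filter
open scoped ContDiff Manifold

namespace Pool.Agent.Q22.SP

open Pool.Agent.Y184.SP

namespace CONN

lemma zero_mem_Lam : (0 : ℂ) ∈ Lam := ⟨0, 0, by simp⟩

lemma countable_Lam : Lam.Countable := by
  have h : Lam = Set.range (fun p : ℤ × ℤ => (p.1 : ℂ) + p.2 * Complex.I) := by
    ext x
    constructor
    · rintro ⟨m, n, h⟩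
      exact ⟨(m, n), h.symm⟩
    · rintro ⟨⟨m, n⟩, h⟩
      exact ⟨m, n, h.symm⟩
  rw [h]
  exact Set.countable_range _

lemma V0_eq : V 0 = (Lam ×ˢ ({0} : Set ℂ))ᶜ := by
  ext z
  show (z.1 ∉ Lam ∨ z.2 ≠ 0) ↔ ¬ (z.1 ∈ Lam ∧ z.2 ∈ ({0} : Set ℂ))
  rw [Set.mem_singleton_iff]
  tauto

lemma isConnected_V0 : IsConnected (V 0) := by
  rw [V0_eq]
  have hr : 1 < Module.rank ℝ (ℂ × ℂ) := by
    rw [← Module.finrank_eq_rank, Module.finrank_prod, Complex.finrank_real_complex]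
    norm_num
  exact (Set.Countable.isPathConnected_compl_of_one_lt_rank hr
    (countable_Lam.prod (Set.countable_singleton 0))).isConnected

lemma W_sub : W ⊆ V 0 := fun _ hz => Or.inl hz.1

lemma PP_of_W (j : Fin 5) (z : E) (h : tr j z ∈ W) :
    PP j z = PP 0 (tr j z) := by
  have h1 : (tr j z).1 ∉ Lam := h.1
  have h2 : (tr j z).2 ≠ 0 := h.2
  fin_cases j
  · rfl
  · have hz : z.2 ≠ 0 := by
      intro h0
      apply h2
      show z.2⁻¹ = 0
      rw [h0, inv_zero]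
    show Pt.ord (cls z.1) (if z.2 = 0 then none else some z.2⁻¹) = Pt.ord (cls z.1) (some z.2⁻¹)
    rw [if_neg hz]
  · have hz : z.2 ≠ 0 := by
      intro h0
      apply h1
      show z.1 * z.2 ∈ Lam
      rw [h0, mul_zero]
      exact zero_mem_Lam
    show (if z.2 = 0 then Pt.e1 (some z.1) else Pt.ord (cls (tr 2 z).1) (some (tr 2 z).2)) =
      Pt.ord (cls (tr 2 z).1) (some (tr 2 z).2)
    rw [if_neg hz]
  · have hz : z.2 ≠ 0 := by
      intro h0
      apply h1
      show z.1 * z.2 ∈ Lam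
      rw [h0, mul_zero]
      exact zero_mem_Lam
    have hz' : z.1 ≠ 0 := by
      intro h0
      apply h1
      show z.1 * z.2 ∈ Lam
      rw [h0, zero_mul]
      exact zero_mem_Lam
    show (if z.1 = 0 then Pt.e1 (if z.2 = 0 then none else some z.2⁻¹) else
      if z.2 = 0 then Pt.e2 z.1⁻¹ else Pt.ord (cls (tr 3 z).1) (some (tr 3 z).2)) =
      Pt.ord (cls (tr 3 z).1) (some (tr 3 z).2)
    rw [if_neg hz', if_neg hz]
  · have hz' : z.1 ≠ 0 := by
      intro h0
      apply h1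
      show z.1 ∈ Lam
      rw [h0]
      exact zero_mem_Lam
    show (if z.1 = 0 then Pt.e2 z.2 else Pt.ord (cls (tr 4 z).1) (some (tr 4 z).2)) =
      Pt.ord (cls (tr 4 z).1) (some (tr 4 z).2)
    rw [if_neg hz']

lemma isOpen_UU (dens : S_DENS) (i : Idx) : IsOpen (UU i) := by
  have h1 : IsOpen (V i.1) := (dens i.1).1
  by_cases hi : i.1 < 2
  · have h2 : UU i = V i.1 ∩ {z : E | ‖z.1 - i.2‖ < 1 / 2} := by
      ext z
      exact ⟨fun h => ⟨h.1, h.2 hi⟩, fun h => ⟨h.1, fun _ => h.2⟩⟩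
    rw [h2]
    exact h1.inter (isOpen_lt (by fun_prop) (by fun_prop))
  · have h2 : UU i = V i.1 := by
      ext z
      exact ⟨fun h => h.1, fun h => ⟨h, fun h' => absurd h' hi⟩⟩
    rw [h2]
    exact h1

lemma mem_UU0 {z : E} (hz : z ∈ V 0) : z ∈ UU (0, z.1) := by
  refine ⟨hz, fun _ => ?_⟩
  show ‖z.1 - z.1‖ < 1 / 2
  rw [sub_self, norm_zero]
  norm_num

end CONN

open CONN in
theorem t_CONN (dens : S_DENS) (_trw : S_TRW) : S_CONN := by
  intro Y _ _ Q hS
  set g : E → Y := fun z => Q (0, z.1) z with hg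
  have hcont : ContinuousOn g (V 0) := by
    intro z hz
    have h1 : UU (0, z.1) ∈ 𝓝 z := (isOpen_UU dens (0, z.1)).mem_nhds (mem_UU0 hz)
    have h2 : ∀ᶠ t in 𝓝 z, Q (0, z.1) t = g t := by
      filter_upwards [h1] with t ht
      exact (hS.eqv (0, z.1) (0, t.1) t t ht (mem_UU0 ht.1)).2 rfl
    have h3 : ContinuousAt (Q (0, z.1)) z := (hS.par.smooth (0, z.1) z (mem_UU0 hz)).continuousAt
    exact (h3.congr h2).continuousWithinAt
  have hconn : IsConnected (g '' V 0) := isConnected_V0.image g hcont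
  have hcl : closure (g '' V 0) = univ := by
    refine Set.eq_univ_of_forall fun y => ?_
    obtain ⟨i, z, hz, rfl⟩ := hS.par.surj y
    have h3 : ContinuousAt (Q i) z := (hS.par.smooth i z hz).continuousAt
    rw [mem_closure_iff_nhds]
    intro O hO
    have h4 : Q i ⁻¹' O ∩ UU i ∈ 𝓝 z :=
      inter_mem (h3 hO) ((isOpen_UU dens i).mem_nhds hz)
    obtain ⟨z', ⟨hz1, hz2⟩, hz3, hz4⟩ := mem_closure_iff_nhds.1 ((dens i.1).2 z hz.1).1 _ h4
    refine ⟨Q i z', hz1, tr i.1 z', W_sub hz4, ?_⟩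
    exact ((hS.eqv i (0, (tr i.1 z').1) z' (tr i.1 z') hz2 (mem_UU0 (W_sub hz4))).2
      (PP_of_W i.1 z' hz4)).symm
  rw [connectedSpace_iff_univ, ← hcl]
  exact hconn.closure

end Pool.Agent.Q22.SP
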