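import Pool.Agent.Q22.SP.Stm

set_option autoImplicit false

open Set Topology Filter
open scoped ContDiff Manifold

namespace Pool.Agent.Q22.SP

open Pool.Agent.Y184.SP

namespace DENS

theorem isClosed_Lam : IsClosed Lam := by
  have hZ : IsClosed (Set.range ((↑) : ℤ → ℝ)) := Int.isClosedEmbedding_coe_real.isClosed_range
  have e : Lam = Complex.re ⁻¹' (Set.range ((↑) : ℤ → ℝ)) ∩
      Complex.im ⁻¹' (Set.range ((↑) : ℤ → ℝ)) := by
    ext x
    constructor
    · rintro ⟨m, n, rfl⟩
      refine ⟨⟨m, ?_⟩, ⟨n, ?_⟩⟩ <;> simp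
    · rintro ⟨⟨m, hm⟩, ⟨n, hn⟩⟩
      refine ⟨m, n, ?_⟩
      apply Complex.ext
      · simp [← hm]
      · simp [← hn]
  rw [e]
  exact (hZ.preimage Complex.continuous_re).inter (hZ.preimage Complex.continuous_im)

theorem countable_Lam : Lam.Countable := by
  have e : Lam = Set.range (fun p : ℤ × ℤ => (p.1 : ℂ) + p.2 * Complex.I) := by
    ext x
    constructor
    · rintro ⟨m, n, rfl⟩
      exact ⟨(m, n), rfl⟩
    · rintro ⟨⟨m, n⟩, rfl⟩
      exact ⟨m, n, rfl⟩
  rw [e]
  exact Set.countable_range _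

theorem isOpen_W : IsOpen W := by
  have e : W = (Prod.fst ⁻¹' Lamᶜ) ∩ (Prod.snd ⁻¹' ({0} : Set ℂ)ᶜ) := by
    ext z; rfl
  rw [e]
  exact (isClosed_Lam.isOpen_compl.preimage continuous_fst).inter
    (isOpen_compl_singleton.preimage continuous_snd)

theorem isOpen_V (j : Fin 5) : IsOpen (V j) := by
  fin_cases j
  · have e : V 0 = (Prod.fst ⁻¹' Lamᶜ) ∪ (Prod.snd ⁻¹' ({0} : Set ℂ)ᶜ) := by
      ext z; rfl
    show IsOpen (V 0)
    rw [e]
    exact (isClosed_Lam.isOpen_compl.preimage continuous_fst).union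
      (isOpen_compl_singleton.preimage continuous_snd)
  · exact isOpen_univ
  · have h1 : Continuous fun z : E => ‖z.1 * z.2‖ := by fun_prop
    have h2 : Continuous fun z : E => ‖z.2‖ := by fun_prop
    exact (isOpen_lt h1 continuous_const).inter (isOpen_lt h2 continuous_const)
  · have h1 : Continuous fun z : E => ‖z.1 * z.2‖ := by fun_prop
    have h2 : Continuous fun z : E => ‖z.1 * z.2 ^ 2‖ := by fun_prop
    exact (isOpen_lt h1 continuous_const).inter (isOpen_lt h2 continuous_const)
  · have h1 : Continuous fun z : E => ‖z.1‖ := by fun_prop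
    have h2 : Continuous fun z : E => ‖z.1 ^ 2 * z.2‖ := by fun_prop
    exact (isOpen_lt h1 continuous_const).inter (isOpen_lt h2 continuous_const)

theorem analytic (j : Fin 5) (z : E) (hz : tr j z ∈ W) : AnalyticAt ℂ (tr j) z := by
  have f1 : AnalyticAt ℂ (fun z : E => z.1) z := analyticAt_fst
  have f2 : AnalyticAt ℂ (fun z : E => z.2) z := analyticAt_snd
  fin_cases j
  · exact analyticAt_id
  · have h : z.2 ≠ 0 := by
      intro h
      apply hz.2
      show z.2⁻¹ = 0
      rw [h, inv_zero]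
    show AnalyticAt ℂ (fun z : E => (z.1, z.2⁻¹)) z
    exact analyticAt_fst.prod (analyticAt_snd.inv h)
  · show AnalyticAt ℂ (fun z : E => (z.1 * z.2, z.2 + z.1 * z.2)) z
    exact (f1.mul f2).prod (f2.add (f1.mul f2))
  · show AnalyticAt ℂ (fun z : E => (z.1 * z.2, z.1 * z.2 ^ 2 + z.1 * z.2)) z
    exact (f1.mul f2).prod ((f1.mul (f2.pow 2)).add (f1.mul f2))
  · show AnalyticAt ℂ (fun z : E => (z.1, z.1 ^ 2 * z.2 + z.1)) z
    exact f1.prod (((f1.pow 2).mul f2).add f1)

theorem count {P : Polynomial ℂ} (hP : P.natDegree ≠ 0) {C : Set ℂ} (hC : C.Countable) :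
    {s : ℂ | P.eval s ∈ C}.Countable := by
  have e : {s : ℂ | P.eval s ∈ C} = ⋃ c ∈ C, {s : ℂ | P.eval s = c} := by
    ext s; simp
  rw [e]
  refine hC.biUnion fun c _ => ?_
  have hne : P - Polynomial.C c ≠ 0 := by
    intro h
    apply hP
    rw [sub_eq_zero.1 h, Polynomial.natDegree_C]
  refine ((P - Polynomial.C c).roots.toFinset.finite_toSet.subset ?_).countable
  intro s hs
  have hs' : P.eval s = c := hs
  simp [hne, hs']

open Polynomial in
theorem dens_path (j : Fin 5) (a b : ℂ) :
    {s : ℂ | tr j (a + s, b + s) ∉ W}.Countable := by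
  have m1 : ∀ c : ℂ, (X + C c : ℂ[X]).Monic := fun c => monic_X_add_C c
  have d1 : ∀ c : ℂ, (X + C c : ℂ[X]).natDegree ≠ 0 := fun c => by
    rw [natDegree_X_add_C]; exact one_ne_zero
  have d2 : ∀ c d : ℂ, ((X + C c) * (X + C d) : ℂ[X]).natDegree ≠ 0 := fun c d => by
    rw [(m1 c).natDegree_mul (m1 d), natDegree_X_add_C, natDegree_X_add_C]; norm_num
  have A1 : ∀ (c : ℂ) {S : Set ℂ}, S.Countable → {s : ℂ | c + s ∈ S}.Countable := by
    intro c S hS
    refine (count (d1 c) hS).mono fun s hs => ?_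
    simp only [mem_ofPred_eq, eval_add, eval_X, eval_C] at hs ⊢
    rwa [add_comm]
  have A2 : ∀ (c d : ℂ) {S : Set ℂ}, S.Countable → {s : ℂ | (c + s) * (d + s) ∈ S}.Countable := by
    intro c d S hS
    refine (count (d2 c d) hS).mono fun s hs => ?_
    simp only [mem_ofPred_eq, eval_add, eval_mul, eval_X, eval_C] at hs ⊢
    rwa [add_comm s c, add_comm s d]
  have hL := countable_Lam
  have h0 : ({0} : Set ℂ).Countable := countable_singleton _
  have hm1 : ({-1} : Set ℂ).Countable := countable_singleton _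
  have hW : ∀ z : E, z ∉ W → z.1 ∈ Lam ∨ z.2 = 0 := by
    intro z hz
    by_contra h
    push Not at h
    exact hz h
  fin_cases j
  · refine ((A1 a hL).union (A1 b h0)).mono fun s hs => ?_
    exact hW _ hs
  · refine ((A1 a hL).union (A1 b h0)).mono fun s hs => ?_
    rcases hW _ hs with h | h
    · exact Or.inl h
    · exact Or.inr (inv_eq_zero.1 h)
  · refine ((A2 a b hL).union ((A1 b h0).union (A1 a hm1))).mono fun s hs => ?_
    rcases hW _ hs with h | h
    · exact Or.inl h
    · right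
      have h' : (b + s) + (a + s) * (b + s) = 0 := h
      have h2 : (b + s) * (1 + (a + s)) = 0 := by rw [← h']; ring
      rcases mul_eq_zero.1 h2 with h3 | h3
      · exact Or.inl h3
      · right
        show a + s = -1
        linear_combination h3
  · refine ((A2 a b hL).union (((A1 a h0).union (A1 b h0)).union (A1 b hm1))).mono fun s hs => ?_
    rcases hW _ hs with h | h
    · exact Or.inl h
    · right
      have h' : (a + s) * (b + s) ^ 2 + (a + s) * (b + s) = 0 := h
      have h2 : (a + s) * (b + s) * (1 + (b + s)) = 0 := by rw [← h']; ring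
      rcases mul_eq_zero.1 h2 with h3 | h3
      · rcases mul_eq_zero.1 h3 with h4 | h4
        · exact Or.inl (Or.inl h4)
        · exact Or.inl (Or.inr h4)
      · right
        show b + s = -1
        linear_combination h3
  · refine ((A1 a hL).union ((A1 a h0).union (A2 a b hm1))).mono fun s hs => ?_
    rcases hW _ hs with h | h
    · exact Or.inl h
    · right
      have h' : (a + s) ^ 2 * (b + s) + (a + s) = 0 := h
      have h2 : (a + s) * (1 + (a + s) * (b + s)) = 0 := by rw [← h']; ring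
      rcases mul_eq_zero.1 h2 with h3 | h3
      · exact Or.inl h3
      · right
        show (a + s) * (b + s) = -1
        linear_combination h3

theorem dens (j : Fin 5) (z : E) : z ∈ closure {z' | tr j z' ∈ W} := by
  have h1 : Dense {s : ℂ | tr j (z.1 + s, z.2 + s) ∉ W}ᶜ := (dens_path j z.1 z.2).dense_compl ℂ
  have h2 : (0 : ℂ) ∈ closure {s : ℂ | tr j (z.1 + s, z.2 + s) ∉ W}ᶜ := h1 0
  have hc : Continuous fun s : ℂ => ((z.1 + s, z.2 + s) : E) := by fun_prop
  have h3 := map_mem_closure (t := {z' | tr j z' ∈ W}) hc h2 (by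
    intro s hs
    simpa using hs)
  simpa using h3

end DENS

theorem t_DENS : S_DENS := by
  intro j
  refine ⟨DENS.isOpen_V j, fun z hz => ⟨?_, fun hW => ?_⟩⟩
  · rw [mem_closure_iff_frequently]
    have h1 := mem_closure_iff_frequently.1 (DENS.dens j z)
    exact (h1.and_eventually ((DENS.isOpen_V j).mem_nhds hz)).mono fun z' h => ⟨h.2, h.1⟩
  · have ha := DENS.analytic j z hW
    have h1 : ∀ᶠ z' in 𝓝 z, tr j z' ∈ W := ha.continuousAt (DENS.isOpen_W.mem_nhds hW)
    exact h1.and ha.eventually_analyticAt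

end Pool.Agent.Q22.SP
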