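import Pool.Agent.Q22.SP.Stm

/-!
# Project SP: discs in coordinates (job DISCC)
-/

set_option autoImplicit false

open Set Topology Filter
open scoped ContDiff Manifold

namespace Pool.Agent.Q22.SP.DISCC

open Pool.Agent.Y184.SP Pool.Agent.Q22.SP

variable {Y Y' : Type} [TopologicalSpace Y] [ChartedSpace E Y] [TopologicalSpace Y']
  [ChartedSpace E Y']

/-- a map which is analytic over `ℂ` is smooth over `ℝ` -/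
theorem rs {g : Y → Y'} {y : Y} (h : ContMDiffAt 𝓘(ℂ, E) 𝓘(ℂ, E) ω g y) :
    ContMDiffAt 𝓘(ℝ, E) 𝓘(ℝ, E) ∞ g y := by
  rw [contMDiffAt_iff] at h ⊢
  refine ⟨h.1, ?_⟩
  have h2 := (h.2.restrict_scalars ℝ).of_le (m := ∞) le_top
  simp only [mfld_simps] at h2 ⊢
  exact h2

theorem disc {U : Idx → Set E} {Q : Idx → E → Y} (hP : Params Y U Q) (i : Idx) (z : E)
    (hz : z ∈ U i) (f : ℂ → Y) (hf : IsDisc f) (h0 : f 0 = Q i z) :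
    ∃ F : ℂ → E, AnalyticAt ℂ F 0 ∧ F 0 = z ∧ (∀ᶠ ζ in 𝓝 (0 : ℂ), f ζ = Q i (F ζ)) ∧
      (deriv F 0 = 0 → mfderiv 𝓘(ℂ, ℂ) 𝓘(ℂ, E) f 0 = 0) := by
  obtain ⟨c, hcz, hc, hev1, hev2⟩ := hP.inv i z hz
  have hf' : ContMDiffAt 𝓘(ℂ, ℂ) 𝓘(ℂ, E) ω f 0 := hf
  rw [← h0] at hc hev1
  have hF : ContMDiffAt 𝓘(ℂ, ℂ) 𝓘(ℂ, E) ω (c ∘ f) 0 := ContMDiffAt.comp (0 : ℂ) hc hf'
  have hFA : AnalyticAt ℂ (c ∘ f) 0 := hF.contDiffAt.analyticAt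
  have hF0 : (c ∘ f) 0 = z := by
    show c (f 0) = z
    rw [h0, hcz]
  have hev : ∀ᶠ ζ in 𝓝 (0 : ℂ), f ζ = Q i ((c ∘ f) ζ) := by
    have h3 : Tendsto f (𝓝 0) (𝓝 (f 0)) := hf'.continuousAt
    filter_upwards [h3.eventually hev1] with ζ hζ
    exact hζ.symm
  refine ⟨c ∘ f, hFA, hF0, hev, ?_⟩
  intro hd
  have h4 : f =ᶠ[𝓝 (0 : ℂ)] (Q i ∘ (c ∘ f)) := hev
  have h5 := h4.mfderiv_eq (I := 𝓘(ℂ, ℂ)) (I' := 𝓘(ℂ, E))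
  have hQ : MDifferentiableAt 𝓘(ℂ, E) 𝓘(ℂ, E) (Q i) ((c ∘ f) 0) := by
    rw [hF0]
    exact (hP.smooth i z hz).mdifferentiableAt (by simp)
  have hFM : MDifferentiableAt 𝓘(ℂ, ℂ) 𝓘(ℂ, E) (c ∘ f) 0 := hF.mdifferentiableAt (by simp)
  have h6 := mfderiv_comp (0 : ℂ) hQ hFM
  have h7 : mfderiv 𝓘(ℂ, ℂ) 𝓘(ℂ, E) (c ∘ f) 0 = 0 := by
    rw [mfderiv_eq_fderiv]
    apply ContinuousLinearMap.ext_ring
    exact hd
  rw [h5, h6, h7]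
  exact ContinuousLinearMap.comp_zero _

end Pool.Agent.Q22.SP.DISCC

namespace Pool.Agent.Q22.SP

open Pool.Agent.Y184.SP

theorem t_DISCC : S_DISCC := by
  intro Y _ _ Q hS
  have hP := hS.par
  refine ⟨fun i z hz f hf h0 => DISCC.disc hP i z hz f hf h0, ?_, ?_⟩
  · intro i F hF hA
    have h1 : ContMDiffAt 𝓘(ℂ, ℂ) 𝓘(ℂ, E) ω F 0 := (hA.contDiffAt (n := ω)).contMDiffAt
    exact ContMDiffAt.comp (0 : ℂ) (hP.smooth i (F 0) hF) h1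
  · intro i z w hz
    obtain ⟨c, hcz, hc, hev1, hev2⟩ := hP.inv i z hz
    constructor
    · intro h
      have h1 : ContMDiffAt 𝓘(ℝ, E) 𝓘(ℝ, ℝ) ∞ (w ∘ Q i) z :=
        ContMDiffAt.comp z h (DISCC.rs (hP.smooth i z hz))
      exact h1.contDiffAt
    · intro h
      have h1 : ContMDiffAt 𝓘(ℝ, E) 𝓘(ℝ, ℝ) ∞ (fun t => w (Q i t)) (c (Q i z)) := by
        rw [hcz]
        exact h.contMDiffAt
      have h2 : ContMDiffAt 𝓘(ℝ, E) 𝓘(ℝ, ℝ) ∞ ((fun t => w (Q i t)) ∘ c) (Q i z) :=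
        ContMDiffAt.comp (Q i z) h1 (DISCC.rs hc)
      refine h2.congr_of_eventuallyEq ?_
      filter_upwards [hev1] with q hq
      show w q = w (Q i (c q))
      rw [hq]

end Pool.Agent.Q22.SP
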