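import Pool.Agent.Q22.SP.Stm

/-!
# Project SP, job FARE: the function `far - Φ` extends off the curves
-/

set_option autoImplicit false

open Set Topology Filter
open scoped Manifold ContDiff

namespace Pool.Agent.Q22.SP

open Pool.Agent.Y184.SP

namespace FARE

theorem sm_congr {f g : E → ℝ} {z : E} (h : ∀ᶠ z' in 𝓝 z, f z' = g z') (hg : SmAt g z) :
    SmAt f z := by
  have hg' : ∀ᶠ z' in 𝓝 z, ContDiffAt ℝ ∞ g z' := hg
  show ∀ᶠ z' in 𝓝 z, ContDiffAt ℝ ∞ f z'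
  filter_upwards [h.eventually_nhds, hg'] with z' h1 h2
  exact h2.congr_of_eventuallyEq h1

theorem sm_add {f g : E → ℝ} {z : E} (hf : SmAt f z) (hg : SmAt g z) :
    SmAt (fun t => f t + g t) z := by
  have hf' : ∀ᶠ z' in 𝓝 z, ContDiffAt ℝ ∞ f z' := hf
  have hg' : ∀ᶠ z' in 𝓝 z, ContDiffAt ℝ ∞ g z' := hg
  show ∀ᶠ z' in 𝓝 z, ContDiffAt ℝ ∞ (fun t => f t + g t) z'
  filter_upwards [hf', hg'] with z' h1 h2
  exact h1.add h2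

theorem sm_sub {f g : E → ℝ} {z : E} (hf : SmAt f z) (hg : SmAt g z) :
    SmAt (fun t => f t - g t) z := by
  have hf' : ∀ᶠ z' in 𝓝 z, ContDiffAt ℝ ∞ f z' := hf
  have hg' : ∀ᶠ z' in 𝓝 z, ContDiffAt ℝ ∞ g z' := hg
  show ∀ᶠ z' in 𝓝 z, ContDiffAt ℝ ∞ (fun t => f t - g t) z'
  filter_upwards [hf', hg'] with z' h1 h2
  exact h1.sub h2

theorem sm_const (a : ℝ) (z : E) : SmAt (fun _ => a) z :=
  Eventually.of_forall fun _ => contDiffAt_const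

/-- the logarithm of a smooth function which is not `0` -/
theorem sm_log {Q : E → ℝ} (hQ : ContDiff ℝ ∞ Q) {z : E} (hz : Q z ≠ 0) :
    SmAt (fun t => Real.log (Q t)) z := by
  show ∀ᶠ z' in 𝓝 z, ContDiffAt ℝ ∞ (fun t => Real.log (Q t)) z'
  have : ∀ᶠ z' in 𝓝 z, Q z' ≠ 0 := hQ.continuous.continuousAt.eventually_ne hz
  filter_upwards [this] with z' h
  exact hQ.contDiffAt.log h

theorem nsq_snd : ContDiff ℝ ∞ (fun t : E => ‖t.2‖ ^ 2) := contDiff_snd.norm_sq ℝ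

theorem one_add_ne (y : ℂ) : (1 : ℝ) + ‖y‖ ^ 2 ≠ 0 := by positivity

theorem sm_log1 (z : E) : SmAt (fun t => Real.log (1 + ‖t.2‖ ^ 2)) z :=
  sm_log (contDiff_const.add nsq_snd) (one_add_ne z.2)

/-- the functions `chi (x) log (Q (red x, y) / (1 + |y|²))` -/
theorem sm_gen (hc : S_CHI) {Q : E → ℝ} (hQ : ContDiff ℝ ∞ Q) {z : E}
    (hz : Q (red z.1, z.2) ≠ 0) :
    SmAt (fun t => chi t.1 * Real.log (Q (red t.1, t.2) / (1 + ‖t.2‖ ^ 2))) z := by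
  obtain ⟨hsm, -, -, -, -, -, -, -, -, -, -, hz0, hred⟩ := hc
  by_cases h : 1 / 4 < ‖red z.1‖
  · refine sm_congr (g := fun _ => 0) ?_ (sm_const 0 z)
    have h1 : ∀ᶠ t : E in 𝓝 z, chi t.1 = 0 :=
      (continuous_fst.tendsto z).eventually (hz0 z.1 h)
    filter_upwards [h1] with t ht
    rw [ht, zero_mul]
  · have h2 : ‖red z.1‖ < 1 / 2 := by linarith [not_lt.mp h]
    set l : ℂ := z.1 - red z.1 with hl
    have h1 : ∀ᶠ t : E in 𝓝 z, red t.1 = t.1 - l :=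
      (continuous_fst.tendsto z).eventually (hred z.1 h2)
    have h3 : ContDiff ℝ ∞ (fun t : E => Q (t.1 - l, t.2)) :=
      hQ.comp ((contDiff_fst.sub contDiff_const).prodMk contDiff_snd)
    have h4 : Q (z.1 - l, z.2) ≠ 0 := by
      have : z.1 - l = red z.1 := by rw [hl]; ring
      rw [this]; exact hz
    have h5 : ∀ᶠ t : E in 𝓝 z, Q (t.1 - l, t.2) ≠ 0 :=
      h3.continuous.continuousAt.eventually_ne h4
    refine sm_congr (g := fun t => chi t.1 * (Real.log (Q (t.1 - l, t.2) / (1 + ‖t.2‖ ^ 2)))) ?_ ?_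
    · filter_upwards [h1] with t ht
      rw [ht]
    · show ∀ᶠ z' in 𝓝 z, ContDiffAt ℝ ∞
        (fun t : E => chi t.1 * (Real.log (Q (t.1 - l, t.2) / (1 + ‖t.2‖ ^ 2)))) z'
      filter_upwards [h5] with t ht
      refine (hsm.comp contDiff_fst).contDiffAt.mul (ContDiffAt.log ?_ ?_)
      · exact h3.contDiffAt.div (contDiff_const.add nsq_snd).contDiffAt (one_add_ne t.2)
      · exact div_ne_zero ht (one_add_ne t.2)

/-- the function `chi (x) log |red x|²` -/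
theorem sm_red (hc : S_CHI) {x : ℂ} (hx : x ∉ Lam) :
    ∀ᶠ t in 𝓝 x, ContDiffAt ℝ ∞ (fun t => chi t * Real.log (‖red t‖ ^ 2)) t := by
  obtain ⟨hsm, -, -, -, -, -, -, -, hiff, -, -, hz0, hred⟩ := hc
  have hr0 : red x ≠ 0 := fun h => hx ((hiff x).2 h)
  by_cases h : 1 / 4 < ‖red x‖
  · filter_upwards [(hz0 x h).eventually_nhds] with t ht
    refine (contDiffAt_const (c := (0 : ℝ))).congr_of_eventuallyEq ?_
    filter_upwards [ht] with s hs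
    rw [hs, zero_mul]
  · have h2 : ‖red x‖ < 1 / 2 := by linarith [not_lt.mp h]
    set l : ℂ := x - red x with hl
    have h1 : ∀ᶠ t in 𝓝 x, red t = t - l := hred x h2
    have h5 : ∀ᶠ t in 𝓝 x, t - l ≠ 0 := by
      refine (continuous_id.sub continuous_const).continuousAt.eventually_ne ?_
      show x - l ≠ 0
      rw [hl]
      intro h0
      apply hr0
      linear_combination h0
    filter_upwards [h1.eventually_nhds, h5] with t ht ht5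
    have h6 : ContDiffAt ℝ ∞ (fun t => chi t * Real.log (‖t - l‖ ^ 2)) t := by
      refine hsm.contDiffAt.mul (ContDiffAt.log ?_ ?_)
      · exact (contDiffAt_id.sub contDiffAt_const).norm_sq ℝ
      · exact pow_ne_zero 2 (norm_ne_zero_iff.2 ht5)
    refine h6.congr_of_eventuallyEq ?_
    filter_upwards [ht] with s hs
    rw [hs]

/-- the function `G - chi log |red|²` -/
theorem gam (hc : S_CHI) {G h : ℂ → ℝ} {c : ℝ} (hG : IsGreen G h c) (x : ℂ) :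
    ∃ γ : ℂ → ℝ, (∀ᶠ t in 𝓝 x, ContDiffAt ℝ ∞ γ t) ∧
      ∀ᶠ t in 𝓝 x, t ∉ Lam → γ t = G t - chi t * Real.log (‖red t‖ ^ 2) := by
  by_cases hx : x ∈ Lam
  · obtain ⟨hsm, -, -, -, -, hrl, h1, -, hiff, -, hcl, hz0, hred⟩ := hc
    have hev : ∀ᶠ t in 𝓝 x, ‖t - x‖ < 1 / 8 := by
      have : ContinuousAt (fun t : ℂ => ‖t - x‖) x := by fun_prop
      refine this.eventually_lt continuousAt_const ?_
      simp
    refine ⟨fun t => h (t - x), ?_, ?_⟩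
    · filter_upwards [hev] with t ht
      have h2 : ContDiffAt ℝ ∞ h (t - x) := hG.smooth_h _ (by linarith)
      exact h2.comp t (contDiffAt_id.sub contDiffAt_const)
    · filter_upwards [hev] with t ht htL
      have hne : t - x ≠ 0 := by
        intro h0
        apply htL
        rw [sub_eq_zero.1 h0]
        exact hx
      have h2 : red t = t - x := hrl t x hx (by linarith)
      have h3 : chi t = 1 := h1 t (by rw [h2]; exact ht.le)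
      have h4 : G t = G (t - x) := by
        have := hG.per (t - x) x hx
        rwa [sub_add_cancel] at this
      have h5 := hG.eq (t - x) (by linarith) hne
      rw [h3, h2, h4, h5]
      ring
  · refine ⟨fun t => G t - chi t * Real.log (‖red t‖ ^ 2), ?_, Eventually.of_forall fun _ _ => rfl⟩
    have hcl : IsClosed Lam := hc.2.2.2.2.2.2.2.2.2.2.1
    have hev : ∀ᶠ t in 𝓝 x, t ∉ Lam := hcl.isOpen_compl.mem_nhds hx
    filter_upwards [hev, sm_red hc hx] with t ht h2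
    exact (hG.smooth t ht).sub h2

theorem sm_fst {γ : ℂ → ℝ} {z : E} (h : ∀ᶠ t in 𝓝 z.1, ContDiffAt ℝ ∞ γ t) :
    SmAt (fun t => γ t.1) z := by
  show ∀ᶠ z' in 𝓝 z, ContDiffAt ℝ ∞ (fun t : E => γ t.1) z'
  filter_upwards [(continuous_fst.tendsto z).eventually h] with z' h1
  exact h1.comp z' contDiffAt_fst

theorem cd_fst : ContDiff ℝ ∞ (fun t : E => t.1) := contDiff_fst
theorem cd_snd : ContDiff ℝ ∞ (fun t : E => t.2) := contDiff_snd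

theorem cd_n1 : ContDiff ℝ ∞ (fun t : E => ‖t.1‖ ^ 2) := contDiff_fst.norm_sq ℝ

theorem cd_Q2 : ContDiff ℝ ∞ (fun t : E => ‖t.2 - t.1‖ ^ 2 + ‖t.1‖ ^ 4) := by
  have h : (fun t : E => ‖t.2 - t.1‖ ^ 2 + ‖t.1‖ ^ 4) =
      fun t : E => ‖t.2 - t.1‖ ^ 2 + (‖t.1‖ ^ 2) ^ 2 := by
    funext t; ring
  rw [h]
  exact ((cd_snd.sub cd_fst).norm_sq ℝ).add (cd_n1.pow 2)

theorem cd_M2 : ContDiff ℝ ∞ (fun t : E => ‖1 - t.2 * t.1‖ ^ 2 + ‖t.2‖ ^ 2 * ‖t.1‖ ^ 4) := by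
  have h : (fun t : E => ‖1 - t.2 * t.1‖ ^ 2 + ‖t.2‖ ^ 2 * ‖t.1‖ ^ 4) =
      fun t : E => ‖1 - t.2 * t.1‖ ^ 2 + ‖t.2‖ ^ 2 * (‖t.1‖ ^ 2) ^ 2 := by
    funext t; ring
  rw [h]
  exact ((contDiff_const.sub (cd_snd.mul cd_fst)).norm_sq ℝ).add (nsq_snd.mul (cd_n1.pow 2))

theorem cd_M1 : ContDiff ℝ ∞ (fun t : E => ‖t.2‖ ^ 2 * ‖t.1‖ ^ 2 + ‖1 - t.2 * t.1‖ ^ 2) :=
  (nsq_snd.mul cd_n1).add ((contDiff_const.sub (cd_snd.mul cd_fst)).norm_sq ℝ)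

theorem M2_ne (r t : ℂ) : ‖1 - t * r‖ ^ 2 + ‖t‖ ^ 2 * ‖r‖ ^ 4 ≠ 0 := by
  intro h
  have h1 : ‖1 - t * r‖ ^ 2 = 0 := by
    have a1 : 0 ≤ ‖1 - t * r‖ ^ 2 := by positivity
    have a2 : 0 ≤ ‖t‖ ^ 2 * ‖r‖ ^ 4 := by positivity
    linarith
  have h2 : ‖t‖ ^ 2 * ‖r‖ ^ 4 = 0 := by linarith
  have h3 : 1 - t * r = 0 := by
    have := pow_eq_zero_iff (two_ne_zero) |>.1 h1
    exact norm_eq_zero.1 this
  rcases mul_eq_zero.1 h2 with h4 | h4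
  · have : t = 0 := norm_eq_zero.1 (pow_eq_zero_iff (two_ne_zero) |>.1 h4)
    rw [this] at h3
    simp at h3
  · have : r = 0 := norm_eq_zero.1 (pow_eq_zero_iff (four_ne_zero) |>.1 h4)
    rw [this] at h3
    simp at h3

theorem M1_ne (r t : ℂ) : ‖t‖ ^ 2 * ‖r‖ ^ 2 + ‖1 - t * r‖ ^ 2 ≠ 0 := by
  intro h
  have a1 : 0 ≤ ‖1 - t * r‖ ^ 2 := by positivity
  have a2 : 0 ≤ ‖t‖ ^ 2 * ‖r‖ ^ 2 := by positivity
  have h1 : ‖1 - t * r‖ ^ 2 = 0 := by linarith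
  have h2 : ‖t‖ ^ 2 * ‖r‖ ^ 2 = 0 := by linarith
  have h3 : 1 - t * r = 0 := by
    have := pow_eq_zero_iff (two_ne_zero) |>.1 h1
    exact norm_eq_zero.1 this
  rcases mul_eq_zero.1 h2 with h4 | h4
  · have : t = 0 := norm_eq_zero.1 (pow_eq_zero_iff (two_ne_zero) |>.1 h4)
    rw [this] at h3
    simp at h3
  · have : r = 0 := norm_eq_zero.1 (pow_eq_zero_iff (two_ne_zero) |>.1 h4)
    rw [this] at h3
    simp at h3

theorem Q2_ne {r y : ℂ} (hy : y ≠ 0) : ‖y - r‖ ^ 2 + ‖r‖ ^ 4 ≠ 0 := by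
  intro h
  have a1 : 0 ≤ ‖y - r‖ ^ 2 := by positivity
  have a2 : 0 ≤ ‖r‖ ^ 4 := by positivity
  have h1 : ‖y - r‖ ^ 2 = 0 := by linarith
  have h2 : ‖r‖ ^ 4 = 0 := by linarith
  have h3 : y - r = 0 := norm_eq_zero.1 (pow_eq_zero_iff (two_ne_zero) |>.1 h1)
  have h4 : r = 0 := norm_eq_zero.1 (pow_eq_zero_iff (four_ne_zero) |>.1 h2)
  rw [h4, sub_zero] at h3
  exact hy h3

/-- system `0`, points with `y ≠ 0` -/
theorem far0 (hc : S_CHI) {G h : ℂ → ℝ} {c : ℝ} (hG : IsGreen G h c) (A : ℝ) {z : E}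
    (hz : z.2 ≠ 0) : ∃ f : E → ℝ, SmAt f z ∧ ∀ᶠ t in 𝓝 z, t ∈ W → f t = far G A t - Phi t := by
  obtain ⟨γ, hγ1, hγ2⟩ := gam hc hG z.1
  have s2 : SmAt (fun t => chi t.1 * L2 t) z :=
    sm_gen hc (Q := fun t : E => ‖t.2 - t.1‖ ^ 2 + ‖t.1‖ ^ 4) cd_Q2 (Q2_ne hz)
  have s1 : SmAt (fun t => (5 / 2 : ℝ) * Real.log (‖t.2‖ ^ 2)) z := by
    have : SmAt (fun t => Real.log (‖t.2‖ ^ 2)) z :=
      sm_log nsq_snd (pow_ne_zero 2 (norm_ne_zero_iff.2 hz))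
    have h' : ∀ᶠ z' in 𝓝 z, ContDiffAt ℝ ∞ (fun t : E => Real.log (‖t.2‖ ^ 2)) z' := this
    show ∀ᶠ z' in 𝓝 z, ContDiffAt ℝ ∞ (fun t : E => (5 / 2 : ℝ) * Real.log (‖t.2‖ ^ 2)) z'
    filter_upwards [h'] with z' h1
    exact contDiffAt_const.mul h1
  have s3 : SmAt (fun t => (5 / 2 : ℝ) * Real.log (1 + ‖t.2‖ ^ 2)) z := by
    have h' : ∀ᶠ z' in 𝓝 z, ContDiffAt ℝ ∞ (fun t : E => Real.log (1 + ‖t.2‖ ^ 2)) z' :=
      sm_log1 z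
    show ∀ᶠ z' in 𝓝 z, ContDiffAt ℝ ∞ (fun t : E => (5 / 2 : ℝ) * Real.log (1 + ‖t.2‖ ^ 2)) z'
    filter_upwards [h'] with z' h1
    exact contDiffAt_const.mul h1
  refine ⟨fun t => 5 / 2 * Real.log (‖t.2‖ ^ 2) - 5 / 2 * Real.log (1 + ‖t.2‖ ^ 2) - γ t.1 + A -
    chi t.1 * L2 t, sm_sub (sm_add (sm_sub (sm_sub s1 s3) (sm_fst hγ1)) (sm_const A z)) s2, ?_⟩
  filter_upwards [(continuous_fst.tendsto z).eventually hγ2] with t ht htW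
  rw [ht htW.1]
  unfold far Phi
  ring

/-- composition with the polynomial maps `tr j` -/
theorem cd_tr {j : Fin 5} (hj : j ≠ 1) : ContDiff ℝ ∞ (tr j) := by
  fin_cases j
  · exact contDiff_id
  · exact absurd rfl hj
  · show ContDiff ℝ ∞ (fun z : E => (z.1 * z.2, z.2 + z.1 * z.2))
    exact (cd_fst.mul cd_snd).prodMk (cd_snd.add (cd_fst.mul cd_snd))
  · show ContDiff ℝ ∞ (fun z : E => (z.1 * z.2, z.1 * z.2 ^ 2 + z.1 * z.2))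
    exact (cd_fst.mul cd_snd).prodMk ((cd_fst.mul (cd_snd.pow 2)).add (cd_fst.mul cd_snd))
  · show ContDiff ℝ ∞ (fun z : E => (z.1, z.1 ^ 2 * z.2 + z.1))
    exact cd_fst.prodMk (((cd_fst.pow 2).mul cd_snd).add cd_fst)

theorem ext_of {u : E → ℝ} {j : Fin 5} (hj : j ≠ 1) {z : E}
    (h : ∃ f : E → ℝ, SmAt f (tr j z) ∧ ∀ᶠ t in 𝓝 (tr j z), t ∈ W → f t = u t) :
    ExtAt u j z := by
  obtain ⟨f, hf, hu⟩ := h
  have hf' : ∀ᶠ z' in 𝓝 (tr j z), ContDiffAt ℝ ∞ f z' := hf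
  have hcd := cd_tr hj
  refine ⟨fun t => f (tr j t), ?_, ?_⟩
  · show ∀ᶠ z' in 𝓝 z, ContDiffAt ℝ ∞ (fun t => f (tr j t)) z'
    filter_upwards [(hcd.continuous.tendsto z).eventually hf'] with z' h1
    exact h1.comp z' hcd.contDiffAt
  · exact (hcd.continuous.tendsto z).eventually hu

theorem tr1_eq (z : E) : tr 1 z = (z.1, z.2⁻¹) := rfl

theorem L2_inv {x t : ℂ} (ht : t ≠ 0) : L2 (x, t⁻¹) =
    Real.log ((‖1 - t * red x‖ ^ 2 + ‖t‖ ^ 2 * ‖red x‖ ^ 4) / (1 + ‖t‖ ^ 2)) := by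
  unfold L2
  have htn : ‖t‖ ≠ 0 := norm_ne_zero_iff.2 ht
  have h1 : ‖1 - t * red x‖ = ‖t‖ * ‖t⁻¹ - red x‖ := by
    rw [← norm_mul, mul_sub, mul_inv_cancel₀ ht]
  have h2 : ‖t⁻¹‖ = ‖t‖⁻¹ := norm_inv t
  simp only
  rw [h1, h2]
  congr 1
  field_simp
  ring

theorem L1_inv {x t : ℂ} (ht : t ≠ 0) : L1 (x, t⁻¹) =
    Real.log ((‖t‖ ^ 2 * ‖red x‖ ^ 2 + ‖1 - t * red x‖ ^ 2) / (1 + ‖t‖ ^ 2)) := by
  unfold L1
  have htn : ‖t‖ ≠ 0 := norm_ne_zero_iff.2 ht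
  have h1 : ‖1 - t * red x‖ = ‖t‖ * ‖t⁻¹ - red x‖ := by
    rw [← norm_mul, mul_sub, mul_inv_cancel₀ ht]
  have h2 : ‖t⁻¹‖ = ‖t‖⁻¹ := norm_inv t
  simp only
  rw [h1, h2]
  congr 1
  field_simp
  ring

theorem log_inv1 {t : ℂ} (ht : t ≠ 0) : 5 / 2 * Real.log (‖t⁻¹‖ ^ 2) -
    5 / 2 * Real.log (1 + ‖t⁻¹‖ ^ 2) = -(5 / 2 * Real.log (1 + ‖t‖ ^ 2)) := by
  have htn : ‖t‖ ≠ 0 := norm_ne_zero_iff.2 ht
  have h2 : ‖t⁻¹‖ = ‖t‖⁻¹ := norm_inv t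
  have h3 : 1 + ‖t⁻¹‖ ^ 2 = ‖t⁻¹‖ ^ 2 * (1 + ‖t‖ ^ 2) := by
    rw [h2]
    field_simp
    ring
  rw [h3, Real.log_mul (pow_ne_zero 2 (by rw [h2]; exact inv_ne_zero htn)) (one_add_ne t)]
  ring

theorem far1 (hc : S_CHI) {G h : ℂ → ℝ} {c : ℝ} (hG : IsGreen G h c) (A : ℝ) (z : E) :
    ExtAt (fun z => far G A z - Phi z) 1 z := by
  obtain ⟨γ, hγ1, hγ2⟩ := gam hc hG z.1
  have s2 : SmAt (fun t => chi t.1 * Real.log ((‖1 - t.2 * red t.1‖ ^ 2 +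
      ‖t.2‖ ^ 2 * ‖red t.1‖ ^ 4) / (1 + ‖t.2‖ ^ 2))) z :=
    sm_gen hc (Q := fun t : E => ‖1 - t.2 * t.1‖ ^ 2 + ‖t.2‖ ^ 2 * ‖t.1‖ ^ 4) cd_M2 (M2_ne _ _)
  have s3 : SmAt (fun t => -((5 / 2 : ℝ) * Real.log (1 + ‖t.2‖ ^ 2))) z := by
    have h' : ∀ᶠ z' in 𝓝 z, ContDiffAt ℝ ∞ (fun t : E => Real.log (1 + ‖t.2‖ ^ 2)) z' :=
      sm_log1 z
    show ∀ᶠ z' in 𝓝 z, ContDiffAt ℝ ∞ (fun t : E => -((5 / 2 : ℝ) * Real.log (1 + ‖t.2‖ ^ 2))) z'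
    filter_upwards [h'] with z' h1
    exact (contDiffAt_const.mul h1).neg
  refine ⟨fun t => -(5 / 2 * Real.log (1 + ‖t.2‖ ^ 2)) - γ t.1 + A -
    chi t.1 * Real.log ((‖1 - t.2 * red t.1‖ ^ 2 +
      ‖t.2‖ ^ 2 * ‖red t.1‖ ^ 4) / (1 + ‖t.2‖ ^ 2)),
    sm_sub (sm_add (sm_sub s3 (sm_fst hγ1)) (sm_const A z)) s2, ?_⟩
  filter_upwards [(continuous_fst.tendsto z).eventually hγ2] with t ht htW
  rw [tr1_eq] at htW ⊢
  have ht0 : t.2 ≠ 0 := fun h0 => htW.2 (by simp [h0])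
  have htL : t.1 ∉ Lam := htW.1
  rw [ht htL, ← L2_inv ht0]
  have h4 := log_inv1 ht0
  unfold far Phi
  simp only
  linarith

theorem chi1 (hc : S_CHI) (z : E) : ExtAt (fun z => chi z.1 * (L1 z + L2 z)) 1 z := by
  have s2 : SmAt (fun t => chi t.1 * Real.log ((‖1 - t.2 * red t.1‖ ^ 2 +
      ‖t.2‖ ^ 2 * ‖red t.1‖ ^ 4) / (1 + ‖t.2‖ ^ 2))) z :=
    sm_gen hc (Q := fun t : E => ‖1 - t.2 * t.1‖ ^ 2 + ‖t.2‖ ^ 2 * ‖t.1‖ ^ 4) cd_M2 (M2_ne _ _)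
  have s1 : SmAt (fun t => chi t.1 * Real.log ((‖t.2‖ ^ 2 * ‖red t.1‖ ^ 2 +
      ‖1 - t.2 * red t.1‖ ^ 2) / (1 + ‖t.2‖ ^ 2))) z :=
    sm_gen hc (Q := fun t : E => ‖t.2‖ ^ 2 * ‖t.1‖ ^ 2 + ‖1 - t.2 * t.1‖ ^ 2) cd_M1 (M1_ne _ _)
  refine ⟨_, sm_add s1 s2, Eventually.of_forall fun t htW => ?_⟩
  rw [tr1_eq] at htW ⊢
  have ht0 : t.2 ≠ 0 := fun h0 => htW.2 (by simp [h0])
  simp only
  rw [L1_inv ht0, L2_inv ht0]
  ring

end FARE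

theorem t_FARE (hchi : S_CHI) (_ : S_LLOG) (hphis : S_PHIS) : S_FARE := by
  intro G h c hG A j z _ hon
  by_cases hj : j = 1
  · subst hj
    exact ⟨FARE.far1 hchi hG A z, FARE.chi1 hchi z⟩
  · have hy : (tr j z).2 ≠ 0 := fun h0 => hon ⟨hj, h0⟩
    refine ⟨FARE.ext_of hj (FARE.far0 hchi hG A hy), FARE.ext_of hj ⟨fun t => chi t.1 * (L1 t + L2 t),
      ?_, Eventually.of_forall fun _ _ => rfl⟩⟩
    have hev : ∀ᶠ t : E in 𝓝 (tr j z), t.2 ≠ 0 :=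
      continuous_snd.continuousAt.eventually_ne hy
    show ∀ᶠ t in 𝓝 (tr j z), ContDiffAt ℝ ∞ (fun t : E => chi t.1 * (L1 t + L2 t)) t
    filter_upwards [hev] with t ht
    exact hphis.2.2.1 t (Or.inr ht)

end Pool.Agent.Q22.SP
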