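import Pool.Agent.Q22.SP.Stm

/-!
# Project SP (helper22), job FARL: the Levi form of `far` (helper142)
-/

set_option autoImplicit false

open Set Topology Filter
open scoped ContDiff Manifold

namespace Pool.Agent.Q22.SP

open Pool.Agent.Y184.SP

namespace FARL

theorem two_le : (2 : WithTop ℕ∞) ≤ ∞ :=
  show ((2 : ℕ∞) : WithTop ℕ∞) ≤ ((⊤ : ℕ∞) : WithTop ℕ∞) from WithTop.coe_le_coe.2 le_top

theorem lap_eq (v : ℂ → ℝ) (x : ℂ) : Laplacian.laplacian v x =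
    fderiv ℝ (fderiv ℝ v) x 1 1 + fderiv ℝ (fderiv ℝ v) x Complex.I Complex.I := by
  rw [InnerProductSpace.laplacian_eq_iteratedFDeriv_complexPlane]
  simp only [iteratedFDeriv_two_apply]
  rfl

theorem lap_trans (v : ℂ → ℝ) (a : ℂ) : Laplacian.laplacian (fun ζ : ℂ => v (a + ζ)) 0 =
    Laplacian.laplacian v a := by
  have h1 : fderiv ℝ (fun ζ : ℂ => v (a + ζ)) = fun ζ => fderiv ℝ v (a + ζ) := by
    funext ζ
    exact fderiv_comp_add_left a
  rw [lap_eq, lap_eq, h1, fderiv_comp_add_left a, add_zero]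

theorem lev_const (A : ℝ) (z v : E) : lev (fun _ => A) z v = 0 := by
  unfold lev
  rw [lap_eq]
  simp

theorem lev_fst (lo : S_LOPS) (G : ℂ → ℝ) (z v : E) (hG : ContDiffAt ℝ ∞ G z.1) :
    lev (fun t => G t.1) z v = ‖v.1‖ ^ 2 * Laplacian.laplacian G z.1 := by
  have hs : ContDiffAt ℝ 2 (fun t : E => G t.1) z :=
    (hG.of_le two_le).comp z contDiffAt_fst
  have h1 : lev (fun t => G t.1) z v = lev (fun t => G t.1) z (v.1 • ((1, 0) : E)) := by
    unfold lev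
    have h0 : (fun ζ : ℂ => G (z + ζ • v).1) = fun ζ : ℂ => G (z + ζ • v.1 • ((1, 0) : E)).1 := by
      funext ζ
      simp
    exact congrArg (fun F : ℂ → ℝ => Laplacian.laplacian F 0) h0
  rw [h1, lo.2.2.2.2.2 (fun t => G t.1) z (1, 0) v.1 hs]
  congr 1
  unfold lev
  have h2 : (fun ζ : ℂ => G (z + ζ • ((1, 0) : E)).1) = fun ζ : ℂ => G (z.1 + ζ) := by
    funext ζ
    simp
  rw [h2, lap_trans]

end FARL

open FARL in
theorem t_FARL (lo : S_LOPS) (ll : S_LLOG) : S_FARL := by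
  intro G h c hG A z hz
  have hz1 : z.1 ∉ Lam := hz.1
  have hz2 : z.2 ≠ 0 := hz.2
  -- the three functions
  have k1 := ll.1 (fun t => t.2) z
  have k2 := fun v => ll.2.2 (fun _ => 1) (fun t => t.2) z v analyticAt_const analyticAt_snd
    (Or.inl one_ne_zero)
  simp only [norm_one, one_pow] at k2
  have s1 : ContDiffAt ℝ ∞ (fun t : E => Real.log (‖t.2‖ ^ 2)) z := (k1 0 analyticAt_snd hz2).1
  have s2 : ContDiffAt ℝ ∞ (fun t : E => Real.log (1 + ‖t.2‖ ^ 2)) z := (k2 0).1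
  have s3 : ContDiffAt ℝ ∞ (fun t : E => G t.1) z := (hG.smooth z.1 hz1).comp z contDiffAt_fst
  have s1' : ContDiffAt ℝ ∞ (fun t : E => 5 / 2 * Real.log (‖t.2‖ ^ 2)) z := contDiffAt_const.mul s1
  have s2' : ContDiffAt ℝ ∞ (fun t : E => 1 / 2 * Real.log (1 + ‖t.2‖ ^ 2)) z :=
    contDiffAt_const.mul s2
  have s12 := s1'.add s2'
  have s123 := s12.sub s3
  refine ⟨s123.add contDiffAt_const, fun v => ?_⟩
  have l1 : lev (fun t : E => Real.log (‖t.2‖ ^ 2)) z v = 0 := (k1 v analyticAt_snd hz2).2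
  have l2 : lev (fun t : E => Real.log (1 + ‖t.2‖ ^ 2)) z v = 4 * ‖v.2‖ ^ 2 / (1 + ‖z.2‖ ^ 2) ^ 2 := by
    rw [(k2 v).2]
    have hc : fderiv ℂ (fun _ : E => (1 : ℂ)) z v = 0 := by simp
    have hs : fderiv ℂ (fun t : E => t.2) z v = v.2 := by
      have : fderiv ℂ (fun t : E => t.2) z = ContinuousLinearMap.snd ℂ ℂ ℂ := fderiv_snd
      rw [this]
      rfl
    rw [hc, hs, mul_zero, sub_zero, one_mul]
  have l3 : lev (fun t : E => G t.1) z v = -(c * ‖v.1‖ ^ 2) := by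
    rw [lev_fst lo G z v (hG.smooth z.1 hz1), hG.lap z.1 hz1]
    ring
  unfold far
  rw [lo.1 (fun t : E => 5 / 2 * Real.log (‖t.2‖ ^ 2) + 1 / 2 * Real.log (1 + ‖t.2‖ ^ 2) - G t.1)
      (fun _ => A) z v (s123.of_le two_le) contDiffAt_const, lev_const,
    lo.2.1 (fun t : E => 5 / 2 * Real.log (‖t.2‖ ^ 2) + 1 / 2 * Real.log (1 + ‖t.2‖ ^ 2))
      (fun t : E => G t.1) z v (s12.of_le two_le) (s3.of_le two_le), l3,
    lo.1 (fun t : E => 5 / 2 * Real.log (‖t.2‖ ^ 2)) (fun t : E => 1 / 2 * Real.log (1 + ‖t.2‖ ^ 2))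
      z v (s1'.of_le two_le) (s2'.of_le two_le),
    lo.2.2.1 (fun t : E => Real.log (‖t.2‖ ^ 2)) (5 / 2) z v (s1.of_le two_le), l1,
    lo.2.2.1 (fun t : E => Real.log (1 + ‖t.2‖ ^ 2)) (1 / 2) z v (s2.of_le two_le), l2]
  ring

end Pool.Agent.Q22.SP
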