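import Pool.Agent.Q22.SP.Stm

/-!
# Project SP (helper22), job FORM: the form `dd^c Φ` on the surface
-/

set_option autoImplicit false

open Set Topology Filter
open scoped ContDiff Manifold

namespace Pool.Agent.Q22.SP

open Pool.Agent.Y184.SP

namespace FORM

theorem two_le_inf : (2 : WithTop ℕ∞) ≤ ∞ := WithTop.coe_le_coe.2 le_top

/-- smoothness of `Φ ∘ tr j` at the points with `tr j z ∈ W` -/
theorem smooth_tr (dens : S_DENS) {Φ : E → ℝ} (hsm : ∀ z ∈ W, ContDiffAt ℝ ∞ Φ z) {j : Fin 5}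
    {z : E} (hz : z ∈ V j) (hw : tr j z ∈ W) : ContDiffAt ℝ ∞ (fun t => Φ (tr j t)) z := by
  have h1 : AnalyticAt ℂ (tr j) z := (((dens j).2 z hz).2 hw).self_of_nhds.2
  have h2 : AnalyticAt ℝ (tr j) z := h1.restrictScalars
  exact (hsm _ hw).comp z h2.contDiffAt

theorem isOpen_UU (dens : S_DENS) (i : Idx) : IsOpen (UU i) := by
  have h1 : IsOpen (V i.1) := (dens i.1).1
  by_cases h : i.1 < 2
  · have h2 : UU i = V i.1 ∩ {z : E | ‖z.1 - i.2‖ < 1 / 2} := by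
      ext z
      simp only [UU, mem_setOf_eq, mem_inter_iff, h, forall_const]
    rw [h2]
    refine h1.inter ?_
    exact isOpen_lt (by fun_prop) (by fun_prop)
  · have h2 : UU i = V i.1 := by
      ext z
      simp only [UU, mem_setOf_eq, h, false_imp_iff, and_true]
    rw [h2]
    exact h1

section

variable {Y : Type} [TopologicalSpace Y] [ChartedSpace E Y]

/-- transition functions between the charts -/
theorem trans (dens : S_DENS) (tro : S_TRO) (tre : S_TRE) {Q : Idx → E → Y} (hS : Surf Y Q)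
    {i j : Idx} {z z' : E} (hz : z ∈ UU i) (hz' : z' ∈ UU j) (h : Q i z = Q j z') :
    ∃ φ : E → E, AnalyticAt ℂ φ z' ∧ φ z' = z ∧ ∀ᶠ t in 𝓝 z', t ∈ UU j ∧ φ t ∈ UU i ∧
      PP i.1 (φ t) = PP j.1 t ∧ Q i (φ t) = Q j t := by
  have hPP : PP i.1 z = PP j.1 z' := (hS.eqv i j z z' hz hz').1 h
  have key : ∃ φ : E → E, AnalyticAt ℂ φ z' ∧ φ z' = z ∧ ∀ᶠ t in 𝓝 z', PP i.1 (φ t) = PP j.1 t := by
    by_cases hord : ∃ x y, PP j.1 z' = .ord x y
    · obtain ⟨x, y, hxy⟩ := hord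
      exact tro j.1 i.1 z' z x y hz'.1 hz.1 hxy (hPP.trans hxy)
    · exact tre j.1 i.1 z' z hz'.1 hz.1 hPP.symm (fun x y hxy => hord ⟨x, y, hxy⟩)
  obtain ⟨φ, h1, h2, h3⟩ := key
  refine ⟨φ, h1, h2, ?_⟩
  have h4 : ∀ᶠ t in 𝓝 z', t ∈ UU j := (isOpen_UU dens j).mem_nhds hz'
  have h5 : ∀ᶠ t in 𝓝 z', φ t ∈ UU i := by
    have : φ z' ∈ UU i := by rw [h2]; exact hz
    exact h1.continuousAt.eventually_mem ((isOpen_UU dens i).mem_nhds this)
  filter_upwards [h3, h4, h5] with t a b c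
  exact ⟨b, c, a, (hS.eqv i j (φ t) t c b).2 a⟩

end

/-- potentials are transformed to potentials -/
theorem potAt_comp (lo : S_LOPS) (dens : S_DENS) (trw : S_TRW) {Φ : E → ℝ} (hper : Per Φ)
    (hsm : ∀ z ∈ W, ContDiffAt ℝ ∞ Φ z) {i j : Fin 5} {z z' : E} {ρ : E → ℝ} {φ : E → E}
    (hρ : PotAt Φ i z ρ) (hφ : AnalyticAt ℂ φ z') (hφz : φ z' = z)
    (hev : ∀ᶠ t in 𝓝 z', t ∈ V j ∧ φ t ∈ V i ∧ PP i (φ t) = PP j t) :
    PotAt Φ j z' (fun t => ρ (φ t)) := by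
  obtain ⟨_, _, _, lo4, lo5, _⟩ := lo
  have hcont : Tendsto φ (𝓝 z') (𝓝 z) := by
    have := hφ.continuousAt.tendsto
    rwa [hφz] at this
  have ha : ∀ᶠ t in 𝓝 z', AnalyticAt ℂ φ t := hφ.eventually_analyticAt
  have h1 : ∀ᶠ t in 𝓝 z', ContDiffAt ℝ ∞ ρ (φ t) := hcont.eventually hρ.1
  have h2 : ∀ᶠ t in 𝓝 z', tr i (φ t) ∈ W → ∀ v, lev (fun s => ρ s - Φ (tr i s)) (φ t) v = 0 :=
    hcont.eventually hρ.2
  refine ⟨?_, ?_⟩
  · filter_upwards [ha, h1] with t hat h1t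
    exact h1t.comp t (hat.restrictScalars (𝕜 := ℝ)).contDiffAt
  · filter_upwards [ha, h1, h2, hev, hev.eventually_nhds] with t hat h1t h2t h3t h4t hw v
    obtain ⟨hw', -, -⟩ := trw j i t (φ t) h3t.1 h3t.2.1 h3t.2.2.symm hw
    have hnear : ∀ᶠ s in 𝓝 t, tr j s ∈ W := by
      filter_upwards [((dens j).2 t h3t.1).2 hw] with s hs
      exact hs.1
    have heq : ∀ᶠ s in 𝓝 t, ρ (φ s) - Φ (tr j s) = (fun r => ρ r - Φ (tr i r)) (φ s) := by
      filter_upwards [hnear, h4t] with s hs h4s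
      obtain ⟨-, h5, h6⟩ := trw j i s (φ s) h4s.1 h4s.2.1 h4s.2.2.symm hs
      have h7 : tr i (φ s) = ((tr j s).1 + ((tr i (φ s)).1 - (tr j s).1), (tr j s).2) := by
        apply Prod.ext
        · simp
        · simp [h5]
      have h8 : Φ (tr i (φ s)) = Φ (tr j s) := by
        rw [h7]
        exact hper _ _ _ h6
      show _ = ρ (φ s) - Φ (tr i (φ s))
      rw [h8]
    rw [lo4 _ _ t v heq, lo5 (fun r => ρ r - Φ (tr i r)) φ t v hat ?_]
    · exact h2t hw' _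
    · exact (h1t.sub (smooth_tr dens hsm h3t.2.1 hw')).of_le two_le_inf

/-- two potentials have the same Levi form -/
theorem lev_sub_eq_zero (lo : S_LOPS) (dens : S_DENS) (clev : S_CLEV) {Φ : E → ℝ}
    (hsm : ∀ z ∈ W, ContDiffAt ℝ ∞ Φ z) {j : Fin 5} {z : E} (hz : z ∈ V j) {ρ ρ' : E → ℝ}
    (hρ : PotAt Φ j z ρ) (hρ' : PotAt Φ j z ρ') (v : E) :
    lev (fun t => ρ t - ρ' t) z v = 0 := by
  obtain ⟨_, lo2, _, lo4, _, _⟩ := lo
  have main : ∀ {ρ ρ' : E → ℝ}, PotAt Φ j z ρ → PotAt Φ j z ρ' →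
      ∀ᶠ z' in 𝓝 z, tr j z' ∈ W → lev (fun t => ρ t - ρ' t) z' v = 0 := by
    intro ρ ρ' hρ hρ'
    have hV : ∀ᶠ z' in 𝓝 z, z' ∈ V j := (dens j).1.mem_nhds hz
    filter_upwards [hV, hρ.1, hρ.2, hρ'.1, hρ'.2] with z' hV' h1 h2 h3 h4 hw
    have hs := smooth_tr dens hsm hV' hw
    have e : (fun t => ρ t - ρ' t) =
        fun t => (fun t => ρ t - Φ (tr j t)) t - (fun t => ρ' t - Φ (tr j t)) t := by
      funext t
      simp
    rw [e, lo2 (fun t => ρ t - Φ (tr j t)) (fun t => ρ' t - Φ (tr j t)) z' v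
      ((h1.sub hs).of_le two_le_inf) ((h3.sub hs).of_le two_le_inf),
      h2 hw v, h4 hw v, sub_zero]
  have sm : ∀ {ρ ρ' : E → ℝ}, PotAt Φ j z ρ → PotAt Φ j z ρ' → SmAt (fun t => ρ t - ρ' t) z := by
    intro ρ ρ' hρ hρ'
    filter_upwards [hρ.1, hρ'.1] with t h1 h2
    exact h1.sub h2
  have g1 : (0 : ℝ) ≤ lev (fun t => ρ t - ρ' t) z v := by
    refine clev j z hz _ v 0 (sm hρ hρ') ?_
    filter_upwards [main hρ hρ'] with t ht hw
    exact (ht hw).ge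
  have g2 : (0 : ℝ) ≤ lev (fun t => ρ' t - ρ t) z v := by
    refine clev j z hz _ v 0 (sm hρ' hρ) ?_
    filter_upwards [main hρ' hρ] with t ht hw
    exact (ht hw).ge
  have g3 : lev (fun t => ρ' t - ρ t) z v = - lev (fun t => ρ t - ρ' t) z v := by
    have s1 : ContDiffAt ℝ 2 ρ z := hρ.1.self_of_nhds.of_le two_le_inf
    have s2 : ContDiffAt ℝ 2 ρ' z := hρ'.1.self_of_nhds.of_le two_le_inf
    rw [lo2 ρ' ρ z v s2 s1, lo2 ρ ρ' z v s1 s2]
    ring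
  linarith

end FORM

/-- FORM -/
theorem t_FORM (ld : S_LDISC) (lo : S_LOPS) (dens : S_DENS) (clev : S_CLEV) (trw : S_TRW)
    (tro : S_TRO) (tre : S_TRE) (discc : S_DISCC) : S_FORM := by
  intro Y _ _ Q hS Φ hper hsm hpot
  obtain ⟨disc1, -, disc3⟩ := discc Y Q hS
  -- the choices
  have ch : ∀ p : Y, ∃ (i : Idx) (z : E) (ρ : E → ℝ) (c : Y → E), z ∈ UU i ∧ Q i z = p ∧
      PotAt Φ i.1 z ρ ∧ c p = z ∧ ContinuousAt c p ∧ (∀ᶠ q in 𝓝 p, Q i (c q) = q) ∧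
      ∀ᶠ t in 𝓝 z, c (Q i t) = t := by
    intro p
    obtain ⟨i, z, hz, hzp⟩ := hS.par.surj p
    obtain ⟨ρ, hρ⟩ := hpot i.1 z hz.1
    obtain ⟨c, h1, h2, h3, h4⟩ := hS.par.inv i z hz
    subst hzp
    exact ⟨i, z, ρ, c, hz, rfl, hρ, h1, h2.continuousAt, h3, h4⟩
  choose ix zz rho cc hUU hQ hrho hc0 hcc hQc hcQ using ch
  -- the representation
  have hrep : ∀ i : Idx, ∀ z ∈ UU i, ∃ ρ : E → ℝ, PotAt Φ i.1 z ρ ∧
      ∀ᶠ t in 𝓝 z, rho (Q i z) (cc (Q i z) (Q i t)) = ρ t := by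
    intro i z hz
    obtain ⟨φ, h1, h2, h3⟩ := FORM.trans dens tro tre hS (hUU (Q i z)) hz (hQ (Q i z))
    refine ⟨fun t => rho (Q i z) (φ t), ?_, ?_⟩
    · refine FORM.potAt_comp lo dens trw hper hsm (hrho (Q i z)) h1 h2 ?_
      filter_upwards [h3] with t ht
      exact ⟨ht.1.1, ht.2.1.1, ht.2.2.1⟩
    · have hcont : Tendsto φ (𝓝 z) (𝓝 (zz (Q i z))) := by
        have := h1.continuousAt.tendsto
        rwa [h2] at this
      filter_upwards [h3, hcont.eventually (hcQ (Q i z))] with t ht h4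
      rw [← ht.2.2.2, h4]
  -- near `z` the potential is `rho`
  have hnear : ∀ p : Y, ∀ᶠ t in 𝓝 (zz p), t ∈ UU (ix p) ∧ PotAt Φ (ix p).1 t (rho p) ∧
      ∀ᶠ s in 𝓝 t, rho p (cc p (Q (ix p) s)) = rho p s := by
    intro p
    have h1 : ∀ᶠ t in 𝓝 (zz p), t ∈ UU (ix p) := (FORM.isOpen_UU dens (ix p)).mem_nhds (hUU p)
    have h2 : ∀ᶠ t in 𝓝 (zz p), rho p (cc p (Q (ix p) t)) = rho p t := by
      filter_upwards [hcQ p] with t ht
      rw [ht]
    filter_upwards [h1, (hrho p).1.eventually_nhds, (hrho p).2.eventually_nhds,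
      h2.eventually_nhds] with t a b c d
    exact ⟨a, ⟨b, c⟩, d⟩
  -- transport to the surface
  have hY : ∀ p : Y, ∀ᶠ q in 𝓝 p, cc p q ∈ UU (ix p) ∧ Q (ix p) (cc p q) = q ∧
      PotAt Φ (ix p).1 (cc p q) (rho p) ∧
      ∀ᶠ s in 𝓝 (cc p q), rho p (cc p (Q (ix p) s)) = rho p s := by
    intro p
    have hcont : Tendsto (cc p) (𝓝 p) (𝓝 (zz p)) := by
      have := (hcc p).tendsto
      rwa [hc0 p] at this
    filter_upwards [hcont.eventually (hnear p), hQc p] with q h1 h2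
    exact ⟨h1.1, h2, h1.2.1, h1.2.2⟩
  refine ⟨⟨fun p q => rho p (cc p q), ?_, ?_⟩, ?_⟩
  · intro p
    filter_upwards [hY p] with q hq
    obtain ⟨h1, h2, h3, h4⟩ := hq
    have h5 : ContDiffAt ℝ ∞ (fun t => rho p (cc p (Q (ix p) t))) (cc p q) := by
      have h6 : (fun t => rho p (cc p (Q (ix p) t))) =ᶠ[𝓝 (cc p q)] rho p := h4
      exact h3.1.self_of_nhds.congr_of_eventuallyEq h6
    have h7 := (disc3 (ix p) (cc p q) (fun q => rho p (cc p q)) h1).2 h5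
    rw [h2] at h7
    exact h7
  · intro p
    filter_upwards [hY p] with q hq f hf hf0
    obtain ⟨h1, h2, h3, h4⟩ := hq
    obtain ⟨ρ', hρ', hρ''⟩ := hrep (ix p) (cc p q) h1
    rw [h2] at hρ''
    obtain ⟨F, hF, hF0, hfF, -⟩ := disc1 (ix p) (cc p q) h1 f hf (hf0.trans h2.symm)
    have hcont : Tendsto F (𝓝 0) (𝓝 (cc p q)) := by
      have := hF.continuousAt.tendsto
      rwa [hF0] at this
    have heq : (fun ζ : ℂ => rho p (cc p (f ζ)) - rho q (cc q (f ζ))) =ᶠ[𝓝 0]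
        fun ζ : ℂ => (fun t => rho p t - ρ' t) (F ζ) := by
      filter_upwards [hfF, hcont.eventually h4, hcont.eventually hρ''] with ζ a b c
      show rho p (cc p (f ζ)) - rho q (cc q (f ζ)) = rho p (F ζ) - ρ' (F ζ)
      rw [a, b, c]
    show Laplacian.laplacian (fun ζ : ℂ => rho p (cc p (f ζ)) - rho q (cc q (f ζ))) 0 = 0
    rw [(InnerProductSpace.laplacian_congr_nhds heq).self_of_nhds,
      ld (fun t => rho p t - ρ' t) F hF ?_, hF0]
    · exact FORM.lev_sub_eq_zero lo dens clev hsm h1.1 h3 hρ' _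
    · rw [hF0]
      have s1 : ContDiffAt ℝ 2 (rho p) (cc p q) :=
        h3.1.self_of_nhds.of_le FORM.two_le_inf
      have s2 : ContDiffAt ℝ 2 ρ' (cc p q) :=
        hρ'.1.self_of_nhds.of_le FORM.two_le_inf
      exact s1.sub s2
  · intro i z hz
    exact hrep i z hz

end Pool.Agent.Q22.SP
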