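import Pool.Agent.Q22.SP.Stm

set_option autoImplicit false

open Set Topology Filter
open scoped ContDiff Manifold

namespace Pool.Agent.Q22.SP

open Pool.Agent.Y184.SP

namespace FUN

lemma UU_nhds' (dens : S_DENS) (i : Idx) (z : E) (hz : z ∈ UU i) : ∀ᶠ t in 𝓝 z, t ∈ UU i := by
  have h1 : ∀ᶠ t in 𝓝 z, t ∈ V i.1 := (dens i.1).1.mem_nhds hz.1
  by_cases hi : i.1 < 2
  · have h2 : ∀ᶠ t in 𝓝 z, ‖t.1 - i.2‖ < 1 / 2 := by
      have hc : Continuous fun t : E => ‖t.1 - i.2‖ := by fun_prop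
      exact hc.continuousAt.eventually (gt_mem_nhds (hz.2 hi))
    filter_upwards [h1, h2] with t ht1 ht2
    exact ⟨ht1, fun _ => ht2⟩
  · filter_upwards [h1] with t ht1
    exact ⟨ht1, fun h => absurd h hi⟩

end FUN

open FUN in
theorem t_FUN (dens : S_DENS) (gext : S_GEXT) (trw : S_TRW) (tro : S_TRO) (tre : S_TRE)
    (discc : S_DISCC) : S_FUN := by
  classical
  intro Y _ _ Q hS u O hper hO hext
  have hnear : ∀ (i : Idx) (z : E), z ∈ UU i → Q i z ∈ O → ∀ᶠ t in 𝓝 z, t ∈ UU i ∧ Q i t ∈ O := by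
    intro i z hz hzO
    exact (UU_nhds' dens i z hz).and
      ((hS.par.smooth i z hz).continuousAt.eventually (hO.mem_nhds hzO))
  have hch : ∀ i : Idx, ∃ w : E → ℝ, (∀ z, z ∈ UU i → Q i z ∈ O → ContDiffAt ℝ ∞ w z) ∧
      ∀ z, z ∈ UU i → Q i z ∈ O → tr i.1 z ∈ W → w z = u (tr i.1 z) := by
    intro i
    obtain ⟨w, hw1, hw2⟩ := gext u i.1 {z | z ∈ UU i ∧ Q i z ∈ O} (fun z hz => hz.1.1)
      (isOpen_iff_mem_nhds.2 fun z hz => hnear i z hz.1 hz.2)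
      (fun z hz => hext i z hz.1 hz.2)
    exact ⟨w, fun z h1 h2 => hw1 z ⟨h1, h2⟩, fun z h1 h2 h3 => hw2 z ⟨h1, h2⟩ h3⟩
  choose wi hwi1 hwi2 using hch
  -- the functions fit together
  have hfit : ∀ (i j : Idx) (z z' : E), z ∈ UU i → z' ∈ UU j → Q i z ∈ O → Q i z = Q j z' →
      wi i z = wi j z' := by
    intro i j z z' hz hz' hzO hQ
    have hzO' : Q j z' ∈ O := hQ ▸ hzO
    have hPP : PP i.1 z = PP j.1 z' := (hS.eqv i j z z' hz hz').1 hQ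
    obtain ⟨φ, hφ, hφz, hφt⟩ : ∃ φ : E → E, AnalyticAt ℂ φ z ∧ φ z = z' ∧
        ∀ᶠ t in 𝓝 z, PP j.1 (φ t) = PP i.1 t := by
      by_cases h : ∀ x y, PP i.1 z ≠ .ord x y
      · exact tre i.1 j.1 z z' hz.1 hz'.1 hPP h
      · push Not at h
        obtain ⟨x, y, hxy⟩ := h
        exact tro i.1 j.1 z z' x y hz.1 hz'.1 hxy (hPP ▸ hxy)
    have hφc : Tendsto φ (𝓝 z) (𝓝 z') := by
      have := hφ.continuousAt.tendsto
      rwa [hφz] at this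
    have h1 : ∀ᶠ t in 𝓝 z, tr i.1 t ∈ W → wi i t = wi j (φ t) := by
      filter_upwards [hnear i z hz hzO, hφc.eventually (hnear j z' hz' hzO'), hφt] with t a1 a2 a3 hW
      obtain ⟨b1, b2, b3⟩ := trw i.1 j.1 t (φ t) a1.1.1 a2.1.1 a3.symm hW
      rw [hwi2 i t a1.1 a1.2 hW, hwi2 j (φ t) a2.1 a2.2 b1]
      have h3 := hper (tr i.1 t).1 (tr i.1 t).2 ((tr j.1 (φ t)).1 - (tr i.1 t).1) b3
      have h4 : ((tr i.1 t).1 + ((tr j.1 (φ t)).1 - (tr i.1 t).1), (tr i.1 t).2) = tr j.1 (φ t) := by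
        rw [← b2]
        ext
        · simp
        · rfl
      rw [h4] at h3
      exact h3.symm
    have h2 : ∃ᶠ t in 𝓝 z, wi i t = wi j (φ t) := by
      have h3 : ∃ᶠ t in 𝓝 z, t ∈ {z' | z' ∈ V i.1 ∧ tr i.1 z' ∈ W} :=
        mem_closure_iff_frequently.1 ((dens i.1).2 z hz.1).1
      refine (h3.and_eventually h1).mono fun t ht => ht.2 ht.1.2
    have h5 : Tendsto (fun t => wi j (φ t)) (𝓝 z) (𝓝 (wi j z')) :=
      (hwi1 j z' hz' hzO').continuousAt.tendsto.comp hφc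
    exact tendsto_nhds_unique_of_frequently_eq (hwi1 i z hz hzO).continuousAt.tendsto h5 h2
  obtain ⟨w, hw⟩ : ∃ w : Y → ℝ, ∀ (i : Idx) (z : E), z ∈ UU i → Q i z ∈ O → w (Q i z) = wi i z := by
    refine ⟨fun p => if h : ∃ iz : Idx × E, iz.2 ∈ UU iz.1 ∧ Q iz.1 iz.2 = p ∧ p ∈ O then
      wi h.choose.1 h.choose.2 else 0, fun i z hz hzO => ?_⟩
    have h : ∃ iz : Idx × E, iz.2 ∈ UU iz.1 ∧ Q iz.1 iz.2 = Q i z ∧ Q i z ∈ O :=
      ⟨(i, z), hz, rfl, hzO⟩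
    show (if h : ∃ iz : Idx × E, iz.2 ∈ UU iz.1 ∧ Q iz.1 iz.2 = Q i z ∧ Q i z ∈ O then
      wi h.choose.1 h.choose.2 else 0) = wi i z
    rw [dif_pos h]
    obtain ⟨c1, c2, c3⟩ := h.choose_spec
    exact hfit _ _ _ _ c1 hz (c2.symm ▸ c3) c2
  refine ⟨w, fun p hp => ?_, fun i z hz hzO hW => ?_⟩
  · obtain ⟨i, z, hz, rfl⟩ := hS.par.surj p
    refine ((discc Y Q hS).2.2 i z w hz).2 ?_
    refine (hwi1 i z hz hp).congr_of_eventuallyEq ?_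
    filter_upwards [hnear i z hz hp] with t ht
    exact hw i t ht.1 ht.2
  · rw [hw i z hz hzO, hwi2 i z hz hzO hW]

end Pool.Agent.Q22.SP
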