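import Pool.Agent.Q22.SP.Stm

/-! Lemma job SP-FUNR (helper22), by helper177. -/

set_option autoImplicit false

namespace Pool.Agent.Q22.SP

open Pool.Agent.Y184.SP Set Topology Filter
open scoped ContDiff Manifold

namespace FUNR

lemma zero_mem_Lam : (0 : ℂ) ∈ Lam := ⟨0, 0, by simp⟩

lemma add_mem_Lam {a b : ℂ} (ha : a ∈ Lam) (hb : b ∈ Lam) : a + b ∈ Lam := by
  obtain ⟨m, n, rfl⟩ := ha
  obtain ⟨m', n', rfl⟩ := hb
  refine ⟨m + m', n + n', ?_⟩
  push_cast
  ring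

lemma sub_mem_Lam {a b : ℂ} (ha : a ∈ Lam) (hb : b ∈ Lam) : a - b ∈ Lam := by
  obtain ⟨m, n, rfl⟩ := ha
  obtain ⟨m', n', rfl⟩ := hb
  refine ⟨m - m', n - n', ?_⟩
  push_cast
  ring

lemma add_mem_Lam_iff {x l : ℂ} (hl : l ∈ Lam) : x + l ∈ Lam ↔ x ∈ Lam := by
  constructor
  · intro h
    have h2 := sub_mem_Lam h hl
    rwa [add_sub_cancel_right] at h2
  · intro h
    exact add_mem_Lam h hl

lemma cls_add {x l : ℂ} (hl : l ∈ Lam) : cls (x + l) = cls x := by
  ext x'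
  change x' - (x + l) ∈ Lam ↔ x' - x ∈ Lam
  have h1 : x' - x = (x' - (x + l)) + l := by ring
  rw [h1, add_mem_Lam_iff hl]

lemma W_sub_V {z : E} (hz : z ∈ W) : z ∈ V 0 := Or.inl hz.1

lemma mem_UU {z : E} (hz : z ∈ W) : z ∈ UU (0, z.1) := by
  refine ⟨W_sub_V hz, fun _ => ?_⟩
  rw [sub_self, norm_zero]
  norm_num

lemma PP_eq (i : Fin 5) (z : E) (h : tr i z ∈ W) : PP i z = PP 0 (tr i z) := by
  have h0 := zero_mem_Lam
  obtain ⟨h1, h2⟩ := h
  fin_cases i
  · rfl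
  · have hz : z.2 ≠ 0 := by
      intro hz
      apply h2
      change z.2⁻¹ = 0
      rw [hz, inv_zero]
    change Pt.ord (cls z.1) (if z.2 = 0 then none else some z.2⁻¹) = _
    rw [if_neg hz]
    rfl
  · have hz : z.2 ≠ 0 := by
      intro hz
      apply h1
      change z.1 * z.2 ∈ Lam
      rw [hz, mul_zero]
      exact h0
    change (if z.2 = 0 then Pt.e1 (some z.1) else .ord (cls (tr 2 z).1) (some (tr 2 z).2)) = _
    rw [if_neg hz]
    rfl
  · have hz1 : z.1 ≠ 0 := by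
      intro hz
      apply h1
      change z.1 * z.2 ∈ Lam
      rw [hz, zero_mul]
      exact h0
    have hz2 : z.2 ≠ 0 := by
      intro hz
      apply h1
      change z.1 * z.2 ∈ Lam
      rw [hz, mul_zero]
      exact h0
    change (if z.1 = 0 then Pt.e1 (if z.2 = 0 then none else some z.2⁻¹) else
      if z.2 = 0 then .e2 z.1⁻¹ else .ord (cls (tr 3 z).1) (some (tr 3 z).2)) = _
    rw [if_neg hz1, if_neg hz2]
    rfl
  · have hz1 : z.1 ≠ 0 := by
      intro hz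
      apply h1
      change z.1 ∈ Lam
      rw [hz]
      exact h0
    change (if z.1 = 0 then Pt.e2 z.2 else .ord (cls (tr 4 z).1) (some (tr 4 z).2)) = _
    rw [if_neg hz1]
    rfl

lemma Q_eq {Y : Type} [TopologicalSpace Y] [ChartedSpace E Y] {Q : Idx → E → Y} (hS : Surf Y Q)
    {i : Idx} {z : E} (hz : z ∈ UU i) (h : tr i.1 z ∈ W) :
    Q i z = Q (0, (tr i.1 z).1) (tr i.1 z) :=
  (hS.eqv i (0, (tr i.1 z).1) z (tr i.1 z) hz (mem_UU h)).2 (PP_eq i.1 z h)

end FUNR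

open FUNR in
open Classical in
theorem t_FUNR (dens : S_DENS) (_trw : S_TRW) (discc : S_DISCC) : S_FUNR := by
  intro Y _ _ Q hS w hw
  have hD := (discc Y Q hS).2.2
  have key : ∀ i : Idx, ∀ z ∈ UU i, tr i.1 z ∈ W →
      w (Q i z) = (fun z : E => if z ∈ W then w (Q (0, z.1) z) else 0) (tr i.1 z) := by
    intro i z hz h
    simp only [if_pos h]
    rw [Q_eq hS hz h]
  refine ⟨fun z : E => if z ∈ W then w (Q (0, z.1) z) else 0, ?_, ?_, key⟩
  · intro x y l hl
    have hiff : ((x + l, y) : E) ∈ W ↔ ((x, y) : E) ∈ W := by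
      change (x + l ∉ Lam ∧ y ≠ 0) ↔ (x ∉ Lam ∧ y ≠ 0)
      rw [add_mem_Lam_iff hl]
    by_cases h : ((x, y) : E) ∈ W
    · have h' := hiff.2 h
      simp only [if_pos h, if_pos h']
      congr 1
      refine (hS.eqv (0, x + l) (0, x) (x + l, y) (x, y) (mem_UU h') (mem_UU h)).2 ?_
      change Pt.ord (cls (x + l)) (some y) = Pt.ord (cls x) (some y)
      rw [cls_add hl]
    · have h' : ((x + l, y) : E) ∉ W := fun h2 => h (hiff.1 h2)
      simp only [if_neg h, if_neg h']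
  · intro j z hz
    have hev : ∀ᶠ z' in 𝓝 z, z' ∈ UU (j, z.1) := by
      have h1 : ∀ᶠ z' in 𝓝 z, z' ∈ V j := (dens j).1.mem_nhds hz
      have h2 : ∀ᶠ z' : E in 𝓝 z, ‖z'.1 - z.1‖ < 1 / 2 := by
        have hc : ContinuousAt (fun z' : E => ‖z'.1 - z.1‖) z := by fun_prop
        have h3 : (fun z' : E => ‖z'.1 - z.1‖) z < 1 / 2 := by
          simp
        exact hc.eventually_lt continuousAt_const h3
      filter_upwards [h1, h2] with z' h3 h4
      exact ⟨h3, fun _ => h4⟩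
    refine ⟨fun t => w (Q (j, z.1) t), ?_, ?_⟩
    · filter_upwards [hev] with z' hz'
      exact (hD (j, z.1) z' w hz').1 (hw _)
    · filter_upwards [hev] with z' hz' h
      exact key (j, z.1) z' hz' h

end Pool.Agent.Q22.SP
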