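import Pool.Agent.Q22.SP.Stm

set_option autoImplicit false

open Set Topology Filter
open scoped ContDiff Manifold

namespace Pool.Agent.Q22.SP

open Pool.Agent.Y184.SP

/-- Two functions which are continuous at `z` and agree near `z` on `{tr j ∈ W}` agree at `z`. -/
theorem gext_eq_of_dense (dens : S_DENS) {f g : E → ℝ} {j : Fin 5} {z : E} (hz : z ∈ V j)
    (hf : ContinuousAt f z) (hg : ContinuousAt g z)
    (h : ∀ᶠ z' in 𝓝 z, tr j z' ∈ W → f z' = g z') : f z = g z := by
  have h0 := ((dens j).2 z hz).1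
  have : (𝓝[{z' | z' ∈ V j ∧ tr j z' ∈ W}] z).NeBot := mem_closure_iff_nhdsWithin_neBot.1 h0
  refine tendsto_nhds_unique (f := f) (l := 𝓝[{z' | z' ∈ V j ∧ tr j z' ∈ W}] z)
    (hf.tendsto.mono_left nhdsWithin_le_nhds)
    ((hg.tendsto.mono_left nhdsWithin_le_nhds).congr' ?_)
  filter_upwards [nhdsWithin_le_nhds h, self_mem_nhdsWithin] with z' h1 h2
  exact (h1 h2.2).symm

theorem t_GEXT (dens : S_DENS) : S_GEXT := by
  classical
  intro u j O hOV hO hext
  choose! f hf using hext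
  let w : E → ℝ := fun z => f z z
  have key : ∀ z ∈ O, w =ᶠ[𝓝 z] f z := by
    intro z hz
    have h1 : ∀ᶠ z' in 𝓝 z, ∀ᶠ z'' in 𝓝 z', tr j z'' ∈ W → f z z'' = u (tr j z'') :=
      (hf z hz).2.eventually_nhds
    filter_upwards [hO.mem_nhds hz, (hf z hz).1, h1] with z' hz' h2 h3
    have h4 := hf z' hz'
    have h5 : ContinuousAt (f z') z' := h4.1.self_of_nhds.continuousAt
    have h6 : ContinuousAt (f z) z' := h2.continuousAt
    refine gext_eq_of_dense dens (f := f z') (g := f z) (hOV hz') h5 h6 ?_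
    filter_upwards [h3, h4.2] with z'' h7 h8 h9
    rw [h7 h9, h8 h9]
  refine ⟨w, fun z hz => ?_, fun z hz hW => ?_⟩
  · exact ((hf z hz).1.self_of_nhds).congr_of_eventuallyEq (key z hz)
  · exact (hf z hz).2.self_of_nhds hW

end Pool.Agent.Q22.SP
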