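import Pool.Agent.Q22.SP.Stm

/-!
# Project SP: gluing of charts (job GLUE)
-/

set_option autoImplicit false

open Set Topology Filter
open scoped ContDiff Manifold

namespace Pool.Agent.Q22.SP.GLUE

open Pool.Agent.Y184.SP Pool.Agent.Q22.SP

/-- the topology defined by the coordinates -/
def topQ {I Y : Type} (U : I → Set E) (Q : I → E → Y) (op : ∀ i, IsOpen (U i)) :
    TopologicalSpace Y where
  IsOpen S := ∀ i, IsOpen (U i ∩ Q i ⁻¹' S)
  isOpen_univ := by
    intro i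
    rw [preimage_univ, inter_univ]
    exact op i
  isOpen_inter := by
    intro s t hs ht i
    rw [preimage_inter, inter_inter_distrib_left]
    exact (hs i).inter (ht i)
  isOpen_sUnion := by
    intro S hS i
    rw [preimage_sUnion, inter_iUnion₂]
    exact isOpen_biUnion fun s hs => hS s hs i

variable {I Y : Type} {U : I → Set E} {Q : I → E → Y}

/-- images of open sets are open -/
theorem opn (op : ∀ i, IsOpen (U i))
    (tr : ∀ i j z z', z ∈ U i → z' ∈ U j → Q i z = Q j z' →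
      ∃ φ : E → E, AnalyticAt ℂ φ z ∧ φ z = z' ∧ ∀ᶠ t in 𝓝 z, Q j (φ t) = Q i t)
    (i : I) (O : Set E) (hO : O ⊆ U i) (h : IsOpen O) : IsOpen[topQ U Q op] (Q i '' O) := by
  intro j
  rw [isOpen_iff_mem_nhds]
  rintro z' ⟨hz', z, hz, he⟩
  obtain ⟨φ, ha, hφ, hev⟩ := tr j i z' z hz' (hO hz) he.symm
  have h1 : ∀ᶠ t in 𝓝 z', φ t ∈ O := by
    have hc : Tendsto φ (𝓝 z') (𝓝 (φ z')) := ha.continuousAt
    exact hc.eventually (by rw [hφ]; exact h.mem_nhds hz)
  filter_upwards [hev, h1, (op j).mem_nhds hz'] with t ht1 ht2 ht3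
  exact ⟨ht3, φ t, ht2, ht1⟩

theorem cont (op : ∀ i, IsOpen (U i)) (i : I) :
    @ContinuousOn E Y _ (topQ U Q op) (Q i) (U i) := by
  letI := topQ U Q op
  rw [continuousOn_open_iff (op i)]
  intro t ht
  exact ht i

/-- the coordinates as local homeomorphism -/
noncomputable def eH [Nonempty E] (op : ∀ i, IsOpen (U i)) (inj : ∀ i, InjOn (Q i) (U i))
    (tr : ∀ i j z z', z ∈ U i → z' ∈ U j → Q i z = Q j z' →
      ∃ φ : E → E, AnalyticAt ℂ φ z ∧ φ z = z' ∧ ∀ᶠ t in 𝓝 z, Q j (φ t) = Q i t) (i : I) :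
    @OpenPartialHomeomorph E Y _ (topQ U Q op) :=
  letI := topQ U Q op
  OpenPartialHomeomorph.ofContinuousOpenRestrict
    ((inj i).bijOn_image.toPartialEquiv (Q i) (U i) (Q i '' U i)) (cont op i)
    (by
      intro O hO
      obtain ⟨O', hO', rfl⟩ := isOpen_induced_iff.1 hO
      have : (U i).restrict (Q i) '' (Subtype.val ⁻¹' O') = Q i '' (U i ∩ O') := by
        ext q
        constructor
        · rintro ⟨⟨z, hz⟩, hz', rfl⟩
          exact ⟨z, ⟨hz, hz'⟩, rfl⟩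
        · rintro ⟨z, ⟨hz, hz'⟩, rfl⟩
          exact ⟨⟨z, hz⟩, hz', rfl⟩
      show IsOpen ((U i).restrict (Q i) '' (Subtype.val ⁻¹' O'))
      rw [this]
      exact opn op tr i _ inter_subset_left ((op i).inter hO'))
    (op i)

theorem glue_aux (op : ∀ i, IsOpen (U i)) (inj : ∀ i, InjOn (Q i) (U i))
    (surj : ∀ y, ∃ i, ∃ z ∈ U i, Q i z = y)
    (tr : ∀ i j z z', z ∈ U i → z' ∈ U j → Q i z = Q j z' →
      ∃ φ : E → E, AnalyticAt ℂ φ z ∧ φ z = z' ∧ ∀ᶠ t in 𝓝 z, Q j (φ t) = Q i t) :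
    ∃ (_ : TopologicalSpace Y) (_ : ChartedSpace E Y), Params Y U Q := by
  classical
  letI τ : TopologicalSpace Y := topQ U Q op
  have hopn : ∀ i, ∀ O ⊆ U i, IsOpen O → IsOpen (Q i '' O) := opn op tr
  let e : I → OpenPartialHomeomorph E Y := eH op inj tr
  have hes : ∀ i, (e i).source = U i := fun i => rfl
  have het : ∀ i, (e i).target = Q i '' U i := fun i => rfl
  have hef : ∀ i z, e i z = Q i z := fun i z => rfl
  have hsy : ∀ i, ∀ z ∈ U i, (e i).symm (Q i z) = z := fun i z hz => (e i).left_inv hz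
  choose ix zx hzx hqx using surj
  letI cs : ChartedSpace E Y :=
    { atlas := range fun i => (e i).symm
      chartAt := fun y => (e (ix y)).symm
      mem_chart_source := fun y => ⟨zx y, hzx y, hqx y⟩
      chart_mem_atlas := fun y => ⟨ix y, rfl⟩ }
  have hat : ∀ i, (e i).symm ∈ atlas E Y := fun i => ⟨i, rfl⟩
  have hman : IsManifold 𝓘(ℂ, E) ω Y := by
    refine isManifold_of_contDiffOn _ _ _ ?_
    rintro _ _ ⟨i, rfl⟩ ⟨j, rfl⟩
    intro z hz
    have hz1 : z ∈ U i ∧ Q i z ∈ Q j '' U j := by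
      have := hz.1
      simp only [mfld_simps] at this
      exact this
    obtain ⟨hzi, z', hz', hq⟩ := hz1
    obtain ⟨φ, ha, hφ, hev⟩ := tr i j z z' hzi hz' hq.symm
    have h2 : ∀ᶠ t in 𝓝 z, φ t ∈ U j := by
      have hc : Tendsto φ (𝓝 z) (𝓝 (φ z)) := ha.continuousAt
      exact hc.eventually (by rw [hφ]; exact (op j).mem_nhds hz')
    have h3 : (fun t => (e j).symm (Q i t)) =ᶠ[𝓝 z] φ := by
      filter_upwards [hev, h2] with t ht1 ht2
      rw [← ht1]
      exact hsy j _ ht2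
    have h4 : ContDiffAt ℂ ω (fun t => (e j).symm (Q i t)) z :=
      (ha.contDiffAt (n := ω)).congr_of_eventuallyEq h3
    exact h4.contDiffWithinAt
  refine ⟨τ, cs, ⟨hman, ?_, ?_, hopn, ?_⟩⟩
  · intro y
    exact ⟨ix y, zx y, hzx y, hqx y⟩
  · intro i z hz
    have h1 := contMDiffOn_symm_of_mem_maximalAtlas (I := 𝓘(ℂ, E)) (n := ω)
      (IsManifold.subset_maximalAtlas (hat i))
    exact (h1 z hz).contMDiffAt ((op i).mem_nhds hz)
  · intro i z hz
    refine ⟨(e i).symm, hsy i z hz, ?_, ?_, ?_⟩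
    · have h1 := contMDiffOn_of_mem_maximalAtlas (I := 𝓘(ℂ, E)) (n := ω)
        (IsManifold.subset_maximalAtlas (hat i))
      exact (h1 (Q i z) ⟨z, hz, rfl⟩).contMDiffAt
        ((hopn i _ Subset.rfl (op i)).mem_nhds ⟨z, hz, rfl⟩)
    · filter_upwards [(hopn i _ Subset.rfl (op i)).mem_nhds (mem_image_of_mem _ hz)] with q hq
      exact (e i).right_inv hq
    · filter_upwards [(op i).mem_nhds hz] with t ht
      exact hsy i t ht

end Pool.Agent.Q22.SP.GLUE

namespace Pool.Agent.Q22.SP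

open Pool.Agent.Y184.SP

theorem t_GLUE : S_GLUE := by
  classical
  intro I M U P _ hne hG
  obtain ⟨i0, z0, hz0⟩ := hne
  let Y : Type := {m : M // ∃ i, ∃ z ∈ U i, P i z = m}
  let y0 : Y := ⟨P i0 z0, i0, z0, hz0, rfl⟩
  let Q : I → E → Y := fun i z => if h : z ∈ U i then ⟨P i z, i, z, h, rfl⟩ else y0
  have hQ : ∀ i z, z ∈ U i → (Q i z).1 = P i z := by
    intro i z hz
    simp only [Q, dif_pos hz]
  have heq : ∀ i j z z', z ∈ U i → z' ∈ U j → (Q i z = Q j z' ↔ P i z = P j z') := by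
    intro i j z z' hz hz'
    rw [← hQ i z hz, ← hQ j z' hz']
    exact Subtype.ext_iff
  obtain ⟨τ, cs, hp⟩ := GLUE.glue_aux (U := U) (Q := Q) hG.op
    (fun i z hz z' hz' h => hG.inj i hz hz' ((heq i i z z' hz hz').1 h))
    (by
      rintro ⟨m, i, z, hz, rfl⟩
      exact ⟨i, z, hz, Subtype.ext (hQ i z hz)⟩)
    (by
      intro i j z z' hz hz' h
      obtain ⟨φ, ha, hφ, hev⟩ := hG.tr i j z z' hz hz' ((heq i j z z' hz hz').1 h)
      refine ⟨φ, ha, hφ, ?_⟩
      have h2 : ∀ᶠ t in 𝓝 z, φ t ∈ U j := by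
        have hc : Tendsto φ (𝓝 z) (𝓝 (φ z)) := ha.continuousAt
        exact hc.eventually (by rw [hφ]; exact (hG.op j).mem_nhds hz')
      filter_upwards [hev, h2, (hG.op i).mem_nhds hz] with t ht1 ht2 ht3
      exact (heq j i _ _ ht2 ht3).2 ht1)
  exact ⟨Y, τ, cs, Q, hp, heq⟩

end Pool.Agent.Q22.SP
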