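import Pool.Agent.Q22.SP.Stm

set_option autoImplicit false

open Set Topology Filter
open scoped ContDiff Manifold

namespace Pool.Agent.Q22.SP

open Pool.Agent.Y184.SP

/-- The Laplacian of the square of the imaginary part is `2`. -/
theorem gre_lap_im (x : ℂ) : Laplacian.laplacian (fun z : ℂ => z.im ^ 2) x = 2 := by
  rw [InnerProductSpace.laplacian_eq_iteratedFDeriv_complexPlane]
  have h1 : fderiv ℝ (fun z : ℂ => z.im ^ 2) = fun z => (2 * z.im) • Complex.imCLM := by
    funext z
    have h2 : HasFDerivAt (fun z : ℂ => z.im) Complex.imCLM z := Complex.imCLM.hasFDerivAt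
    have h3 := h2.pow 2
    rw [h3.fderiv]
    simp
  have h4 : ∀ z v : ℂ, fderiv ℝ (fderiv ℝ (fun z : ℂ => z.im ^ 2)) z v =
      (2 * v.im) • Complex.imCLM := by
    intro z v
    rw [h1]
    have h5 : HasFDerivAt (fun z : ℂ => 2 * z.im) ((2 : ℝ) • Complex.imCLM) z :=
      Complex.imCLM.hasFDerivAt.const_smul (2 : ℝ)
    have h6 := h5.smul_const Complex.imCLM
    rw [h6.fderiv]
    simp
  simp only [iteratedFDeriv_two_apply, h4]
  simp

theorem gre_smooth_im (x : ℂ) : ContDiffAt ℝ ∞ (fun z : ℂ => z.im ^ 2) x :=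
  (Complex.imCLM.contDiff.pow 2).contDiffAt

theorem gre_smooth_log {f : ℂ → ℂ} (hf : Differentiable ℂ f) {x : ℂ} (hx : f x ≠ 0) :
    ContDiffAt ℝ ∞ (fun z : ℂ => Real.log (‖f z‖ ^ 2)) x := by
  have h1 : ContDiff ℂ ∞ f := hf.contDiff
  have h2 : ContDiff ℝ ∞ f := h1.restrict_scalars ℝ
  have h3 : ContDiff ℝ ∞ (fun z => ‖f z‖ ^ 2) := h2.norm_sq ℝ
  exact h3.contDiffAt.log (by positivity)

theorem gre_lap_log {f : ℂ → ℂ} (hf : Differentiable ℂ f) {x : ℂ} (hx : f x ≠ 0) :
    Laplacian.laplacian (fun z : ℂ => Real.log (‖f z‖ ^ 2)) x = 0 := by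
  have h1 : InnerProductSpace.HarmonicAt (fun z : ℂ => Real.log ‖f z‖) x :=
    AnalyticAt.harmonicAt_log_norm (hf.analyticAt x) hx
  have h2 : (fun z : ℂ => Real.log (‖f z‖ ^ 2)) = (2 : ℝ) • fun z : ℂ => Real.log ‖f z‖ := by
    funext z
    rw [Real.log_pow]
    simp
  rw [h2, InnerProductSpace.laplacian_smul _ h1.1, h1.2.self_of_nhds]
  simp

theorem t_GRE : S_GRE := by
  classical
  rintro ⟨f, hf, hz, hd, h1, hI⟩
  have hz0 : f 0 = 0 := (hz 0).2 ⟨0, 0, by simp⟩
  let g : ℂ → ℂ := dslope f 0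
  have hg : Differentiable ℂ g := by
    rw [← differentiableOn_univ]
    exact (Complex.differentiableOn_dslope univ_mem).2 hf.differentiableOn
  have hfg : ∀ x, f x = x * g x := by
    intro x
    have := sub_smul_dslope f 0 x
    rw [sub_zero, hz0, sub_zero, smul_eq_mul] at this
    exact this.symm
  have hg0 : ∀ x : ℂ, ‖x‖ < 1 / 2 → g x ≠ 0 := by
    intro x hx h0
    by_cases hx0 : x = 0
    · rw [hx0] at h0
      have : g 0 = deriv f 0 := dslope_same f 0
      rw [this] at h0
      exact hd h0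
    · have h2 : f x = 0 := by rw [hfg, h0, mul_zero]
      obtain ⟨m, n, rfl⟩ := (hz x).1 h2
      apply hx0
      have hre := Complex.abs_re_le_norm ((m : ℂ) + n * Complex.I)
      have him := Complex.abs_im_le_norm ((m : ℂ) + n * Complex.I)
      have e1 : ((m : ℂ) + n * Complex.I).re = m := by simp
      have e2 : ((m : ℂ) + n * Complex.I).im = n := by simp
      rw [e1] at hre
      rw [e2] at him
      have hm : m = 0 := by
        have : |(m : ℝ)| < 1 := by linarith
        have h3 : |m| < 1 := by exact_mod_cast this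
        exact Int.abs_lt_one_iff.1 h3
      have hn : n = 0 := by
        have : |(n : ℝ)| < 1 := by linarith
        have h3 : |n| < 1 := by exact_mod_cast this
        exact Int.abs_lt_one_iff.1 h3
      rw [hm, hn]; simp
  let G0 : ℂ → ℝ := fun x => Real.log (‖f x‖ ^ 2) - (2 * Real.pi) * x.im ^ 2
  let G : ℂ → ℝ := fun x => if x ∈ Lam then 0 else G0 x
  have hGG : ∀ x, x ∉ Lam → G =ᶠ[𝓝 x] G0 := by
    intro x hx
    have h2 : f x ≠ 0 := fun h => hx ((hz x).1 h)
    filter_upwards [hf.continuous.continuousAt.eventually_ne h2] with y hy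
    simp only [G]
    rw [if_neg fun h => hy ((hz y).2 h)]
  have hLadd : ∀ x l, l ∈ Lam → (x + l ∈ Lam ↔ x ∈ Lam) := by
    rintro x l ⟨a, b, rfl⟩
    constructor
    · rintro ⟨m, n, h⟩
      exact ⟨m - a, n - b, by push_cast; linear_combination h⟩
    · rintro ⟨m, n, rfl⟩
      exact ⟨m + a, n + b, by push_cast; ring⟩
  have hG1 : ∀ x, G (x + 1) = G x := by
    intro x
    have h2 := hLadd x 1 ⟨1, 0, by simp⟩
    simp only [G]
    by_cases hx : x ∈ Lam
    · rw [if_pos hx, if_pos (h2.2 hx)]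
    · rw [if_neg hx, if_neg (fun h => hx (h2.1 h))]
      simp only [G0]
      rw [h1]
      simp
  have hGI : ∀ x, G (x + Complex.I) = G x := by
    intro x
    have h2 := hLadd x Complex.I ⟨0, 1, by simp⟩
    simp only [G]
    by_cases hx : x ∈ Lam
    · rw [if_pos hx, if_pos (h2.2 hx)]
    · rw [if_neg hx, if_neg (fun h => hx (h2.1 h))]
      have h3 : f x ≠ 0 := fun h => hx ((hz x).1 h)
      have h4 : ‖f x‖ ≠ 0 := norm_ne_zero_iff.2 h3
      simp only [G0]
      rw [hI, mul_pow, Real.log_mul (by positivity) (by positivity), ← Real.exp_nat_mul,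
        Real.log_exp]
      simp
      ring
  have hGn1 : ∀ (n : ℕ) x, G (x + n) = G x := by
    intro n
    induction n with
    | zero => intro x; simp
    | succ n ih =>
      intro x
      rw [show x + ((n + 1 : ℕ) : ℂ) = (x + n) + 1 by push_cast; ring, hG1, ih]
  have hGnI : ∀ (n : ℕ) x, G (x + n * Complex.I) = G x := by
    intro n
    induction n with
    | zero => intro x; simp
    | succ n ih =>
      intro x
      rw [show x + ((n + 1 : ℕ) : ℂ) * Complex.I = (x + n * Complex.I) + Complex.I by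
        push_cast; ring, hGI, ih]
  have hGz1 : ∀ (n : ℤ) x, G (x + n) = G x := by
    intro n x
    rcases Int.eq_nat_or_neg n with ⟨m, rfl | rfl⟩
    · simpa using hGn1 m x
    · have := hGn1 m (x + ((-(m : ℤ) : ℤ) : ℂ))
      rw [← this]
      congr 1
      push_cast
      ring
  have hGzI : ∀ (n : ℤ) x, G (x + n * Complex.I) = G x := by
    intro n x
    rcases Int.eq_nat_or_neg n with ⟨m, rfl | rfl⟩
    · simpa using hGnI m x
    · have := hGnI m (x + ((-(m : ℤ) : ℤ) : ℂ) * Complex.I)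
      rw [← this]
      congr 1
      push_cast
      ring
  refine ⟨G, fun x => Real.log (‖g x‖ ^ 2) - (2 * Real.pi) * x.im ^ 2, 4 * Real.pi, ?_⟩
  refine ⟨by positivity, ?_, ?_, ?_, ?_, ?_⟩
  · rintro x l ⟨m, n, rfl⟩
    rw [← add_assoc, hGzI, hGz1]
  · intro x hx
    have h2 : f x ≠ 0 := fun h => hx ((hz x).1 h)
    refine ContDiffAt.congr_of_eventuallyEq ?_ (hGG x hx)
    exact (gre_smooth_log hf h2).sub (contDiffAt_const.mul (gre_smooth_im x))
  · intro x hx
    have h2 : f x ≠ 0 := fun h => hx ((hz x).1 h)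
    have e0 := (InnerProductSpace.laplacian_congr_nhds (hGG x hx)).self_of_nhds
    rw [e0]
    have s1 : ContDiffAt ℝ 2 (fun z : ℂ => Real.log (‖f z‖ ^ 2)) x :=
      (gre_smooth_log hf h2).of_le (by decide)
    have s2 : ContDiffAt ℝ 2 (fun z : ℂ => z.im ^ 2) x :=
      (gre_smooth_im x).of_le (by decide)
    have s3 : ContDiffAt ℝ 2 ((-(2 * Real.pi)) • fun z : ℂ => z.im ^ 2) x :=
      ContDiffAt.const_smul (-(2 * Real.pi)) s2
    have e1 : G0 = (fun z : ℂ => Real.log (‖f z‖ ^ 2)) + (-(2 * Real.pi)) • fun z : ℂ => z.im ^ 2 := by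
      funext z
      simp only [G0, Pi.add_apply, Pi.smul_apply, smul_eq_mul]
      ring
    rw [e1, ContDiffAt.laplacian_add s1 s3,
      InnerProductSpace.laplacian_smul _ s2, gre_lap_log hf h2, gre_lap_im]
    simp
    ring
  · intro x hx
    exact (gre_smooth_log hg (hg0 x hx)).sub (contDiffAt_const.mul (gre_smooth_im x))
  · intro x hx hx0
    have h2 : x ∉ Lam := by
      intro h
      have h3 : f x = 0 := (hz x).2 h
      rw [hfg] at h3
      rcases mul_eq_zero.1 h3 with h4 | h4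
      · exact hx0 h4
      · exact hg0 x hx h4
    simp only [G]
    rw [if_neg h2]
    simp only [G0]
    have h5 : ‖x‖ ≠ 0 := norm_ne_zero_iff.2 hx0
    have h6 : ‖g x‖ ≠ 0 := norm_ne_zero_iff.2 (hg0 x hx)
    rw [hfg x, norm_mul, mul_pow, Real.log_mul (by positivity) (by positivity)]
    ring

end Pool.Agent.Q22.SP
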