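import Pool.Agent.Q22.SP.Stm

/-!
# Project SP (helper22), MP_4ff127_gt: the surface is Hausdorff (helper235)
-/

set_option autoImplicit false

open Set Topology Filter
open scoped ContDiff Manifold

namespace Pool.Agent.Q22.SP

open Pool.Agent.Y184.SP

namespace HAUS

theorem lam_iff (x : ℂ) : x ∈ Lam ↔ (∃ m : ℤ, (m : ℝ) = x.re) ∧ ∃ n : ℤ, (n : ℝ) = x.im := by
  constructor
  · rintro ⟨m, n, rfl⟩
    exact ⟨⟨m, by simp⟩, ⟨n, by simp⟩⟩
  · rintro ⟨⟨m, hm⟩, ⟨n, hn⟩⟩
    exact ⟨m, n, Complex.ext (by simp [hm]) (by simp [hn])⟩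

theorem lam_closed : IsClosed Lam := by
  have h : Lam = (Complex.re ⁻¹' (range ((↑) : ℤ → ℝ))) ∩
      (Complex.im ⁻¹' (range ((↑) : ℤ → ℝ))) := by
    ext x
    rw [lam_iff]
    rfl
  rw [h]
  exact (Int.isClosedEmbedding_coe_real.isClosed_range.preimage Complex.continuous_re).inter
    (Int.isClosedEmbedding_coe_real.isClosed_range.preimage Complex.continuous_im)

theorem lam_zero : (0 : ℂ) ∈ Lam := ⟨0, 0, by simp⟩

theorem lam_sub {x y : ℂ} (hx : x ∈ Lam) (hy : y ∈ Lam) : x - y ∈ Lam := by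
  obtain ⟨m, n, rfl⟩ := hx
  obtain ⟨m', n', rfl⟩ := hy
  exact ⟨m - m', n - n', by push_cast; ring⟩

theorem lam_neg {x y : ℂ} (h : x - y ∈ Lam) : y - x ∈ Lam := by
  have h1 := lam_sub lam_zero h
  rwa [zero_sub, neg_sub] at h1

theorem lam_small {x : ℂ} (hx : x ∈ Lam) (h : ‖x‖ < 1) : x = 0 := by
  obtain ⟨⟨m, hm⟩, ⟨n, hn⟩⟩ := (lam_iff x).1 hx
  have h1 := (Complex.abs_re_le_norm x).trans_lt h
  have h2 := (Complex.abs_im_le_norm x).trans_lt h
  rw [← hm] at h1
  rw [← hn] at h2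
  have h3 : m = 0 := by
    have h4 : |m| < 1 := by exact_mod_cast h1
    exact Int.abs_lt_one_iff.1 h4
  have h5 : n = 0 := by
    have h4 : |n| < 1 := by exact_mod_cast h2
    exact Int.abs_lt_one_iff.1 h4
  subst h3
  subst h5
  exact Complex.ext (by simpa using hm.symm) (by simpa using hn.symm)

theorem cls_eq {x x' : ℂ} (h : x' - x ∈ Lam) : cls x = cls x' := by
  ext u
  change u - x ∈ Lam ↔ u - x' ∈ Lam
  constructor
  · intro hu
    have h1 := lam_sub hu h
    rwa [sub_sub_sub_cancel_right] at h1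
  · intro hu
    have h1 := lam_sub hu (lam_neg h)
    rwa [sub_sub_sub_cancel_right] at h1

/-- two points of `W` in two coordinate systems which give the same point -/
structure Rel (i j : Fin 5) (t t' : E) : Prop where
  v : t ∈ V i
  v' : t' ∈ V j
  w : tr i t ∈ W
  w' : tr j t' ∈ W
  y : (tr j t').2 = (tr i t).2
  x : (tr j t').1 - (tr i t).1 ∈ Lam

theorem Rel.symm {i j : Fin 5} {t t' : E} (h : Rel i j t t') : Rel j i t' t :=
  ⟨h.v', h.v, h.w', h.w, h.y.symm, lam_neg h.x⟩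

theorem cont_x (i : Fin 5) : Continuous fun z : E => (tr i z).1 := by
  fin_cases i
  · exact continuous_fst
  · exact continuous_fst
  · exact continuous_fst.mul continuous_snd
  · exact continuous_fst.mul continuous_snd
  · exact continuous_fst

theorem cont_y (i : Fin 5) (hi : i ≠ 1) : Continuous fun z : E => (tr i z).2 := by
  fin_cases i
  · exact continuous_snd
  · exact absurd rfl hi
  · exact continuous_snd.add (continuous_fst.mul continuous_snd)
  · exact (continuous_fst.mul (continuous_snd.pow 2)).add (continuous_fst.mul continuous_snd)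
  · exact ((continuous_fst.pow 2).mul continuous_snd).add continuous_fst

theorem small {i : Fin 5} (hi : 2 ≤ i) {z : E} (hz : z ∈ V i) : ‖(tr i z).1‖ < 1 / 8 := by
  fin_cases i
  · exact absurd hi (by decide)
  · exact absurd hi (by decide)
  · exact hz.1
  · exact hz.1
  · exact hz.1

theorem eq_of_small {i j : Fin 5} (hi : 2 ≤ i) (hj : 2 ≤ j) {z z' : E} (hz : z ∈ V i)
    (hz' : z' ∈ V j) (h : (tr j z').1 - (tr i z).1 ∈ Lam) : (tr j z').1 = (tr i z).1 := by
  have h1 := small hi hz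
  have h2 := small hj hz'
  have h3 : ‖(tr j z').1 - (tr i z).1‖ < 1 := by
    have := norm_sub_le (tr j z').1 (tr i z).1
    linarith
  exact sub_eq_zero.1 (lam_small h h3)

theorem ne_zero_of_w {i : Fin 5} {t : E} (h : tr i t ∈ W) : (tr i t).1 ≠ 0 := by
  intro h0
  apply h.1
  rw [h0]
  exact lam_zero

/-- the exceptional points -/
def Exc (i : Fin 5) (z : E) : Prop := 2 ≤ i ∧ (tr i z).1 = 0 ∧ (tr i z).2 = 0

theorem not_exc {i : Fin 5} (hi : i ≠ 1) {z : E} (hz : z ∈ V i) (h : ¬ Exc i z) :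
    (tr i z).1 ∉ Lam ∨ (tr i z).2 ≠ 0 := by
  by_cases h2 : 2 ≤ i
  · by_contra hc
    push Not at hc
    refine h ⟨h2, lam_small hc.1 ?_, hc.2⟩
    have := small h2 hz
    linarith
  · have h0 : i = 0 := by
      fin_cases i
      · rfl
      · exact absurd rfl hi
      · exact absurd (by decide) h2
      · exact absurd (by decide) h2
      · exact absurd (by decide) h2
    subst h0
    exact hz

theorem pp_of_not_exc {i : Fin 5} (hi : i ≠ 1) {z : E} (h : ¬ Exc i z) :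
    PP i z = .ord (cls (tr i z).1) (some (tr i z).2) := by
  fin_cases i
  · rfl
  · exact absurd rfl hi
  · have h1 : z.2 ≠ 0 := by
      intro h0
      refine h ⟨by decide, ?_, ?_⟩
      · change z.1 * z.2 = 0
        rw [h0, mul_zero]
      · change z.2 + z.1 * z.2 = 0
        rw [h0, mul_zero, add_zero]
    exact if_neg h1
  · have h1 : z.1 ≠ 0 := by
      intro h0
      refine h ⟨by decide, ?_, ?_⟩
      · change z.1 * z.2 = 0
        rw [h0, zero_mul]
      · change z.1 * z.2 ^ 2 + z.1 * z.2 = 0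
        rw [h0, zero_mul, zero_mul, add_zero]
    have h2 : z.2 ≠ 0 := by
      intro h0
      refine h ⟨by decide, ?_, ?_⟩
      · change z.1 * z.2 = 0
        rw [h0, mul_zero]
      · change z.1 * z.2 ^ 2 + z.1 * z.2 = 0
        rw [h0]
        ring
    exact (if_neg h1).trans (if_neg h2)
  · have h1 : z.1 ≠ 0 := by
      intro h0
      refine h ⟨by decide, h0, ?_⟩
      change z.1 ^ 2 * z.2 + z.1 = 0
      rw [h0]
      ring
    exact if_neg h1

section

variable {i j : Fin 5} {z z' : E}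

theorem swap_mem (h : (z, z') ∈ closure {p : E × E | Rel i j p.1 p.2}) :
    (z', z) ∈ closure {p : E × E | Rel j i p.1 p.2} :=
  map_mem_closure (f := Prod.swap) (s := {p : E × E | Rel i j p.1 p.2})
    (t := {p : E × E | Rel j i p.1 p.2}) continuous_swap h fun _ hp => Rel.symm hp

theorem lim_x (h : (z, z') ∈ closure {p : E × E | Rel i j p.1 p.2}) :
    (tr j z').1 - (tr i z).1 ∈ Lam := by
  have hc : IsClosed {p : E × E | (tr j p.2).1 - (tr i p.1).1 ∈ Lam} :=
    lam_closed.preimage (((cont_x j).comp continuous_snd).sub ((cont_x i).comp continuous_fst))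
  exact closure_minimal (fun p hp => hp.x) hc h

theorem lim_y (hi : i ≠ 1) (hj : j ≠ 1) (h : (z, z') ∈ closure {p : E × E | Rel i j p.1 p.2}) :
    (tr j z').2 = (tr i z).2 := by
  have hc : IsClosed {p : E × E | (tr j p.2).2 = (tr i p.1).2} :=
    isClosed_eq ((cont_y j hj).comp continuous_snd) ((cont_y i hi).comp continuous_fst)
  exact closure_minimal (fun p hp => hp.y) hc h

theorem case11 (h : (z, z') ∈ closure {p : E × E | Rel 1 1 p.1 p.2}) : PP 1 z = PP 1 z' := by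
  have hc : IsClosed {p : E × E | p.2.2 = p.1.2} :=
    isClosed_eq (continuous_snd.comp continuous_snd) (continuous_snd.comp continuous_fst)
  have h2 : z'.2 = z.2 := closure_minimal (fun p hp => inv_injective hp.y) hc h
  have h1 : z'.1 - z.1 ∈ Lam := lim_x h
  have h3 := cls_eq h1
  change Pt.ord (cls z.1) (if z.2 = 0 then none else some z.2⁻¹) =
    Pt.ord (cls z'.1) (if z'.2 = 0 then none else some z'.2⁻¹)
  rw [h2, h3]

theorem case1 (hj : j ≠ 1) (h : (z, z') ∈ closure {p : E × E | Rel 1 j p.1 p.2}) :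
    PP 1 z = PP j z' := by
  have hc : IsClosed {p : E × E | p.1.2 * (tr j p.2).2 = 1} :=
    isClosed_eq ((continuous_snd.comp continuous_fst).mul ((cont_y j hj).comp continuous_snd))
      continuous_const
  have h2 : z.2 * (tr j z').2 = 1 := by
    refine closure_minimal (fun p hp => ?_) hc h
    have h3 : (tr j p.2).2 = p.1.2⁻¹ := hp.y
    have h4 : p.1.2⁻¹ ≠ 0 := hp.w.2
    change p.1.2 * (tr j p.2).2 = 1
    rw [h3]
    exact mul_inv_cancel₀ fun h0 => h4 (by rw [h0, inv_zero])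
  have h1 : (tr j z').1 - z.1 ∈ Lam := lim_x h
  have h5 : z.2 ≠ 0 := left_ne_zero_of_mul_eq_one h2
  have h6 : (tr j z').2 ≠ 0 := right_ne_zero_of_mul_eq_one h2
  have h7 : (tr j z').2 = z.2⁻¹ := eq_inv_of_mul_eq_one_right h2
  rw [pp_of_not_exc hj fun he => h6 he.2.2, h7, ← cls_eq h1]
  exact congrArg (Pt.ord (cls z.1)) (if_neg h5)

theorem case_ord (hi : i ≠ 1) (hj : j ≠ 1) (he : ¬ Exc i z) (he' : ¬ Exc j z')
    (h : (z, z') ∈ closure {p : E × E | Rel i j p.1 p.2}) : PP i z = PP j z' := by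
  rw [pp_of_not_exc hi he, pp_of_not_exc hj he', lim_y hi hj h, cls_eq (lim_x h)]

theorem exc_of (hi : i ≠ 1) (hj : j ≠ 1) (hz' : z' ∈ V j) (he : Exc i z)
    (h : (z, z') ∈ closure {p : E × E | Rel i j p.1 p.2}) : Exc j z' := by
  by_contra hc
  have h1 := not_exc hj hz' hc
  have h2 := lim_x h
  have h3 := lim_y hi hj h
  rw [he.2.1, sub_zero] at h2
  rw [he.2.2] at h3
  exact h1.elim (fun h4 => h4 h2) (fun h4 => h4 h3)

theorem rel_eqs (hi : 2 ≤ i) (hj : 2 ≤ j) {t t' : E} (h : Rel i j t t') :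
    (tr j t').1 = (tr i t).1 ∧ (tr j t').2 = (tr i t).2 ∧ (tr i t).1 ≠ 0 :=
  ⟨eq_of_small hi hj h.v h.v' h.x, h.y, ne_zero_of_w h.w⟩

theorem case22 (h : (z, z') ∈ closure {p : E × E | Rel 2 2 p.1 p.2}) : PP 2 z = PP 2 z' := by
  have hc : IsClosed {p : E × E | p.1 = p.2} := isClosed_eq continuous_fst continuous_snd
  have h2 : z = z' := by
    refine closure_minimal (fun p hp => ?_) hc h
    obtain ⟨e1, e2, e3⟩ := rel_eqs (by decide) (by decide) hp
    have e1' : p.2.1 * p.2.2 = p.1.1 * p.1.2 := e1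
    have e2' : p.2.2 + p.2.1 * p.2.2 = p.1.2 + p.1.1 * p.1.2 := e2
    have e3' : p.1.1 * p.1.2 ≠ 0 := e3
    have e4 : p.2.2 = p.1.2 := by
      rw [e1'] at e2'
      exact add_right_cancel e2'
    rw [e4] at e1'
    exact Prod.ext (mul_right_cancel₀ (right_ne_zero_of_mul e3') e1').symm e4.symm
  rw [h2]

theorem case33 (h : (z, z') ∈ closure {p : E × E | Rel 3 3 p.1 p.2}) : PP 3 z = PP 3 z' := by
  have hc : IsClosed {p : E × E | p.1 = p.2} := isClosed_eq continuous_fst continuous_snd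
  have h2 : z = z' := by
    refine closure_minimal (fun p hp => ?_) hc h
    obtain ⟨e1, e2, e3⟩ := rel_eqs (by decide) (by decide) hp
    have e1' : p.2.1 * p.2.2 = p.1.1 * p.1.2 := e1
    have e2' : p.2.1 * p.2.2 ^ 2 + p.2.1 * p.2.2 = p.1.1 * p.1.2 ^ 2 + p.1.1 * p.1.2 := e2
    have e3' : p.1.1 * p.1.2 ≠ 0 := e3
    have e4 : p.2.2 = p.1.2 := by
      have e5 : p.1.1 * p.1.2 * p.2.2 = p.1.1 * p.1.2 * p.1.2 := by
        linear_combination e2' - e1' - p.2.2 * e1'
      exact mul_left_cancel₀ e3' e5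
    rw [e4] at e1'
    exact Prod.ext (mul_right_cancel₀ (right_ne_zero_of_mul e3') e1').symm e4.symm
  rw [h2]

theorem case44 (h : (z, z') ∈ closure {p : E × E | Rel 4 4 p.1 p.2}) : PP 4 z = PP 4 z' := by
  have hc : IsClosed {p : E × E | p.1 = p.2} := isClosed_eq continuous_fst continuous_snd
  have h2 : z = z' := by
    refine closure_minimal (fun p hp => ?_) hc h
    obtain ⟨e1, e2, e3⟩ := rel_eqs (by decide) (by decide) hp
    have e1' : p.2.1 = p.1.1 := e1
    have e2' : p.2.1 ^ 2 * p.2.2 + p.2.1 = p.1.1 ^ 2 * p.1.2 + p.1.1 := e2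
    have e3' : p.1.1 ≠ 0 := e3
    have e4 : p.2.2 = p.1.2 := by
      rw [e1'] at e2'
      exact mul_left_cancel₀ (pow_ne_zero 2 e3') (add_right_cancel e2')
    exact Prod.ext e1'.symm e4.symm
  rw [h2]

theorem case23 (he : Exc 2 z) (h : (z, z') ∈ closure {p : E × E | Rel 2 3 p.1 p.2}) :
    PP 2 z = PP 3 z' := by
  have hc : IsClosed {p : E × E | p.1.1 * p.2.2 = 1 ∧ p.2.1 = p.1.1 ^ 2 * p.1.2} :=
    (isClosed_eq (by fun_prop) (by fun_prop)).inter (isClosed_eq (by fun_prop) (by fun_prop))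
  obtain ⟨h1, h2⟩ : z.1 * z'.2 = 1 ∧ z'.1 = z.1 ^ 2 * z.2 := by
    refine closure_minimal (fun p hp => ?_) hc h
    obtain ⟨e1, e2, e3⟩ := rel_eqs (by decide) (by decide) hp
    have e1' : p.2.1 * p.2.2 = p.1.1 * p.1.2 := e1
    have e2' : p.2.1 * p.2.2 ^ 2 + p.2.1 * p.2.2 = p.1.2 + p.1.1 * p.1.2 := e2
    have e3' : p.1.1 * p.1.2 ≠ 0 := e3
    have e4 : p.1.1 * p.2.2 = 1 := by
      refine mul_left_cancel₀ e3' ?_
      linear_combination p.1.1 * e2' - p.1.1 * e1' - p.1.1 * p.2.2 * e1'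
    refine ⟨e4, ?_⟩
    linear_combination p.1.1 * e1' - p.2.1 * e4
  have h3 : z.2 = 0 := by
    have h4 : z.1 * z.2 = 0 := he.2.1
    have h5 : z.2 + z.1 * z.2 = 0 := he.2.2
    rwa [h4, add_zero] at h5
  have h4 : z'.1 = 0 := by rw [h2, h3, mul_zero]
  have h5 : z'.2 ≠ 0 := right_ne_zero_of_mul_eq_one h1
  have h6 : z'.2⁻¹ = z.1 := (eq_inv_of_mul_eq_one_left h1).symm
  refine (if_pos h3).trans (Eq.trans ?_ (if_pos h4).symm)
  rw [if_neg h5, h6]

theorem case34 (he : Exc 3 z) (h : (z, z') ∈ closure {p : E × E | Rel 3 4 p.1 p.2}) :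
    PP 3 z = PP 4 z' := by
  have hc : IsClosed {p : E × E | p.1.1 * p.2.2 = 1 ∧ p.2.1 = p.1.1 * p.1.2} :=
    (isClosed_eq (by fun_prop) (by fun_prop)).inter (isClosed_eq (by fun_prop) (by fun_prop))
  obtain ⟨h1, h2⟩ : z.1 * z'.2 = 1 ∧ z'.1 = z.1 * z.2 := by
    refine closure_minimal (fun p hp => ?_) hc h
    obtain ⟨e1, e2, e3⟩ := rel_eqs (by decide) (by decide) hp
    have e1' : p.2.1 = p.1.1 * p.1.2 := e1
    have e2' : p.2.1 ^ 2 * p.2.2 + p.2.1 = p.1.1 * p.1.2 ^ 2 + p.1.1 * p.1.2 := e2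
    have e3' : p.1.1 * p.1.2 ≠ 0 := e3
    have e4 : p.1.1 * p.2.2 = 1 := by
      have e5 : p.1.1 * p.1.2 * p.1.2 ≠ 0 := mul_ne_zero e3' (right_ne_zero_of_mul e3')
      refine mul_left_cancel₀ e5 ?_
      rw [e1'] at e2'
      linear_combination e2'
    exact ⟨e4, e1'⟩
  have h0 : z.1 ≠ 0 := left_ne_zero_of_mul_eq_one h1
  have h3 : z.2 = 0 := by
    have h4 : z.1 * z.2 = 0 := he.2.1
    exact (mul_eq_zero.1 h4).resolve_left h0
  have h4 : z'.1 = 0 := by rw [h2, h3, mul_zero]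
  have h6 : z.1⁻¹ = z'.2 := (eq_inv_of_mul_eq_one_right h1).symm
  refine (if_neg h0).trans ((if_pos h3).trans (Eq.trans ?_ (if_pos h4).symm))
  rw [h6]

theorem case24 (he' : Exc 4 z') (h : (z, z') ∈ closure {p : E × E | Rel 2 4 p.1 p.2}) :
    PP 2 z = PP 4 z' := by
  have hc : IsClosed {p : E × E | p.1.1 * p.2.1 * p.2.2 = 1} :=
    isClosed_eq (by fun_prop) (by fun_prop)
  have h1 : z.1 * z'.1 * z'.2 = 1 := by
    refine closure_minimal (fun p hp => ?_) hc h
    obtain ⟨e1, e2, e3⟩ := rel_eqs (by decide) (by decide) hp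
    have e1' : p.2.1 = p.1.1 * p.1.2 := e1
    have e2' : p.2.1 ^ 2 * p.2.2 + p.2.1 = p.1.2 + p.1.1 * p.1.2 := e2
    have e3' : p.1.1 * p.1.2 ≠ 0 := e3
    refine mul_left_cancel₀ (right_ne_zero_of_mul e3') ?_
    rw [e1'] at e2' ⊢
    linear_combination e2'
  have h2 : z'.1 = 0 := he'.2.1
  rw [h2, mul_zero, zero_mul] at h1
  exact absurd h1 zero_ne_one

theorem case_exc (he : Exc i z) (he' : Exc j z')
    (h : (z, z') ∈ closure {p : E × E | Rel i j p.1 p.2}) : PP i z = PP j z' := by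
  have h1 := he.1
  have h2 := he'.1
  fin_cases i
  · exact absurd h1 (by decide)
  · exact absurd h1 (by decide)
  · fin_cases j
    · exact absurd h2 (by decide)
    · exact absurd h2 (by decide)
    · exact case22 h
    · exact case23 he h
    · exact case24 he' h
  · fin_cases j
    · exact absurd h2 (by decide)
    · exact absurd h2 (by decide)
    · exact (case23 he' (swap_mem h)).symm
    · exact case33 h
    · exact case34 he h
  · fin_cases j
    · exact absurd h2 (by decide)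
    · exact absurd h2 (by decide)
    · exact (case24 he (swap_mem h)).symm
    · exact (case34 he' (swap_mem h)).symm
    · exact case44 h

theorem main (hz : z ∈ V i) (hz' : z' ∈ V j)
    (h : (z, z') ∈ closure {p : E × E | Rel i j p.1 p.2}) : PP i z = PP j z' := by
  by_cases hi : i = 1
  · subst hi
    by_cases hj : j = 1
    · subst hj
      exact case11 h
    · exact case1 hj h
  · by_cases hj : j = 1
    · subst hj
      exact (case1 hi (swap_mem h)).symm
    · by_cases he : Exc i z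
      · exact case_exc he (exc_of hi hj hz' he h) h
      · refine case_ord hi hj he (fun he' => he ?_) h
        exact exc_of hj hi hz he' (swap_mem h)

end

end HAUS

theorem t_HAUS (dens : S_DENS) (inj : S_INJ) (trw : S_TRW) : S_HAUS := by
  intro Y _ _ Q hS
  rw [t2_iff_nhds]
  intro p q hpq
  obtain ⟨i, z, hz, rfl⟩ := hS.par.surj p
  obtain ⟨j, z', hz', rfl⟩ := hS.par.surj q
  refine (hS.eqv i j z z' hz hz').2 (HAUS.main hz.1 hz'.1 ?_)
  rw [mem_closure_iff_nhds]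
  intro N hN
  obtain ⟨u, v, hu, hzu, hv, hzv, huv⟩ := mem_nhds_prod_iff'.1 hN
  have hO : IsOpen (u ∩ UU i) := hu.inter (inj i).1
  have hO' : IsOpen (v ∩ UU j) := hv.inter (inj j).1
  have h1 := hS.par.opn i (u ∩ UU i) inter_subset_right hO
  have h2 := hS.par.opn j (v ∩ UU j) inter_subset_right hO'
  have h3 : Q i '' (u ∩ UU i) ∈ 𝓝 (Q i z) := h1.mem_nhds ⟨z, ⟨hzu, hz⟩, rfl⟩
  have h4 : Q j '' (v ∩ UU j) ∈ 𝓝 (Q j z') := h2.mem_nhds ⟨z', ⟨hzv, hz'⟩, rfl⟩
  obtain ⟨m, ⟨t, ht, rfl⟩, hm⟩ := (inf_neBot_iff.1 hpq) h3 h4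
  have hc : ContinuousAt (Q i) t := (hS.par.smooth i t ht.2).continuousAt
  have h5 : ∀ᶠ s in 𝓝 t, s ∈ u ∩ UU i ∧ Q i s ∈ Q j '' (v ∩ UU j) :=
    (hO.eventually_mem ht).and (hc.eventually (h2.eventually_mem hm))
  obtain ⟨s, ⟨hs, s', hs', hss⟩, hsw⟩ := mem_closure_iff_nhds.1 ((dens i.1).2 t ht.2.1).1 _ h5
  have h6 := (hS.eqv i j s s' hs.2 hs'.2).1 hss.symm
  obtain ⟨w1, w2, w3⟩ := trw i.1 j.1 s s' hs.2.1 hs'.2.1 h6 hsw.2
  exact ⟨(s, s'), huv ⟨hs.1, hs'.1⟩, ⟨hs.2.1, hs'.2.1, hsw.2, w1, w2, w3⟩⟩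

end Pool.Agent.Q22.SP
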