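import Pool.Agent.Q22.SP.Stm

set_option autoImplicit false

namespace Pool.Agent.Q22.SP

open Pool.Agent.Y184.SP Set Topology Filter
open scoped ContDiff Manifold

/-- REPV for a function `Φ` which is smooth on `W` (this hypothesis is missing in `S_REPV`: for a
function which is nowhere differentiable all Levi forms are `0` by convention). -/
def S_REPV2 : Prop := ∀ (Y : Type) [TopologicalSpace Y] [ChartedSpace E Y] (Q : Idx → E → Y),
  Surf Y Q → ∀ (Φ : E → ℝ) (θ : Form Y), Rep Q Φ θ → (∀ z ∈ W, ContDiffAt ℝ ∞ Φ z) →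
  ∀ (i : Idx) (z : E), z ∈ UU i → ∀ ρ, PotAt Φ i.1 z ρ →
  ∀ (f : ℂ → Y) (F : ℂ → E), IsDisc f → AnalyticAt ℂ F 0 → F 0 = z →
  (∀ᶠ ζ in 𝓝 (0 : ℂ), f ζ = Q i (F ζ)) →
  θ.val f = lev ρ z (deriv F 0)

namespace REPV

/-- two potentials of the same form have the same Levi form -/
theorem lev_eq (lo : S_LOPS) (dens : S_DENS) (clev : S_CLEV) {Φ : E → ℝ}
    (hΦ : ∀ z ∈ W, ContDiffAt ℝ ∞ Φ z) {j : Fin 5} {z : E} (hz : z ∈ V j) {ρ ρ0 : E → ℝ}
    (h : PotAt Φ j z ρ) (h0 : PotAt Φ j z ρ0) (v : E) : lev ρ z v = lev ρ0 z v := by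
  have hV : ∀ᶠ z' in 𝓝 z, z' ∈ V j := (dens j).1.mem_nhds hz
  have hle : ((2 : ℕ∞) : WithTop ℕ∞) ≤ ((⊤ : ℕ∞) : WithTop ℕ∞) := by exact_mod_cast le_top
  have key : ∀ a b : E → ℝ, PotAt Φ j z a → PotAt Φ j z b → ∀ᶠ z' in 𝓝 z, tr j z' ∈ W →
      lev (fun t => a t - b t) z' v = 0 := by
    intro a b ha hb
    filter_upwards [hV, ha.1, hb.1, ha.2, hb.2] with z' h1 h2 h3 h4 h5 hW
    have han : AnalyticAt ℂ (tr j) z' := (((dens j).2 z' h1).2 hW).self_of_nhds.2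
    have htr : ContDiffAt ℝ ∞ (tr j) z' :=
      ((han.contDiffAt (n := ω)).restrict_scalars ℝ).of_le le_top
    have hc : ContDiffAt ℝ ∞ (fun t => Φ (tr j t)) z' :=
      ContDiffAt.comp z' (hΦ _ hW) htr
    have e1 := lo.2.1 (fun t => a t - Φ (tr j t)) (fun t => b t - Φ (tr j t)) z' v
      ((h2.sub hc).of_le hle) ((h3.sub hc).of_le hle)
    rw [h4 hW v, h5 hW v] at e1
    have e2 : (fun t => (a t - Φ (tr j t)) - (b t - Φ (tr j t))) = fun t => a t - b t := by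
      funext t; ring
    rw [e2] at e1
    simpa using e1
  have hs : ∀ a b : E → ℝ, PotAt Φ j z a → PotAt Φ j z b → SmAt (fun t => a t - b t) z := by
    intro a b ha hb
    filter_upwards [ha.1, hb.1] with z' h2 h3
    exact h2.sub h3
  have hd : ∀ a b : E → ℝ, PotAt Φ j z a → PotAt Φ j z b → 0 ≤ lev a z v - lev b z v := by
    intro a b ha hb
    have e := clev j z hz (fun t => a t - b t) v 0 (hs a b ha hb) (by
      filter_upwards [key a b ha hb] with z' h1 hW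
      rw [h1 hW])
    rwa [lo.2.1 a b z v (ha.1.self_of_nhds.of_le hle) (hb.1.self_of_nhds.of_le hle)] at e
  have h1 := hd ρ ρ0 h h0
  have h2 := hd ρ0 ρ h0 h
  linarith

end REPV

theorem t_REPV (ld : S_LDISC) (lo : S_LOPS) (dens : S_DENS) (clev : S_CLEV) : S_REPV2 := by
  intro Y _ _ Q hS Φ θ hRep hΦ i z hz ρ hρ f F hf hF hF0 hfF
  obtain ⟨ρ0, hρ0, hpot⟩ := hRep i z hz
  have hf0 : f 0 = Q i z := by rw [hfF.self_of_nhds, hF0]
  have hle : ((2 : ℕ∞) : WithTop ℕ∞) ≤ ((⊤ : ℕ∞) : WithTop ℕ∞) := by exact_mod_cast le_top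
  have hcont : Tendsto F (𝓝 0) (𝓝 z) := by
    have := hF.continuousAt
    rwa [ContinuousAt, hF0] at this
  have hev : (fun ζ : ℂ => θ.pot (f 0) (f ζ)) =ᶠ[𝓝 0] fun ζ => ρ0 (F ζ) := by
    filter_upwards [hfF, hcont.eventually hpot] with ζ h1 h2
    rw [hf0, h1, h2]
  have h1 : θ.val f = Laplacian.laplacian (fun ζ : ℂ => ρ0 (F ζ)) 0 := by
    unfold Form.val
    exact (InnerProductSpace.laplacian_congr_nhds hev).self_of_nhds
  rw [h1, ld ρ0 F hF (by rw [hF0]; exact hρ0.1.self_of_nhds.of_le hle), hF0]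
  exact (REPV.lev_eq lo dens clev hΦ hz.1 hρ hρ0 _).symm

end Pool.Agent.Q22.SP
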