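import Pool.Agent.Q22.SP.Stm
import Pool.Agent.Q22.SP.REPV

set_option autoImplicit false

open Set Topology Filter
open scoped ContDiff Manifold

namespace Pool.Agent.Q22.SP

open Pool.Agent.Y184.SP

namespace INEQ2

lemma two_le : (2 : WithTop ℕ∞) ≤ ∞ := ENat.LEInfty.out

lemma UU_nhds (dens : S_DENS) (i : Idx) (z : E) (hz : z ∈ UU i) : ∀ᶠ t in 𝓝 z, t ∈ UU i := by
  have h1 : ∀ᶠ t in 𝓝 z, t ∈ V i.1 := (dens i.1).1.mem_nhds hz.1
  by_cases hi : i.1 < 2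
  · have h2 : ∀ᶠ t in 𝓝 z, ‖t.1 - i.2‖ < 1 / 2 := by
      have hc : Continuous fun t : E => ‖t.1 - i.2‖ := by fun_prop
      exact hc.continuousAt.eventually (gt_mem_nhds (hz.2 hi))
    filter_upwards [h1, h2] with t ht1 ht2
    exact ⟨ht1, fun _ => ht2⟩
  · filter_upwards [h1] with t ht1
    exact ⟨ht1, fun h => absurd h hi⟩

lemma smooth_real_of_analytic {g : E → E} {z : E} (h : AnalyticAt ℂ g z) :
    ContDiffAt ℝ ∞ g z := (h.contDiffAt (n := ∞)).restrict_scalars ℝ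

lemma lev_comp_tr (lo : S_LOPS) (dens : S_DENS) (j : Fin 5) (z : E) (hz : z ∈ V j)
    (hW : tr j z ∈ W) (g : E → ℝ) (hg : ContDiffAt ℝ ∞ g (tr j z)) (v : E) :
    ContDiffAt ℝ ∞ (fun t => g (tr j t)) z ∧
    lev (fun t => g (tr j t)) z v = lev g (tr j z) (fderiv ℂ (tr j) z v) := by
  have han : AnalyticAt ℂ (tr j) z := ((((dens j).2 z hz).2 hW).self_of_nhds).2
  refine ⟨ContDiffAt.comp z hg (smooth_real_of_analytic han), ?_⟩
  exact lo.2.2.2.2.1 g (tr j) z v han (hg.of_le two_le)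

end INEQ2

open INEQ2 in
theorem t_INEQ2 (ld : S_LDISC) (lo : S_LOPS) (dens : S_DENS) (clev : S_CLEV) (repv : S_REPV2)
    (discc : S_DISCC) : S_INEQ := by
  intro Y _ _ Q hS Φ Ψ u θ Ω w O c hO hΦ hΨ hsm hw hwu hpos f hf hfO
  obtain ⟨i, z, hz, hQz⟩ := hS.par.surj (f 0)
  obtain ⟨F, hF, hF0, hfF, -⟩ := (discc Y Q hS).1 i z hz f hf hQz.symm
  obtain ⟨ρ, hρ, -⟩ := hΦ i z hz
  obtain ⟨ρ', hρ', -⟩ := hΨ i z hz
  have hval : θ.val f = lev ρ z (deriv F 0) :=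
    repv Y Q hS Φ θ hΦ (fun z hz => (hsm z hz).1) i z hz ρ hρ f F hf hF hF0 hfF
  have hval' : Ω.val f = lev ρ' z (deriv F 0) :=
    repv Y Q hS Ψ Ω hΨ (fun z hz => (hsm z hz).2.1) i z hz ρ' hρ' f F hf hF hF0 hfF
  have h2 := two_le
  have hQc : ContinuousAt (Q i) z := (hS.par.smooth i z hz).continuousAt
  have hnear : ∀ᶠ t in 𝓝 z, t ∈ UU i ∧ Q i t ∈ O := by
    refine (UU_nhds dens i z hz).and (hQc.eventually (hO.mem_nhds ?_))
    rw [hQz]; exact hfO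
  obtain ⟨wQ, hwQ⟩ : ∃ wQ : E → ℝ, wQ = fun t => w (Q i t) := ⟨_, rfl⟩
  have hwsm : SmAt wQ z := by
    filter_upwards [hnear] with t ht
    rw [hwQ]
    exact ((discc Y Q hS).2.2 i t w ht.1).1 (hw _ ht.2)
  have hlap : Laplacian.laplacian (fun ζ : ℂ => w (f ζ)) 0 = lev wQ z (deriv F 0) := by
    have h1 : (fun ζ : ℂ => w (f ζ)) =ᶠ[𝓝 0] fun ζ => wQ (F ζ) := by
      filter_upwards [hfF] with ζ hζ
      rw [hwQ, hζ]
    have h3 := (InnerProductSpace.laplacian_congr_nhds h1).self_of_nhds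
    rw [h3, ← hF0]
    exact ld wQ F hF (by rw [hF0]; exact (hwsm.self_of_nhds).of_le h2)
  rw [hval, hval', hlap]
  obtain ⟨v, hv⟩ : ∃ v, v = deriv F 0 := ⟨_, rfl⟩
  rw [← hv]
  have hR : ∀ t : E, ContDiffAt ℝ ∞ ρ t → ContDiffAt ℝ ∞ wQ t → ContDiffAt ℝ ∞ ρ' t →
      lev (fun s => (ρ s + wQ s) - c * ρ' s) t v = lev ρ t v + lev wQ t v - c * lev ρ' t v := by
    intro t a1 a2 a3
    rw [lo.2.1 (fun s => ρ s + wQ s) (fun s => c * ρ' s) t v ((a1.add a2).of_le h2)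
      ((contDiffAt_const.mul a3).of_le h2), lo.1 ρ wQ t v (a1.of_le h2) (a2.of_le h2),
      lo.2.2.1 ρ' c t v (a3.of_le h2)]
  have hmain : 0 ≤ lev (fun s => (ρ s + wQ s) - c * ρ' s) z v := by
    refine clev i.1 z hz.1 _ v 0 ?_ ?_
    · filter_upwards [hρ.1, hwsm, hρ'.1] with t a1 a2 a3
      exact (a1.add a2).sub (contDiffAt_const.mul a3)
    · filter_upwards [hρ.1, hwsm, hρ'.1, hρ.2, hρ'.2, hnear.eventually_nhds] with t a1 a2 a3 b1 b2 b3 hW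
      rw [hR t a1 a2 a3]
      have ht : t ∈ V i.1 := (b3.self_of_nhds).1.1
      obtain ⟨s1, s2, s3⟩ := hsm _ hW
      obtain ⟨c1, e1⟩ := lev_comp_tr lo dens i.1 t ht hW Φ s1 v
      obtain ⟨c2, e2⟩ := lev_comp_tr lo dens i.1 t ht hW Ψ s2 v
      obtain ⟨c3, e3⟩ := lev_comp_tr lo dens i.1 t ht hW u s3 v
      have k1 := b1 hW v
      rw [lo.2.1 ρ (fun t => Φ (tr i.1 t)) t v (a1.of_le h2) (c1.of_le h2)] at k1
      have k2 := b2 hW v
      rw [lo.2.1 ρ' (fun t => Ψ (tr i.1 t)) t v (a3.of_le h2) (c2.of_le h2)] at k2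
      have k3 : lev wQ t v = lev (fun t => u (tr i.1 t)) t v := by
        refine lo.2.2.2.1 _ _ t v ?_
        filter_upwards [b3, ((dens i.1).2 t ht).2 hW] with s hs hs2
        rw [hwQ]
        exact hwu i s hs.1 hs.2 hs2.1
      have k4 := hpos _ hW (fderiv ℂ (tr i.1) t v)
      rw [← e1, ← e2, ← e3] at k4
      have k5 : lev ρ t v = lev (fun t => Φ (tr i.1 t)) t v := by linarith
      have k6 : lev ρ' t v = lev (fun t => Ψ (tr i.1 t)) t v := by linarith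
      rw [k5, k6, k3]
      linarith
  rw [hR z (hρ.1.self_of_nhds) (hwsm.self_of_nhds) (hρ'.1.self_of_nhds)] at hmain
  linarith

end Pool.Agent.Q22.SP
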