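import Pool.Agent.Q22.SP.REPV

set_option autoImplicit false

open Set Topology Filter
open scoped ContDiff Manifold

namespace Pool.Agent.Q22.SP

open Pool.Agent.Y184.SP

namespace INEQR

theorem lev_zero (z v : E) : lev (fun _ => (0 : ℝ)) z v = 0 := by
  have h := InnerProductSpace.laplacian_const (E := ℂ) (c := (0 : ℝ))
  exact congrFun h 0

theorem two_le : (2 : WithTop ℕ∞) ≤ ∞ := WithTop.coe_le_coe.2 (le_top : (2 : ℕ∞) ≤ ⊤)

theorem deriv_line (z v : E) : deriv (fun ζ : ℂ => z + ζ • v) 0 = v := by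
  have h : HasDerivAt (fun ζ : ℂ => z + ζ • v) ((1 : ℂ) • v) 0 :=
    ((hasDerivAt_id (0 : ℂ)).smul_const v).const_add z
  rw [h.deriv, one_smul]

theorem analytic_line (z v : E) : AnalyticAt ℂ (fun ζ : ℂ => z + ζ • v) 0 :=
  analyticAt_const.add (analyticAt_id.smul analyticAt_const)

end INEQR

theorem t_INEQR (lo : S_LOPS) (dens : S_DENS) (repv : S_REPV2) (discc : S_DISCC) : S_INEQR := by
  intro Y _ _ Q hS Φ u θ w hrep hΦ hw hru hpos z hz v
  obtain ⟨lo1, lo2, lo3, lo4, lo5, lo6⟩ := lo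
  have hWn : ∀ᶠ z' in 𝓝 z, z' ∈ W := by
    have h := (dens 0).2 z (Or.inl hz.1)
    filter_upwards [h.2 hz] with z' hz'
    exact hz'.1
  have hUo : ∀ᶠ z' in 𝓝 z, z' ∈ UU ((0 : Fin 5), z.1) := by
    have h1 : ∀ᶠ z' : E in 𝓝 z, ‖z'.1 - z.1‖ < 1 / 2 := by
      have hc : ContinuousAt (fun z' : E => ‖z'.1 - z.1‖) z := by fun_prop
      apply hc.eventually_lt continuousAt_const
      show ‖z.1 - z.1‖ < 1 / 2
      rw [sub_self, norm_zero]
      norm_num
    filter_upwards [hWn, h1] with z' h2 h3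
    exact ⟨Or.inl h2.1, fun _ => h3⟩
  have hzU : z ∈ UU ((0 : Fin 5), z.1) := hUo.self_of_nhds
  have hF := INEQR.analytic_line z v
  obtain ⟨d1, d2, d3⟩ := discc Y Q hS
  have hF0 : (fun ζ : ℂ => z + ζ • v) 0 = z := by simp
  have hdisc : IsDisc fun ζ : ℂ => Q ((0 : Fin 5), z.1) (z + ζ • v) :=
    d2 ((0 : Fin 5), z.1) (fun ζ : ℂ => z + ζ • v) (by simpa using hzU) hF
  have hpot : PotAt Φ 0 z Φ := by
    refine ⟨?_, ?_⟩
    · filter_upwards [hWn] with z' hz'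
      exact hΦ z' hz'
    · refine Eventually.of_forall (fun z' _ v' => ?_)
      have e : (fun t : E => Φ t - Φ (tr 0 t)) = fun _ => (0 : ℝ) := by
        funext t
        exact sub_self _
      rw [e]
      exact INEQR.lev_zero z' v'
  have hval := repv Y Q hS Φ θ hrep hΦ ((0 : Fin 5), z.1) z hzU Φ hpot
    (fun ζ : ℂ => Q ((0 : Fin 5), z.1) (z + ζ • v)) (fun ζ : ℂ => z + ζ • v) hdisc hF hF0
    (Eventually.of_forall fun ζ => rfl)
  rw [INEQR.deriv_line] at hval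
  have h0 := hpos _ hdisc
  rw [hval] at h0
  have hgerm : ∀ᶠ t in 𝓝 z, w (Q ((0 : Fin 5), z.1) t) = u t := by
    filter_upwards [hWn, hUo] with t ht htU
    exact hru ((0 : Fin 5), z.1) t htU ht
  have hlevu : lev (fun t => w (Q ((0 : Fin 5), z.1) t)) z v = lev u z v := lo4 _ _ z v hgerm
  have hsm : ContDiffAt ℝ ∞ (fun t => w (Q ((0 : Fin 5), z.1) t)) z :=
    (d3 ((0 : Fin 5), z.1) z w hzU).1 (hw _)
  have hu : ContDiffAt ℝ ∞ u z := hsm.congr_of_eventuallyEq (by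
    filter_upwards [hgerm] with t ht
    exact ht.symm)
  have hsum := lo1 Φ u z v ((hΦ z hz).of_le INEQR.two_le) (hu.of_le INEQR.two_le)
  rw [hsum, ← hlevu]
  exact h0

end Pool.Agent.Q22.SP
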