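import Pool.Agent.Q22.SP.Stm

/-!
# Project SP (helper22), job INJ: injectivity and openness of the charts (helper142)
-/

set_option autoImplicit false

open Set Topology Filter
open scoped ContDiff Manifold

namespace Pool.Agent.Q22.SP

open Pool.Agent.Y184.SP

namespace INJ

theorem zero_mem : (0 : ℂ) ∈ Lam := ⟨0, 0, by simp⟩

theorem sub_mem {a b : ℂ} (ha : a ∈ Lam) (hb : b ∈ Lam) : a - b ∈ Lam := by
  obtain ⟨m, n, rfl⟩ := ha
  obtain ⟨m', n', rfl⟩ := hb
  exact ⟨m - m', n - n', by push_cast; ring⟩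

theorem small {a : ℂ} (ha : a ∈ Lam) (h : ‖a‖ < 1) : a = 0 := by
  obtain ⟨m, n, rfl⟩ := ha
  have h1 : |((m : ℂ) + n * Complex.I).re| < 1 := (Complex.abs_re_le_norm _).trans_lt h
  have h2 : |((m : ℂ) + n * Complex.I).im| < 1 := (Complex.abs_im_le_norm _).trans_lt h
  have h3 : ((m : ℂ) + n * Complex.I).re = m := by simp
  have h4 : ((m : ℂ) + n * Complex.I).im = n := by simp
  rw [h3] at h1
  rw [h4] at h2
  have h5 : |m| < 1 := by exact_mod_cast h1
  have h6 : |n| < 1 := by exact_mod_cast h2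
  rw [Int.abs_lt_one_iff] at h5 h6
  rw [h5, h6]
  simp

theorem cls_eq {a b : ℂ} (h : cls a = cls b) : b - a ∈ Lam := by
  have h1 : b ∈ cls b := by
    show b - b ∈ Lam
    rw [sub_self]
    exact zero_mem
  rw [← h] at h1
  exact h1

theorem cls_inj {a b : ℂ} (h : cls a = cls b) (hn : ‖b - a‖ < 1) : a = b := by
  have := small (cls_eq h) hn
  exact (sub_eq_zero.1 this).symm

theorem cls_inj8 {a b : ℂ} (h : cls a = cls b) (ha : ‖a‖ < 1 / 8) (hb : ‖b‖ < 1 / 8) : a = b :=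
  cls_inj h ((norm_sub_le _ _).trans_lt (by linarith))

theorem cls_inj2 {a b c : ℂ} (h : cls a = cls b) (ha : ‖a - c‖ < 1 / 2) (hb : ‖b - c‖ < 1 / 2) :
    a = b := by
  refine cls_inj h ?_
  have h1 : b - a = (b - c) - (a - c) := by ring
  rw [h1]
  exact (norm_sub_le _ _).trans_lt (by linarith)

theorem closed_Lam : IsClosed Lam := by
  have h1 : Lam = (fun p : ℝ × ℝ => (p.1 : ℂ) + p.2 * Complex.I) ''
      ((range ((↑) : ℤ → ℝ)) ×ˢ (range ((↑) : ℤ → ℝ))) := by
    ext x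
    constructor
    · rintro ⟨m, n, rfl⟩
      exact ⟨((m : ℝ), (n : ℝ)), ⟨⟨m, rfl⟩, ⟨n, rfl⟩⟩, by simp⟩
    · rintro ⟨p, ⟨⟨m, hm⟩, ⟨n, hn⟩⟩, rfl⟩
      refine ⟨m, n, ?_⟩
      have e : (p.1 : ℂ) + p.2 * Complex.I = m + n * Complex.I := by
        rw [← hm, ← hn]
        simp
      exact e
  have h2 : IsClosed ((range ((↑) : ℤ → ℝ)) ×ˢ (range ((↑) : ℤ → ℝ))) :=
    (Int.isClosedEmbedding_coe_real.isClosed_range).prod Int.isClosedEmbedding_coe_real.isClosed_range
  rw [h1]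
  have h3 : (fun p : ℝ × ℝ => (p.1 : ℂ) + p.2 * Complex.I) = Complex.equivRealProdCLM.symm := by
    funext p
    exact (Complex.equivRealProd_symm_apply p).symm
  rw [h3]
  exact (Complex.equivRealProdCLM.symm.toHomeomorph.isClosedMap) _ h2

theorem open_V (j : Fin 5) : IsOpen (V j) := by
  fin_cases j
  · have h : V 0 = (Prod.fst ⁻¹' Lamᶜ) ∪ (Prod.snd ⁻¹' {0}ᶜ) := rfl
    show IsOpen (V 0)
    rw [h]
    exact (closed_Lam.isOpen_compl.preimage continuous_fst).union
      (isOpen_compl_singleton.preimage continuous_snd)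
  · exact isOpen_univ
  · have a : IsOpen {z : E | ‖z.1 * z.2‖ < 1 / 8} := isOpen_lt (by fun_prop) continuous_const
    have b : IsOpen {z : E | ‖z.2‖ < 1 / 8} := isOpen_lt (by fun_prop) continuous_const
    exact a.inter b
  · have a : IsOpen {z : E | ‖z.1 * z.2‖ < 1 / 8} := isOpen_lt (by fun_prop) continuous_const
    have b : IsOpen {z : E | ‖z.1 * z.2 ^ 2‖ < 1 / 8} := isOpen_lt (by fun_prop) continuous_const
    exact a.inter b
  · have a : IsOpen {z : E | ‖z.1‖ < 1 / 8} := isOpen_lt (by fun_prop) continuous_const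
    have b : IsOpen {z : E | ‖z.1 ^ 2 * z.2‖ < 1 / 8} := isOpen_lt (by fun_prop) continuous_const
    exact a.inter b

theorem open_UU (i : Idx) : IsOpen (UU i) := by
  by_cases h : i.1 < 2
  · have h1 : UU i = V i.1 ∩ {z | ‖z.1 - i.2‖ < 1 / 2} := by
      ext z
      exact ⟨fun hz => ⟨hz.1, hz.2 h⟩, fun hz => ⟨hz.1, fun _ => hz.2⟩⟩
    rw [h1]
    have b : IsOpen {z : E | ‖z.1 - i.2‖ < 1 / 2} := isOpen_lt (by fun_prop) continuous_const
    exact (open_V i.1).inter b
  · have h1 : UU i = V i.1 := by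
      ext z
      exact ⟨fun hz => hz.1, fun hz => ⟨hz, fun h' => absurd h' h⟩⟩
    rw [h1]
    exact open_V i.1

theorem inj_PP (j : Fin 5) (c : ℂ) (z z' : E) (hz : z ∈ V j) (hz' : z' ∈ V j)
    (hc : j < 2 → ‖z.1 - c‖ < 1 / 2) (hc' : j < 2 → ‖z'.1 - c‖ < 1 / 2) (h : PP j z = PP j z') :
    z = z' := by
  fin_cases j
  · have h' : Pt.ord (cls z.1) (some z.2) = .ord (cls z'.1) (some z'.2) := h
    rw [Pt.ord.injEq, Option.some.injEq] at h'
    exact Prod.ext (cls_inj2 h'.1 (hc (by decide)) (hc' (by decide))) h'.2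
  · have h' : Pt.ord (cls z.1) (if z.2 = 0 then none else some z.2⁻¹) =
      .ord (cls z'.1) (if z'.2 = 0 then none else some z'.2⁻¹) := h
    rw [Pt.ord.injEq] at h'
    have h1 := cls_inj2 h'.1 (hc (by decide)) (hc' (by decide))
    have h2 := h'.2
    split_ifs at h2 with h3 h4 h4
    · exact Prod.ext h1 (h3.trans h4.symm)
    · exact Prod.ext h1 (inv_injective (Option.some.inj h2))
  · have h' : (if z.2 = 0 then Pt.e1 (some z.1) else .ord (cls (tr 2 z).1) (some (tr 2 z).2)) =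
      (if z'.2 = 0 then Pt.e1 (some z'.1) else .ord (cls (tr 2 z').1) (some (tr 2 z').2)) := h
    have hn : ‖z.1 * z.2‖ < 1 / 8 := hz.1
    have hn' : ‖z'.1 * z'.2‖ < 1 / 8 := hz'.1
    split_ifs at h' with h3 h4 h4
    · rw [Pt.e1.injEq, Option.some.injEq] at h'
      exact Prod.ext h' (h3.trans h4.symm)
    · rw [Pt.ord.injEq, Option.some.injEq] at h'
      have h5 : z.1 * z.2 = z'.1 * z'.2 := cls_inj8 h'.1 hn hn'
      have h6 : z.2 + z.1 * z.2 = z'.2 + z'.1 * z'.2 := h'.2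
      have h7 : z.2 = z'.2 := by linear_combination h6 - h5
      refine Prod.ext ?_ h7
      rw [← h7] at h5
      exact mul_right_cancel₀ h3 h5
  · have h' : (if z.1 = 0 then Pt.e1 (if z.2 = 0 then none else some z.2⁻¹) else
      if z.2 = 0 then Pt.e2 z.1⁻¹ else .ord (cls (tr 3 z).1) (some (tr 3 z).2)) =
      (if z'.1 = 0 then Pt.e1 (if z'.2 = 0 then none else some z'.2⁻¹) else
      if z'.2 = 0 then Pt.e2 z'.1⁻¹ else .ord (cls (tr 3 z').1) (some (tr 3 z').2)) := h
    have hn : ‖z.1 * z.2‖ < 1 / 8 := hz.1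
    have hn' : ‖z'.1 * z'.2‖ < 1 / 8 := hz'.1
    by_cases h1 : z.1 = 0
    · rw [if_pos h1] at h'
      by_cases h1' : z'.1 = 0
      · rw [if_pos h1', Pt.e1.injEq] at h'
        refine Prod.ext (h1.trans h1'.symm) ?_
        split_ifs at h' with h3 h4 h4
        · exact h3.trans h4.symm
        · exact inv_injective (Option.some.inj h')
      · rw [if_neg h1'] at h'
        split_ifs at h'
    · rw [if_neg h1] at h'
      by_cases h1' : z'.1 = 0
      · rw [if_pos h1'] at h'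
        split_ifs at h'
      · rw [if_neg h1'] at h'
        split_ifs at h' with h3 h4 h4
        · rw [Pt.e2.injEq] at h'
          exact Prod.ext (inv_injective h') (h3.trans h4.symm)
        · rw [Pt.ord.injEq, Option.some.injEq] at h'
          have h5 : z.1 * z.2 = z'.1 * z'.2 := cls_inj8 h'.1 hn hn'
          have h6 : z.1 * z.2 ^ 2 + z.1 * z.2 = z'.1 * z'.2 ^ 2 + z'.1 * z'.2 := h'.2
          have h7 : z.2 = z'.2 := by
            have h8 : (z.1 * z.2) * z.2 = (z.1 * z.2) * z'.2 := by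
              linear_combination h6 - h5 - z'.2 * h5
            exact mul_left_cancel₀ (mul_ne_zero h1 h3) h8
          refine Prod.ext ?_ h7
          rw [← h7] at h5
          exact mul_right_cancel₀ h3 h5
  · have h' : (if z.1 = 0 then Pt.e2 z.2 else .ord (cls (tr 4 z).1) (some (tr 4 z).2)) =
      (if z'.1 = 0 then Pt.e2 z'.2 else .ord (cls (tr 4 z').1) (some (tr 4 z').2)) := h
    have hn : ‖z.1‖ < 1 / 8 := hz.1
    have hn' : ‖z'.1‖ < 1 / 8 := hz'.1
    split_ifs at h' with h3 h4 h4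
    · rw [Pt.e2.injEq] at h'
      exact Prod.ext (h3.trans h4.symm) h'
    · rw [Pt.ord.injEq, Option.some.injEq] at h'
      have h5 : z.1 = z'.1 := cls_inj8 h'.1 hn hn'
      have h6 : z.1 ^ 2 * z.2 + z.1 = z'.1 ^ 2 * z'.2 + z'.1 := h'.2
      refine Prod.ext h5 ?_
      rw [← h5] at h6
      have h7 := add_right_cancel h6
      exact mul_left_cancel₀ (pow_ne_zero 2 h3) h7

end INJ

open INJ in
theorem t_INJ : S_INJ := fun i => ⟨open_UU i, fun z hz z' hz' h =>
  inj_PP i.1 i.2 z z' hz.1 hz'.1 hz.2 hz'.2 h⟩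

end Pool.Agent.Q22.SP
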