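import Pool.Agent.Q22.SP.Stm

/-! Project SP (helper22), job LDISC (helper13): second derivatives along an analytic disc
(the lemma `lapline` is that of helper625 in `Pool/Agent/Y625/SP/Max.lean`). -/

set_option autoImplicit false

open Set Topology Filter
open scoped ContDiff Manifold

namespace Pool.Agent.Q22.SP.LDISC

open Pool.Agent.Y184.SP Pool.Agent.Q22.SP

theorem lapline {L : ℂ → ℝ} (hL : ContDiffAt ℝ 2 L 0) (e : ℂ) {ψ : ℝ → ℝ} {c : ℝ}
    (h1 : ∀ᶠ t in 𝓝 (0 : ℝ), HasDerivAt (fun s : ℝ => L (s • e)) (ψ t) t)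
    (h2 : HasDerivAt ψ c 0) : iteratedFDeriv ℝ 2 L 0 ![e, e] = c := by
  rw [iteratedFDeriv_two_apply]
  simp only [Matrix.cons_val_zero, Matrix.cons_val_one]
  have hdiff : ∀ᶠ ζ in 𝓝 (0 : ℂ), DifferentiableAt ℝ L ζ := by
    have h := hL.eventually (by simp)
    filter_upwards [h] with ζ hζ
    exact hζ.differentiableAt (by norm_num)
  have hf : DifferentiableAt ℝ (fderiv ℝ L) 0 := by
    have : ContDiffAt ℝ 1 (fderiv ℝ L) 0 := hL.fderiv_right (by norm_num)
    exact this.differentiableAt (by norm_num)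
  have hline : ∀ t : ℝ, HasDerivAt (fun s : ℝ => s • e) e t := by
    intro t
    simpa using (hasDerivAt_id t).smul_const e
  have ht0 : Tendsto (fun s : ℝ => s • e) (𝓝 0) (𝓝 (0 : ℂ)) := by
    have := (hline 0).continuousAt.tendsto
    simpa using this
  have h3 : ψ =ᶠ[𝓝 0] fun t => fderiv ℝ L (t • e) e := by
    filter_upwards [h1, ht0.eventually hdiff] with t ht htd
    have h4 : HasDerivAt (fun s : ℝ => L (s • e)) (fderiv ℝ L (t • e) e) t :=
      htd.hasFDerivAt.comp_hasDerivAt t (hline t)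
    exact ht.unique h4
  have h5 : HasDerivAt (fun t : ℝ => fderiv ℝ L (t • e) e) (fderiv ℝ (fderiv ℝ L) 0 e e) 0 := by
    have h6 : HasFDerivAt (fderiv ℝ L) (fderiv ℝ (fderiv ℝ L) 0) ((0 : ℝ) • e) := by
      rw [zero_smul]; exact hf.hasFDerivAt
    have h7 : HasDerivAt (fun t : ℝ => fderiv ℝ L (t • e)) (fderiv ℝ (fderiv ℝ L) 0 e) 0 :=
      h6.comp_hasDerivAt (0 : ℝ) (hline 0)
    have h8 := (ContinuousLinearMap.apply ℝ ℝ e).hasFDerivAt.comp_hasDerivAt (0 : ℝ) h7
    exact h8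
  exact ((h2.congr_of_eventuallyEq h3.symm).unique h5).symm

/-- the second derivative of `ρ ∘ F` along a real line -/
theorem second {ρ : E → ℝ} {F : ℂ → E} (hF : AnalyticAt ℂ F 0) (hρ : ContDiffAt ℝ 2 ρ (F 0))
    (e : ℂ) : iteratedFDeriv ℝ 2 (fun ζ : ℂ => ρ (F ζ)) 0 ![e, e] =
      fderiv ℝ (fderiv ℝ ρ) (F 0) (e • deriv F 0) (e • deriv F 0) +
        fderiv ℝ ρ (F 0) (e • e • deriv (deriv F) 0) := by
  have hFr : ContDiffAt ℝ 2 F 0 := (hF.contDiffAt (n := 2)).restrict_scalars ℝ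
  have hL : ContDiffAt ℝ 2 (fun ζ : ℂ => ρ (F ζ)) 0 := hρ.comp (0 : ℂ) hFr
  have hline : ∀ t : ℝ, HasDerivAt (fun s : ℝ => s • e) e t := by
    intro t
    simpa using (hasDerivAt_id t).smul_const e
  have ht0 : Tendsto (fun s : ℝ => s • e) (𝓝 0) (𝓝 (0 : ℂ)) := by
    have := (hline 0).continuousAt.tendsto
    simpa using this
  -- `F` and its derivative along the line
  have hFl : ∀ t : ℝ, DifferentiableAt ℂ F (t • e) →
      HasDerivAt (fun s : ℝ => F (s • e)) (e • deriv F (t • e)) t := by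
    intro t ht
    have h := (ht.hasDerivAt.hasFDerivAt.restrictScalars ℝ).comp_hasDerivAt t (hline t)
    exact h
  have hFd : ∀ᶠ ζ in 𝓝 (0 : ℂ), DifferentiableAt ℂ F ζ := by
    filter_upwards [hF.eventually_analyticAt] with ζ hζ
    exact hζ.differentiableAt
  have hdF : DifferentiableAt ℂ (deriv F) 0 := hF.deriv.differentiableAt
  have hdFl : HasDerivAt (fun s : ℝ => deriv F (s • e)) (e • deriv (deriv F) 0) 0 := by
    have h0 : HasFDerivAt (deriv F) (ContinuousLinearMap.restrictScalars ℝ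
        (ContinuousLinearMap.toSpanSingleton ℂ (deriv (deriv F) 0))) ((0 : ℝ) • e) := by
      rw [zero_smul]
      exact hdF.hasDerivAt.hasFDerivAt.restrictScalars ℝ
    have h := h0.comp_hasDerivAt (0 : ℝ) (hline 0)
    exact h
  -- the derivatives of `ρ`
  have hρd : ∀ᶠ z in 𝓝 (F 0), DifferentiableAt ℝ ρ z := by
    have h := hρ.eventually (by simp)
    filter_upwards [h] with z hz
    exact hz.differentiableAt (by norm_num)
  have hρ2 : DifferentiableAt ℝ (fderiv ℝ ρ) (F 0) := by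
    have : ContDiffAt ℝ 1 (fderiv ℝ ρ) (F 0) := hρ.fderiv_right (by norm_num)
    exact this.differentiableAt (by norm_num)
  have hFc : Tendsto F (𝓝 0) (𝓝 (F 0)) := hF.continuousAt.tendsto
  refine lapline hL e (ψ := fun t => fderiv ℝ ρ (F (t • e)) (e • deriv F (t • e))) ?_ ?_
  · filter_upwards [ht0.eventually hFd, (hFc.comp ht0).eventually hρd] with t h1 h2
    exact h2.hasFDerivAt.comp_hasDerivAt t (hFl t h1)
  · have h1 : HasDerivAt (fun t : ℝ => fderiv ℝ ρ (F (t • e)))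
        (fderiv ℝ (fderiv ℝ ρ) (F 0) (e • deriv F 0)) 0 := by
      have h2 : HasFDerivAt (fderiv ℝ ρ) (fderiv ℝ (fderiv ℝ ρ) (F 0)) (F ((0 : ℝ) • e)) := by
        rw [zero_smul]; exact hρ2.hasFDerivAt
      have h3 := hFl 0 (by rw [zero_smul]; exact hF.differentiableAt)
      have h4 := h2.comp_hasDerivAt (0 : ℝ) h3
      rwa [zero_smul] at h4
    have h5 : HasDerivAt (fun t : ℝ => e • deriv F (t • e)) (e • e • deriv (deriv F) 0) 0 :=
      hdFl.const_smul e
    have h6 := h1.clm_apply h5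
    rw [zero_smul] at h6
    exact h6

theorem disc : S_LDISC := by
  intro ρ F hF hρ
  unfold lev
  rw [InnerProductSpace.laplacian_eq_iteratedFDeriv_complexPlane,
    InnerProductSpace.laplacian_eq_iteratedFDeriv_complexPlane]
  simp only
  set a : E := deriv F 0 with ha
  -- the linear disc
  have hG : AnalyticAt ℂ (fun ζ : ℂ => F 0 + ζ • a) 0 := by fun_prop
  have hG0 : (fun ζ : ℂ => F 0 + ζ • a) 0 = F 0 := by simp
  have hG1 : deriv (fun ζ : ℂ => F 0 + ζ • a) = fun _ => a := by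
    funext ζ
    have h : HasDerivAt (fun ζ : ℂ => F 0 + ζ • a) a ζ := by
      simpa using ((hasDerivAt_id ζ).smul_const a).const_add (F 0)
    exact h.deriv
  have hG2 : deriv (deriv (fun ζ : ℂ => F 0 + ζ • a)) 0 = 0 := by
    rw [hG1]
    simp
  have hG1' : deriv (fun ζ : ℂ => F 0 + ζ • a) 0 = a := by rw [hG1]
  have k : ∀ e : ℂ, iteratedFDeriv ℝ 2 (fun ζ : ℂ => ρ (F 0 + ζ • a)) 0 ![e, e] =
      fderiv ℝ (fderiv ℝ ρ) (F 0) (e • a) (e • a) := by
    intro e
    have h := second hG (ρ := ρ) (by simpa using hρ) e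
    rw [hG2, hG1', smul_zero, smul_zero, map_zero, add_zero] at h
    simp only [zero_smul, add_zero] at h
    exact h
  rw [second hF hρ 1, second hF hρ Complex.I, k 1, k Complex.I, ← ha]
  have hI : Complex.I • Complex.I • deriv (deriv F) 0 = -(deriv (deriv F) 0) := by
    rw [smul_smul, Complex.I_mul_I, neg_one_smul]
  rw [hI, map_neg]
  simp only [one_smul]
  ring

end Pool.Agent.Q22.SP.LDISC

namespace Pool.Agent.Q22.SP

theorem t_LDISC : S_LDISC := LDISC.disc

end Pool.Agent.Q22.SP
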