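import Pool.Agent.Q22.SP.Stm
import Pool.Agent.Q73.Core.Lap

/-!
# Project SP (helper22), job LIOU: bounded subharmonic functions on the plane are harmonic
-/

set_option autoImplicit false

open Set Topology Filter
open scoped ContDiff Manifold

namespace Pool.Agent.Q22.SP

open Pool.Agent.Y184.SP

/-- A bounded function of class `C²` on the plane with nonnegative Laplacian is constant
(`Q73.Core.liouville`), hence its Laplacian vanishes. -/
theorem t_LIOU : StLiou := by
  intro v hv hK hl x
  obtain ⟨K, hK⟩ := hK
  have hc : ∀ z, v z = v 0 := fun z =>
    Q73.Core.liouville hv hl (C := K) (fun w => (le_abs_self _).trans (hK w)) z 0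
  have he : v = fun _ => v 0 := funext hc
  rw [he]
  simp

end Pool.Agent.Q22.SP
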