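import Pool.Agent.Q22.SP.Stm
import Pool.Agent.Y625.SP.Max

/-!
# Project SP (helper22), MP_4ff127_gt: Levi form of logarithms of sums of squares
-/

set_option autoImplicit false

open Set Topology Filter
open scoped ContDiff Manifold

namespace Pool.Agent.Q22.SP

open Pool.Agent.Y184.SP

namespace LLOG

/-- the mixed term -/
noncomputable def RR (a b a' b' e : ℂ) : ℝ :=
  a.re * (e * a').re + a.im * (e * a').im + b.re * (e * b').re + b.im * (e * b').im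

/-- the quadratic term -/
noncomputable def SS (a' b' e : ℂ) : ℝ :=
  (e * a').re ^ 2 + (e * a').im ^ 2 + (e * b').re ^ 2 + (e * b').im ^ 2

theorem qexp (a b a' b' e : ℂ) (s : ℝ) :
    ‖a + (s • e) * a'‖ ^ 2 + ‖b + (s • e) * b'‖ ^ 2 =
      (‖a‖ ^ 2 + ‖b‖ ^ 2) + 2 * RR a b a' b' e * s + SS a' b' e * s ^ 2 := by
  simp only [Complex.sq_norm, Complex.normSq_apply, Complex.add_re, Complex.add_im,
    Complex.mul_re, Complex.mul_im, Complex.real_smul, Complex.ofReal_re, Complex.ofReal_im,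
    RR, SS]
  ring

theorem q_deriv (a b a' b' e : ℂ) (t : ℝ) :
    HasDerivAt (fun s : ℝ => (‖a‖ ^ 2 + ‖b‖ ^ 2) + 2 * RR a b a' b' e * s + SS a' b' e * s ^ 2)
      (2 * RR a b a' b' e + 2 * SS a' b' e * t) t := by
  have h1 : HasDerivAt (fun s : ℝ => (‖a‖ ^ 2 + ‖b‖ ^ 2) + 2 * RR a b a' b' e * s)
      (2 * RR a b a' b' e * 1) t := ((hasDerivAt_id t).const_mul _).const_add _
  have h2 : HasDerivAt (fun s : ℝ => SS a' b' e * s ^ 2) (SS a' b' e * (2 * t)) t := by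
    have := (hasDerivAt_pow 2 t).const_mul (SS a' b' e)
    simpa using this
  have h3 := h1.add h2
  have e1 : 2 * RR a b a' b' e * 1 + SS a' b' e * (2 * t) =
    2 * RR a b a' b' e + 2 * SS a' b' e * t := by ring
  rw [e1] at h3
  exact h3

theorem nsq_pos {a b : ℂ} (h : a ≠ 0 ∨ b ≠ 0) : 0 < ‖a‖ ^ 2 + ‖b‖ ^ 2 := by
  rcases h with h | h
  · have := norm_pos_iff.mpr h
    positivity
  · have := norm_pos_iff.mpr h
    positivity

theorem smooth2 {a b : ℂ} (h : a ≠ 0 ∨ b ≠ 0) :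
    ContDiffAt ℝ ∞ (fun p : E => Real.log (‖p.1‖ ^ 2 + ‖p.2‖ ^ 2)) (a, b) := by
  refine ContDiffAt.log ?_ (nsq_pos h).ne'
  exact (contDiffAt_fst.norm_sq ℝ).add (contDiffAt_snd.norm_sq ℝ)

theorem smoothL {a b : ℂ} (a' b' : ℂ) (h : a ≠ 0 ∨ b ≠ 0) :
    ContDiffAt ℝ 2 (fun ζ : ℂ => Real.log (‖a + ζ * a'‖ ^ 2 + ‖b + ζ * b'‖ ^ 2)) 0 := by
  refine ContDiffAt.log ?_ ?_
  · have h1 : ContDiffAt ℝ 2 (fun ζ : ℂ => a + ζ * a') 0 := by fun_prop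
    have h2 : ContDiffAt ℝ 2 (fun ζ : ℂ => b + ζ * b') 0 := by fun_prop
    exact (h1.norm_sq ℝ).add (h2.norm_sq ℝ)
  · rw [zero_mul, zero_mul, add_zero, add_zero]
    exact (nsq_pos h).ne'

theorem line_log {a b : ℂ} (a' b' e : ℂ) (h : a ≠ 0 ∨ b ≠ 0) :
    iteratedFDeriv ℝ 2 (fun ζ : ℂ => Real.log (‖a + ζ * a'‖ ^ 2 + ‖b + ζ * b'‖ ^ 2)) 0 ![e, e] =
      (2 * SS a' b' e * (‖a‖ ^ 2 + ‖b‖ ^ 2) - (2 * RR a b a' b' e) * (2 * RR a b a' b' e)) /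
        (‖a‖ ^ 2 + ‖b‖ ^ 2) ^ 2 := by
  have hp := nsq_pos h
  obtain ⟨q, hq⟩ : ∃ q : ℝ → ℝ, q = fun s : ℝ =>
    (‖a‖ ^ 2 + ‖b‖ ^ 2) + 2 * RR a b a' b' e * s + SS a' b' e * s ^ 2 := ⟨_, rfl⟩
  have hqd : ∀ t, HasDerivAt q (2 * RR a b a' b' e + 2 * SS a' b' e * t) t := by
    intro t
    rw [hq]
    exact q_deriv a b a' b' e t
  have hq0 : q 0 = ‖a‖ ^ 2 + ‖b‖ ^ 2 := by rw [hq]; simp
  have hqe : ∀ s : ℝ, Real.log (‖a + (s • e) * a'‖ ^ 2 + ‖b + (s • e) * b'‖ ^ 2) =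
      Real.log (q s) := by
    intro s
    rw [qexp, hq]
  refine Pool.Agent.Y625.SP.lapline (smoothL a' b' h) e
    (ψ := fun t => (2 * RR a b a' b' e + 2 * SS a' b' e * t) / q t) ?_ ?_
  · have hev : ∀ᶠ t in 𝓝 (0 : ℝ), q t ≠ 0 := by
      refine (hqd 0).continuousAt.eventually_ne ?_
      rw [hq0]
      exact hp.ne'
    filter_upwards [hev] with t ht
    have h1 := (hqd t).log ht
    simp only [hqe]
    exact h1
  · have h1 : HasDerivAt (fun t : ℝ => 2 * RR a b a' b' e + 2 * SS a' b' e * t)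
        (2 * SS a' b' e * 1) 0 := ((hasDerivAt_id (0 : ℝ)).const_mul _).const_add _
    have h2 := h1.div (hqd 0) (by rw [hq0]; exact hp.ne')
    rw [hq0] at h2
    have e1 : 2 * SS a' b' e * (‖a‖ ^ 2 + ‖b‖ ^ 2) - (2 * RR a b a' b' e) * (2 * RR a b a' b' e) =
        2 * SS a' b' e * 1 * (‖a‖ ^ 2 + ‖b‖ ^ 2) - (2 * RR a b a' b' e + 2 * SS a' b' e * 0) *
          (2 * RR a b a' b' e + 2 * SS a' b' e * 0) := by ring
    rw [e1]
    exact h2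

theorem lap_log {a b : ℂ} (a' b' : ℂ) (h : a ≠ 0 ∨ b ≠ 0) :
    Laplacian.laplacian (fun ζ : ℂ => Real.log (‖a + ζ * a'‖ ^ 2 + ‖b + ζ * b'‖ ^ 2)) 0 =
      4 * ‖a * b' - b * a'‖ ^ 2 / (‖a‖ ^ 2 + ‖b‖ ^ 2) ^ 2 := by
  rw [InnerProductSpace.laplacian_eq_iteratedFDeriv_complexPlane]
  simp only
  rw [line_log a' b' 1 h, line_log a' b' Complex.I h, ← add_div]
  congr 1
  simp only [Complex.sq_norm, Complex.normSq_apply, Complex.sub_re, Complex.sub_im,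
    Complex.mul_re, Complex.mul_im, RR, SS, Complex.I_re, Complex.I_im, Complex.one_re,
    Complex.one_im]
  ring

theorem lap_sq (a a' : ℂ) :
    Laplacian.laplacian (fun ζ : ℂ => ‖a + ζ * a'‖ ^ 2) 0 = 4 * ‖a'‖ ^ 2 := by
  have hs : ContDiffAt ℝ 2 (fun ζ : ℂ => ‖a + ζ * a'‖ ^ 2) 0 := by
    have h1 : ContDiffAt ℝ 2 (fun ζ : ℂ => a + ζ * a') 0 := by fun_prop
    exact h1.norm_sq ℝ
  have hl : ∀ e : ℂ, iteratedFDeriv ℝ 2 (fun ζ : ℂ => ‖a + ζ * a'‖ ^ 2) 0 ![e, e] =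
      2 * SS a' 0 e := by
    intro e
    have he : ∀ s : ℝ, ‖a + (s • e) * a'‖ ^ 2 =
        (‖a‖ ^ 2 + ‖(0 : ℂ)‖ ^ 2) + 2 * RR a 0 a' 0 e * s + SS a' 0 e * s ^ 2 := by
      intro s
      rw [← qexp]
      simp
    refine Pool.Agent.Y625.SP.lapline hs e
      (ψ := fun t => 2 * RR a 0 a' 0 e + 2 * SS a' 0 e * t) ?_ ?_
    · refine Eventually.of_forall fun t => ?_
      simp only [he]
      exact q_deriv a 0 a' 0 e t
    · have h1 : HasDerivAt (fun t : ℝ => 2 * RR a 0 a' 0 e + 2 * SS a' 0 e * t)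
        (2 * SS a' 0 e * 1) 0 := ((hasDerivAt_id (0 : ℝ)).const_mul _).const_add _
      rw [mul_one] at h1
      exact h1
  rw [InnerProductSpace.laplacian_eq_iteratedFDeriv_complexPlane]
  simp only
  rw [hl 1, hl Complex.I]
  simp only [Complex.sq_norm, Complex.normSq_apply, Complex.mul_re, Complex.mul_im, SS,
    Complex.I_re, Complex.I_im, Complex.one_re, Complex.one_im, Complex.zero_re, Complex.zero_im]
  ring

theorem an_line {f : E → ℂ} {z : E} (v : E) (hf : AnalyticAt ℂ f z) :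
    AnalyticAt ℂ (fun ζ : ℂ => f (z + ζ • v)) 0 := by
  have h1 : AnalyticAt ℂ (fun ζ : ℂ => z + ζ • v) 0 :=
    analyticAt_const.add (analyticAt_id.smul analyticAt_const)
  have h2 : AnalyticAt ℂ f ((fun ζ : ℂ => z + ζ • v) 0) := by
    simpa using hf
  exact AnalyticAt.comp (f := fun ζ : ℂ => z + ζ • v) h2 h1

theorem deriv_line {f : E → ℂ} {z : E} (v : E) (hf : AnalyticAt ℂ f z) :
    HasDerivAt (fun ζ : ℂ => f (z + ζ • v)) (fderiv ℂ f z v) 0 := by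
  have h1 : HasDerivAt (fun ζ : ℂ => z + ζ • v) v 0 := by
    simpa using ((hasDerivAt_id (0 : ℂ)).smul_const v).const_add z
  have h2 : HasFDerivAt f (fderiv ℂ f z) ((fun ζ : ℂ => z + ζ • v) 0) := by
    have := hf.differentiableAt.hasFDerivAt
    simpa using this
  exact h2.comp_hasDerivAt (0 : ℂ) h1

theorem sm {f : E → ℂ} {z : E} (hf : AnalyticAt ℂ f z) :
    ContDiffAt ℝ ∞ (fun t => ‖f t‖ ^ 2) z :=
  (hf.contDiffAt.restrict_scalars ℝ).norm_sq ℝ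

theorem smlog {f g : E → ℂ} {z : E} (hf : AnalyticAt ℂ f z) (hg : AnalyticAt ℂ g z)
    (h : f z ≠ 0 ∨ g z ≠ 0) :
    ContDiffAt ℝ ∞ (fun t => Real.log (‖f t‖ ^ 2 + ‖g t‖ ^ 2)) z :=
  ContDiffAt.log ((sm hf).add (sm hg)) (nsq_pos h).ne'

theorem lev_log (ld : S_LDISC) {f g : E → ℂ} {z : E} (v : E) (hf : AnalyticAt ℂ f z)
    (hg : AnalyticAt ℂ g z) (h : f z ≠ 0 ∨ g z ≠ 0) :
    lev (fun t => Real.log (‖f t‖ ^ 2 + ‖g t‖ ^ 2)) z v =
      4 * ‖f z * fderiv ℂ g z v - g z * fderiv ℂ f z v‖ ^ 2 / (‖f z‖ ^ 2 + ‖g z‖ ^ 2) ^ 2 := by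
  obtain ⟨F, hF⟩ : ∃ F : ℂ → E, F = fun ζ => (f (z + ζ • v), g (z + ζ • v)) := ⟨_, rfl⟩
  have hFa : AnalyticAt ℂ F 0 := by
    rw [hF]
    exact (an_line v hf).prod (an_line v hg)
  have hF0 : F 0 = (f z, g z) := by rw [hF]; simp
  have hFd : deriv F 0 = (fderiv ℂ f z v, fderiv ℂ g z v) := by
    rw [hF]
    exact ((deriv_line v hf).prodMk (deriv_line v hg)).deriv
  have h1 := ld (fun p : E => Real.log (‖p.1‖ ^ 2 + ‖p.2‖ ^ 2)) F hFa (by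
    rw [hF0]
    exact contDiffAt_infty.mp (smooth2 h) 2)
  rw [hF0, hFd] at h1
  have h2 : lev (fun t => Real.log (‖f t‖ ^ 2 + ‖g t‖ ^ 2)) z v =
      Laplacian.laplacian (fun ζ : ℂ => (fun p : E => Real.log (‖p.1‖ ^ 2 + ‖p.2‖ ^ 2)) (F ζ)) 0 := by
    rw [hF]
    rfl
  rw [h2, h1]
  exact lap_log _ _ h

theorem lev_sq (ld : S_LDISC) {f : E → ℂ} {z : E} (v : E) (hf : AnalyticAt ℂ f z) :
    lev (fun t => ‖f t‖ ^ 2) z v = 4 * ‖fderiv ℂ f z v‖ ^ 2 := by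
  obtain ⟨F, hF⟩ : ∃ F : ℂ → E, F = fun ζ => (f (z + ζ • v), f (z + ζ • v)) := ⟨_, rfl⟩
  have hFa : AnalyticAt ℂ F 0 := by
    rw [hF]
    exact (an_line v hf).prod (an_line v hf)
  have hF0 : F 0 = (f z, f z) := by rw [hF]; simp
  have hFd : deriv F 0 = (fderiv ℂ f z v, fderiv ℂ f z v) := by
    rw [hF]
    exact ((deriv_line v hf).prodMk (deriv_line v hf)).deriv
  have h1 := ld (fun p : E => ‖p.1‖ ^ 2) F hFa (by
    rw [hF0]
    exact contDiffAt_fst.norm_sq ℝ)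
  rw [hF0, hFd] at h1
  have h2 : lev (fun t => ‖f t‖ ^ 2) z v =
      Laplacian.laplacian (fun ζ : ℂ => (fun p : E => ‖p.1‖ ^ 2) (F ζ)) 0 := by
    rw [hF]
    rfl
  rw [h2, h1]
  exact lap_sq _ _

end LLOG

/-- Levi form of logarithms of sums of squares of analytic functions -/
theorem t_LLOG (ld : S_LDISC) (lo : S_LOPS) : S_LLOG := by
  refine ⟨fun f z v hf h => ?_, fun f z v hf => ⟨LLOG.sm hf, LLOG.lev_sq ld v hf⟩,
    fun f g z v hf hg h => ⟨LLOG.smlog hf hg h, LLOG.lev_log ld v hf hg h⟩⟩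
  have hg : AnalyticAt ℂ (fun _ : E => (0 : ℂ)) z := analyticAt_const
  have h1 := LLOG.smlog hf hg (Or.inl h)
  have h2 := LLOG.lev_log ld v hf hg (Or.inl h)
  simp only [norm_zero, ne_eq, OfNat.ofNat_ne_zero, not_false_eq_true, zero_pow, add_zero,
    zero_mul, sub_zero, fderiv_fun_const, Pi.zero_apply, _root_.zero_apply,
    mul_zero, zero_div] at h1 h2
  exact ⟨h1, h2⟩

end Pool.Agent.Q22.SP
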