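import Pool.Agent.Q22.SP.Stm

/-!
# Project SP (helper22), job SP-LOPS: the calculus of the Levi form
-/

set_option autoImplicit false

open Set Topology Filter
open scoped ContDiff Manifold

namespace Pool.Agent.Q22.SP

open Pool.Agent.Y184.SP

namespace LOPS

/-- the line `ζ ↦ z + ζ v` -/
theorem contDiffAt_line {f : E → ℝ} {z v : E} {n : WithTop ℕ∞} (hf : ContDiffAt ℝ n f z) :
    ContDiffAt ℝ n (fun ζ : ℂ => f (z + ζ • v)) 0 := by
  have h1 : ContDiffAt ℝ n (fun ζ : ℂ => z + ζ • v) 0 :=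
    contDiffAt_const.add (contDiffAt_id.smul contDiffAt_const)
  have h2 : ContDiffAt ℝ n f (z + (0 : ℂ) • v) := by simpa using hf
  exact h2.comp (0 : ℂ) h1

theorem tendsto_line (z v : E) : Tendsto (fun ζ : ℂ => z + ζ • v) (𝓝 0) (𝓝 z) := by
  have h : Continuous fun ζ : ℂ => z + ζ • v := by fun_prop
  have := h.tendsto 0
  simpa using this

/-- the Levi form in terms of the second derivative -/
theorem lev_eq {f : E → ℝ} {z : E} (hf : ContDiffAt ℝ 2 f z) (v : E) :
    lev f z v = fderiv ℝ (fderiv ℝ f) z v v +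
      fderiv ℝ (fderiv ℝ f) z (Complex.I • v) (Complex.I • v) := by
  let A : ℂ →L[ℝ] E := (ContinuousLinearMap.id ℝ ℂ).smulRight v
  have hA : ∀ ζ, A ζ = ζ • v := fun ζ => rfl
  have hline : ∀ ζ : ℂ, HasFDerivAt (fun ζ : ℂ => z + ζ • v) A ζ := by
    intro ζ
    have := A.hasFDerivAt (x := ζ)
    exact this.const_add z
  have h1 : ∀ᶠ ζ in 𝓝 (0 : ℂ), fderiv ℝ (fun ζ : ℂ => f (z + ζ • v)) ζ =
      (fderiv ℝ f (z + ζ • v)).comp A := by
    have h := hf.eventually (by simp)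
    filter_upwards [(tendsto_line z v).eventually h] with ζ hζ
    have h2 : DifferentiableAt ℝ f (z + ζ • v) := hζ.differentiableAt (by norm_num)
    exact (h2.hasFDerivAt.comp ζ (hline ζ)).fderiv
  have h3 : DifferentiableAt ℝ (fderiv ℝ f) z := by
    have : ContDiffAt ℝ 1 (fderiv ℝ f) z := hf.fderiv_right (by norm_num)
    exact this.differentiableAt (by norm_num)
  have h4 : HasFDerivAt (fun ζ : ℂ => fderiv ℝ f (z + ζ • v))
      ((fderiv ℝ (fderiv ℝ f) z).comp A) 0 := by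
    have h5 : HasFDerivAt (fderiv ℝ f) (fderiv ℝ (fderiv ℝ f) z) (z + (0 : ℂ) • v) := by
      simpa using h3.hasFDerivAt
    exact h5.comp (0 : ℂ) (hline 0)
  have h6 : ∀ e : ℂ, iteratedFDeriv ℝ 2 (fun ζ : ℂ => f (z + ζ • v)) 0 ![e, e] =
      fderiv ℝ (fderiv ℝ f) z (e • v) (e • v) := by
    intro e
    rw [iteratedFDeriv_two_apply]
    simp only [Matrix.cons_val_zero, Matrix.cons_val_one]
    have h7 : HasFDerivAt (fun ζ : ℂ => (fderiv ℝ f (z + ζ • v)).comp A)
        (((ContinuousLinearMap.compL ℝ ℂ E ℝ).flip A).comp ((fderiv ℝ (fderiv ℝ f) z).comp A)) 0 :=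
      (((ContinuousLinearMap.compL ℝ ℂ E ℝ).flip A).hasFDerivAt).comp (0 : ℂ) h4
    have h8 : HasFDerivAt (fderiv ℝ fun ζ : ℂ => f (z + ζ • v))
        (((ContinuousLinearMap.compL ℝ ℂ E ℝ).flip A).comp ((fderiv ℝ (fderiv ℝ f) z).comp A)) 0 :=
      h7.congr_of_eventuallyEq h1
    rw [h8.fderiv]
    rfl
  unfold lev
  rw [InnerProductSpace.laplacian_eq_iteratedFDeriv_complexPlane]
  simp only [h6, one_smul]

theorem lev_congr {f g : E → ℝ} {z : E} (h : ∀ᶠ t in 𝓝 z, f t = g t) (v : E) :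
    lev f z v = lev g z v := by
  unfold lev
  have h1 : (fun ζ : ℂ => f (z + ζ • v)) =ᶠ[𝓝 0] fun ζ : ℂ => g (z + ζ • v) :=
    (tendsto_line z v).eventually h
  exact (InnerProductSpace.laplacian_congr_nhds h1).eq_of_nhds

theorem lev_smul {f : E → ℝ} {z : E} (hf : ContDiffAt ℝ 2 f z) (v : E) (a : ℂ) :
    lev f z (a • v) = ‖a‖ ^ 2 * lev f z v := by
  rw [lev_eq hf, lev_eq hf]
  obtain ⟨p, q⟩ := a
  have e1 : (⟨p, q⟩ : ℂ) • v = p • v + q • (Complex.I • v) := by
    have : (⟨p, q⟩ : ℂ) = (p : ℂ) + (q : ℂ) * Complex.I := by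
      apply Complex.ext <;> simp
    rw [this, add_smul, mul_smul, Complex.coe_smul, Complex.coe_smul]
  have e2 : Complex.I • (⟨p, q⟩ : ℂ) • v = p • (Complex.I • v) - q • v := by
    have : Complex.I * (⟨p, q⟩ : ℂ) = (p : ℂ) * Complex.I - (q : ℂ) := by
      apply Complex.ext <;> simp
    rw [smul_smul, this, sub_smul, mul_smul, Complex.coe_smul, Complex.coe_smul]
  rw [e1] at *
  rw [e2]
  rw [Complex.sq_norm, Complex.normSq_mk]
  generalize fderiv ℝ (fderiv ℝ f) z = B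
  generalize Complex.I • v = w
  simp only [map_add, map_sub, map_smul, add_apply, sub_apply, smul_apply, smul_eq_mul]
  ring

end LOPS

open LOPS in
theorem t_LOPS (ld : S_LDISC) : S_LOPS := by
  refine ⟨?_, ?_, ?_, ?_, ?_, ?_⟩
  · intro f g z v hf hg
    exact (contDiffAt_line (v := v) hf).laplacian_add (contDiffAt_line (v := v) hg)
  · intro f g z v hf hg
    exact (contDiffAt_line (v := v) hf).laplacian_sub (contDiffAt_line (v := v) hg)
  · intro f c z v hf
    exact InnerProductSpace.laplacian_smul c (contDiffAt_line (v := v) hf)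
  · intro f g z v h
    exact lev_congr h v
  · intro ρ φ z v hφ hρ
    have hline : AnalyticAt ℂ (fun ζ : ℂ => z + ζ • v) 0 := by fun_prop
    have h0 : (fun ζ : ℂ => z + ζ • v) 0 = z := by simp
    have hF : AnalyticAt ℂ (fun ζ : ℂ => φ (z + ζ • v)) 0 := hφ.comp_of_eq hline h0
    have h1 : ContDiffAt ℝ 2 ρ ((fun ζ : ℂ => φ (z + ζ • v)) 0) := by simpa using hρ
    have h2 := ld ρ (fun ζ : ℂ => φ (z + ζ • v)) hF h1
    have h3 : deriv (fun ζ : ℂ => φ (z + ζ • v)) 0 = fderiv ℂ φ z v := by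
      have h4 : HasDerivAt (fun ζ : ℂ => z + ζ • v) v 0 := by
        have := ((hasDerivAt_id (0 : ℂ)).smul_const v).const_add z
        simpa using this
      have h5 : HasFDerivAt φ (fderiv ℂ φ z) ((fun ζ : ℂ => z + ζ • v) 0) := by
        rw [h0]; exact hφ.differentiableAt.hasFDerivAt
      exact (h5.comp_hasDerivAt (0 : ℂ) h4).deriv
    rw [h3] at h2
    simp only [zero_smul, add_zero] at h2
    exact h2
  · intro f z v a hf
    exact lev_smul hf v a

end Pool.Agent.Q22.SP
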