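import Pool.Agent.Q22.SP.Stm

/-!
# Project SP, step N1: `u2` is constant on the first exceptional curve
-/

set_option autoImplicit false

open Set Topology Filter
open scoped ContDiff Manifold

namespace Pool.Agent.Q22.SP

open Pool.Agent.Y184.SP

namespace N1

lemma zero_mem_Lam : (0 : ℂ) ∈ Lam := ⟨0, 0, by simp⟩

lemma mem_V2_zero (ξ : ℂ) : ((ξ, 0) : E) ∈ V 2 := by
  change ‖ξ * 0‖ < 1 / 8 ∧ ‖(0 : ℂ)‖ < 1 / 8
  constructor <;> norm_num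

lemma mem_V3_zero (η : ℂ) : ((0, η) : E) ∈ V 3 := by
  change ‖0 * η‖ < 1 / 8 ∧ ‖0 * η ^ 2‖ < 1 / 8
  constructor <;> norm_num

/-- the transition from system 2 to system 3 -/
noncomputable def ph (t : E) : E := (t.1 ^ 2 * t.2, t.1⁻¹)

lemma ph_V3 {t : E} (h : t.1 ≠ 0) (hV : t ∈ V 2) : ph t ∈ V 3 := by
  obtain ⟨h1, h2⟩ := (show ‖t.1 * t.2‖ < 1 / 8 ∧ ‖t.2‖ < 1 / 8 from hV)
  change ‖t.1 ^ 2 * t.2 * t.1⁻¹‖ < 1 / 8 ∧ ‖t.1 ^ 2 * t.2 * t.1⁻¹ ^ 2‖ < 1 / 8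
  have e1 : t.1 ^ 2 * t.2 * t.1⁻¹ = t.1 * t.2 := by field_simp
  have e2 : t.1 ^ 2 * t.2 * t.1⁻¹ ^ 2 = t.2 := by field_simp
  rw [e1, e2]
  exact ⟨h1, h2⟩

lemma tr_ph {t : E} (h : t.1 ≠ 0) : tr 3 (ph t) = tr 2 t := by
  change ((t.1 ^ 2 * t.2 * t.1⁻¹, t.1 ^ 2 * t.2 * t.1⁻¹ ^ 2 + t.1 ^ 2 * t.2 * t.1⁻¹) : E)
    = (t.1 * t.2, t.2 + t.1 * t.2)
  have e1 : t.1 ^ 2 * t.2 * t.1⁻¹ = t.1 * t.2 := by field_simp
  have e2 : t.1 ^ 2 * t.2 * t.1⁻¹ ^ 2 = t.2 := by field_simp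
  rw [e1, e2]

lemma cont_ph {t : E} (h : t.1 ≠ 0) : ContinuousAt ph t := by
  unfold ph
  refine ContinuousAt.prodMk ?_ ?_
  · fun_prop
  · exact continuousAt_fst.inv₀ h

/-- the values at infinity -/
lemma eq_inf (dens : S_DENS) {u u0 u2 u3 : E → ℝ} (hc : Cand u u0 u2 u3) {ξ : ℂ} (hξ : ξ ≠ 0) :
    u2 (ξ, 0) = u3 (0, ξ⁻¹) := by
  have hz : ((ξ, 0) : E) ∈ V 2 := mem_V2_zero ξ
  have hcl := ((dens 2).2 _ hz).1
  have hph : ph (ξ, 0) = (0, ξ⁻¹) := by simp [ph]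
  have c2 : ContinuousAt u2 (ξ, 0) := (hc.s2 _ hz).continuousAt
  have c3 : ContinuousAt (fun t => u3 (ph t)) (ξ, 0) := by
    have h3 : ContinuousAt u3 (ph (ξ, 0)) := by
      rw [hph]
      exact (hc.s3 _ (mem_V3_zero _)).continuousAt
    exact ContinuousAt.comp (f := ph) (g := u3) h3 (cont_ph (by simpa using hξ))
  have hev : ∀ᶠ t in 𝓝[{z' | z' ∈ V 2 ∧ tr 2 z' ∈ W}] ((ξ, 0) : E), u2 t = u3 (ph t) := by
    have hne : ∀ᶠ t in 𝓝 ((ξ, 0) : E), t.1 ≠ 0 := by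
      have : ContinuousAt (fun t : E => t.1) (ξ, 0) := continuousAt_fst
      exact this.eventually_ne (by simpa using hξ)
    filter_upwards [mem_nhdsWithin_of_mem_nhds hne, self_mem_nhdsWithin] with t ht htW
    rw [hc.e2 t htW.1 htW.2, hc.e3 _ (ph_V3 ht htW.1) (by rw [tr_ph ht]; exact htW.2), tr_ph ht]
  have hne : (𝓝[{z' | z' ∈ V 2 ∧ tr 2 z' ∈ W}] ((ξ, 0) : E)).NeBot :=
    mem_closure_iff_nhdsWithin_neBot.1 hcl
  have t2 := c2.continuousWithinAt (s := {z' | z' ∈ V 2 ∧ tr 2 z' ∈ W}) |>.tendsto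
  have t3 := c3.continuousWithinAt (s := {z' | z' ∈ V 2 ∧ tr 2 z' ∈ W}) |>.tendsto
  have := tendsto_nhds_unique (t2.congr' hev) t3
  rw [this, hph]

/-- the function on the exceptional curve is bounded -/
lemma bdd (dens : S_DENS) {u u0 u2 u3 : E → ℝ} (hc : Cand u u0 u2 u3) :
    ∃ K, ∀ ξ : ℂ, |u2 (ξ, 0)| ≤ K := by
  have c2 : Continuous fun ξ : ℂ => u2 (ξ, 0) := by
    rw [continuous_iff_continuousAt]
    intro ξ
    have h : ContinuousAt u2 ((fun ξ : ℂ => ((ξ, 0) : E)) ξ) :=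
      (hc.s2 _ (mem_V2_zero ξ)).continuousAt
    exact ContinuousAt.comp (f := fun ξ : ℂ => ((ξ, 0) : E)) (g := u2) h (by fun_prop)
  have c3 : Continuous fun ξ : ℂ => u3 (0, ξ) := by
    rw [continuous_iff_continuousAt]
    intro ξ
    have h : ContinuousAt u3 ((fun ξ : ℂ => ((0, ξ) : E)) ξ) :=
      (hc.s3 _ (mem_V3_zero ξ)).continuousAt
    exact ContinuousAt.comp (f := fun ξ : ℂ => ((0, ξ) : E)) (g := u3) h (by fun_prop)
  obtain ⟨K2, h2⟩ := (isCompact_closedBall (0 : ℂ) 1).exists_bound_of_continuousOn c2.continuousOn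
  obtain ⟨K3, h3⟩ := (isCompact_closedBall (0 : ℂ) 1).exists_bound_of_continuousOn c3.continuousOn
  refine ⟨max K2 K3, fun ξ => ?_⟩
  rcases le_or_gt ‖ξ‖ 1 with h | h
  · have := h2 ξ (by simpa using h)
    rw [Real.norm_eq_abs] at this
    exact this.trans (le_max_left _ _)
  · have hξ : ξ ≠ 0 := by
      rintro rfl
      simp at h
      linarith
    rw [eq_inf dens hc hξ]
    have h' : ‖ξ⁻¹‖ ≤ 1 := by
      rw [norm_inv]
      exact inv_le_one_of_one_le₀ h.le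
    have := h3 ξ⁻¹ (by simpa using h')
    rw [Real.norm_eq_abs] at this
    exact this.trans (le_max_right _ _)

/-- the potential of the class in the system 2 -/
noncomputable def rho (t : E) : ℝ :=
  2 * Real.log (‖(1 : ℂ)‖ ^ 2 + ‖t.2 * (1 + t.1)‖ ^ 2)
    + Real.log (‖(1 : ℂ)‖ ^ 2 + ‖t.1 ^ 2 * t.2‖ ^ 2)

lemma rho_smooth (ll : S_LLOG) (t : E) : ContDiffAt ℝ ∞ rho t := by
  have h1 := (ll.2.2 (fun _ => 1) (fun t => t.2 * (1 + t.1)) t 0 analyticAt_const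
    (analyticAt_snd.mul (analyticAt_const.add analyticAt_fst)) (Or.inl one_ne_zero)).1
  have h2 := (ll.2.2 (fun _ => 1) (fun t => t.1 ^ 2 * t.2) t 0 analyticAt_const
    ((analyticAt_fst.pow 2).mul analyticAt_snd) (Or.inl one_ne_zero)).1
  exact (contDiffAt_const.mul h1).add h2

lemma rho_zero (ξ : ℂ) : rho (ξ, 0) = 0 := by
  simp [rho]

/-- the potential of the class -/
lemma Phi_tr (chi' : S_CHI) {t : E} (hV : t ∈ V 2) (hW : tr 2 t ∈ W) :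
    rho t = Phi (tr 2 t) + Real.log (‖t.1‖ ^ 2) := by
  obtain ⟨h1, h2⟩ := (show ‖t.1 * t.2‖ < 1 / 8 ∧ ‖t.2‖ < 1 / 8 from hV)
  obtain ⟨w1, w2⟩ := (show t.1 * t.2 ∉ Lam ∧ t.2 + t.1 * t.2 ≠ 0 from hW)
  have hx : t.1 * t.2 ≠ 0 := fun h => w1 (h ▸ zero_mem_Lam)
  have ht1 : t.1 ≠ 0 := left_ne_zero_of_mul hx
  have ht2 : t.2 ≠ 0 := right_ne_zero_of_mul hx
  have hred : red (t.1 * t.2) = t.1 * t.2 := by
    have := chi'.2.2.2.2.2.1 (t.1 * t.2) 0 zero_mem_Lam (by rw [sub_zero]; linarith)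
    rw [this, sub_zero]
  have hchi : Pool.Agent.Y184.SP.chi (t.1 * t.2) = 1 :=
    chi'.2.2.2.2.2.2.1 _ (by rw [hred]; exact h1.le)
  have hP : Phi (tr 2 t) = 3 * Real.log (1 + ‖t.2 + t.1 * t.2‖ ^ 2) +
      Pool.Agent.Y184.SP.chi (t.1 * t.2) * (Real.log ((‖t.2 + t.1 * t.2 - red (t.1 * t.2)‖ ^ 2
        + ‖red (t.1 * t.2)‖ ^ 4) / (1 + ‖t.2 + t.1 * t.2‖ ^ 2))
        - Real.log (‖red (t.1 * t.2)‖ ^ 2)) := rfl
  rw [hP, hchi, hred]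
  have p1 : 0 < 1 + ‖t.2 + t.1 * t.2‖ ^ 2 := by positivity
  have n1 : 0 < ‖t.1‖ := norm_pos_iff.2 ht1
  have n2 : 0 < ‖t.2‖ := norm_pos_iff.2 ht2
  have e : t.2 + t.1 * t.2 - t.1 * t.2 = t.2 := by ring
  rw [e]
  have e2 : ‖t.2‖ ^ 2 + ‖t.1 * t.2‖ ^ 4 = ‖t.2‖ ^ 2 * (1 + ‖t.1 ^ 2 * t.2‖ ^ 2) := by
    rw [norm_mul, norm_mul, norm_pow]
    ring
  have p2 : 0 < 1 + ‖t.1 ^ 2 * t.2‖ ^ 2 := by positivity
  rw [e2, Real.log_div (by positivity) p1.ne', Real.log_mul (by positivity) p2.ne', norm_mul t.1 t.2,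
    mul_pow, Real.log_mul (by positivity) (by positivity)]
  have e3 : t.2 * (1 + t.1) = t.2 + t.1 * t.2 := by ring
  unfold rho
  rw [e3, norm_one, one_pow]
  ring

/-- `u` is smooth on `W` -/
lemma u_smooth (dens : S_DENS) {u u0 u2 u3 : E → ℝ} (hc : Cand u u0 u2 u3) {z : E} (hz : z ∈ W) :
    ContDiffAt ℝ ∞ u z := by
  have hV : z ∈ V 0 := Or.inl hz.1
  have hev : ∀ᶠ z' in 𝓝 z, z' ∈ W := by
    filter_upwards [((dens 0).2 z hV).2 hz] with z' h using h.1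
  refine (hc.s0 z hV).congr_of_eventuallyEq ?_
  filter_upwards [hev] with z' h using (hc.e0 z' h).symm

/-- positivity at the points over `W` -/
lemma pos_W (chi' : S_CHI) (lo : S_LOPS) (ll : S_LLOG) (dens : S_DENS) (phis : S_PHIS)
    {u u0 u2 u3 : E → ℝ} (hc : Cand u u0 u2 u3) {t : E} (hV : t ∈ V 2) (hW : tr 2 t ∈ W) (v : E) :
    0 ≤ lev (fun z => rho z + u2 z) t v := by
  have htV : ∀ᶠ t' in 𝓝 t, t' ∈ V 2 := (dens 2).1.mem_nhds hV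
  have hD := ((dens 2).2 t hV).2 hW
  have htW : ∀ᶠ t' in 𝓝 t, tr 2 t' ∈ W := by
    filter_upwards [hD] with t' h using h.1
  have hA : AnalyticAt ℂ (tr 2) t := hD.self_of_nhds.2
  obtain ⟨w1, w2⟩ := (show t.1 * t.2 ∉ Lam ∧ t.2 + t.1 * t.2 ≠ 0 from hW)
  have hx : t.1 * t.2 ≠ 0 := fun h => w1 (h ▸ zero_mem_Lam)
  have ht1 : t.1 ≠ 0 := left_ne_zero_of_mul hx
  have hPhi : ContDiffAt ℝ ∞ Phi (tr 2 t) := phis.2.1 _ hW.1
  have hu : ContDiffAt ℝ ∞ u (tr 2 t) := u_smooth dens hc hW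
  have hS : ContDiffAt ℝ ∞ (fun z => Phi z + u z) (tr 2 t) := hPhi.add hu
  have hS2 : ContDiffAt ℝ 2 (fun z => Phi z + u z) (tr 2 t) := hS.of_le (by norm_cast)
  have htrR : ContDiffAt ℝ ∞ (tr 2) t := (hA.contDiffAt (n := ∞)).restrict_scalars ℝ
  have hcomp : ContDiffAt ℝ 2 (fun z => (fun z => Phi z + u z) (tr 2 z)) t :=
    (hS2.comp t (htrR.of_le (by norm_cast)))
  have hlog := ll.1 (fun z : E => z.1) t v analyticAt_fst ht1
  have hgerm : lev (fun z => rho z + u2 z) t v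
      = lev (fun z => (fun z => Phi z + u z) (tr 2 z) + Real.log (‖z.1‖ ^ 2)) t v := by
    refine lo.2.2.2.1 _ _ t v ?_
    filter_upwards [htV, htW] with t' h1 h2
    rw [Phi_tr chi' h1 h2, hc.e2 t' h1 h2]
    ring
  rw [hgerm, lo.1 _ _ t v hcomp (hlog.1.of_le (by norm_cast)), hlog.2, add_zero,
    lo.2.2.2.2.1 _ _ t v hA hS2]
  exact hc.pos _ hW _

end N1

open N1 in
theorem t_N1 (liou : StLiou) (harm : S_HARM) (chi' : S_CHI) (lo : S_LOPS) (ll : S_LLOG)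
    (dens : S_DENS) (clev : S_CLEV) (phis : S_PHIS) : S_N1 := by
  intro u u0 u2 u3 hc ξ a
  have hsm : ContDiff ℝ ∞ fun ξ : ℂ => u2 (ξ, 0) := by
    rw [contDiff_iff_contDiffAt]
    intro x
    have h : ContDiffAt ℝ ∞ u2 ((fun ξ : ℂ => ((ξ, 0) : E)) x) := hc.s2 _ (mem_V2_zero x)
    exact ContDiffAt.comp (f := fun ξ : ℂ => ((ξ, 0) : E)) (g := u2) x h (by fun_prop)
  have hpos : ∀ x : ℂ, 0 ≤ Laplacian.laplacian (fun ξ : ℂ => u2 (ξ, 0)) x := by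
    intro x
    have hz := mem_V2_zero x
    have hSm : SmAt (fun z => rho z + u2 z) (x, 0) := by
      filter_upwards [(dens 2).1.mem_nhds hz] with z' hz'
      exact (rho_smooth ll z').add (hc.s2 z' hz')
    have hev : ∀ᶠ z' in 𝓝 ((x, 0) : E), tr 2 z' ∈ W → 0 ≤ lev (fun z => rho z + u2 z) z' (1, 0) := by
      filter_upwards [(dens 2).1.mem_nhds hz] with z' hz' hW
      exact pos_W chi' lo ll dens phis hc hz' hW _
    have h0 := clev 2 (x, 0) hz _ (1, 0) 0 hSm hev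
    have e : (fun ζ : ℂ => (fun z => rho z + u2 z) (((x, 0) : E) + ζ • ((1, 0) : E)))
        = fun ζ : ℂ => (fun ξ : ℂ => u2 (ξ, 0)) (x + ζ) := by
      funext ζ
      have : ((x, 0) : E) + ζ • ((1, 0) : E) = (x + ζ, 0) := by simp
      simp only [this, rho_zero, zero_add]
    rw [lev, e] at h0
    rw [InnerProductSpace.laplacian_eq_iteratedFDeriv_complexPlane] at h0 ⊢
    have e2 := iteratedFDeriv_comp_add_left (𝕜 := ℝ) (f := fun ξ : ℂ => u2 (ξ, 0)) 2 x 0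
    rw [add_zero] at e2
    simp only [e2] at h0
    exact h0
  have := harm liou _ hsm (bdd dens hc) hpos ξ a
  have hd : HasFDerivAt u2 (fderiv ℝ u2 (ξ, 0)) ((fun ξ : ℂ => ((ξ, 0) : E)) ξ) :=
    ((hc.s2 _ (mem_V2_zero ξ)).differentiableAt (by norm_num)).hasFDerivAt
  have hi : HasFDerivAt (fun ξ : ℂ => ((ξ, 0) : E))
      ((ContinuousLinearMap.id ℝ ℂ).prod (0 : ℂ →L[ℝ] ℂ)) ξ :=
    (hasFDerivAt_id ξ).prodMk (hasFDerivAt_const 0 ξ)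
  have hcomp := (hd.comp ξ hi).fderiv
  have e2 : (u2 ∘ fun ξ : ℂ => ((ξ, 0) : E)) = fun ξ : ℂ => u2 (ξ, 0) := rfl
  rw [e2] at hcomp
  rw [hcomp] at this
  simpa using this

end Pool.Agent.Q22.SP
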