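import Pool.Agent.Q22.SP.Stm

/-!
# Project SP (helper22), job HARM: bounded harmonic functions (helper142)
-/

set_option autoImplicit false

open Set Topology Filter
open scoped ContDiff Manifold

namespace Pool.Agent.Q22.SP

open Pool.Agent.Y184.SP

namespace HARM

theorem two_le : (2 : WithTop ℕ∞) ≤ ∞ :=
  show ((2 : ℕ∞) : WithTop ℕ∞) ≤ ((⊤ : ℕ∞) : WithTop ℕ∞) from WithTop.coe_le_coe.2 le_top

theorem lap_eq (v : ℂ → ℝ) (x : ℂ) : Laplacian.laplacian v x =
    fderiv ℝ (fderiv ℝ v) x 1 1 + fderiv ℝ (fderiv ℝ v) x Complex.I Complex.I := by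
  rw [InnerProductSpace.laplacian_eq_iteratedFDeriv_complexPlane]
  simp only [iteratedFDeriv_two_apply]
  rfl

theorem d2_sq {v : ℂ → ℝ} (hv : ContDiff ℝ ∞ v) (x a : ℂ) :
    fderiv ℝ (fderiv ℝ (fun t => v t * v t)) x a a =
      2 * v x * fderiv ℝ (fderiv ℝ v) x a a + 2 * (fderiv ℝ v x a) ^ 2 := by
  have hd : Differentiable ℝ v := hv.differentiable (by simp)
  have hd2 : Differentiable ℝ (fderiv ℝ v) :=
    (hv.fderiv_right (m := ∞) (by simp)).differentiable (by simp)
  have h1 : fderiv ℝ (fun t => v t * v t) = fun t => v t • fderiv ℝ v t + v t • fderiv ℝ v t := by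
    funext t
    exact fderiv_fun_mul (hd t) (hd t)
  have h2 : HasFDerivAt (fun t => v t • fderiv ℝ v t)
      (v x • fderiv ℝ (fderiv ℝ v) x + (fderiv ℝ v x).smulRight (fderiv ℝ v x)) x :=
    (hd x).hasFDerivAt.smul (hd2 x).hasFDerivAt
  have h3 : HasFDerivAt (fun t => v t • fderiv ℝ v t + v t • fderiv ℝ v t) _ x := h2.add h2
  rw [h1, h3.fderiv]
  simp only [ContinuousLinearMap.add_apply, ContinuousLinearMap.smul_apply,
    ContinuousLinearMap.smulRight_apply, smul_eq_mul]
  ring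

end HARM

open HARM in
theorem t_HARM : S_HARM := by
  intro hL v hv hb hpos x a
  have h0 : ∀ x, Laplacian.laplacian v x = 0 := hL v (hv.of_le two_le) hb hpos
  have h1 : ∀ x, Laplacian.laplacian (fun t => v t * v t) x =
      2 * (fderiv ℝ v x 1) ^ 2 + 2 * (fderiv ℝ v x Complex.I) ^ 2 := by
    intro x
    have h2 := h0 x
    rw [lap_eq] at h2 ⊢
    rw [d2_sq hv, d2_sq hv]
    linear_combination (2 * v x) * h2
  obtain ⟨K, hK⟩ := hb
  have h2 := hL (fun t => v t * v t) ((hv.mul hv).of_le two_le)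
    ⟨K * K, fun x => by
      rw [abs_mul]
      exact mul_le_mul (hK x) (hK x) (abs_nonneg _) ((abs_nonneg _).trans (hK x))⟩
    (fun x => by rw [h1]; positivity) x
  rw [h1] at h2
  have h3 : fderiv ℝ v x 1 = 0 := by
    have : (fderiv ℝ v x 1) ^ 2 = 0 := by
      nlinarith [sq_nonneg (fderiv ℝ v x 1), sq_nonneg (fderiv ℝ v x Complex.I)]
    exact pow_eq_zero_iff (by norm_num) |>.1 this
  have h4 : fderiv ℝ v x Complex.I = 0 := by
    have : (fderiv ℝ v x Complex.I) ^ 2 = 0 := by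
      nlinarith [sq_nonneg (fderiv ℝ v x 1), sq_nonneg (fderiv ℝ v x Complex.I)]
    exact pow_eq_zero_iff (by norm_num) |>.1 this
  have h5 : a = a.re • (1 : ℂ) + a.im • Complex.I := by
    rw [Complex.real_smul, Complex.real_smul, mul_one]
    exact (Complex.re_add_im a).symm
  rw [h5, map_add, map_smul, map_smul, h3, h4, smul_zero, smul_zero, add_zero]

end Pool.Agent.Q22.SP
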