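import Pool.Agent.Q22.SP.Stm
import Pool.Agent.Q22.SP.N1
import Pool.Agent.Q22.SP.HARM

/-!
# Project SP, step N2: the elliptic curve `y = 0` (helper5)
-/

set_option autoImplicit false

open Set Topology Filter
open scoped ContDiff Manifold

namespace Pool.Agent.Q22.SP

open Pool.Agent.Y184.SP

namespace N2

open scoped Classical in
/-- the function on the elliptic curve -/
noncomputable def vv (u0 u2 : E → ℝ) (x : ℂ) : ℝ :=
  if x ∈ Lam then u2 (-1, 0) else Phi (x, 0) + u0 (x, 0)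

lemma Phi_zero (chi' : S_CHI) {x : ℂ} (hx : x ∉ Lam) :
    Phi (x, 0) = Pool.Agent.Y184.SP.chi x * Real.log (1 + ‖red x‖ ^ 2) := by
  have hr : red x ≠ 0 := fun h => hx ((chi'.2.2.2.2.2.2.2.2.1 x).2 h)
  have hn : 0 < ‖red x‖ := norm_pos_iff.2 hr
  have hP : Phi (x, 0) = 3 * Real.log (1 + ‖(0 : ℂ)‖ ^ 2) + Pool.Agent.Y184.SP.chi x *
      (Real.log ((‖0 - red x‖ ^ 2 + ‖red x‖ ^ 4) / (1 + ‖(0 : ℂ)‖ ^ 2))
        - Real.log (‖red x‖ ^ 2)) := rfl
  rw [hP]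
  have e : ‖0 - red x‖ ^ 2 + ‖red x‖ ^ 4 = ‖red x‖ ^ 2 * (1 + ‖red x‖ ^ 2) := by
    rw [zero_sub, norm_neg]; ring
  have e1 : (1 : ℝ) + ‖(0 : ℂ)‖ ^ 2 = 1 := by simp
  rw [e, e1, div_one, Real.log_one, Real.log_mul (by positivity) (by positivity)]
  ring

lemma add_mem_iff (chi' : S_CHI) (x : ℂ) {l : ℂ} (hl : l ∈ Lam) : x + l ∈ Lam ↔ x ∈ Lam := by
  rw [chi'.2.2.2.2.2.2.2.2.1, chi'.2.2.2.2.2.2.2.2.1, chi'.2.2.2.1 x l hl]

lemma mem_V0 {x : ℂ} (hx : x ∉ Lam) (y : ℂ) : ((x, y) : E) ∈ V 0 := Or.inl hx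

lemma c0 {u u0 u2 u3 : E → ℝ} (hc : Cand u u0 u2 u3) {x : ℂ} (hx : x ∉ Lam) :
    ContinuousAt (fun y : ℂ => u0 (x, y)) 0 := by
  have h : ContinuousAt u0 ((fun y : ℂ => ((x, y) : E)) 0) := (hc.s0 _ (mem_V0 hx 0)).continuousAt
  exact ContinuousAt.comp (f := fun y : ℂ => ((x, y) : E)) (g := u0) h (by fun_prop)

lemma ev_ne : ∀ᶠ y in 𝓝[≠] (0 : ℂ), y ≠ 0 := self_mem_nhdsWithin

/-- periodicity of `u0` on the curve -/
lemma u0_per (chi' : S_CHI) {u u0 u2 u3 : E → ℝ} (hc : Cand u u0 u2 u3) {x l : ℂ} (hl : l ∈ Lam)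
    (hx : x ∉ Lam) : u0 (x + l, 0) = u0 (x, 0) := by
  have hx' : x + l ∉ Lam := by rwa [add_mem_iff chi' x hl]
  have t1 := (c0 hc hx').continuousWithinAt (s := {y | y ≠ 0}) |>.tendsto
  have t2 := (c0 hc hx).continuousWithinAt (s := {y | y ≠ 0}) |>.tendsto
  have hev : ∀ᶠ y in 𝓝[{y : ℂ | y ≠ 0}] (0 : ℂ), u0 (x + l, y) = u0 (x, y) := by
    filter_upwards [self_mem_nhdsWithin] with y hy
    rw [hc.e0 (x + l, y) ⟨hx', hy⟩, hc.e0 (x, y) ⟨hx, hy⟩, hc.per x y l hl]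
  have hne : (𝓝[{y : ℂ | y ≠ 0}] (0 : ℂ)).NeBot := inferInstanceAs (𝓝[≠] (0 : ℂ)).NeBot
  exact tendsto_nhds_unique t1 (t2.congr' (hev.mono fun y h => h.symm))

/-- transition to the second system -/
lemma eq_near (chi' : S_CHI) (dens : S_DENS) {u u0 u2 u3 : E → ℝ} (hc : Cand u u0 u2 u3)
    {x l : ℂ} (hl : l ∈ Lam) (h0 : x ≠ l) (h1 : ‖x - l‖ < 1 / 8) :
    u0 (x, 0) = u2 (-1, -(x - l)) := by
  obtain ⟨-, -, -, -, -, c6, -, -, c9, -, -⟩ := chi'
  have hr0 : x - l ≠ 0 := sub_ne_zero.2 h0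
  have hxL : x ∉ Lam := by
    rw [c9, c6 x l hl (by linarith)]; exact hr0
  have hrL : x - l ∉ Lam := by
    rw [c9, c6 (x - l) 0 N1.zero_mem_Lam (by rw [sub_zero]; linarith), sub_zero]; exact hr0
  set r := x - l with hr
  let s : ℂ → E := fun y => (r / (y - r), y - r)
  have hs0 : s 0 = (-1, -r) := by
    have : r / (0 - r) = -1 := by rw [zero_sub, div_neg, div_self hr0]
    change ((r / (0 - r), 0 - r) : E) = (-1, -r)
    rw [this, zero_sub]
  have hs : ContinuousAt s 0 := by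
    refine ContinuousAt.prodMk ?_ (by fun_prop)
    refine ContinuousAt.div continuousAt_const (by fun_prop) ?_
    rw [zero_sub]; exact neg_ne_zero.2 hr0
  have hV : s 0 ∈ V 2 := by
    rw [hs0]
    change ‖-1 * -r‖ < 1 / 8 ∧ ‖-r‖ < 1 / 8
    rw [neg_mul_neg, one_mul, norm_neg]
    exact ⟨h1, h1⟩
  have c2 : ContinuousAt (fun y => u2 (s y)) 0 :=
    ContinuousAt.comp (f := s) (g := u2) (hc.s2 _ hV).continuousAt hs
  have hev : ∀ᶠ y in 𝓝[{y : ℂ | y ≠ 0}] (0 : ℂ), u0 (x, y) = u2 (s y) := by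
    have e1 : ∀ᶠ y in 𝓝 (0 : ℂ), s y ∈ V 2 := hs.eventually_mem ((dens 2).1.mem_nhds hV)
    have e2 : ∀ᶠ y in 𝓝 (0 : ℂ), y ≠ r := isOpen_ne.mem_nhds (Ne.symm hr0)
    filter_upwards [mem_nhdsWithin_of_mem_nhds e1, mem_nhdsWithin_of_mem_nhds e2,
      self_mem_nhdsWithin] with y hy1 hy2 hy3
    have hyr : y - r ≠ 0 := sub_ne_zero.2 hy2
    have htr : tr 2 (s y) = (r, y) := by
      change ((r / (y - r) * (y - r), (y - r) + r / (y - r) * (y - r)) : E) = (r, y)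
      rw [div_mul_cancel₀ r hyr]
      simp
    have hW : tr 2 (s y) ∈ W := by
      rw [htr]; exact ⟨hrL, hy3⟩
    rw [hc.e2 _ hy1 hW, htr, hc.e0 (x, y) ⟨hxL, hy3⟩, ← hc.per r y l hl]
    have : r + l = x := by rw [hr]; ring
    rw [this]
  have hne : (𝓝[{y : ℂ | y ≠ 0}] (0 : ℂ)).NeBot := inferInstanceAs (𝓝[≠] (0 : ℂ)).NeBot
  have t1 := (c0 hc hxL).continuousWithinAt (s := {y | y ≠ 0}) |>.tendsto
  have t2 := c2.continuousWithinAt (s := {y | y ≠ 0}) |>.tendsto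
  have := tendsto_nhds_unique t1 (t2.congr' (hev.mono fun y h => h.symm))
  rw [this, hs0]

lemma ev_notMem (chi' : S_CHI) {x : ℂ} (hx : x ∉ Lam) : ∀ᶠ x' in 𝓝 x, x' ∉ Lam :=
  chi'.2.2.2.2.2.2.2.2.2.2.1.isOpen_compl.mem_nhds hx

/-- the function away from the lattice -/
lemma vv_off (chi' : S_CHI) (u0 u2 : E → ℝ) {x : ℂ} (hx : x ∉ Lam) :
    vv u0 u2 =ᶠ[𝓝 x] fun x' => Phi (x', 0) + u0 (x', 0) := by
  filter_upwards [ev_notMem chi' hx] with x' h
  simp only [vv, if_neg h]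

lemma f_smooth (phis : S_PHIS) {u u0 u2 u3 : E → ℝ} (hc : Cand u u0 u2 u3) {x : ℂ}
    (hx : x ∉ Lam) : ContDiffAt ℝ ∞ (fun x' : ℂ => Phi (x', 0) + u0 (x', 0)) x := by
  have h1 : ContDiffAt ℝ ∞ (fun z => Phi z + u0 z) ((fun x' : ℂ => ((x', 0) : E)) x) :=
    (phis.2.1 (x, 0) hx).add (hc.s0 _ (mem_V0 hx 0))
  exact ContDiffAt.comp (f := fun x' : ℂ => ((x', 0) : E)) (g := fun z => Phi z + u0 z) x h1
    (by fun_prop)

lemma vv_near (chi' : S_CHI) (dens : S_DENS) {u u0 u2 u3 : E → ℝ} (hc : Cand u u0 u2 u3)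
    {l : ℂ} (hl : l ∈ Lam) :
    vv u0 u2 =ᶠ[𝓝 l] fun x => Real.log (1 + ‖x - l‖ ^ 2) + u2 (-1, -(x - l)) := by
  have hb : ∀ᶠ x in 𝓝 l, ‖x - l‖ < 1 / 8 := by
    filter_upwards [Metric.ball_mem_nhds l (by norm_num : (0 : ℝ) < 1 / 8)] with x hx
    rwa [mem_ball_iff_norm] at hx
  filter_upwards [hb] with x hx
  have hred : red x = x - l := chi'.2.2.2.2.2.1 x l hl (by linarith)
  by_cases hxL : x ∈ Lam
  · have h0 : x - l = 0 := by rw [← hred]; exact (chi'.2.2.2.2.2.2.2.2.1 x).1 hxL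
    simp only [vv, if_pos hxL, h0]
    simp
  · have hne : x ≠ l := fun h => hxL (h ▸ hl)
    have hchi : Pool.Agent.Y184.SP.chi x = 1 :=
      chi'.2.2.2.2.2.2.1 x (by rw [hred]; exact hx.le)
    simp only [vv, if_neg hxL]
    rw [Phi_zero chi' hxL, hchi, hred, one_mul, eq_near chi' dens hc hl hne hx]

lemma vv_smooth (chi' : S_CHI) (dens : S_DENS) (phis : S_PHIS) {u u0 u2 u3 : E → ℝ}
    (hc : Cand u u0 u2 u3) : ContDiff ℝ ∞ (vv u0 u2) := by
  rw [contDiff_iff_contDiffAt]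
  intro x
  by_cases hx : x ∈ Lam
  · refine ContDiffAt.congr_of_eventuallyEq ?_ (vv_near chi' dens hc hx)
    refine ContDiffAt.add ?_ ?_
    · refine ContDiffAt.log ?_ (by positivity)
      exact (contDiff_const.add ((contDiff_id.sub contDiff_const).norm_sq ℝ)).contDiffAt
    · have hm : ((-1, -(x - x)) : E) ∈ V 2 := by
        change ‖-1 * -(x - x)‖ < 1 / 8 ∧ ‖-(x - x)‖ < 1 / 8
        simp
      have h2 : ContDiffAt ℝ ∞ u2 ((fun x' : ℂ => ((-1, -(x' - x)) : E)) x) := hc.s2 _ hm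
      exact ContDiffAt.comp (f := fun x' : ℂ => ((-1, -(x' - x)) : E)) (g := u2) x h2 (by fun_prop)
  · exact (f_smooth phis hc hx).congr_of_eventuallyEq (vv_off chi' u0 u2 hx)

lemma vv_per (chi' : S_CHI) (phis : S_PHIS) {u u0 u2 u3 : E → ℝ} (hc : Cand u u0 u2 u3)
    (x : ℂ) {l : ℂ} (hl : l ∈ Lam) : vv u0 u2 (x + l) = vv u0 u2 x := by
  by_cases hx : x ∈ Lam
  · have hx' : x + l ∈ Lam := (add_mem_iff chi' x hl).2 hx
    simp only [vv, if_pos hx, if_pos hx']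
  · have hx' : x + l ∉ Lam := by rwa [add_mem_iff chi' x hl]
    simp only [vv, if_neg hx, if_neg hx']
    rw [phis.1 x 0 l hl, u0_per chi' hc hl hx]

lemma red_le (x : ℂ) : ‖red x‖ ≤ 1 := by
  have h1 : (red x).re = x.re - round x.re := by simp [red]
  have h2 : (red x).im = x.im - round x.im := by simp [red]
  have h3 := Complex.norm_le_abs_re_add_abs_im (red x)
  rw [h1, h2] at h3
  have h4 := abs_sub_round x.re
  have h5 := abs_sub_round x.im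
  linarith

lemma vv_bdd (chi' : S_CHI) (dens : S_DENS) (phis : S_PHIS) {u u0 u2 u3 : E → ℝ}
    (hc : Cand u u0 u2 u3) : ∃ K, ∀ x, |vv u0 u2 x| ≤ K := by
  obtain ⟨K, hK⟩ := (isCompact_closedBall (0 : ℂ) 1).exists_bound_of_continuousOn
    (vv_smooth chi' dens phis hc).continuous.continuousOn
  refine ⟨K, fun x => ?_⟩
  have h := hK (red x) (by simpa using red_le x)
  rw [Real.norm_eq_abs] at h
  have e := vv_per chi' phis hc (red x) (chi'.2.2.2.2.1 x)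
  rw [add_sub_cancel] at e
  rwa [e]

/-- the Laplacian off the lattice -/
lemma lap_off (chi' : S_CHI) (u0 u2 : E → ℝ) {x : ℂ} (hx : x ∉ Lam) :
    lev (fun z => Phi z + u0 z) (x, 0) (1, 0) = Laplacian.laplacian (vv u0 u2) x := by
  have h1 : Laplacian.laplacian (vv u0 u2) x =
      Laplacian.laplacian (fun x' : ℂ => Phi (x', 0) + u0 (x', 0)) x :=
    InnerProductSpace.laplacian_congr_nhds (vv_off chi' u0 u2 hx) |>.self_of_nhds
  have e : (fun ζ : ℂ => (fun z => Phi z + u0 z) (((x, 0) : E) + ζ • ((1, 0) : E)))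
      = fun ζ : ℂ => (fun x' : ℂ => Phi (x', 0) + u0 (x', 0)) (x + ζ) := by
    funext ζ
    have : ((x, 0) : E) + ζ • ((1, 0) : E) = (x + ζ, 0) := by simp
    simp only [this]
  rw [h1, lev, e]
  rw [InnerProductSpace.laplacian_eq_iteratedFDeriv_complexPlane,
    InnerProductSpace.laplacian_eq_iteratedFDeriv_complexPlane]
  have e2 := iteratedFDeriv_comp_add_left (𝕜 := ℝ)
    (f := fun x' : ℂ => Phi (x', 0) + u0 (x', 0)) 2 x 0
  rw [add_zero] at e2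
  simp only [e2]

lemma lap_cont {v : ℂ → ℝ} (hv : ContDiff ℝ ∞ v) : Continuous (Laplacian.laplacian v) := by
  have h : Laplacian.laplacian v = fun x =>
      fderiv ℝ (fderiv ℝ v) x 1 1 + fderiv ℝ (fderiv ℝ v) x Complex.I Complex.I :=
    funext fun x => HARM.lap_eq v x
  rw [h]
  have h1 : ContDiff ℝ ∞ (fderiv ℝ v) := hv.fderiv_right (m := ∞) (by simp)
  have h2 : Continuous (fderiv ℝ (fderiv ℝ v)) :=
    (h1.fderiv_right (m := ∞) (by simp)).continuous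
  fun_prop

lemma pos_off (chi' : S_CHI) (lo : S_LOPS) (dens : S_DENS) (clev : S_CLEV) (phis : S_PHIS)
    {u u0 u2 u3 : E → ℝ} (hc : Cand u u0 u2 u3) {x : ℂ} (hx : x ∉ Lam) :
    0 ≤ lev (fun z => Phi z + u0 z) (x, 0) (1, 0) := by
  have hz : ((x, 0) : E) ∈ V 0 := mem_V0 hx 0
  refine clev 0 (x, 0) hz _ (1, 0) 0 ?_ ?_
  · have h : ∀ᶠ z' : E in 𝓝 (x, 0), z'.1 ∉ Lam :=
      (continuousAt_fst (p := ((x, 0) : E))).eventually (ev_notMem chi' hx)
    filter_upwards [h] with z' hz'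
    exact (phis.2.1 z' hz').add (hc.s0 _ (Or.inl hz'))
  · filter_upwards with z' hW
    have hW' : z' ∈ W := hW
    have hev : ∀ᶠ t in 𝓝 z', t ∈ W := by
      filter_upwards [((dens 0).2 z' (Or.inl hW'.1)).2 hW] with t h using h.1
    rw [lo.2.2.2.1 _ (fun t => Phi t + u t) z' (1, 0) (by
      filter_upwards [hev] with t ht
      rw [hc.e0 t ht])]
    exact hc.pos z' hW' _

lemma nonneg (chi' : S_CHI) (lo : S_LOPS) (dens : S_DENS) (clev : S_CLEV) (phis : S_PHIS)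
    {u u0 u2 u3 : E → ℝ} (hc : Cand u u0 u2 u3) (x : ℂ) :
    0 ≤ Laplacian.laplacian (vv u0 u2) x := by
  by_cases hx : x ∈ Lam
  · have hcont := (lap_cont (vv_smooth chi' dens phis hc)).continuousAt (x := x)
    have hev : ∀ᶠ x' in 𝓝[≠] x, 0 ≤ Laplacian.laplacian (vv u0 u2) x' := by
      have hb : ∀ᶠ x' in 𝓝[≠] x, ‖x' - x‖ < 1 / 8 := by
        filter_upwards [mem_nhdsWithin_of_mem_nhds
          (Metric.ball_mem_nhds x (by norm_num : (0 : ℝ) < 1 / 8))] with x' hx'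
        rwa [mem_ball_iff_norm] at hx'
      filter_upwards [hb, self_mem_nhdsWithin] with x' h1 h2
      have hx' : x' ∉ Lam := by
        rw [chi'.2.2.2.2.2.2.2.2.1, chi'.2.2.2.2.2.1 x' x hx (by linarith)]
        exact sub_ne_zero.2 h2
      rw [← lap_off chi' u0 u2 hx']
      exact pos_off chi' lo dens clev phis hc hx'
    exact ge_of_tendsto (hcont.continuousWithinAt (s := {x}ᶜ)).tendsto hev
  · rw [← lap_off chi' u0 u2 hx]
    exact pos_off chi' lo dens clev phis hc hx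

end N2

open N2 in
theorem t_N2 (liou : StLiou) (chi : S_CHI) (lo : S_LOPS) (ll : S_LLOG) (dens : S_DENS)
    (clev : S_CLEV) (phis : S_PHIS) : S_N2 := by
  intro u u0 u2 u3 hc x hx
  have _ := ll
  rw [lap_off chi u0 u2 hx]
  exact liou _ ((vv_smooth chi dens phis hc).of_le HARM.two_le) (vv_bdd chi dens phis hc)
    (nonneg chi lo dens clev phis hc) x

end Pool.Agent.Q22.SP
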