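import Pool.Agent.Q22.SP.Stm
import Pool.Agent.Y625.SP.Max

/-!
# Project SP (helper22): N3, holomorphy of `∂ρ/∂y` along a curve on which the Levi form vanishes
-/

set_option autoImplicit false

open Set Topology Filter
open scoped ContDiff

namespace Pool.Agent.Q22.SP.N3

open Pool.Agent.Y184.SP Pool.Agent.Q22.SP

/-- the Levi form by the second derivative -/
theorem lev_eq {ρ : E → ℝ} {z : E} (h : ContDiffAt ℝ 2 ρ z) (v : E) :
    lev ρ z v = fderiv ℝ (fderiv ℝ ρ) z v v +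
      fderiv ℝ (fderiv ℝ ρ) z (Complex.I • v) (Complex.I • v) := by
  have hdiff : ∀ᶠ z' in 𝓝 z, DifferentiableAt ℝ ρ z' := by
    filter_upwards [h.eventually (by simp)] with z' hz'
    exact hz'.differentiableAt (by norm_num)
  have hf : DifferentiableAt ℝ (fderiv ℝ ρ) z := by
    have : ContDiffAt ℝ 1 (fderiv ℝ ρ) z := h.fderiv_right (by norm_num)
    exact this.differentiableAt (by norm_num)
  have hL : ContDiffAt ℝ 2 (fun ζ : ℂ => ρ (z + ζ • v)) 0 := by
    have h1 : ContDiffAt ℝ 2 (fun ζ : ℂ => z + ζ • v) 0 :=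
      contDiffAt_const.add (contDiffAt_id.smul contDiffAt_const)
    have h2 : ContDiffAt ℝ 2 ρ (z + (0 : ℂ) • v) := by rw [zero_smul, add_zero]; exact h
    exact h2.comp (0 : ℂ) h1
  have key : ∀ e : ℂ, iteratedFDeriv ℝ 2 (fun ζ : ℂ => ρ (z + ζ • v)) 0 ![e, e] =
      fderiv ℝ (fderiv ℝ ρ) z (e • v) (e • v) := by
    intro e
    have hline : ∀ t : ℝ, HasDerivAt (fun s : ℝ => z + (s • e) • v) (e • v) t := by
      intro t
      have h1 : HasDerivAt (fun s : ℝ => s • (e • v)) ((1 : ℝ) • (e • v)) t :=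
        (hasDerivAt_id t).smul_const (e • v)
      have h2 := h1.const_add z
      rw [one_smul] at h2
      refine h2.congr_of_eventuallyEq (Eventually.of_forall fun s => ?_)
      simp only [smul_assoc]
    have ht0 : Tendsto (fun s : ℝ => z + (s • e) • v) (𝓝 0) (𝓝 z) := by
      have := (hline 0).continuousAt.tendsto
      simpa using this
    refine Pool.Agent.Y625.SP.lapline hL e (ψ := fun t => fderiv ℝ ρ (z + (t • e) • v) (e • v)) ?_ ?_
    · filter_upwards [ht0.eventually hdiff] with t ht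
      exact ht.hasFDerivAt.comp_hasDerivAt t (hline t)
    · have h6 : HasFDerivAt (fderiv ℝ ρ) (fderiv ℝ (fderiv ℝ ρ) z) (z + ((0 : ℝ) • e) • v) := by
        rw [zero_smul, zero_smul, add_zero]; exact hf.hasFDerivAt
      have h7 : HasDerivAt (fun t : ℝ => fderiv ℝ ρ (z + (t • e) • v))
          (fderiv ℝ (fderiv ℝ ρ) z (e • v)) 0 := h6.comp_hasDerivAt (0 : ℝ) (hline 0)
      exact (ContinuousLinearMap.apply ℝ ℝ (e • v)).hasFDerivAt.comp_hasDerivAt (0 : ℝ) h7
  unfold lev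
  rw [InnerProductSpace.laplacian_eq_iteratedFDeriv_complexPlane]
  simp only
  rw [key 1, key Complex.I, one_smul]

theorem symm2 {ρ : E → ℝ} {z : E} (h : ContDiffAt ℝ 2 ρ z) (v w : E) :
    fderiv ℝ (fderiv ℝ ρ) z v w = fderiv ℝ (fderiv ℝ ρ) z w v := by
  have h1 : IsSymmSndFDerivAt ℝ ρ z := h.isSymmSndFDerivAt (by simp)
  exact h1 v w

theorem quad0 {p q : ℝ} (h : ∀ s : ℝ, 0 ≤ s * p + s ^ 2 * q) : p = 0 := by
  by_contra hp
  have hq : 0 ≤ q := by
    have h1 := h 1
    have h2 := h (-1)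
    nlinarith
  have h1 := h (-p / (q + 1))
  have hq1 : 0 < q + 1 := by linarith
  have e : -p / (q + 1) * p + (-p / (q + 1)) ^ 2 * q = -(p ^ 2 / (q + 1) ^ 2) := by
    field_simp
    ring
  rw [e] at h1
  have : 0 < p ^ 2 / (q + 1) ^ 2 := by positivity
  linarith

end Pool.Agent.Q22.SP.N3

namespace Pool.Agent.Q22.SP

open Pool.Agent.Y184.SP N3

theorem t_N3 : S_N3 := by
  intro ρ O hO hρ hpos hz x hx
  have h2 : ContDiffAt ℝ 2 ρ (x, 0) :=
    (hρ x hx).of_le (WithTop.coe_le_coe.2 (le_top : (2 : ℕ∞) ≤ ⊤))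
  have hf : DifferentiableAt ℝ (fderiv ℝ ρ) (x, 0) := by
    have : ContDiffAt ℝ 1 (fderiv ℝ ρ) (x, 0) := h2.fderiv_right (by norm_num)
    exact this.differentiableAt (by norm_num)
  obtain ⟨B, hB⟩ : ∃ B, B = fderiv ℝ (fderiv ℝ ρ) (x, 0) := ⟨_, rfl⟩
  have hlev : ∀ v : E, lev ρ (x, 0) v = B v v + B (Complex.I • v) (Complex.I • v) := by
    intro v; rw [hB]; exact lev_eq h2 v
  have hsym : ∀ v w : E, B v w = B w v := by
    intro v w; rw [hB]; exact symm2 h2 v w
  have h0 : B (1, 0) (1, 0) + B (Complex.I, 0) (Complex.I, 0) = 0 := by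
    have h1 := hz x hx
    rw [hlev] at h1
    have e1 : Complex.I • ((1, 0) : E) = (Complex.I, 0) := by
      ext <;> simp
    rw [e1] at h1
    exact h1
  have cross : ∀ b : ℂ, B (1, 0) (0, b) + B (Complex.I, 0) (0, Complex.I * b) = 0 := by
    intro b
    refine quad0 (q := (B (0, b) (0, b) + B (0, Complex.I * b) (0, Complex.I * b)) / 4)
      fun s => ?_
    have h1 := hpos x hx ((1, 0) + (s / 2) • (0, b))
    rw [hlev] at h1
    have e2 : Complex.I • (((1, 0) : E) + (s / 2) • ((0, b) : E)) =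
        (Complex.I, 0) + (s / 2) • ((0, Complex.I * b) : E) := by
      ext
      · simp
      · simp
        ring
    rw [e2] at h1
    simp only [map_add, map_smul, add_apply, smul_apply,
      smul_eq_mul] at h1
    have s1 := hsym (0, b) (1, 0)
    have s2 := hsym (0, Complex.I * b) (Complex.I, 0)
    rw [s1, s2] at h1
    nlinarith [h0, h1]
  -- the real derivative of `dy ρ`
  have hd : HasFDerivAt (fun x' : ℂ => fderiv ℝ ρ (x', 0))
      (B.comp (ContinuousLinearMap.inl ℝ ℂ ℂ)) x := by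
    rw [hB]
    have h3 : HasFDerivAt (fun x' : ℂ => ((x', 0) : E)) (ContinuousLinearMap.inl ℝ ℂ ℂ) x :=
      hasFDerivAt_prodMk_left x 0
    exact HasFDerivAt.comp (g := fderiv ℝ ρ) (f := fun x' : ℂ => ((x', 0) : E)) x
      hf.hasFDerivAt h3
  have hdw : ∀ w : E, HasFDerivAt (fun x' : ℂ => ((fderiv ℝ ρ (x', 0) w : ℝ) : ℂ))
      (Complex.ofRealCLM.comp ((ContinuousLinearMap.apply ℝ ℝ w).comp
        (B.comp (ContinuousLinearMap.inl ℝ ℂ ℂ)))) x := by
    intro w
    exact Complex.ofRealCLM.hasFDerivAt.comp x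
      ((ContinuousLinearMap.apply ℝ ℝ w).hasFDerivAt.comp x hd)
  have hg := ((hdw (0, 1)).sub ((hdw (0, Complex.I)).const_mul Complex.I)).mul_const (2⁻¹ : ℂ)
  have hE : (dy ρ) =ᶠ[𝓝 x] (fun x' : ℂ => (((fderiv ℝ ρ (x', 0) (0, 1) : ℝ) : ℂ) -
      Complex.I * ((fderiv ℝ ρ (x', 0) (0, Complex.I) : ℝ) : ℂ)) * (2⁻¹ : ℂ)) := by
    refine Eventually.of_forall fun x' => ?_
    simp only [dy, div_eq_mul_inv]
  have hg' := HasFDerivAt.congr_of_eventuallyEq hg hE
  rw [differentiableAt_complex_iff_differentiableAt_real]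
  refine ⟨hg'.differentiableAt, ?_⟩
  rw [hg'.fderiv]
  have c1 := cross 1
  have c2 := cross (-Complex.I)
  have e3 : Complex.I * -Complex.I = 1 := by
    rw [mul_neg, Complex.I_mul_I, neg_neg]
  rw [mul_one] at c1
  rw [e3] at c2
  have e4 : ((0 : ℂ), -Complex.I) = -((0 : ℂ), Complex.I) := by simp
  rw [e4, map_neg] at c2
  simp only [smul_apply, sub_apply,
    ContinuousLinearMap.comp_apply, ContinuousLinearMap.apply_apply, Complex.ofRealCLM_apply,
    ContinuousLinearMap.inl_apply, smul_eq_mul]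
  have c1' : B (Complex.I, 0) (0, Complex.I) = -B (1, 0) (0, 1) := by linarith
  have c2' : B (Complex.I, 0) (0, 1) = B (1, 0) (0, Complex.I) := by linarith
  rw [c1', c2']
  push_cast
  ring_nf
  rw [Complex.I_sq]
  ring

end Pool.Agent.Q22.SP
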