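import Pool.Agent.Q22.SP.Stm

/-! Project SP: N4, the residue. -/

set_option autoImplicit false

open Set Topology Filter
open scoped ContDiff Manifold

namespace Pool.Agent.Q22.SP

open Pool.Agent.Y184.SP

namespace N4

theorem zero_mem : (0 : ℂ) ∈ Lam := ⟨0, 0, by simp⟩

/-- uniqueness of the derivative of functions which agree off a point -/
theorem deriv_eq (f g : ℝ → ℝ) (a b : ℝ) (hf : HasDerivAt f a 0) (hg : HasDerivAt g b 0)
    (h : ∀ᶠ t in 𝓝[≠] (0 : ℝ), f t = g t) : a = b := by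
  have h0 : f 0 = g 0 := by
    have h1 : Tendsto f (𝓝[≠] 0) (𝓝 (f 0)) := hf.continuousAt.continuousWithinAt
    have h2 : Tendsto g (𝓝[≠] 0) (𝓝 (g 0)) := hg.continuousAt.continuousWithinAt
    have h3 : Tendsto g (𝓝[≠] 0) (𝓝 (f 0)) := h1.congr' h
    exact tendsto_nhds_unique h3 h2
  have h4 : f =ᶠ[𝓝 0] g := eventuallyEq_nhds_of_eventuallyEq_nhdsNE h h0
  exact (hf.congr_of_eventuallyEq h4.symm).unique hg

theorem curve (x b : ℂ) : HasDerivAt (fun t : ℝ => ((x, (t : ℂ) * b) : E)) ((0, b) : E) 0 := by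
  have h1 : HasDerivAt (fun t : ℝ => (t : ℂ) * b) b 0 := by
    have h2 : HasDerivAt (fun t : ℝ => (t : ℂ)) 1 (0 : ℝ) := Complex.ofRealCLM.hasDerivAt
    have h3 := h2.mul_const b
    rwa [one_mul] at h3
  exact (hasDerivAt_const (0 : ℝ) x).prodMk h1

theorem notin (chi : S_CHI) (x : ℂ) (h0 : x ≠ 0) (h : ‖x‖ < 1 / 2) : red x = x ∧ x ∉ Lam := by
  obtain ⟨_, _, _, _, _, c6, _, _, c9, _, _, _, _⟩ := chi
  have h1 : red x = x := by
    have h2 := c6 x 0 zero_mem (by simpa using h)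
    simpa using h2
  refine ⟨h1, fun h3 => h0 ?_⟩
  rw [c9 x, h1] at h3
  exact h3

/-- the derivative of `Φ` at `(x, 0)` -/
theorem dPhi (chi : S_CHI) (phis : S_PHIS) (x b : ℂ) (h0 : x ≠ 0) (h : ‖x‖ < 1 / 8) :
    fderiv ℝ Phi (x, 0) (0, b) =
      -(2 * (x.re * b.re + x.im * b.im)) / (‖x‖ ^ 2 + ‖x‖ ^ 4) := by
  obtain ⟨hr, hn⟩ := notin chi x h0 (by linarith)
  obtain ⟨_, _, _, _, _, _, c7, _, _, _, _, _, _⟩ := chi
  have hchi : Pool.Agent.Y184.SP.chi x = 1 := c7 x (by rw [hr]; exact h.le)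
  have hX : 0 < ‖x‖ := norm_pos_iff.2 h0
  have hM : 0 < ‖x‖ ^ 2 + ‖x‖ ^ 4 := by positivity
  have hd : DifferentiableAt ℝ Phi (x, 0) := (phis.2.1 (x, 0) hn).differentiableAt (by simp)
  have h1 : HasDerivAt (fun t : ℝ => Phi (x, (t : ℂ) * b)) (fderiv ℝ Phi (x, 0) (0, b)) 0 := by
    refine HasFDerivAt.comp_hasDerivAt_of_eq (0 : ℝ) hd.hasFDerivAt (curve x b) ?_
    simp
  have hn1 : ∀ t : ℝ, ‖(t : ℂ) * b‖ ^ 2 = t ^ 2 * ‖b‖ ^ 2 := by
    intro t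
    rw [norm_mul, mul_pow, Complex.norm_real, Real.norm_eq_abs, sq_abs]
  have hn2 : ∀ t : ℝ, ‖(t : ℂ) * b - x‖ ^ 2 =
      t ^ 2 * ‖b‖ ^ 2 - 2 * t * (x.re * b.re + x.im * b.im) + ‖x‖ ^ 2 := by
    intro t
    rw [Complex.sq_norm, Complex.sq_norm, Complex.sq_norm, Complex.normSq_apply,
      Complex.normSq_apply, Complex.normSq_apply]
    simp only [Complex.sub_re, Complex.sub_im, Complex.re_ofReal_mul, Complex.im_ofReal_mul]
    ring
  have h2 : (fun t : ℝ => Phi (x, (t : ℂ) * b)) = fun t : ℝ => 2 * Real.log (1 + t ^ 2 * ‖b‖ ^ 2) +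
      Real.log (t ^ 2 * ‖b‖ ^ 2 - 2 * t * (x.re * b.re + x.im * b.im) + (‖x‖ ^ 2 + ‖x‖ ^ 4)) -
      Real.log (‖x‖ ^ 2) := by
    funext t
    have h3 : 0 < 1 + t ^ 2 * ‖b‖ ^ 2 := by positivity
    have h4 : 0 < t ^ 2 * ‖b‖ ^ 2 - 2 * t * (x.re * b.re + x.im * b.im) + ‖x‖ ^ 2 + ‖x‖ ^ 4 := by
      rw [← hn2 t]
      positivity
    unfold Phi L2
    simp only []
    rw [hchi, hr, hn1 t, hn2 t, Real.log_div h4.ne' h3.ne', add_assoc (_ - _) (‖x‖ ^ 2) (‖x‖ ^ 4)]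
    ring
  rw [h2] at h1
  have h5 : HasDerivAt (fun t : ℝ => 1 + t ^ 2 * ‖b‖ ^ 2) 0 0 := by
    have h6 := (((hasDerivAt_id (0 : ℝ)).pow 2).mul_const (‖b‖ ^ 2)).const_add 1
    simpa using h6
  have h7 : HasDerivAt (fun t : ℝ => t ^ 2 * ‖b‖ ^ 2 - 2 * t * (x.re * b.re + x.im * b.im) +
      (‖x‖ ^ 2 + ‖x‖ ^ 4)) (-(2 * (x.re * b.re + x.im * b.im))) 0 := by
    have h8 := ((((hasDerivAt_id (0 : ℝ)).pow 2).mul_const (‖b‖ ^ 2)).sub
      (((hasDerivAt_id (0 : ℝ)).const_mul 2).mul_const (x.re * b.re + x.im * b.im))).add_const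
      (‖x‖ ^ 2 + ‖x‖ ^ 4)
    simpa using h8
  have h9 := (((h5.log (by simp)).const_mul 2).add (h7.log (by simpa using hM.ne'))).sub_const
    (Real.log (‖x‖ ^ 2))
  have h10 := h1.unique h9
  rw [h10]
  simp

/-- the derivative of `u0` at `(x, 0)` -/
theorem du0 (chi : S_CHI) (u u0 u2 u3 : E → ℝ) (hc : Cand u u0 u2 u3) (x b : ℂ) (h0 : x ≠ 0)
    (h : ‖x‖ < 1 / 8) (hb : b ≠ 0) :
    fderiv ℝ u0 (x, 0) (0, b) = fderiv ℝ u2 (-1, -x) (-b / x, b) := by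
  obtain ⟨hr, hn⟩ := notin chi x h0 (by linarith)
  have hV0 : ((x, 0) : E) ∈ V 0 := Or.inl hn
  have hV2 : ((-1, -x) : E) ∈ V 2 := by
    show ‖(-1 : ℂ) * (-x)‖ < 1 / 8 ∧ ‖-x‖ < 1 / 8
    simp only [neg_mul_neg, one_mul, norm_neg]
    exact ⟨h, h⟩
  have hd0 : DifferentiableAt ℝ u0 (x, 0) := (hc.s0 _ hV0).differentiableAt (by simp)
  have hd2 : DifferentiableAt ℝ u2 (-1, -x) := (hc.s2 _ hV2).differentiableAt (by simp)
  have h1 : HasDerivAt (fun t : ℝ => u0 (x, (t : ℂ) * b)) (fderiv ℝ u0 (x, 0) (0, b)) 0 := by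
    refine HasFDerivAt.comp_hasDerivAt_of_eq (0 : ℝ) hd0.hasFDerivAt (curve x b) ?_
    simp
  have h3 : HasDerivAt (fun t : ℝ => (t : ℂ) * b - x) b 0 := by
    have h2 : HasDerivAt (fun t : ℝ => (t : ℂ)) 1 (0 : ℝ) := Complex.ofRealCLM.hasDerivAt
    have h3 := (h2.mul_const b).sub_const x
    rwa [one_mul] at h3
  have h4 : HasDerivAt (fun t : ℝ => x / ((t : ℂ) * b - x)) (-b / x) 0 := by
    have h5 := (hasDerivAt_const (0 : ℝ) x).div h3 (by simpa using h0)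
    refine h5.congr_deriv ?_
    simp only [Complex.ofReal_zero, zero_mul, zero_sub]
    field_simp
  have h6 : HasDerivAt (fun t : ℝ => ((x / ((t : ℂ) * b - x), (t : ℂ) * b - x) : E))
      ((-b / x, b) : E) 0 := h4.prodMk h3
  have h7 : HasDerivAt (fun t : ℝ => u2 (x / ((t : ℂ) * b - x), (t : ℂ) * b - x))
      (fderiv ℝ u2 (-1, -x) (-b / x, b)) 0 := by
    refine HasFDerivAt.comp_hasDerivAt_of_eq (0 : ℝ) hd2.hasFDerivAt h6 ?_
    simp only [Complex.ofReal_zero, zero_mul, zero_sub]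
    rw [div_neg, div_self h0]
  refine deriv_eq _ _ _ _ h1 h7 ?_
  have hV : ∀ᶠ t : ℝ in 𝓝 (0 : ℝ), ((x / ((t : ℂ) * b - x), (t : ℂ) * b - x) : E) ∈ V 2 := by
    have hc6 : ContinuousAt (fun t : ℝ => ((x / ((t : ℂ) * b - x), (t : ℂ) * b - x) : E)) 0 :=
      h6.continuousAt
    have hop : IsOpen (V 2) := by
      have e : V 2 = {z : E | ‖z.1 * z.2‖ < 1 / 8} ∩ {z : E | ‖z.2‖ < 1 / 8} := rfl
      rw [e]
      exact (isOpen_lt (by fun_prop) continuous_const).inter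
        (isOpen_lt (by fun_prop) continuous_const)
    refine hc6.eventually_mem (hop.mem_nhds ?_)
    have e2 : ((x / (((0 : ℝ) : ℂ) * b - x), ((0 : ℝ) : ℂ) * b - x) : E) = (-1, -x) := by
      simp only [Complex.ofReal_zero, zero_mul, zero_sub]
      rw [div_neg, div_self h0]
    rw [e2]
    exact hV2
  have hne : ∀ᶠ t : ℝ in 𝓝 (0 : ℝ), (t : ℂ) * b - x ≠ 0 := by
    refine h3.continuousAt.eventually_ne ?_
    simpa using h0
  filter_upwards [nhdsWithin_le_nhds hV, nhdsWithin_le_nhds hne, self_mem_nhdsWithin]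
    with t ht1 ht2 ht3
  have ht3' : t ≠ 0 := ht3
  have htb : (t : ℂ) * b ≠ 0 := mul_ne_zero (Complex.ofReal_ne_zero.2 ht3') hb
  have etr : tr 2 (x / ((t : ℂ) * b - x), (t : ℂ) * b - x) = (x, (t : ℂ) * b) := by
    show ((x / ((t : ℂ) * b - x)) * ((t : ℂ) * b - x),
      ((t : ℂ) * b - x) + (x / ((t : ℂ) * b - x)) * ((t : ℂ) * b - x)) = (x, (t : ℂ) * b)
    rw [div_mul_cancel₀ _ ht2, sub_add_cancel]
  have hW : ((x, (t : ℂ) * b) : E) ∈ W := ⟨hn, htb⟩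
  rw [hc.e0 _ hW, hc.e2 _ ht1 (by rw [etr]; exact hW), etr]

end N4

theorem t_N4 (chi : S_CHI) (ll : S_LLOG) (dens : S_DENS) (phis : S_PHIS) : S_N4 := by
  intro n1 u u0 u2 u3 hc
  have hV2 : ((-1, 0) : E) ∈ V 2 := by
    show ‖(-1 : ℂ) * 0‖ < 1 / 8 ∧ ‖(0 : ℂ)‖ < 1 / 8
    simp
  -- the derivative of `u2` along the curve
  have hA : ContinuousAt (fun x : ℂ => fderiv ℝ u2 (-1, -x)) 0 := by
    have h1 : ContDiffAt ℝ ∞ (fderiv ℝ u2) (-1, 0) :=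
      (hc.s2 _ hV2).fderiv_right (by simp)
    have h2 : ContinuousAt (fderiv ℝ u2) ((-1, -(0 : ℂ)) : E) := by
      rw [neg_zero]
      exact h1.continuousAt
    have h3 : ContinuousAt (fun x : ℂ => ((-1, -x) : E)) 0 := by fun_prop
    exact ContinuousAt.comp (g := fderiv ℝ u2) (f := fun x : ℂ => ((-1, -x) : E)) h2 h3
  set A : ℂ → E →L[ℝ] ℝ := fun x => fderiv ℝ u2 (-1, -x) with hAdef
  have hA0 : ∀ a : ℂ, A 0 (a, 0) = 0 := by
    intro a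
    show fderiv ℝ u2 (-1, -0) (a, 0) = 0
    rw [neg_zero]
    exact n1 u u0 u2 u3 hc (-1) a
  -- the bound
  have hbd : Tendsto (fun x : ℂ => ‖A x - A 0‖ + ‖x‖ * ‖A x‖) (𝓝[≠] 0) (𝓝 0) := by
    have h1 : Tendsto A (𝓝[≠] 0) (𝓝 (A 0)) := hA.continuousWithinAt
    have h2 : Tendsto (fun x : ℂ => A x - A 0) (𝓝[≠] 0) (𝓝 (A 0 - A 0)) :=
      h1.sub tendsto_const_nhds
    have h3 : Tendsto (fun x : ℂ => ‖x‖) (𝓝[≠] 0) (𝓝 ‖(0 : ℂ)‖) :=
      (continuous_norm.tendsto 0).mono_left nhdsWithin_le_nhds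
    have h4 := h2.norm.add (h3.mul h1.norm)
    simpa using h4
  have hsmall : ∀ᶠ x : ℂ in 𝓝[≠] 0, ‖x‖ < 1 / 8 := by
    refine nhdsWithin_le_nhds ?_
    have h1 : ∀ᶠ x : ℂ in 𝓝 0, ‖x‖ < 1 / 8 := by
      refine (continuous_norm.tendsto (0 : ℂ)).eventually_lt_const ?_
      simp
    exact h1
  have hkey : ∀ x b : ℂ, x ≠ 0 → ‖b‖ = 1 →
      ‖x‖ * |A x (-b / x, b)| ≤ ‖A x - A 0‖ + ‖x‖ * ‖A x‖ := by
    intro x b hx hb
    have hX : 0 < ‖x‖ := norm_pos_iff.2 hx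
    have e1 : ((-b / x, b) : E) = (-b / x, 0) + (0, b) := by simp
    have e2 : A x (-b / x, b) = (A x - A 0) (-b / x, 0) + A x (0, b) := by
      rw [e1, map_add, _root_.sub_apply, hA0, sub_zero]
    have n1' : ‖((-b / x, 0) : E)‖ = 1 / ‖x‖ := by
      rw [Prod.norm_mk, norm_div, norm_neg, hb, norm_zero]
      exact max_eq_left (by positivity)
    have n2 : ‖((0, b) : E)‖ = 1 := by
      rw [Prod.norm_mk, hb, norm_zero]
      exact max_eq_right (by norm_num)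
    have h1 : |(A x - A 0) (-b / x, 0)| ≤ ‖A x - A 0‖ * (1 / ‖x‖) := by
      rw [← n1', ← Real.norm_eq_abs]
      exact (A x - A 0).le_opNorm _
    have h2 : |A x (0, b)| ≤ ‖A x‖ := by
      have h3 := (A x).le_opNorm (0, b)
      rw [n2, mul_one, Real.norm_eq_abs] at h3
      exact h3
    rw [e2]
    have h4 : |(A x - A 0) (-b / x, 0) + A x (0, b)| ≤ ‖A x - A 0‖ * (1 / ‖x‖) + ‖A x‖ :=
      (abs_add_le _ _).trans (add_le_add h1 h2)
    have h5 := mul_le_mul_of_nonneg_left h4 hX.le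
    refine h5.trans (le_of_eq ?_)
    field_simp
  have hu0 : Tendsto (fun x : ℂ => x * dy u0 x) (𝓝[≠] 0) (𝓝 0) := by
    refine squeeze_zero_norm' ?_ hbd
    filter_upwards [hsmall, self_mem_nhdsWithin] with x hx1 hx2
    have hx2' : x ≠ 0 := hx2
    have k1 := hkey x 1 hx2' (by simp)
    have k2 := hkey x Complex.I hx2' (by simp)
    have d1 := N4.du0 chi u u0 u2 u3 hc x 1 hx2' hx1 one_ne_zero
    have d2 := N4.du0 chi u u0 u2 u3 hc x Complex.I hx2' hx1 Complex.I_ne_zero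
    have e1 : fderiv ℝ u2 (-1, -x) = A x := rfl
    rw [e1] at d1 d2
    unfold dy
    rw [d1, d2, norm_mul, norm_div]
    have h2 : ‖(2 : ℂ)‖ = 2 := by simp
    have h3 : ‖((A x (-1 / x, 1) : ℝ) : ℂ) - Complex.I * ((A x (-Complex.I / x, Complex.I) : ℝ) : ℂ)‖ ≤
        |A x (-1 / x, 1)| + |A x (-Complex.I / x, Complex.I)| := by
      refine (norm_sub_le _ _).trans ?_
      rw [norm_mul, Complex.norm_I, one_mul, Complex.norm_real, Complex.norm_real,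
        Real.norm_eq_abs, Real.norm_eq_abs]
    rw [h2]
    have h4 := mul_le_mul_of_nonneg_left h3 (norm_nonneg x)
    linarith
  have hPhi : Tendsto (fun x : ℂ => x * dy Phi x) (𝓝[≠] 0) (𝓝 (-1)) := by
    have h1 : Tendsto (fun x : ℂ => -(1 / (1 + (‖x‖ : ℂ) ^ 2))) (𝓝[≠] 0) (𝓝 (-1)) := by
      have h2 : ContinuousAt (fun x : ℂ => -(1 / (1 + (‖x‖ : ℂ) ^ 2))) 0 := by
        have h3 : (1 + ((‖(0 : ℂ)‖ : ℝ) : ℂ) ^ 2) ≠ 0 := by simp
        have h4 : ContinuousAt (fun x : ℂ => 1 + ((‖x‖ : ℝ) : ℂ) ^ 2) 0 := by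
          have : Continuous (fun x : ℂ => 1 + ((‖x‖ : ℝ) : ℂ) ^ 2) := by fun_prop
          exact this.continuousAt
        exact (continuousAt_const.div h4 h3).neg
      have h5 : Tendsto (fun x : ℂ => -(1 / (1 + (‖x‖ : ℂ) ^ 2))) (𝓝[≠] 0)
          (𝓝 (-(1 / (1 + (‖(0 : ℂ)‖ : ℂ) ^ 2)))) := h2.continuousWithinAt
      simpa using h5
    refine h1.congr' ?_
    filter_upwards [hsmall, self_mem_nhdsWithin] with x hx1 hx2
    have hx2' : x ≠ 0 := hx2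
    have hX : 0 < ‖x‖ := norm_pos_iff.2 hx2'
    unfold dy
    rw [N4.dPhi chi phis x 1 hx2' hx1, N4.dPhi chi phis x Complex.I hx2' hx1]
    simp only [Complex.one_re, Complex.one_im, Complex.I_re, Complex.I_im, mul_one, mul_zero,
      add_zero, zero_add]
    have hM : ((‖x‖ : ℝ) : ℂ) ^ 2 + ((‖x‖ : ℝ) : ℂ) ^ 4 ≠ 0 := by
      have : (0 : ℝ) < ‖x‖ ^ 2 + ‖x‖ ^ 4 := by positivity
      exact_mod_cast this.ne'
    have hM1 : (1 : ℂ) + ((‖x‖ : ℝ) : ℂ) ^ 2 ≠ 0 := by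
      have : (0 : ℝ) < 1 + ‖x‖ ^ 2 := by positivity
      exact_mod_cast this.ne'
    have hconj : x * ((x.re : ℂ) - Complex.I * (x.im : ℂ)) = ((‖x‖ : ℝ) : ℂ) ^ 2 := by
      have h6 : (x.re : ℂ) - Complex.I * (x.im : ℂ) = (starRingEnd ℂ) x := by
        apply Complex.ext <;> simp
      rw [h6, Complex.mul_conj, Complex.normSq_eq_norm_sq]
      push_cast
      rfl
    push_cast
    have h7 : x * ((-(2 * (x.re : ℂ)) / (((‖x‖ : ℝ) : ℂ) ^ 2 + ((‖x‖ : ℝ) : ℂ) ^ 4) -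
        Complex.I * (-(2 * (x.im : ℂ)) / (((‖x‖ : ℝ) : ℂ) ^ 2 + ((‖x‖ : ℝ) : ℂ) ^ 4))) / 2) =
        -(x * ((x.re : ℂ) - Complex.I * (x.im : ℂ))) /
          (((‖x‖ : ℝ) : ℂ) ^ 2 + ((‖x‖ : ℝ) : ℂ) ^ 4) := by
      field_simp
      ring
    rw [h7, hconj]
    have hXc : ((‖x‖ : ℝ) : ℂ) ≠ 0 := by exact_mod_cast hX.ne'
    field_simp
  have hsum := hPhi.add hu0
  rw [add_zero] at hsum
  refine hsum.congr' ?_
  filter_upwards [hsmall, self_mem_nhdsWithin] with x hx1 hx2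
  have hx2' : x ≠ 0 := hx2
  obtain ⟨_, hn⟩ := N4.notin chi x hx2' (by linarith)
  have hd0 : DifferentiableAt ℝ u0 (x, 0) := (hc.s0 _ (Or.inl hn)).differentiableAt (by simp)
  have hdP : DifferentiableAt ℝ Phi (x, 0) := (phis.2.1 (x, 0) hn).differentiableAt (by simp)
  have e1 : fderiv ℝ (fun z => Phi z + u0 z) (x, 0) = fderiv ℝ Phi (x, 0) + fderiv ℝ u0 (x, 0) :=
    fderiv_fun_add hdP hd0
  unfold dy
  rw [e1]
  simp only [_root_.add_apply]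
  push_cast
  ring

end Pool.Agent.Q22.SP
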