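import Pool.Agent.Q22.SP.Stm

set_option autoImplicit false

open Set Topology Filter
open scoped ContDiff Manifold

namespace Pool.Agent.Q22.SP

open Pool.Agent.Y184.SP

namespace NEAR

theorem two_le : (2 : WithTop ℕ∞) ≤ ∞ := WithTop.coe_le_coe.2 (le_top : (2 : ℕ∞) ≤ ⊤)

theorem lev_shift (ρ : E → ℝ) (l : ℂ) (z v : E) :
    lev (fun t => ρ (t.1 - l, t.2)) z v = lev ρ (z.1 - l, z.2) v := by
  unfold lev
  have e : (fun ζ : ℂ => ρ ((z + ζ • v).1 - l, (z + ζ • v).2)) =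
      fun ζ : ℂ => ρ ((z.1 - l, z.2) + ζ • v) := by
    funext ζ
    have e2 : ((z + ζ • v).1 - l, (z + ζ • v).2) = (z.1 - l, z.2) + ζ • v := by
      ext
      · show z.1 + ζ • v.1 - l = z.1 - l + ζ • v.1
        ring
      · rfl
    rw [e2]
  rw [e]

theorem nm_nonneg (z v : E) : 0 ≤ nm z v := by
  unfold nm
  positivity

theorem analytic_snd (z : E) : AnalyticAt ℂ (fun t : E => t.2) z := analyticAt_snd

theorem analytic_fst (z : E) : AnalyticAt ℂ (fun t : E => t.1) z := analyticAt_fst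

theorem quad (lo : S_LOPS) (ll : S_LLOG) {C : ℝ} (hC : 0 ≤ C) (z v : E) :
    ContDiffAt ℝ ∞ (fun t : E => C * ‖t.2‖ ^ 2) z ∧
      0 ≤ lev (fun t : E => C * ‖t.2‖ ^ 2) z v := by
  obtain ⟨lo1, lo2, lo3, lo4, lo5, lo6⟩ := lo
  obtain ⟨ll1, ll2, ll3⟩ := ll
  have h := ll2 (fun t : E => t.2) z v (analytic_snd z)
  refine ⟨contDiffAt_const.mul h.1, ?_⟩
  rw [lo3 _ C z v (h.1.of_le two_le), h.2]
  positivity

end NEAR

theorem t_NEAR (ch : S_CHI) (lo : S_LOPS) (ll : S_LLOG) : S_NEAR := by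
  intro ring ε hε
  obtain ⟨k, C, η, hk, hk1, hC, hη, hr⟩ := ring ε hε
  refine ⟨k, C, η, hk, hk1, hC, hη, ?_⟩
  intro z hz hzη v
  have hq := NEAR.quad lo ll hC z v
  obtain ⟨c1, c2, c3, c4, c5, c6, c7, c8, c9, c10, c11, c12, c13⟩ := ch
  obtain ⟨lo1, lo2, lo3, lo4, lo5, lo6⟩ := lo
  obtain ⟨ll1, ll2, ll3⟩ := ll
  have hneg : -(ε * nm z v) ≤ 0 := by
    have := mul_nonneg hε.le (NEAR.nm_nonneg z v)
    linarith
  have hfst : Tendsto (fun t : E => t.1) (𝓝 z) (𝓝 z.1) := continuous_fst.continuousAt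
  rcases lt_or_ge (1 / 4) ‖red z.1‖ with hbig | hle
  · -- far from the lattice
    have hev : ∀ᶠ t in 𝓝 z, near k C t = C * ‖t.2‖ ^ 2 := by
      filter_upwards [hfst.eventually (c12 z.1 hbig)] with t ht
      unfold near
      rw [ht, zero_mul, zero_add]
    rw [lo4 _ _ z v hev]
    exact hneg.trans hq.2
  rcases lt_or_ge ‖red z.1‖ (1 / 8) with hsmall | hge
  · -- close to the lattice
    obtain ⟨l, hl⟩ : ∃ l, l = z.1 - red z.1 := ⟨_, rfl⟩
    have hr0 : red z.1 ≠ 0 := fun h => hz.1 ((c9 z.1).2 h)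
    have hx : z.1 - l = red z.1 := by rw [hl]; ring
    have h13 := c13 z.1 (by linarith)
    rw [← hl] at h13
    have hn : ∀ᶠ x in 𝓝 z.1, ‖x - l‖ < 1 / 8 := by
      have hc : ContinuousAt (fun x : ℂ => ‖x - l‖) z.1 := by fun_prop
      apply hc.eventually_lt continuousAt_const
      rw [hx]
      exact hsmall
    have hev : ∀ᶠ t in 𝓝 z, near k C t =
        Real.log (‖t.2 / (t.1 - l) - 1‖ ^ 2 + ‖(Real.sqrt k : ℂ) * (t.1 - l)‖ ^ 2) +
          C * ‖t.2‖ ^ 2 := by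
      filter_upwards [hfst.eventually h13, hfst.eventually hn] with t h1 h2
      have h3 : chi t.1 = 1 := by
        apply c7
        rw [h1]
        exact h2.le
      unfold near
      rw [h3, one_mul, h1]
      have h4 : ‖(Real.sqrt k : ℂ) * (t.1 - l)‖ ^ 2 = k * ‖t.1 - l‖ ^ 2 := by
        rw [norm_mul, mul_pow, Complex.norm_real, Real.norm_eq_abs, sq_abs, Real.sq_sqrt hk.le]
      rw [h4]
    rw [lo4 _ _ z v hev]
    have hne : z.1 - l ≠ 0 := by rw [hx]; exact hr0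
    have a1 : AnalyticAt ℂ (fun t : E => t.1 - l) z := (NEAR.analytic_fst z).sub analyticAt_const
    have a2 : AnalyticAt ℂ (fun t : E => t.2 / (t.1 - l) - 1) z :=
      ((NEAR.analytic_snd z).div a1 hne).sub analyticAt_const
    have a3 : AnalyticAt ℂ (fun t : E => (Real.sqrt k : ℂ) * (t.1 - l)) z :=
      analyticAt_const.mul a1
    have hg : (Real.sqrt k : ℂ) * (z.1 - l) ≠ 0 := by
      apply mul_ne_zero _ hne
      exact_mod_cast (Real.sqrt_pos.2 hk).ne'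
    have h5 := ll3 _ _ z v a2 a3 (Or.inr hg)
    rw [lo1 _ _ z v (h5.1.of_le NEAR.two_le) (hq.1.of_le NEAR.two_le), h5.2]
    have h6 : 0 ≤ 4 * ‖(z.2 / (z.1 - l) - 1) * fderiv ℂ (fun t : E => (Real.sqrt k : ℂ) * (t.1 - l)) z v -
        (Real.sqrt k : ℂ) * (z.1 - l) * fderiv ℂ (fun t : E => t.2 / (t.1 - l) - 1) z v‖ ^ 2 /
        (‖z.2 / (z.1 - l) - 1‖ ^ 2 + ‖(Real.sqrt k : ℂ) * (z.1 - l)‖ ^ 2) ^ 2 := by positivity
    linarith [hq.2]
  · -- the ring
    obtain ⟨l, hl⟩ : ∃ l, l = z.1 - red z.1 := ⟨_, rfl⟩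
    have hlm : l ∈ Lam := by rw [hl]; exact c5 z.1
    have hx : z.1 - l = red z.1 := by rw [hl]; ring
    have hper : (fun t : E => near k C t) = fun t : E => near k C (t.1 - l, t.2) := by
      funext t
      unfold near
      have e1 := c3 (t.1 - l) l hlm
      have e2 := c4 (t.1 - l) l hlm
      rw [sub_add_cancel] at e1 e2
      show chi t.1 * Real.log (‖t.2 / red t.1 - 1‖ ^ 2 + k * ‖red t.1‖ ^ 2) + C * ‖t.2‖ ^ 2 =
        chi (t.1 - l) * Real.log (‖t.2 / red (t.1 - l) - 1‖ ^ 2 + k * ‖red (t.1 - l)‖ ^ 2) +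
          C * ‖t.2‖ ^ 2
      rw [e1, e2]
    have h1 : lev (near k C) z v = lev (near k C) (red z.1, z.2) v := by
      have h2 : lev (near k C) z v = lev (fun t : E => near k C (t.1 - l, t.2)) z v := by
        rw [← hper]
      rw [h2, NEAR.lev_shift, hx]
    rw [h1]
    exact hr (red z.1) z.2 hge hle hzη v

end Pool.Agent.Q22.SP
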