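import Pool.Agent.Q22.SP.PHI2

/-!
# Project SP (helper22), job NEARE (helper91): extension of `near - Phi`
-/

set_option autoImplicit false

open Set Topology Filter
open scoped ContDiff Manifold

namespace Pool.Agent.Q22.SP

open Pool.Agent.Y184.SP

namespace NEARE

/-- the difference, for `r ≠ 0`; `r = red x`, `chi x = 1` -/
theorem diff_eq {x : ℂ} (y : ℂ) (k C : ℝ) (hk : 0 < k) (h1 : chi x = 1) (h0 : red x ≠ 0) :
    near k C (x, y) - Phi (x, y) =
      Real.log (‖y - red x‖ ^ 2 + k * ‖red x‖ ^ 4) - Real.log (‖y - red x‖ ^ 2 + 1 * ‖red x‖ ^ 4) +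
        C * ‖y‖ ^ 2 - 2 * Real.log (1 + ‖y‖ ^ 2) := by
  have hxp : 0 < ‖red x‖ := norm_pos_iff.2 h0
  have ha : ‖y - red x‖ ^ 2 + ‖red x‖ ^ 4 ≠ 0 := by positivity
  have hk' : ‖y - red x‖ ^ 2 + k * ‖red x‖ ^ 4 ≠ 0 := by positivity
  have hb : (1 + ‖y‖ ^ 2 : ℝ) ≠ 0 := by positivity
  have hr2 : ‖red x‖ ^ 2 ≠ 0 := by positivity
  have e : ‖y / red x - 1‖ ^ 2 + k * ‖red x‖ ^ 2 = (‖y - red x‖ ^ 2 + k * ‖red x‖ ^ 4) / ‖red x‖ ^ 2 := by
    have e1 : y / red x - 1 = (y - red x) / red x := by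
      field_simp
    rw [e1, norm_div]
    field_simp
  simp only [near, Phi, L2, h1]
  rw [e, Real.log_div ha hb, Real.log_div hk' hr2, one_mul]
  ring

/-- smoothness of the extension -/
theorem smooth (ll : S_LLOG) {Y p q : E → ℂ} (k C : ℝ) (hk : 0 < k) {z : E} (hY : AnalyticAt ℂ Y z)
    (hp : AnalyticAt ℂ p z) (hq : AnalyticAt ℂ q z) (h : p z ≠ 0 ∨ q z ≠ 0) :
    ContDiffAt ℝ ∞ (fun t => Real.log (‖p t‖ ^ 2 + k * ‖q t‖ ^ 2) - Real.log (‖p t‖ ^ 2 + 1 * ‖q t‖ ^ 2) +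
        C * ‖Y t‖ ^ 2 - 2 * Real.log (1 + ‖Y t‖ ^ 2)) z := by
  have h1 := (ll.2.2 p q z 0 hp hq h).1
  have hs : ((Real.sqrt k : ℝ) : ℂ) ≠ 0 := by
    have := Real.sqrt_pos.2 hk
    exact_mod_cast this.ne'
  have h2 := (ll.2.2 p (fun t => ((Real.sqrt k : ℝ) : ℂ) * q t) z 0 hp (analyticAt_const.mul hq)
    (h.imp id fun h => mul_ne_zero hs h)).1
  have h3 := (ll.2.1 Y z 0 hY).1
  have h4 := (ll.2.2 (fun _ => 1) Y z 0 analyticAt_const hY (Or.inl one_ne_zero)).1
  have e2 : (fun t => Real.log (‖p t‖ ^ 2 + k * ‖q t‖ ^ 2)) =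
      fun t => Real.log (‖p t‖ ^ 2 + ‖((Real.sqrt k : ℝ) : ℂ) * q t‖ ^ 2) := by
    funext t
    rw [norm_mul, mul_pow, Complex.norm_real, Real.norm_eq_abs, sq_abs, Real.sq_sqrt hk.le]
  have e1 : (fun t => Real.log (‖p t‖ ^ 2 + 1 * ‖q t‖ ^ 2)) =
      fun t => Real.log (‖p t‖ ^ 2 + ‖q t‖ ^ 2) := by
    funext t
    rw [one_mul]
  have e4 : (fun t => Real.log (1 + ‖Y t‖ ^ 2)) =
      fun t => Real.log (‖(1 : ℂ)‖ ^ 2 + ‖Y t‖ ^ 2) := by
    funext t
    rw [norm_one, one_pow]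
  rw [← e2] at h2
  rw [← e1] at h1
  rw [← e4] at h4
  exact ((h2.sub h1).add (contDiffAt_const.mul h3)).sub (contDiffAt_const.mul h4)

end NEARE

open PHI2 NEARE

/-- JOB NEARE -/
theorem t_NEARE (chi : S_CHI) (ll : S_LLOG) (phis : S_PHIS) : S_NEARE := by
  intro k C hk j hj z hz
  by_cases hj2 : 2 ≤ j
  · obtain ⟨X, Y, b, p, q, hX, hY, hb, hp, hq, htr, h1, h2, h3, h4, hV⟩ := coords j hj2
    refine ⟨fun t => Real.log (‖p t‖ ^ 2 + k * ‖q t‖ ^ 2) - Real.log (‖p t‖ ^ 2 + 1 * ‖q t‖ ^ 2) +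
        C * ‖Y t‖ ^ 2 - 2 * Real.log (1 + ‖Y t‖ ^ 2), ?_, ?_⟩
    · exact Eventually.of_forall fun z' => smooth ll k C hk (hY z') (hp z') (hq z') (h3 z')
    · filter_upwards [hV.mem_nhds hz] with t ht hW
      have hx : X t ≠ 0 := by
        intro h0
        apply hW.1
        rw [htr t]
        simp only [h0]
        exact zero_mem
      have hb0 : b t ≠ 0 := by
        intro h0
        have := h2 t
        rw [h0, zero_mul] at this
        exact hx (pow_eq_zero_iff two_ne_zero |>.1 this)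
      have hx8 := h4 t ht
      have hr := red_eq chi (x := X t) (by linarith)
      have hc1 := chi_eq chi hx8.le
      have hd := diff_eq (x := X t) (Y t) k C hk hc1 (by rwa [hr])
      rw [hr] at hd
      simp only [htr t]
      rw [hd, norm_rel (h1 t) (h2 t) k, norm_rel (h1 t) (h2 t) 1]
      have hb1 : ‖b t‖ ^ 2 ≠ 0 := by
        have := norm_pos_iff.2 hb0
        positivity
      have hpq : ∀ c : ℝ, 0 < c → ‖p t‖ ^ 2 + c * ‖q t‖ ^ 2 ≠ 0 := by
        intro c hc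
        rcases h3 t with h | h
        · have := norm_pos_iff.2 h
          positivity
        · have := norm_pos_iff.2 h
          positivity
      rw [Real.log_mul hb1 (hpq k hk), Real.log_mul hb1 (hpq 1 one_pos)]
      ring
  · have hj0 : j = 0 := by
      have h : ∀ i : Fin 5, i ≠ 1 → ¬ 2 ≤ i → i = 0 := by decide
      exact h j hj hj2
    subst hj0
    have a1 : ∀ t : E, AnalyticAt ℂ (fun t : E => t.1) t := fun t => analyticAt_fst
    have a2 : ∀ t : E, AnalyticAt ℂ (fun t : E => t.2) t := fun t => analyticAt_snd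
    by_cases hzL : z.1 ∈ Lam
    · -- the point of the lattice
      have hy : z.2 ≠ 0 := by
        rcases hz with h | h
        · exact absurd hzL h
        · exact h
      obtain ⟨-, -, -, -, -, -, h7, -, h9, -, -, -, h13⟩ := chi
      have hr0 : red z.1 = 0 := (h9 z.1).1 hzL
      have hred := h13 z.1 (by rw [hr0, norm_zero]; norm_num)
      rw [hr0, sub_zero] at hred
      -- near z
      have hred' : ∀ᶠ t : E in 𝓝 z, red t.1 = t.1 - z.1 := continuous_fst.continuousAt.eventually hred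
      have hball : ∀ᶠ t : E in 𝓝 z, ‖t.1 - z.1‖ < 1 / 8 := by
        have : Continuous fun t : E => ‖t.1 - z.1‖ := by fun_prop
        refine this.continuousAt.eventually_lt continuousAt_const ?_
        simp only [sub_self, norm_zero]
        norm_num
      refine ⟨fun t => Real.log (‖t.2 - (t.1 - z.1)‖ ^ 2 + k * ‖(t.1 - z.1) ^ 2‖ ^ 2) -
        Real.log (‖t.2 - (t.1 - z.1)‖ ^ 2 + 1 * ‖(t.1 - z.1) ^ 2‖ ^ 2) +
        C * ‖t.2‖ ^ 2 - 2 * Real.log (1 + ‖t.2‖ ^ 2), ?_, ?_⟩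
      · have hne : ∀ᶠ t : E in 𝓝 z, t.2 - (t.1 - z.1) ≠ 0 := by
          have : Continuous fun t : E => t.2 - (t.1 - z.1) := by fun_prop
          refine this.continuousAt.eventually_ne ?_
          simpa using hy
        filter_upwards [hne] with t ht
        exact smooth (Y := fun t : E => t.2) (p := fun t : E => t.2 - (t.1 - z.1))
          (q := fun t : E => (t.1 - z.1) ^ 2) ll k C hk (a2 t) ((a2 t).sub ((a1 t).sub analyticAt_const))
          (((a1 t).sub analyticAt_const).pow 2) (Or.inl ht)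
      · filter_upwards [hred', hball] with t ht1 ht2 hW
        have hW' : t.1 ∉ Lam := hW.1
        have hrt : red t.1 ≠ 0 := fun h => hW' ((h9 t.1).2 h)
        have hc1 : Pool.Agent.Y184.SP.chi t.1 = 1 := h7 t.1 (by rw [ht1]; exact ht2.le)
        have hd := diff_eq (x := t.1) t.2 k C hk hc1 hrt
        have e4 : ∀ w : ℂ, ‖w‖ ^ 4 = ‖w ^ 2‖ ^ 2 := fun w => by rw [norm_pow]; ring
        rw [ht1, e4] at hd
        exact hd.symm
    · refine ⟨fun t => near k C t - Phi t, ?_, ?_⟩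
      · obtain ⟨-, -, -, -, -, -, -, -, -, -, h11, -⟩ := chi
        have : ∀ᶠ t : E in 𝓝 z, t.1 ∉ Lam :=
          (h11.isOpen_compl.preimage continuous_fst).mem_nhds hzL
        filter_upwards [this] with t ht
        exact (phis.2.2.2 k C hk t ht).sub (phis.2.1 t ht)
      · exact Eventually.of_forall fun t _ => rfl

end Pool.Agent.Q22.SP
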