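import Pool.Agent.Q22.SP.Stm

/-!
# Project SP: the class is nef (assembly)
-/

set_option autoImplicit false

open Set Topology Filter
open scoped ContDiff Manifold

namespace Pool.Agent.Q22.SP

open Pool.Agent.Y184.SP

namespace NEF

theorem isOpen_W (hchi : S_CHI) : IsOpen W := by
  obtain ⟨-, -, -, -, -, -, -, -, -, -, hcl, -⟩ := hchi
  have h1 : W = (Prod.fst ⁻¹' Lamᶜ) ∩ (Prod.snd ⁻¹' {0}ᶜ) := by
    ext z
    simp [W]
  rw [h1]
  exact (hcl.isOpen_compl.preimage continuous_fst).inter
    (isOpen_compl_singleton.preimage continuous_snd)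

theorem continuous_tr (j : Fin 5) (hj : j ≠ 1) : Continuous (tr j) := by
  fin_cases j
  · exact continuous_id
  · exact absurd rfl hj
  · show Continuous fun z : E => (z.1 * z.2, z.2 + z.1 * z.2)
    fun_prop
  · show Continuous fun z : E => (z.1 * z.2, z.1 * z.2 ^ 2 + z.1 * z.2)
    fun_prop
  · show Continuous fun z : E => (z.1, z.1 ^ 2 * z.2 + z.1)
    fun_prop

theorem tr_one (z : E) (hz : z.2 ≠ 0) : ContDiffAt ℝ ∞ (tr 1) z := by
  show ContDiffAt ℝ ∞ (fun z : E => (z.1, z.2⁻¹)) z
  exact contDiffAt_fst.prodMk (contDiffAt_snd.inv hz)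

theorem nm_nonneg (z v : E) : 0 ≤ nm z v := by
  unfold nm
  positivity

end NEF

open NEF in
theorem t_NEF (hchi : S_CHI) (lo : S_LOPS) (phis : S_PHIS) : S_NEF := by
  intro hNear hComp hMax hFarl hFare hNeare G h c hG ε hε
  obtain ⟨k, C, η, hk, hk1, hC, hη, hnear⟩ := hNear ε hε
  obtain ⟨A, η1, η2, h1, h12, h2η, hA1, hA2⟩ := hComp G h c hG k C η hk hk1 hC hη
  obtain ⟨m, hm, hmn, hmp, hmax⟩ := hMax
  have hW := isOpen_W hchi
  have F1 : ∀ z ∈ W, ‖z.2‖ ≤ η1 → Un G k C A η m z = near k C z := by
    intro z hz hle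
    have h3 := hA1 z hz hle
    unfold Un
    rw [if_pos (by linarith), hmn _ (by linarith), add_zero]
  have F2 : ∀ z ∈ W, η2 ≤ ‖z.2‖ → Un G k C A η m z = far G A z := by
    intro z hz hle
    unfold Un
    split_ifs with hlt
    · have h3 := hA2 z hz hle hlt.le
      rw [hmp _ (by linarith)]
      ring
    · rfl
  have F3 : ∀ z : E, ‖z.2‖ < η →
      Un G k C A η m z = near k C z + m (far G A z - near k C z) := by
    intro z hz
    unfold Un
    rw [if_pos hz]
  refine ⟨Un G k C A η m, ?_, ?_, ?_⟩
  · intro x y l hl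
    obtain ⟨-, -, hc3, hc4, -⟩ := hchi
    simp only [Un, near, far, hc3 x l hl, hc4 x l hl, hG.per x l hl]
  · have hext0 : ∀ j : Fin 5, j ≠ 1 → ∀ z ∈ V j,
        ExtAt (fun z => Un G k C A η m z - Phi z) j z := by
      intro j hj z hz
      have hct := continuous_tr j hj
      have hcn : Continuous fun z' => ‖(tr j z').2‖ := by fun_prop
      rcases lt_or_ge ‖(tr j z).2‖ η1 with hl | hl
      · obtain ⟨f, hf, hfe⟩ := hNeare k C hk j hj z hz
        refine ⟨f, hf, ?_⟩
        filter_upwards [hfe, (isOpen_lt hcn continuous_const).mem_nhds hl] with z' h3 h4 hWz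
        rw [h3 hWz, F1 _ hWz (le_of_lt h4)]
      · have hy : (tr j z).2 ≠ 0 := by
          intro h3
          rw [h3, norm_zero] at hl
          linarith
        have hon : ¬ onA j z := fun h3 => hy h3.2
        obtain ⟨⟨ff, hff, hffe⟩, -⟩ := hFare G h c hG A j z hz hon
        rcases lt_or_ge ‖(tr j z).2‖ η with hl2 | hl2
        · obtain ⟨fn, hfn, hfne⟩ := hNeare k C hk j hj z hz
          refine ⟨fun t => fn t + m (ff t - fn t), ?_, ?_⟩
          · filter_upwards [hff, hfn] with t h3 h4
            exact h4.add (hm.contDiffAt.comp t (h3.sub h4))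
          · filter_upwards [hffe, hfne, (isOpen_lt hcn continuous_const).mem_nhds hl2]
              with z' h3 h4 h5 hWz
            have h6 : far G A (tr j z') - Phi (tr j z') - (near k C (tr j z') - Phi (tr j z')) =
                far G A (tr j z') - near k C (tr j z') := by ring
            rw [h3 hWz, h4 hWz, F3 _ h5, h6]
            ring
        · refine ⟨ff, hff, ?_⟩
          filter_upwards [hffe, (isOpen_lt continuous_const hcn).mem_nhds
            (show η2 < ‖(tr j z).2‖ by linarith)] with z' h3 h4 hWz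
          rw [h3 hWz, F2 _ hWz (le_of_lt h4)]
    intro j z hz
    by_cases hj : j = 1
    · subst hj
      by_cases h0 : z.2 = 0
      · have hon : ¬ onA 1 z := fun h3 => h3.1 rfl
        obtain ⟨⟨ff, hff, hffe⟩, -⟩ := hFare G h c hG A 1 z hz hon
        refine ⟨ff, hff, ?_⟩
        have h2pos : 0 < η2 := by linarith
        have hlt : ‖z.2‖ < η2⁻¹ := by
          rw [h0, norm_zero]
          positivity
        have hcn : Continuous fun z' : E => ‖z'.2‖ := by fun_prop
        filter_upwards [hffe, (isOpen_lt hcn continuous_const).mem_nhds hlt] with z' h3 h4 hWz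
        have h5 : z'.2 ≠ 0 := fun h6 => hWz.2 (by show z'.2⁻¹ = 0; rw [h6, inv_zero])
        have h6 : η2 ≤ ‖(tr 1 z').2‖ := by
          show η2 ≤ ‖z'.2⁻¹‖
          rw [norm_inv]
          rw [le_inv_comm₀ h2pos (norm_pos_iff.mpr h5)]
          exact le_of_lt h4
        rw [h3 hWz, F2 _ hWz h6]
      · have hw : tr 1 z ∈ V 0 := Or.inr (inv_ne_zero h0)
        obtain ⟨f, hf, hfe⟩ := hext0 0 (by decide) (tr 1 z) hw
        have hcont : ContinuousAt (tr 1) z := (tr_one z h0).continuousAt
        have hct : ∀ᶠ t in 𝓝 z, t.2 ≠ 0 :=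
          (isOpen_compl_singleton.preimage continuous_snd).mem_nhds h0
        refine ⟨fun t => f (tr 1 t), ?_, ?_⟩
        · filter_upwards [hct, hcont.eventually hf] with t h3 h4
          exact h4.comp t (tr_one t h3)
        · filter_upwards [hcont.eventually hfe] with t h3 hWt
          exact h3 hWt
    · exact hext0 j hj z hz
  · intro z hz v
    have hnm := nm_nonneg z v
    have hfar := hFarl G h c hG A z hz
    have hlf : 0 ≤ lev (far G A) z v := by
      rw [hfar.2 v]
      have := hG.pos
      positivity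
    by_cases hlt : ‖z.2‖ < η
    · have e1 : lev (Un G k C A η m) z v =
          lev (fun z' => near k C z' + m (far G A z' - near k C z')) z v := by
        refine lo.2.2.2.1 _ _ _ _ ?_
        have hcn : Continuous fun z' : E => ‖z'.2‖ := by fun_prop
        filter_upwards [(isOpen_lt hcn continuous_const).mem_nhds hlt] with z' h3
        exact F3 z' h3
      rw [e1]
      refine hmax (far G A) (near k C) z v (-(ε * nm z v)) (hfar.1.of_le (by norm_cast))
        ((phis.2.2.2 k C hk z hz.1).of_le (by norm_cast)) ?_ (hnear z hz hlt v)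
      have : 0 ≤ ε * nm z v := by positivity
      linarith
    · have e1 : lev (Un G k C A η m) z v = lev (far G A) z v := by
        refine lo.2.2.2.1 _ _ _ _ ?_
        have hcn : Continuous fun z' : E => ‖z'.2‖ := by fun_prop
        filter_upwards [hW.mem_nhds hz, (isOpen_lt continuous_const hcn).mem_nhds
          (show η2 < ‖z.2‖ by linarith)] with z' h3 h4
        exact F2 z' h3 (le_of_lt h4)
      rw [e1]
      have : 0 ≤ ε * nm z v := by positivity
      linarith

end Pool.Agent.Q22.SP
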