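import Pool.Agent.Q22.SP.Stm

/-!
# Project SP (helper22), job NOT: there is no semipositive representative
-/

set_option autoImplicit false

open Set Topology Filter
open scoped ContDiff Manifold

namespace Pool.Agent.Q22.SP

open Pool.Agent.Y184.SP

namespace NOT

theorem zero_mem : (0 : ℂ) ∈ Lam := ⟨0, 0, by simp⟩

theorem add_mem {x l : ℂ} (hx : x ∈ Lam) (hl : l ∈ Lam) : x + l ∈ Lam := by
  obtain ⟨m, n, rfl⟩ := hx
  obtain ⟨m', n', rfl⟩ := hl
  exact ⟨m + m', n + n', by push_cast; ring⟩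

theorem neg_mem {l : ℂ} (hl : l ∈ Lam) : -l ∈ Lam := by
  obtain ⟨m', n', rfl⟩ := hl
  exact ⟨-m', -n', by push_cast; ring⟩

theorem add_mem_iff {x l : ℂ} (hl : l ∈ Lam) : x + l ∈ Lam ↔ x ∈ Lam := by
  constructor
  · intro h
    have := add_mem h (neg_mem hl)
    rwa [add_neg_cancel_right] at this
  · exact fun h => add_mem h hl

/-- the extension in the system `0` is periodic -/
theorem per_u0 (dens : S_DENS) {u u0 u2 u3 : E → ℝ} (hC : Cand u u0 u2 u3) (l : ℂ) (hl : l ∈ Lam) :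
    ∀ z ∈ V 0, u0 (z + (l, 0)) = u0 z := by
  intro z hz
  have hV : IsOpen (V 0) := (dens 0).1
  have hVl : ∀ t : E, t ∈ V 0 → t + (l, 0) ∈ V 0 := by
    intro t ht
    have ht' : t.1 ∉ Lam ∨ t.2 ≠ 0 := ht
    show (t + (l, 0)).1 ∉ Lam ∨ (t + (l, 0)).2 ≠ 0
    rw [Prod.fst_add, Prod.snd_add, add_zero, add_mem_iff hl]
    exact ht'
  obtain ⟨hcl, -⟩ := (dens 0).2 z hz
  have hf : ContinuousAt (fun t : E => u0 (t + (l, 0)) - u0 t) z := by
    have h1 : ContinuousAt (fun t : E => t + ((l, 0) : E)) z := by fun_prop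
    have h2 : ContinuousAt u0 (z + (l, 0)) := (hC.s0 _ (hVl z hz)).continuousAt
    exact (ContinuousAt.comp (f := fun t : E => t + ((l, 0) : E)) h2 h1).sub (hC.s0 z hz).continuousAt
  have h0 : ∀ t ∈ {z' | z' ∈ V 0 ∧ tr 0 z' ∈ W}, (fun t : E => u0 (t + (l, 0)) - u0 t) t = 0 := by
    rintro t ⟨ht, htW⟩
    have htW' : t ∈ W := htW
    have htl : t + (l, 0) ∈ W := by
      refine ⟨?_, ?_⟩
      · rw [Prod.fst_add, add_mem_iff hl]
        exact htW'.1
      · rw [Prod.snd_add, add_zero]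
        exact htW'.2
    have e : t + (l, 0) = (t.1 + l, t.2) := by
      ext
      · rfl
      · exact add_zero _
    show u0 (t + (l, 0)) - u0 t = 0
    rw [hC.e0 _ htl, hC.e0 t htW', e, hC.per t.1 t.2 l hl, sub_self]
  have h1 : (fun t : E => u0 (t + (l, 0)) - u0 t) z = 0 := by
    by_contra hne
    have h2 : ∀ᶠ t in 𝓝 z, (fun t : E => u0 (t + (l, 0)) - u0 t) t ≠ 0 := hf.eventually_ne hne
    rw [mem_closure_iff_frequently] at hcl
    obtain ⟨t, ht, ht'⟩ := (hcl.and_eventually h2).exists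
    exact ht' (h0 t ht)
  exact sub_eq_zero.1 h1

end NOT

open NOT in
/-- **JOB NOT.** -/
theorem t_NOT (chi : S_CHI) (lo : S_LOPS) (dens : S_DENS) (clev : S_CLEV) (phis : S_PHIS) : S_NOT := by
  intro res gext n2 n3 n4 n1 u hper hext hpos
  classical
  obtain ⟨-, -, -, -, -, hred, -, -, hLam, -, hclosed, -, -⟩ := chi
  have hV : ∀ j, IsOpen (V j) := fun j => (dens j).1
  obtain ⟨u0, s0, e0⟩ := gext u 0 (V 0) subset_rfl (hV 0) (fun z hz => hext 0 z hz)
  obtain ⟨u2, s2, e2⟩ := gext u 2 (V 2) subset_rfl (hV 2) (fun z hz => hext 2 z hz)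
  obtain ⟨u3, s3, e3⟩ := gext u 3 (V 3) subset_rfl (hV 3) (fun z hz => hext 3 z hz)
  have hWV : ∀ z ∈ W, z ∈ V 0 := fun z hz => Or.inl hz.1
  have hC : Cand u u0 u2 u3 := ⟨hper, s0, fun z hz => e0 z (hWV z hz) hz, s2, e2, s3, e3, hpos⟩
  obtain ⟨ρ, hρ⟩ : ∃ ρ : E → ℝ, ρ = fun z => Phi z + u0 z := ⟨_, rfl⟩
  have hO : IsOpen (Lamᶜ : Set ℂ) := hclosed.isOpen_compl
  have hsm : ∀ z : E, z.1 ∉ Lam → ContDiffAt ℝ ∞ ρ z := by
    intro z hz
    rw [hρ]
    exact (phis.2.1 z hz).add (s0 z (Or.inl hz))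
  have hsmE : ∀ x : ℂ, x ∉ Lam → ∀ᶠ t in 𝓝 ((x, 0) : E), t.1 ∉ Lam := by
    intro x hx
    have h1 : ContinuousAt (fun t : E => t.1) (x, 0) := continuous_fst.continuousAt
    exact h1.eventually (hO.mem_nhds hx)
  have hlev : ∀ x : ℂ, x ∉ Lam → ∀ v, 0 ≤ lev ρ (x, 0) v := by
    intro x hx v
    refine clev 0 (x, 0) (Or.inl hx) ρ v 0 ?_ ?_
    · show ∀ᶠ t in 𝓝 ((x, 0) : E), ContDiffAt ℝ ∞ ρ t
      filter_upwards [hsmE x hx] with t ht using hsm t ht
    · refine Eventually.of_forall fun t ht => ?_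
      have htW : t ∈ W := ht
      have h1 : ∀ᶠ s in 𝓝 t, s ∈ W := by
        have := ((dens 0).2 t (hWV t htW)).2 ht
        filter_upwards [this] with s hs using hs.1
      have h2 : lev ρ t v = lev (fun z' => Phi z' + u z') t v := by
        refine lo.2.2.2.1 _ _ t v ?_
        filter_upwards [h1] with s hs
        rw [hρ]
        show Phi s + u0 s = Phi s + u s
        rw [hC.e0 s hs]
      rw [h2]
      exact hpos t htW v
  have hlev0 : ∀ x : ℂ, x ∉ Lam → lev ρ (x, 0) (1, 0) = 0 := by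
    intro x hx
    rw [hρ]
    exact n2 u u0 u2 u3 hC x hx
  have hdiff := n3 ρ Lamᶜ hO (fun x hx => hsm (x, 0) hx) (fun x hx => hlev x hx) fun x hx => hlev0 x hx
  -- the function
  obtain ⟨g, hg⟩ : ∃ g : ℂ → ℂ, g = fun x => if x ∈ Lam then 0 else dy ρ x := ⟨_, rfl⟩
  have hgo : ∀ x, x ∉ Lam → g x = dy ρ x := by
    intro x hx
    rw [hg]
    exact if_neg hx
  have hgi : ∀ x, x ∈ Lam → g x = 0 := by
    intro x hx
    rw [hg]
    exact if_pos hx
  refine res g ?_ ?_ ?_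
  · intro x hx
    refine (hdiff x hx).congr_of_eventuallyEq ?_
    filter_upwards [hO.mem_nhds hx] with t ht using hgo t ht
  · intro x l hl
    by_cases hx : x ∈ Lam
    · rw [hgi x hx, hgi _ (add_mem hx hl)]
    · have hxl : x + l ∉ Lam := by rwa [add_mem_iff hl]
      rw [hgo x hx, hgo _ hxl]
      have e1 : ∀ᶠ t in 𝓝 ((x, 0) : E), ρ (t + (l, 0)) = ρ t := by
        filter_upwards [hsmE x hx] with t ht
        have h1 := per_u0 dens hC l hl t (Or.inl ht)
        have h2 : Phi (t + (l, 0)) = Phi t := by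
          have e : t + (l, 0) = (t.1 + l, t.2) := by
            ext
            · rfl
            · exact add_zero _
          rw [e]
          exact phis.1 t.1 t.2 l hl
        rw [hρ]
        show Phi (t + (l, 0)) + u0 (t + (l, 0)) = Phi t + u0 t
        rw [h1, h2]
      have e2 : fderiv ℝ ρ (x + l, 0) = fderiv ℝ ρ (x, 0) := by
        have h1 : fderiv ℝ (fun t : E => ρ (t + (l, 0))) (x, 0) = fderiv ℝ ρ ((x, 0) + (l, 0)) :=
          fderiv_comp_add_right _
        have h2 : fderiv ℝ (fun t : E => ρ (t + (l, 0))) (x, 0) = fderiv ℝ ρ (x, 0) :=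
          Filter.EventuallyEq.fderiv_eq e1
        have h3 : ((x, 0) : E) + (l, 0) = (x + l, 0) := by
          ext
          · rfl
          · exact add_zero _
        rw [← h2, h1, h3]
      unfold dy
      rw [e2]
  · have h1 := n4 n1 u u0 u2 u3 hC
    rw [← hρ] at h1
    refine h1.congr' ?_
    have h2 : ∀ᶠ x : ℂ in 𝓝[≠] 0, ‖x‖ < 1 / 2 :=
      nhdsWithin_le_nhds (by
        have : Metric.ball (0 : ℂ) (1 / 2) ∈ 𝓝 (0 : ℂ) := Metric.ball_mem_nhds _ (by norm_num)
        filter_upwards [this] with x hx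
        rwa [Metric.mem_ball, dist_zero_right] at hx)
    filter_upwards [h2, self_mem_nhdsWithin] with x hx hx0
    have h3 : x ∉ Lam := by
      intro hxL
      have h4 := hred x 0 zero_mem (by rwa [sub_zero])
      rw [(hLam x).1 hxL, sub_zero] at h4
      exact hx0 h4.symm
    rw [hgo x h3]

end Pool.Agent.Q22.SP
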