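import Pool.Agent.Q22.SP.Stm

/-! # Project SP (helper22), job PHI0 (helper18): potentials of the class in the coordinate system `0` -/

set_option autoImplicit false

open Set Topology Filter
open scoped ContDiff Manifold

namespace Pool.Agent.Q22.SP.PHI0

open Pool.Agent.Y184.SP

theorem lev_zero (z v : E) : lev (fun _ => (0 : ℝ)) z v = 0 := by
  unfold lev
  rw [InnerProductSpace.laplacian_eq_iteratedFDeriv_complexPlane]
  simp

theorem caseA (chi_ : S_CHI) (phis : S_PHIS) (z : E) (hz : z.1 ∉ Lam) : PotAt Phi 0 z Phi := by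
  obtain ⟨-, -, -, -, -, -, -, -, -, -, hcl, -, -⟩ := chi_
  have hopen : IsOpen {t : E | t.1 ∉ Lam} := (hcl.preimage continuous_fst).isOpen_compl
  refine ⟨?_, ?_⟩
  · filter_upwards [hopen.mem_nhds hz] with t ht
    exact phis.2.1 t ht
  · refine Eventually.of_forall fun z' _ v => ?_
    have : (fun t => Phi t - Phi (tr 0 t)) = fun _ => (0 : ℝ) := by
      funext t
      show Phi t - Phi t = 0
      exact sub_self _
    rw [this]
    exact lev_zero z' v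

/-- the potential at `x = l` -/
noncomputable def rho (l : ℂ) (t : E) : ℝ :=
  2 * Real.log (‖(1 : ℂ)‖ ^ 2 + ‖t.2‖ ^ 2) + Real.log (‖t.2 - (t.1 - l)‖ ^ 2 + ‖(t.1 - l) ^ 2‖ ^ 2)

theorem an1 (l : ℂ) (z : E) : AnalyticAt ℂ (fun t : E => t.1 - l) z := analyticAt_fst.sub analyticAt_const

theorem rho_smooth (ll : S_LLOG) (l : ℂ) (t : E) (ht : t.2 ≠ 0) : ContDiffAt ℝ ∞ (rho l) t := by
  have h1 := (ll.2.2 (fun _ : E => (1 : ℂ)) (fun t : E => t.2) t 0 analyticAt_const analyticAt_snd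
    (Or.inl one_ne_zero)).1
  have h2 := (ll.2.2 (fun t : E => t.2 - (t.1 - l)) (fun t : E => (t.1 - l) ^ 2) t 0
    (analyticAt_snd.sub (an1 l t)) ((an1 l t).pow 2) (by
      by_cases h : t.1 - l = 0
      · left
        simpa [h] using ht
      · right
        exact pow_ne_zero 2 h)).1
  exact (contDiffAt_const.mul h1).add h2

theorem diff_eq (chi_ : S_CHI) (l : ℂ) (hl : l ∈ Lam) (t : E) (h1 : ‖t.1 - l‖ < 1 / 8) (h2 : t.2 ≠ 0) (h3 : t.1 ≠ l) :
    rho l t - Phi t = Real.log (‖t.1 - l‖ ^ 2) := by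
  obtain ⟨-, -, -, -, -, hred, hchi, -, -, -, -, -, -⟩ := chi_
  have hr : red t.1 = t.1 - l := hred t.1 l hl (by linarith)
  have hc : chi t.1 = 1 := hchi t.1 (by rw [hr]; exact h1.le)
  have hne : t.1 - l ≠ 0 := sub_ne_zero.2 h3
  have hpos : 0 < ‖t.1 - l‖ := norm_pos_iff.2 hne
  have hnum : ‖t.2 - (t.1 - l)‖ ^ 2 + ‖t.1 - l‖ ^ 4 ≠ 0 := by positivity
  have hden : (1 : ℝ) + ‖t.2‖ ^ 2 ≠ 0 := by positivity
  unfold rho Phi L2
  rw [hc, hr, Real.log_div hnum hden, norm_one, one_pow, norm_pow, ← pow_mul]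
  ring

theorem caseB (chi_ : S_CHI) (lo : S_LOPS) (ll : S_LLOG) (z : E) (hz : z.1 ∈ Lam) (hz2 : z.2 ≠ 0) :
    PotAt Phi 0 z (rho z.1) := by
  have hU1 : IsOpen {t : E | ‖t.1 - z.1‖ < 1 / 8} :=
    isOpen_lt (continuous_fst.sub continuous_const).norm continuous_const
  have hU2 : IsOpen {t : E | t.2 ≠ 0} := isOpen_ne_fun continuous_snd continuous_const
  have hU : IsOpen {t : E | ‖t.1 - z.1‖ < 1 / 8 ∧ t.2 ≠ 0} := hU1.inter hU2
  have hzU : z ∈ {t : E | ‖t.1 - z.1‖ < 1 / 8 ∧ t.2 ≠ 0} := ⟨by simp, hz2⟩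
  refine ⟨?_, ?_⟩
  · filter_upwards [hU.mem_nhds hzU] with t ht
    exact rho_smooth ll z.1 t ht.2
  · filter_upwards [hU.mem_nhds hzU] with z' hz' hW v
    have hW' : z' ∈ W := hW
    have hne : z'.1 ≠ z.1 := fun h => hW'.1 (h ▸ hz)
    have hV : IsOpen {t : E | t.1 ≠ z.1} := isOpen_ne_fun continuous_fst continuous_const
    have hev : ∀ᶠ t in 𝓝 z', rho z.1 t - Phi (tr 0 t) = Real.log (‖t.1 - z.1‖ ^ 2) := by
      filter_upwards [hU.mem_nhds hz', hV.mem_nhds hne] with t ht ht'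
      exact diff_eq chi_ z.1 hz t ht.1 ht.2 ht'
    rw [lo.2.2.2.1 _ _ z' v hev]
    exact (ll.1 (fun t : E => t.1 - z.1) z' v (an1 z.1 z') (sub_ne_zero.2 hne)).2

end Pool.Agent.Q22.SP.PHI0

namespace Pool.Agent.Q22.SP

open Pool.Agent.Y184.SP

theorem t_PHI0 (chi : S_CHI) (lo : S_LOPS) (ll : S_LLOG) (phis : S_PHIS) : S_PHI0 := by
  intro z hz
  by_cases h : z.1 ∈ Lam
  · rcases hz with h1 | h1
    · exact absurd h h1
    · exact ⟨_, PHI0.caseB chi lo ll z h h1⟩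
  · exact ⟨_, PHI0.caseA chi phis z h⟩

end Pool.Agent.Q22.SP
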