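import Pool.Agent.Q22.SP.Stm

/-!
# Project SP (helper22), job PHI2 (helper91): potentials in the coordinate systems 2, 3, 4
-/

set_option autoImplicit false

open Set Topology Filter
open scoped ContDiff Manifold

namespace Pool.Agent.Q22.SP

open Pool.Agent.Y184.SP

namespace PHI2

theorem zero_mem : (0 : ℂ) ∈ Lam := ⟨0, 0, by simp⟩

theorem two_le {f : E → ℝ} {z : E} (h : ContDiffAt ℝ ∞ f z) : ContDiffAt ℝ 2 f z :=
  h.of_le (WithTop.coe_le_coe.2 (le_top : (2 : ℕ∞) ≤ ⊤))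

theorem red_eq (hc : S_CHI) {x : ℂ} (hx : ‖x‖ < 1 / 2) : red x = x := by
  obtain ⟨-, -, -, -, -, h6, -⟩ := hc
  have := h6 x 0 zero_mem (by rwa [sub_zero])
  rwa [sub_zero] at this

theorem chi_eq (hc : S_CHI) {x : ℂ} (hx : ‖x‖ ≤ 1 / 8) : chi x = 1 := by
  have hr := red_eq hc (x := x) (by linarith)
  obtain ⟨-, -, -, -, -, -, h7, -⟩ := hc
  exact h7 x (by rwa [hr])

theorem phi_eq (hc : S_CHI) {x : ℂ} (y : ℂ) (hx : ‖x‖ < 1 / 8) (hx0 : x ≠ 0) :
    Phi (x, y) = 2 * Real.log (1 + ‖y‖ ^ 2) + Real.log (‖y - x‖ ^ 2 + ‖x‖ ^ 4) -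
      Real.log (‖x‖ ^ 2) := by
  have hr := red_eq hc (x := x) (by linarith)
  have h1 := chi_eq hc hx.le
  have hxp : 0 < ‖x‖ := norm_pos_iff.2 hx0
  have ha : ‖y - x‖ ^ 2 + ‖x‖ ^ 4 ≠ 0 := by positivity
  have hb : (1 + ‖y‖ ^ 2 : ℝ) ≠ 0 := by positivity
  simp only [Phi, L2, hr, h1]
  rw [Real.log_div ha hb]
  ring

/-- the coordinate systems 2, 3, 4: `x = X`, `y = Y`, `w = Y - X = b p`, `X ^ 2 = b q` -/
theorem coords (j : Fin 5) (hj : 2 ≤ j) : ∃ X Y b p q : E → ℂ,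
    (∀ t, AnalyticAt ℂ X t) ∧ (∀ t, AnalyticAt ℂ Y t) ∧ (∀ t, AnalyticAt ℂ b t) ∧
    (∀ t, AnalyticAt ℂ p t) ∧ (∀ t, AnalyticAt ℂ q t) ∧ (∀ t, tr j t = (X t, Y t)) ∧
    (∀ t, Y t - X t = b t * p t) ∧ (∀ t, X t ^ 2 = b t * q t) ∧ (∀ t, p t ≠ 0 ∨ q t ≠ 0) ∧
    (∀ t ∈ V j, ‖X t‖ < 1 / 8) ∧ IsOpen (V j) := by
  have hj' : j = 2 ∨ j = 3 ∨ j = 4 := by
    revert j
    decide
  have a1 : ∀ t : E, AnalyticAt ℂ (fun t : E => t.1) t := fun t => analyticAt_fst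
  have a2 : ∀ t : E, AnalyticAt ℂ (fun t : E => t.2) t := fun t => analyticAt_snd
  rcases hj' with rfl | rfl | rfl
  · refine ⟨fun t => t.1 * t.2, fun t => t.2 + t.1 * t.2, fun t => t.2, fun _ => 1, fun t => t.1 ^ 2 * t.2,
      fun t => (a1 t).mul (a2 t), fun t => (a2 t).add ((a1 t).mul (a2 t)), fun t => a2 t,
      fun t => analyticAt_const, fun t => ((a1 t).pow 2).mul (a2 t), fun t => rfl, fun t => by ring,
      fun t => by ring, fun t => Or.inl one_ne_zero, fun t ht => ht.1, ?_⟩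
    have h1 : IsOpen {z : E | ‖z.1 * z.2‖ < 1 / 8} := isOpen_lt (by fun_prop) continuous_const
    have h2 : IsOpen {z : E | ‖z.2‖ < 1 / 8} := isOpen_lt (by fun_prop) continuous_const
    exact h1.inter h2
  · refine ⟨fun t => t.1 * t.2, fun t => t.1 * t.2 ^ 2 + t.1 * t.2, fun t => t.1 * t.2 ^ 2, fun _ => 1,
      fun t => t.1, fun t => (a1 t).mul (a2 t),
      fun t => ((a1 t).mul ((a2 t).pow 2)).add ((a1 t).mul (a2 t)), fun t => (a1 t).mul ((a2 t).pow 2),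
      fun t => analyticAt_const, fun t => a1 t, fun t => rfl, fun t => by ring, fun t => by ring,
      fun t => Or.inl one_ne_zero, fun t ht => ht.1, ?_⟩
    have h1 : IsOpen {z : E | ‖z.1 * z.2‖ < 1 / 8} := isOpen_lt (by fun_prop) continuous_const
    have h2 : IsOpen {z : E | ‖z.1 * z.2 ^ 2‖ < 1 / 8} := isOpen_lt (by fun_prop) continuous_const
    exact h1.inter h2
  · refine ⟨fun t => t.1, fun t => t.1 ^ 2 * t.2 + t.1, fun t => t.1 ^ 2, fun t => t.2,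
      fun _ => 1, fun t => a1 t, fun t => (((a1 t).pow 2).mul (a2 t)).add (a1 t), fun t => (a1 t).pow 2,
      fun t => a2 t, fun t => analyticAt_const, fun t => rfl, fun t => by ring, fun t => by ring,
      fun t => Or.inr one_ne_zero, fun t ht => ht.1, ?_⟩
    have h1 : IsOpen {z : E | ‖z.1‖ < 1 / 8} := isOpen_lt (by fun_prop) continuous_const
    have h2 : IsOpen {z : E | ‖z.1 ^ 2 * z.2‖ < 1 / 8} := isOpen_lt (by fun_prop) continuous_const
    exact h1.inter h2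

/-- norms -/
theorem norm_rel {X Y b p q : ℂ} (h1 : Y - X = b * p) (h2 : X ^ 2 = b * q) (k : ℝ) :
    ‖Y - X‖ ^ 2 + k * ‖X‖ ^ 4 = ‖b‖ ^ 2 * (‖p‖ ^ 2 + k * ‖q‖ ^ 2) := by
  have h3 : ‖X‖ ^ 4 = ‖b‖ ^ 2 * ‖q‖ ^ 2 := by
    have : ‖X‖ ^ 4 = ‖X ^ 2‖ ^ 2 := by rw [norm_pow]; ring
    rw [this, h2, norm_mul]
    ring
  rw [h1, norm_mul, h3]
  ring

theorem smooth_one (ll : S_LLOG) {Y : E → ℂ} (hY : ∀ t, AnalyticAt ℂ Y t) (z : E) :
    ContDiffAt ℝ ∞ (fun t => Real.log (1 + ‖Y t‖ ^ 2)) z := by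
  have h := (ll.2.2 (fun _ => 1) Y z 0 analyticAt_const (hY z) (Or.inl one_ne_zero)).1
  simpa using h

theorem isOpen_W (hc : S_CHI) : IsOpen W := by
  obtain ⟨-, -, -, -, -, -, -, -, -, -, h11, -⟩ := hc
  have h1 : IsOpen {z : E | z.1 ∉ Lam} := h11.isOpen_compl.preimage continuous_fst
  have h2 : IsOpen {z : E | z.2 ≠ 0} := isOpen_ne.preimage continuous_snd
  exact h1.inter h2

end PHI2

open PHI2

/-- JOB PHI2 -/
theorem t_PHI2 (chi : S_CHI) (lo : S_LOPS) (ll : S_LLOG) : S_PHI2 := by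
  intro j hj z hz
  obtain ⟨X, Y, b, p, q, hX, hY, hb, hp, hq, htr, h1, h2, h3, h4, hV⟩ := coords j hj
  refine ⟨fun t => 2 * Real.log (1 + ‖Y t‖ ^ 2) + Real.log (‖p t‖ ^ 2 + ‖q t‖ ^ 2), ?_, ?_⟩
  · refine Eventually.of_forall fun z' => ?_
    exact (contDiffAt_const.mul (smooth_one ll hY z')).add
      (ll.2.2 p q z' 0 (hp z') (hq z') (h3 z')).1
  · filter_upwards [hV.mem_nhds hz] with z' hz' hW v
    have hcont : Continuous (tr j) := by
      have : tr j = fun t => (X t, Y t) := funext htr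
      rw [this]
      exact (continuous_iff_continuousAt.2 fun t => (hX t).continuousAt).prodMk
        (continuous_iff_continuousAt.2 fun t => (hY t).continuousAt)
    have hopen : IsOpen (V j ∩ tr j ⁻¹' W) := hV.inter ((isOpen_W chi).preimage hcont)
    have hne : ∀ t, tr j t ∈ W → X t ≠ 0 ∧ b t ≠ 0 := by
      intro t ht
      have hx : X t ≠ 0 := by
        intro h0
        apply ht.1
        rw [htr t]
        simp only [h0]
        exact zero_mem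
      refine ⟨hx, fun h0 => ?_⟩
      have := h2 t
      rw [h0, zero_mul] at this
      exact hx (pow_eq_zero_iff two_ne_zero |>.1 this)
    have heq : ∀ᶠ t in 𝓝 z', (2 * Real.log (1 + ‖Y t‖ ^ 2) + Real.log (‖p t‖ ^ 2 + ‖q t‖ ^ 2)) -
        Phi (tr j t) = Real.log (‖X t‖ ^ 2) - Real.log (‖b t‖ ^ 2) := by
      filter_upwards [hopen.mem_nhds ⟨hz', hW⟩] with t ht
      obtain ⟨hx0, hb0⟩ := hne t ht.2
      rw [htr t, phi_eq chi (Y t) (h4 t ht.1) hx0]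
      have e := norm_rel (h1 t) (h2 t) 1
      rw [one_mul, one_mul] at e
      have hb1 : ‖b t‖ ^ 2 ≠ 0 := by
        have := norm_pos_iff.2 hb0
        positivity
      have hpq : ‖p t‖ ^ 2 + ‖q t‖ ^ 2 ≠ 0 := by
        rcases h3 t with h | h
        · have := norm_pos_iff.2 h
          positivity
        · have := norm_pos_iff.2 h
          positivity
      rw [e, Real.log_mul hb1 hpq]
      ring
    rw [lo.2.2.2.1 _ _ z' v heq]
    obtain ⟨hx0, hb0⟩ := hne z' hW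
    obtain ⟨s1, l1⟩ := ll.1 X z' v (hX z') hx0
    obtain ⟨s2, l2⟩ := ll.1 b z' v (hb z') hb0
    rw [lo.2.1 _ _ z' v (two_le s1) (two_le s2), l1, l2, sub_zero]

end Pool.Agent.Q22.SP
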