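import Pool.Agent.Q22.SP.Stm

/-!
# Project SP (helper22), job PHIS (helper182): smoothness of the potentials
-/

set_option autoImplicit false

open Set Topology Filter
open scoped ContDiff Manifold

namespace Pool.Agent.Q22.SP.PHIS

open Pool.Agent.Y184.SP Pool.Agent.Q22.SP

theorem sm_chi (chi' : S_CHI) (z : E) : ContDiffAt ℝ ∞ (fun t : E => chi t.1) z :=
  (chi'.1.contDiffAt).comp z contDiffAt_fst

theorem sm_red (chi' : S_CHI) {z : E} (hz : ‖red z.1‖ < 1 / 2) :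
    ContDiffAt ℝ ∞ (fun t : E => red t.1) z := by
  obtain ⟨_, _, _, _, _, _, _, _, _, _, _, _, h⟩ := chi'
  have h1 : ∀ᶠ t in 𝓝 z, red t.1 = t.1 - (z.1 - red z.1) :=
    (continuous_fst.tendsto z).eventually (h z.1 hz)
  have h2 : ContDiffAt ℝ ∞ (fun t : E => t.1 - (z.1 - red z.1)) z :=
    contDiffAt_fst.sub contDiffAt_const
  exact h2.congr_of_eventuallyEq h1

theorem ev_zero (chi' : S_CHI) {z : E} (hz : 1 / 2 ≤ ‖red z.1‖) :
    ∀ᶠ t : E in 𝓝 z, chi t.1 = 0 := by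
  obtain ⟨_, _, _, _, _, _, _, _, _, _, _, h, _⟩ := chi'
  exact (continuous_fst.tendsto z).eventually (h z.1 (by linarith))

/-- products with `chi` -/
theorem sm_mul (chi' : S_CHI) {z : E} (g : E → ℝ)
    (hg : ‖red z.1‖ < 1 / 2 → ContDiffAt ℝ ∞ g z) :
    ContDiffAt ℝ ∞ (fun t : E => chi t.1 * g t) z := by
  by_cases hz : ‖red z.1‖ < 1 / 2
  · exact (sm_chi chi' z).mul (hg hz)
  · have h1 : ∀ᶠ t : E in 𝓝 z, chi t.1 * g t = 0 := by
      filter_upwards [ev_zero chi' (not_lt.1 hz)] with t ht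
      rw [ht, zero_mul]
    exact (contDiffAt_const (c := (0 : ℝ))).congr_of_eventuallyEq h1

theorem sm_nsq {f : E → ℂ} {z : E} (hf : ContDiffAt ℝ ∞ f z) :
    ContDiffAt ℝ ∞ (fun t => ‖f t‖ ^ 2) z := hf.norm_sq ℝ

theorem sm_n4 {f : E → ℂ} {z : E} (hf : ContDiffAt ℝ ∞ f z) :
    ContDiffAt ℝ ∞ (fun t => ‖f t‖ ^ 4) z := by
  have h : ContDiffAt ℝ ∞ (fun t => (‖f t‖ ^ 2) ^ 2) z := (sm_nsq hf).pow 2
  have h2 : (fun t => ‖f t‖ ^ 4) = fun t => (‖f t‖ ^ 2) ^ 2 := by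
    funext t
    ring
  rw [h2]
  exact h

theorem sm_den (z : E) : ContDiffAt ℝ ∞ (fun t : E => 1 + ‖t.2‖ ^ 2) z :=
  contDiffAt_const.add (sm_nsq contDiffAt_snd)

theorem pos_den (z : E) : (0 : ℝ) < 1 + ‖z.2‖ ^ 2 := by positivity

theorem sm_quot {N : E → ℝ} {z : E} (hN : ContDiffAt ℝ ∞ N z) (h0 : 0 < N z) :
    ContDiffAt ℝ ∞ (fun t : E => Real.log (N t / (1 + ‖t.2‖ ^ 2))) z := by
  have h1 : ContDiffAt ℝ ∞ (fun t : E => N t / (1 + ‖t.2‖ ^ 2)) z :=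
    hN.div (sm_den z) (pos_den z).ne'
  exact h1.log (div_pos h0 (pos_den z)).ne'

theorem sm_L1 (chi' : S_CHI) {z : E} (hz : ‖red z.1‖ < 1 / 2) (h : red z.1 ≠ 0 ∨ z.2 ≠ 0) :
    ContDiffAt ℝ ∞ L1 z := by
  have hr := sm_red chi' hz
  have hw : ContDiffAt ℝ ∞ (fun t : E => t.2 - red t.1) z := contDiffAt_snd.sub hr
  have h1 : ContDiffAt ℝ ∞ (fun t : E => ‖red t.1‖ ^ 2 + ‖t.2 - red t.1‖ ^ 2) z :=
    (sm_nsq hr).add (sm_nsq hw)
  refine sm_quot h1 ?_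
  by_cases h0 : red z.1 = 0
  · have h2 : z.2 ≠ 0 := h.resolve_left (fun h3 => h3 h0)
    rw [h0, sub_zero]
    have h3 : 0 < ‖z.2‖ := norm_pos_iff.2 h2
    positivity
  · have h3 : 0 < ‖red z.1‖ := norm_pos_iff.2 h0
    positivity

theorem sm_L2 (chi' : S_CHI) {z : E} (hz : ‖red z.1‖ < 1 / 2) (h : red z.1 ≠ 0 ∨ z.2 ≠ 0) :
    ContDiffAt ℝ ∞ L2 z := by
  have hr := sm_red chi' hz
  have hw : ContDiffAt ℝ ∞ (fun t : E => t.2 - red t.1) z := contDiffAt_snd.sub hr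
  have h1 : ContDiffAt ℝ ∞ (fun t : E => ‖t.2 - red t.1‖ ^ 2 + ‖red t.1‖ ^ 4) z :=
    (sm_nsq hw).add (sm_n4 hr)
  refine sm_quot h1 ?_
  by_cases h0 : red z.1 = 0
  · have h2 : z.2 ≠ 0 := h.resolve_left (fun h3 => h3 h0)
    rw [h0, sub_zero]
    have h3 : 0 < ‖z.2‖ := norm_pos_iff.2 h2
    positivity
  · have h3 : 0 < ‖red z.1‖ := norm_pos_iff.2 h0
    positivity

end Pool.Agent.Q22.SP.PHIS

namespace Pool.Agent.Q22.SP

open Pool.Agent.Y184.SP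

theorem t_PHIS (chi' : S_CHI) (_ll : S_LLOG) : S_PHIS := by
  have hlam : ∀ x, x ∈ Lam ↔ red x = 0 := chi'.2.2.2.2.2.2.2.2.1
  refine ⟨?_, ?_, ?_, ?_⟩
  · intro x y l hl
    have h1 : chi (x + l) = chi x := chi'.2.2.1 x l hl
    have h2 : red (x + l) = red x := chi'.2.2.2.1 x l hl
    simp only [Phi, L2, h1, h2]
  · intro z hz
    have hr0 : red z.1 ≠ 0 := fun h => hz ((hlam z.1).2 h)
    have h1 : ContDiffAt ℝ ∞ (fun t : E => 3 * Real.log (1 + ‖t.2‖ ^ 2)) z :=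
      contDiffAt_const.mul ((PHIS.sm_den z).log (PHIS.pos_den z).ne')
    refine h1.add (PHIS.sm_mul chi' (fun t : E => L2 t - Real.log (‖red t.1‖ ^ 2)) fun hz2 => ?_)
    refine (PHIS.sm_L2 chi' hz2 (Or.inl hr0)).sub ?_
    have h3 : 0 < ‖red z.1‖ := norm_pos_iff.2 hr0
    exact (PHIS.sm_nsq (PHIS.sm_red chi' hz2)).log (by positivity)
  · intro z hz
    refine PHIS.sm_mul chi' (fun t : E => L1 t + L2 t) fun hz2 => ?_
    have h0 : red z.1 ≠ 0 ∨ z.2 ≠ 0 := hz.imp_left fun h h' => h ((hlam z.1).2 h')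
    exact (PHIS.sm_L1 chi' hz2 h0).add (PHIS.sm_L2 chi' hz2 h0)
  · intro k C hk z hz
    have hr0 : red z.1 ≠ 0 := fun h => hz ((hlam z.1).2 h)
    have h3 : 0 < ‖red z.1‖ := norm_pos_iff.2 hr0
    refine ContDiffAt.add (PHIS.sm_mul chi'
      (fun t : E => Real.log (‖t.2 / red t.1 - 1‖ ^ 2 + k * ‖red t.1‖ ^ 2)) fun hz2 => ?_)
      (contDiffAt_const.mul (PHIS.sm_nsq contDiffAt_snd))
    have hr := PHIS.sm_red chi' hz2
    have h4 : ContDiffAt ℝ ∞ (fun t : E => t.2 / red t.1 - 1) z := by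
      have h5 : ContDiffAt ℝ ∞ (fun t : E => t.2 * (red t.1)⁻¹) z :=
        contDiffAt_snd.mul (hr.inv hr0)
      have h6 : (fun t : E => t.2 / red t.1 - 1) = fun t : E => t.2 * (red t.1)⁻¹ - 1 := by
        funext t
        rw [div_eq_mul_inv]
      rw [h6]
      exact h5.sub contDiffAt_const
    have h7 : ContDiffAt ℝ ∞ (fun t : E => ‖t.2 / red t.1 - 1‖ ^ 2 + k * ‖red t.1‖ ^ 2) z :=
      (PHIS.sm_nsq h4).add (contDiffAt_const.mul (PHIS.sm_nsq hr))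
    exact h7.log (by positivity)

end Pool.Agent.Q22.SP
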