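import Pool.Agent.Q22.SP.Stm

set_option autoImplicit false

namespace Pool.Agent.Q22.SP

open Pool.Agent.Y184.SP Set Topology Filter
open scoped ContDiff Manifold

namespace PSI

theorem psi_smooth (phis : S_PHIS) {G h : ℂ → ℝ} {c : ℝ} (hG : IsGreen G h c) (K : ℝ) {z : E}
    (hz : z ∈ W) : ContDiffAt ℝ ∞ (Psi G K) z := by
  have h1 : ContDiffAt ℝ ∞ (fun t : E => G t.1) z :=
    ContDiffAt.comp z (hG.smooth z.1 hz.1) contDiffAt_fst
  have h2 : ContDiffAt ℝ ∞ (fun t : E => Real.log (1 + ‖t.2‖ ^ 2)) z := by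
    apply ContDiffAt.log
    · exact contDiffAt_const.add (contDiffAt_snd.norm_sq ℝ)
    · positivity
  have h3 := phis.2.2.1 z (Or.inl hz.1)
  have h4 : Psi G K = fun t : E => -(K * G t.1) + K * Real.log (1 + ‖t.2‖ ^ 2)
      + chi t.1 * (L1 t + L2 t) := rfl
  rw [h4]
  exact (((contDiffAt_const.mul h1).neg).add (contDiffAt_const.mul h2)).add h3

theorem nm_pos {z v : E} (hv : v ≠ 0) : 0 < nm z v := by
  unfold nm
  by_cases h : v.1 = 0
  · have h2 : v.2 ≠ 0 := fun h2 => hv (Prod.ext h h2)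
    have : 0 < ‖v.2‖ := norm_pos_iff.2 h2
    positivity
  · have : 0 < ‖v.1‖ := norm_pos_iff.2 h
    positivity

theorem nm_cont (v z : E) : ContinuousAt (fun z => nm z v) z := by
  unfold nm
  apply Continuous.continuousAt
  apply Continuous.add continuous_const
  apply Continuous.div continuous_const (by fun_prop)
  intro x
  positivity

theorem fderiv_tr1 {z : E} (hz : z.2 ≠ 0) (v : E) :
    fderiv ℂ (tr 1) z v = (v.1, -(z.2 ^ 2)⁻¹ * v.2) := by
  have h1 : HasFDerivAt (fun t : E => t.1) (ContinuousLinearMap.fst ℂ ℂ ℂ) z := hasFDerivAt_fst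
  have h2 : HasFDerivAt (fun t : E => t.2⁻¹)
      ((-(z.2 ^ 2)⁻¹) • ContinuousLinearMap.snd ℂ ℂ ℂ) z :=
    (hasDerivAt_inv hz).comp_hasFDerivAt z hasFDerivAt_snd
  have h3 : HasFDerivAt (tr 1) ((ContinuousLinearMap.fst ℂ ℂ ℂ).prod
      ((-(z.2 ^ 2)⁻¹) • ContinuousLinearMap.snd ℂ ℂ ℂ)) z := h1.prodMk h2
  rw [h3.fderiv]
  simp

theorem nm_tr1 {z : E} (hz : z.2 ≠ 0) (v : E) :
    nm (tr 1 z) (fderiv ℂ (tr 1) z v) = nm z v := by
  rw [fderiv_tr1 hz]
  have h : 0 < ‖z.2‖ := norm_pos_iff.2 hz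
  simp only [nm, tr, norm_mul, norm_neg, norm_inv, norm_pow]
  congr 1
  field_simp
  ring

end PSI

theorem t_PSI (lo : S_LOPS) (dens : S_DENS) (clev : S_CLEV) (phis : S_PHIS) : S_PSI := by
  intro psil psi0 psi2 G h c hG
  obtain ⟨K, hK2, hK⟩ := psil G h c hG
  have hle : ((2 : ℕ∞) : WithTop ℕ∞) ≤ ((⊤ : ℕ∞) : WithTop ℕ∞) := by exact_mod_cast le_top
  refine ⟨K, 1, by linarith, one_pos, fun z hz v => by rw [one_mul]; exact hK K le_rfl z hz v, ?_⟩
  -- the general step: a lower bound at the nearby points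
  have step : ∀ (j : Fin 5) (z : E), z ∈ V j → ∀ ρ, PotAt (Psi G K) j z ρ →
      (∀ z' : E, tr j z' ∈ W → ∀ v, nm z' v ≤ nm (tr j z') (fderiv ℂ (tr j) z' v)) →
      ∀ v, v ≠ 0 → 0 < lev ρ z v := by
    intro j z hz ρ hρ hnm v hv
    have hpos := PSI.nm_pos (z := z) hv
    have hev : ∀ᶠ z' in 𝓝 z, nm z v / 2 < nm z' v :=
      (PSI.nm_cont v z).eventually_const_lt (by linarith)
    have hV : ∀ᶠ z' in 𝓝 z, z' ∈ V j := (dens j).1.mem_nhds hz
    have := clev j z hz ρ v (nm z v / 2) hρ.1 (by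
      filter_upwards [hev, hV, hρ.1, hρ.2] with z' h1 h2 h3 h4 hW
      have han : AnalyticAt ℂ (tr j) z' := (((dens j).2 z' h2).2 hW).self_of_nhds.2
      have htr : ContDiffAt ℝ ∞ (tr j) z' :=
        ((han.contDiffAt (n := ω)).restrict_scalars ℝ).of_le le_top
      have hs : ContDiffAt ℝ ∞ (Psi G K) (tr j z') := PSI.psi_smooth phis hG K hW
      have hc : ContDiffAt ℝ ∞ (fun t => Psi G K (tr j t)) z' := ContDiffAt.comp z' hs htr
      have e1 := lo.2.1 ρ (fun t => Psi G K (tr j t)) z' v (h3.of_le hle) (hc.of_le hle)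
      rw [h4 hW v, lo.2.2.2.2.1 (Psi G K) (tr j) z' v han (hs.of_le hle)] at e1
      have e2 := hK K le_rfl (tr j z') hW (fderiv ℂ (tr j) z' v)
      have e3 := hnm z' hW v
      linarith)
    linarith
  intro j z hz
  by_cases hj : 2 ≤ j
  · exact psi2 G h c hG K hK2 j hj z hz
  · have hj' : j = 0 ∨ j = 1 := by
      have : (j : ℕ) < 2 := by
        by_contra hcon
        exact hj (by rw [Fin.le_def]; exact not_lt.1 hcon)
      interval_cases hh : (j : ℕ)
      · left; exact Fin.ext hh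
      · right; exact Fin.ext hh
    rcases hj' with rfl | rfl
    · obtain ⟨ρ, hρ⟩ := (psi0 G h c hG K).1 z hz
      refine ⟨ρ, hρ, step 0 z hz ρ hρ ?_⟩
      intro z' _ v
      have : tr 0 = fun z : E => z := rfl
      rw [this]
      simp
    · obtain ⟨ρ, hρ⟩ := (psi0 G h c hG K).2 z hz
      refine ⟨ρ, hρ, step 1 z hz ρ hρ ?_⟩
      intro z' hW v
      have h2 : z'.2 ≠ 0 := by
        intro h0
        apply hW.2
        simp [tr, h0]
      exact (PSI.nm_tr1 h2 v).ge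

end Pool.Agent.Q22.SP
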