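import Pool.Agent.Q22.SP.PHI1

/-!
# Project SP (helper22), MP_4ff127_gt: potentials of `dd^c Ψ` in the coordinate systems `0`, `1`
-/

set_option autoImplicit false

open Set Topology Filter
open scoped ContDiff Manifold

namespace Pool.Agent.Q22.SP

open Pool.Agent.Y184.SP

namespace PSI0

open PHI1

theorem neg_mem {l : ℂ} (hl : l ∈ Lam) : -l ∈ Lam := by
  obtain ⟨m, n, rfl⟩ := hl
  refine ⟨-m, -n, ?_⟩
  push_cast
  ring

/-- the Green function near a point of the lattice -/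
theorem G_near {G h : ℂ → ℝ} {c : ℝ} (hG : IsGreen G h c) {x l : ℂ} (hl : l ∈ Lam)
    (hx : ‖x - l‖ < 1 / 2) (hne : x - l ≠ 0) :
    G x = Real.log (‖x - l‖ ^ 2) + h (x - l) := by
  rw [← hG.eq (x - l) hx hne, sub_eq_add_neg, hG.per x (-l) (neg_mem hl)]

theorem sm_G {G h : ℂ → ℝ} {c : ℝ} (hG : IsGreen G h c) (K : ℝ) (z : E) (hz : z.1 ∉ Lam) :
    ContDiffAt ℝ ∞ (fun t : E => -(K * G t.1)) z :=
  (contDiffAt_const.mul ((hG.smooth z.1 hz).comp z contDiffAt_fst)).neg

theorem sm_h {G h : ℂ → ℝ} {c : ℝ} (hG : IsGreen G h c) (K : ℝ) (l : ℂ) (z : E)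
    (hz : ‖z.1 - l‖ < 1 / 2) :
    ContDiffAt ℝ ∞ (fun t : E => -(K * h (t.1 - l))) z := by
  have h1 : ContDiffAt ℝ ∞ (fun t : E => t.1 - l) z := contDiffAt_fst.sub contDiffAt_const
  have h2 : ContDiffAt ℝ ∞ (fun t : E => h (t.1 - l)) z :=
    ContDiffAt.comp z (g := h) (f := fun t : E => t.1 - l) (hG.smooth_h _ hz) h1
  exact (contDiffAt_const.mul h2).neg

theorem ev_near (l : ℂ) (z : E) (hz : ‖z.1 - l‖ < 1 / 2) : ∀ᶠ t : E in 𝓝 z, ‖t.1 - l‖ < 1 / 2 := by
  have hcont : ContinuousAt (fun t : E => ‖t.1 - l‖) z := by fun_prop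
  exact hcont.eventually (gt_mem_nhds hz)

/-- the function `Ψ` at `y = 1 / t` -/
theorem Psi_inv (G : ℂ → ℝ) (K : ℝ) (t : E) (l : ℂ) (hr : red t.1 = t.1 - l) (ht : t.2 ≠ 0) :
    Psi G K (tr 1 t) = -(K * G t.1) + K * (Real.log (1 + ‖t.2‖ ^ 2) - Real.log (‖t.2‖ ^ 2)) +
      chi t.1 * ((Real.log (‖t.2 * (t.1 - l)‖ ^ 2 + ‖1 - t.2 * (t.1 - l)‖ ^ 2)
        - Real.log (1 + ‖t.2‖ ^ 2)) +
        (Real.log (‖1 - t.2 * (t.1 - l)‖ ^ 2 + ‖t.2 * (t.1 - l) ^ 2‖ ^ 2)
        - Real.log (1 + ‖t.2‖ ^ 2))) := by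
  have e : tr 1 t = (t.1, t.2⁻¹) := rfl
  unfold Psi
  rw [e]
  simp only [L2_inv t.1 t.2 l hr ht, L1_inv t.1 t.2 l hr ht, q_inv t.2 ht]

end PSI0

open PHI1 PSI0 in
theorem t_PSI0 (chi : S_CHI) (lo : S_LOPS) (ll : S_LLOG) (phis : S_PHIS) : S_PSI0 := by
  intro G h c hG K
  obtain ⟨chi1, -, -, -, chi5, chi6, chi7, chi8, chi9, chi10, chi11, chi12, chi13⟩ := id chi
  refine ⟨fun z hz => ?_, fun z _ => ?_⟩
  · -- the system `0`
    by_cases hc : z.1 ∈ Lam
    · have hz2 : z.2 ≠ 0 := by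
        rcases hz with hz | hz
        · exact absurd hc hz
        · exact hz
      have hne : ∀ᶠ t : E in 𝓝 z, t.2 ≠ 0 := continuousAt_snd.eventually_ne hz2
      have hnear : ∀ᶠ t : E in 𝓝 z, ‖t.1 - z.1‖ < 1 / 2 := ev_near z.1 z (by simp)
      refine ⟨fun t => -(K * h (t.1 - z.1)) + K * Real.log (1 + ‖t.2‖ ^ 2) +
          Pool.Agent.Y184.SP.chi t.1 * (L1 t + L2 t),
        potAt_of lo ll (Psi G K) 0 z _ K 0 (fun t => t.1 - z.1) (fun _ => 1) ?_ (an_sub z.1)
          (fun _ => analyticAt_const)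
          (Eventually.of_forall fun t ht => ⟨fun h0 => ht.1 ?_, one_ne_zero⟩) ?_⟩
      · filter_upwards [hne, hnear] with t h1 h2
        exact ((sm_h hG K z.1 t h2).add (contDiffAt_const.mul (sm_q ll t))).add
          (phis.2.2.1 t (Or.inr h1))
      · rw [sub_eq_zero] at h0
        show t.1 ∈ Lam
        rw [h0]
        exact hc
      · filter_upwards [hnear] with t h1 h2 _
        have e : tr 0 t = t := rfl
        rw [e]
        unfold Psi
        rw [G_near hG hc h1 h2]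
        ring
    · have hop : ∀ᶠ t : E in 𝓝 z, t.1 ∉ Lam :=
        continuousAt_fst.eventually (chi11.isOpen_compl.mem_nhds hc)
      refine ⟨Psi G K, potAt_of lo ll (Psi G K) 0 z _ 0 0 (fun _ => 1) (fun _ => 1) ?_
        (fun _ => analyticAt_const) (fun _ => analyticAt_const)
        (Eventually.of_forall fun t _ => ⟨one_ne_zero, one_ne_zero⟩)
        (Eventually.of_forall fun t _ _ => ?_)⟩
      · filter_upwards [hop] with t ht
        exact ((sm_G hG K t ht).add (contDiffAt_const.mul (sm_q ll t))).add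
          (phis.2.2.1 t (Or.inl ht))
      · have e : tr 0 t = t := rfl
        rw [e]
        ring
  · -- the system `1`
    by_cases ha : 1 / 4 < ‖red z.1‖
    · -- `chi = 0` near the point
      have hchi : ∀ᶠ t : E in 𝓝 z, Pool.Agent.Y184.SP.chi t.1 = 0 :=
        continuousAt_fst.eventually (chi12 z.1 ha)
      have hc : z.1 ∉ Lam := by
        intro hc
        rw [(chi9 z.1).mp hc, norm_zero] at ha
        norm_num at ha
      have hop : ∀ᶠ t : E in 𝓝 z, t.1 ∉ Lam :=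
        continuousAt_fst.eventually (chi11.isOpen_compl.mem_nhds hc)
      refine ⟨fun t => -(K * G t.1) + K * Real.log (1 + ‖t.2‖ ^ 2),
        potAt_of lo ll (Psi G K) 1 z _ K 0 (fun t => t.2) (fun _ => 1) ?_ an_snd
          (fun _ => analyticAt_const)
          (Eventually.of_forall fun t ht => ⟨(tr1_mem ht).2, one_ne_zero⟩) ?_⟩
      · filter_upwards [hop] with t ht
        exact (sm_G hG K t ht).add (contDiffAt_const.mul (sm_q ll t))
      · filter_upwards [hchi] with t ht h0 _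
        have e : tr 1 t = (t.1, t.2⁻¹) := rfl
        unfold Psi
        rw [e]
        simp only [ht, q_inv t.2 h0]
        ring
    · push Not at ha
      have hb : ‖red z.1‖ < 1 / 2 := by linarith
      set l : ℂ := z.1 - red z.1 with hl
      have hlm : l ∈ Lam := chi5 z.1
      have hred : ∀ᶠ t : E in 𝓝 z, red t.1 = t.1 - l :=
        continuousAt_fst.eventually (chi13 z.1 hb)
      have hcS : ∀ t : E, ContDiffAt ℝ ∞ (fun t : E => Pool.Agent.Y184.SP.chi t.1 *
          ((Real.log (‖t.2 * (t.1 - l)‖ ^ 2 + ‖1 - t.2 * (t.1 - l)‖ ^ 2)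
            - Real.log (1 + ‖t.2‖ ^ 2)) +
            (Real.log (‖1 - t.2 * (t.1 - l)‖ ^ 2 + ‖t.2 * (t.1 - l) ^ 2‖ ^ 2)
            - Real.log (1 + ‖t.2‖ ^ 2)))) t := fun t =>
        (sm_chi chi t).mul (((sm_1 ll l t).sub (sm_q ll t)).add ((sm_2 ll l t).sub (sm_q ll t)))
      by_cases hc : z.1 ∈ Lam
      · -- on the lattice
        have hr0 : red z.1 = 0 := (chi9 z.1).mp hc
        have hzl : z.1 = l := by rw [hl, hr0, sub_zero]
        have hnear : ∀ᶠ t : E in 𝓝 z, ‖t.1 - l‖ < 1 / 2 := ev_near l z (by rw [← hzl]; simp)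
        refine ⟨fun t => -(K * h (t.1 - l)) + K * Real.log (1 + ‖t.2‖ ^ 2) +
            Pool.Agent.Y184.SP.chi t.1 *
            ((Real.log (‖t.2 * (t.1 - l)‖ ^ 2 + ‖1 - t.2 * (t.1 - l)‖ ^ 2)
              - Real.log (1 + ‖t.2‖ ^ 2)) +
              (Real.log (‖1 - t.2 * (t.1 - l)‖ ^ 2 + ‖t.2 * (t.1 - l) ^ 2‖ ^ 2)
              - Real.log (1 + ‖t.2‖ ^ 2))),
          potAt_of lo ll (Psi G K) 1 z _ K K (fun t => t.2) (fun t => t.1 - l) ?_
            an_snd (an_sub l)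
            (Eventually.of_forall fun t ht => ⟨(tr1_mem ht).2, fun h0 => (tr1_mem ht).1 ?_⟩) ?_⟩
        · filter_upwards [hnear] with t h1
          exact ((sm_h hG K l t h1).add (contDiffAt_const.mul (sm_q ll t))).add (hcS t)
        · rw [sub_eq_zero] at h0
          rw [h0]
          exact hlm
        · filter_upwards [hnear, hred] with t h1 h2 h3 h4
          rw [Psi_inv G K t l h2 h3, G_near hG hlm h1 h4]
          ring
      · -- off the lattice
        have hop : ∀ᶠ t : E in 𝓝 z, t.1 ∉ Lam :=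
          continuousAt_fst.eventually (chi11.isOpen_compl.mem_nhds hc)
        refine ⟨fun t => -(K * G t.1) + K * Real.log (1 + ‖t.2‖ ^ 2) +
            Pool.Agent.Y184.SP.chi t.1 *
            ((Real.log (‖t.2 * (t.1 - l)‖ ^ 2 + ‖1 - t.2 * (t.1 - l)‖ ^ 2)
              - Real.log (1 + ‖t.2‖ ^ 2)) +
              (Real.log (‖1 - t.2 * (t.1 - l)‖ ^ 2 + ‖t.2 * (t.1 - l) ^ 2‖ ^ 2)
              - Real.log (1 + ‖t.2‖ ^ 2))),
          potAt_of lo ll (Psi G K) 1 z _ K 0 (fun t => t.2) (fun _ => 1) ?_ an_snd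
            (fun _ => analyticAt_const)
            (Eventually.of_forall fun t ht => ⟨(tr1_mem ht).2, one_ne_zero⟩) ?_⟩
        · filter_upwards [hop] with t ht
          exact ((sm_G hG K t ht).add (contDiffAt_const.mul (sm_q ll t))).add (hcS t)
        · filter_upwards [hred] with t h2 h3 _
          rw [Psi_inv G K t l h2 h3]
          ring

end Pool.Agent.Q22.SP
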