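import Pool.Agent.Q22.SP.Stm

/-! # Project SP (helper22), job PSI2 (helper18): positive potentials in the coordinate systems `2`, `3`, `4` -/

set_option autoImplicit false

open Set Topology Filter
open scoped ContDiff Manifold

namespace Pool.Agent.Q22.SP.PSI2

open Pool.Agent.Y184.SP

theorem lap_trans (g : ℂ → ℝ) (a : ℂ) :
    Laplacian.laplacian (fun ζ : ℂ => g (a + ζ)) 0 = Laplacian.laplacian g a := by
  rw [InnerProductSpace.laplacian_eq_iteratedFDeriv_complexPlane,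
    InnerProductSpace.laplacian_eq_iteratedFDeriv_complexPlane]
  simp only [iteratedFDeriv_comp_add_left, add_zero]

theorem lev_fst (lo : S_LOPS) (g : ℂ → ℝ) (p u : E) (hg : ContDiffAt ℝ 2 g p.1) :
    lev (fun t => g t.1) p u = ‖u.1‖ ^ 2 * Laplacian.laplacian g p.1 := by
  have h1 : lev (fun t => g t.1) p u = lev (fun t => g t.1) p (u.1 • ((1, 0) : E)) := by
    unfold lev
    simp
  have hg' : ContDiffAt ℝ 2 (fun t : E => g t.1) p := hg.comp p contDiffAt_fst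
  rw [h1, lo.2.2.2.2.2 _ _ _ _ hg']
  congr 1
  unfold lev
  have h2 : (fun ζ : ℂ => g (p + ζ • ((1, 0) : E)).1) = fun ζ : ℂ => g (p.1 + ζ) := by
    funext ζ
    simp
  rw [h2]
  exact lap_trans g p.1

theorem zero_mem : (0 : ℂ) ∈ Lam := ⟨0, 0, by simp⟩

theorem not_lam (chi : S_CHI) (x : ℂ) (hx : ‖x‖ < 1 / 2) (h0 : x ≠ 0) : x ∉ Lam := by
  obtain ⟨-, -, -, -, -, hred, -, -, hlam, -, -, -, -⟩ := chi
  intro h
  have h1 := hred x 0 zero_mem (by simpa using hx)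
  rw [sub_zero] at h1
  exact h0 (h1 ▸ (hlam x).1 h)

/-- the Laplacian of `h` -/
theorem lap_h (chi : S_CHI) (lo : S_LOPS) (ll : S_LLOG) (G h : ℂ → ℝ) (c : ℝ) (hG : IsGreen G h c)
    (x : ℂ) (hx : ‖x‖ < 1 / 2) : Laplacian.laplacian h x = -c := by
  have key : ∀ x : ℂ, ‖x‖ < 1 / 2 → x ≠ 0 → Laplacian.laplacian h x = -c := by
    intro x hx h0
    have hlam := not_lam chi x hx h0
    have hGs : ContDiffAt ℝ 2 G x := (hG.smooth x hlam).of_le (by norm_cast)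
    have hhs : ContDiffAt ℝ 2 h x := (hG.smooth_h x hx).of_le (by norm_cast)
    have hlog := ll.1 (fun t : E => t.1) (x, 0) (1, 0) analyticAt_fst h0
    have hGs' : ContDiffAt ℝ 2 (fun t : E => G t.1) (x, 0) := hGs.comp (x, (0 : ℂ)) contDiffAt_fst
    have hls : ContDiffAt ℝ 2 (fun t : E => Real.log (‖t.1‖ ^ 2)) (x, 0) :=
      hlog.1.of_le (by norm_cast)
    have h1 := lo.2.1 (fun t : E => G t.1) (fun t : E => Real.log (‖t.1‖ ^ 2)) (x, 0) (1, 0) hGs' hls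
    rw [hlog.2, lev_fst lo G (x, 0) (1, 0) hGs, hG.lap x hlam] at h1
    have hev : ∀ᶠ t : E in 𝓝 (x, (0 : ℂ)), h t.1 = G t.1 - Real.log (‖t.1‖ ^ 2) := by
      have hU : IsOpen {t : E | ‖t.1‖ < 1 / 2} := isOpen_lt continuous_fst.norm continuous_const
      have hV : IsOpen {t : E | t.1 ≠ 0} := isOpen_ne_fun continuous_fst continuous_const
      filter_upwards [hU.mem_nhds (show (x, (0 : ℂ)) ∈ {t : E | ‖t.1‖ < 1 / 2} from hx),
        hV.mem_nhds (show (x, (0 : ℂ)) ∈ {t : E | t.1 ≠ 0} from h0)] with t ht ht'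
      rw [hG.eq t.1 ht ht']
      ring
    have h2 := lo.2.2.2.1 _ _ (x, 0) (1, 0) hev
    rw [h1, lev_fst lo h (x, 0) (1, 0) hhs] at h2
    simpa using h2
  by_cases h0 : x = 0
  · subst h0
    have hcont : ContinuousAt (Laplacian.laplacian h) (0 : ℂ) := by
      have h1 : ContDiffAt ℝ ∞ h 0 := hG.smooth_h 0 (by simp)
      have h2 : ContinuousAt (iteratedFDeriv ℝ 2 h) 0 := by
        have h3 : ContDiffAt ℝ 0 (iteratedFDeriv ℝ 2 h) 0 :=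
          h1.iteratedFDeriv_right (m := 0) (i := 2) (by norm_cast)
        exact h3.continuousAt
      rw [InnerProductSpace.laplacian_eq_iteratedFDeriv_complexPlane]
      refine ContinuousAt.add ?_ ?_
      · exact (continuous_eval_const _).continuousAt.comp h2
      · exact (continuous_eval_const _).continuousAt.comp h2
    have h4 : Tendsto (Laplacian.laplacian h) (𝓝[≠] (0 : ℂ)) (𝓝 (Laplacian.laplacian h 0)) :=
      hcont.tendsto.mono_left nhdsWithin_le_nhds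
    have h5 : Tendsto (Laplacian.laplacian h) (𝓝[≠] (0 : ℂ)) (𝓝 (-c)) := by
      refine tendsto_const_nhds.congr' ?_
      have hU : IsOpen {t : ℂ | ‖t‖ < 1 / 2} := isOpen_lt continuous_norm continuous_const
      filter_upwards [mem_nhdsWithin_of_mem_nhds (hU.mem_nhds (show (0 : ℂ) ∈ {t : ℂ | ‖t‖ < 1 / 2} by simp)),
        self_mem_nhdsWithin] with t ht ht'
      exact (key t ht ht').symm
    exact tendsto_nhds_unique h4 h5
  · exact key x hx h0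

theorem lev_h (chi : S_CHI) (lo : S_LOPS) (ll : S_LLOG) (G h : ℂ → ℝ) (c : ℝ) (hG : IsGreen G h c)
    (X : E → ℂ) (z v : E) (hX : AnalyticAt ℂ X z) (hx : ‖X z‖ < 1 / 2) :
    ContDiffAt ℝ ∞ (fun t => h (X t)) z ∧ lev (fun t => h (X t)) z v = -(c * ‖fderiv ℂ X z v‖ ^ 2) := by
  have hs : ContDiffAt ℝ ∞ h (X z) := hG.smooth_h _ hx
  have hXr : ContDiffAt ℝ ∞ X z := (hX.contDiffAt (n := ∞)).restrict_scalars ℝ
  refine ⟨hs.comp z hXr, ?_⟩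
  have hs2 : ContDiffAt ℝ 2 h (X z) := hs.of_le (by norm_cast)
  have hφ : AnalyticAt ℂ (fun t : E => ((X t, 0) : E)) z := hX.prod analyticAt_const
  have h1 := lo.2.2.2.2.1 (fun p : E => h p.1) (fun t : E => ((X t, 0) : E)) z v hφ
    (hs2.comp ((X z, 0) : E) contDiffAt_fst)
  have h2 : fderiv ℂ (fun t : E => ((X t, 0) : E)) z v = (fderiv ℂ X z v, 0) := by
    have := (hX.differentiableAt.hasFDerivAt.prodMk (hasFDerivAt_const (0 : ℂ) z)).fderiv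
    rw [this]
    rfl
  simp only at h1
  rw [h1, lev_fst lo h _ _ hs2, h2, lap_h chi lo ll G h c hG _ hx]
  ring

theorem lev_log (ll : S_LLOG) (F : E → ℂ) (z v : E) (hF : AnalyticAt ℂ F z) :
    ContDiffAt ℝ ∞ (fun t => Real.log (1 + ‖F t‖ ^ 2)) z ∧
    lev (fun t => Real.log (1 + ‖F t‖ ^ 2)) z v = 4 * ‖fderiv ℂ F z v‖ ^ 2 / (1 + ‖F z‖ ^ 2) ^ 2 := by
  have h := ll.2.2 (fun _ : E => (1 : ℂ)) F z v analyticAt_const hF (Or.inl one_ne_zero)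
  simpa using h

/-- the potential -/
noncomputable def rho (h : ℂ → ℝ) (K : ℝ) (X Y F₁ F₂ : E → ℂ) (t : E) : ℝ :=
  -K * h (X t) + (K - 2) * Real.log (1 + ‖Y t‖ ^ 2) + Real.log (1 + ‖F₁ t‖ ^ 2) + Real.log (1 + ‖F₂ t‖ ^ 2)

theorem rho_prop (chi : S_CHI) (lo : S_LOPS) (ll : S_LLOG) (G h : ℂ → ℝ) (c : ℝ) (hG : IsGreen G h c) (K : ℝ)
    (X Y F₁ F₂ : E → ℂ) (z v : E) (hX : AnalyticAt ℂ X z) (hY : AnalyticAt ℂ Y z) (h1 : AnalyticAt ℂ F₁ z)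
    (h2 : AnalyticAt ℂ F₂ z) (hx : ‖X z‖ < 1 / 2) :
    ContDiffAt ℝ ∞ (rho h K X Y F₁ F₂) z ∧ lev (rho h K X Y F₁ F₂) z v = K * (c * ‖fderiv ℂ X z v‖ ^ 2) +
      (K - 2) * (4 * ‖fderiv ℂ Y z v‖ ^ 2 / (1 + ‖Y z‖ ^ 2) ^ 2) +
      4 * ‖fderiv ℂ F₁ z v‖ ^ 2 / (1 + ‖F₁ z‖ ^ 2) ^ 2 + 4 * ‖fderiv ℂ F₂ z v‖ ^ 2 / (1 + ‖F₂ z‖ ^ 2) ^ 2 := by
  obtain ⟨a1, b1⟩ := lev_h chi lo ll G h c hG X z v hX hx
  obtain ⟨a2, b2⟩ := lev_log ll Y z v hY
  obtain ⟨a3, b3⟩ := lev_log ll F₁ z v h1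
  obtain ⟨a4, b4⟩ := lev_log ll F₂ z v h2
  have c1 : ContDiffAt ℝ ∞ (fun t => -K * h (X t)) z := contDiffAt_const.mul a1
  have c2 : ContDiffAt ℝ ∞ (fun t => (K - 2) * Real.log (1 + ‖Y t‖ ^ 2)) z := contDiffAt_const.mul a2
  have c12 := c1.add c2
  have c123 := c12.add a3
  have hle : (2 : WithTop ℕ∞) ≤ ∞ := by norm_cast
  refine ⟨c123.add a4, ?_⟩
  have e4 := lo.1 _ _ z v (c123.of_le hle) (a4.of_le hle)
  have e3 := lo.1 _ _ z v (c12.of_le hle) (a3.of_le hle)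
  have e2 := lo.1 _ _ z v (c1.of_le hle) (c2.of_le hle)
  have e1 := lo.2.2.1 _ (-K) z v (a1.of_le hle)
  have e0 := lo.2.2.1 _ (K - 2) z v (a2.of_le hle)
  have : lev (rho h K X Y F₁ F₂) z v = lev (fun t => -K * h (X t)) z v +
      lev (fun t => (K - 2) * Real.log (1 + ‖Y t‖ ^ 2)) z v + lev (fun t => Real.log (1 + ‖F₁ t‖ ^ 2)) z v +
      lev (fun t => Real.log (1 + ‖F₂ t‖ ^ 2)) z v := by
    rw [← e2]
    refine Eq.trans e4 ?_
    congr 1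
  rw [this, e1, e0, b1, b2, b3, b4]
  ring

theorem lev_comb (lo : S_LOPS) (ll : S_LLOG) (a b : ℝ) (z v : E) (h1 : z.1 ≠ 0) (h2 : z.2 ≠ 0) :
    lev (fun t => a * Real.log (‖t.1‖ ^ 2) + b * Real.log (‖t.2‖ ^ 2)) z v = 0 := by
  have hle : (2 : WithTop ℕ∞) ≤ ∞ := by norm_cast
  obtain ⟨a1, b1⟩ := ll.1 (fun t : E => t.1) z v analyticAt_fst h1
  obtain ⟨a2, b2⟩ := ll.1 (fun t : E => t.2) z v analyticAt_snd h2
  have c1 : ContDiffAt ℝ 2 (fun t : E => a * Real.log (‖t.1‖ ^ 2)) z := contDiffAt_const.mul (a1.of_le hle)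
  have c2 : ContDiffAt ℝ 2 (fun t : E => b * Real.log (‖t.2‖ ^ 2)) z := contDiffAt_const.mul (a2.of_le hle)
  rw [lo.1 _ _ z v c1 c2, lo.2.2.1 _ a z v (a1.of_le hle), lo.2.2.1 _ b z v (a2.of_le hle), b1, b2]
  ring

theorem lev_comb1 (lo : S_LOPS) (ll : S_LLOG) (a : ℝ) (z v : E) (h1 : z.1 ≠ 0) :
    lev (fun t => a * Real.log (‖t.1‖ ^ 2)) z v = 0 := by
  have hle : (2 : WithTop ℕ∞) ≤ ∞ := by norm_cast
  obtain ⟨a1, b1⟩ := ll.1 (fun t : E => t.1) z v analyticAt_fst h1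
  rw [lo.2.2.1 _ a z v (a1.of_le hle), b1]
  ring

/-- the general shape of the potential -/
theorem pot (chi : S_CHI) (lo : S_LOPS) (ll : S_LLOG) (G h : ℂ → ℝ) (c : ℝ) (hG : IsGreen G h c) (K : ℝ)
    (j : Fin 5) (X Y F₁ F₂ : E → ℂ) (D : E → ℝ) (z : E) (hX : ∀ t, AnalyticAt ℂ X t) (hY : ∀ t, AnalyticAt ℂ Y t)
    (h1 : ∀ t, AnalyticAt ℂ F₁ t) (h2 : ∀ t, AnalyticAt ℂ F₂ t) (hx : ‖X z‖ < 1 / 8)
    (htr : ∀ t, tr j t = (X t, Y t))
    (hD : ∀ t, ‖X t‖ < 1 / 8 → X t ∉ Lam → rho h K X Y F₁ F₂ t - Psi G K (tr j t) = D t)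
    (hD0 : ∀ t v, X t ∉ Lam → lev D t v = 0) : PotAt (Psi G K) j z (rho h K X Y F₁ F₂) := by
  have hXc : Continuous X := continuous_iff_continuousAt.2 fun t => (hX t).continuousAt
  have hU : IsOpen {t : E | ‖X t‖ < 1 / 8} := isOpen_lt hXc.norm continuous_const
  have hcl : IsClosed Lam := chi.2.2.2.2.2.2.2.2.2.2.1
  have hV : IsOpen {t : E | X t ∉ Lam} := (hcl.preimage hXc).isOpen_compl
  refine ⟨?_, ?_⟩
  · filter_upwards [hU.mem_nhds hx] with t ht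
    have ht' : ‖X t‖ < 1 / 8 := ht
    exact (rho_prop chi lo ll G h c hG K X Y F₁ F₂ t 0 (hX t) (hY t) (h1 t) (h2 t) (by linarith)).1
  · filter_upwards [hU.mem_nhds hx] with z' hz' hW v
    rw [htr] at hW
    have hne : X z' ∉ Lam := hW.1
    have hev : ∀ᶠ t in 𝓝 z', rho h K X Y F₁ F₂ t - Psi G K (tr j t) = D t := by
      filter_upwards [hU.mem_nhds hz', hV.mem_nhds hne] with t ht ht'
      exact hD t ht ht'
    rw [lo.2.2.2.1 _ _ z' v hev]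
    exact hD0 z' v hne

theorem Psi_eq (chi : S_CHI) (G h : ℂ → ℝ) (c : ℝ) (hG : IsGreen G h c) (K : ℝ) (x w : ℂ) (hx : ‖x‖ < 1 / 8)
    (h0 : x ∉ Lam) : Psi G K (x, w + x) = -K * h x + (K - 2) * Real.log (1 + ‖w + x‖ ^ 2) - K * Real.log (‖x‖ ^ 2) +
      Real.log (‖x‖ ^ 2 + ‖w‖ ^ 2) + Real.log (‖w‖ ^ 2 + ‖x‖ ^ 4) := by
  obtain ⟨-, -, -, -, -, hred, hchi, -, -, -, -, -, -⟩ := chi
  have hr : red x = x := by
    have := hred x 0 zero_mem (by rw [sub_zero]; linarith)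
    rwa [sub_zero] at this
  have hx0 : x ≠ 0 := fun h => h0 (h ▸ zero_mem)
  have hc : Pool.Agent.Y184.SP.chi x = 1 := hchi x (by rw [hr]; exact hx.le)
  have hpos : 0 < ‖x‖ := norm_pos_iff.2 hx0
  have hden : (1 : ℝ) + ‖w + x‖ ^ 2 ≠ 0 := by positivity
  have hn1 : ‖x‖ ^ 2 + ‖w‖ ^ 2 ≠ 0 := by positivity
  have hn2 : ‖w‖ ^ 2 + ‖x‖ ^ 4 ≠ 0 := by positivity
  have hwx : w + x - x = w := by ring
  unfold Psi L1 L2
  simp only [hc, hr, hwx]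
  rw [hG.eq x (by linarith) hx0, Real.log_div hn1 hden, Real.log_div hn2 hden]
  ring

theorem term_nonneg (A : ℝ) (hA : 0 ≤ A) (a b : ℂ) : 0 ≤ A * (4 * ‖a‖ ^ 2 / (1 + ‖b‖ ^ 2) ^ 2) := by positivity

theorem term_pos (a b : ℂ) (ha : a ≠ 0) : 0 < 4 * ‖a‖ ^ 2 / (1 + ‖b‖ ^ 2) ^ 2 := by
  have : 0 < ‖a‖ := norm_pos_iff.2 ha
  positivity

theorem fd_mul (z v : E) : fderiv ℂ (fun t : E => t.1 * t.2) z v = z.1 * v.2 + z.2 * v.1 := by
  have h := ((hasFDerivAt_fst (𝕜 := ℂ) (p := z)).mul (hasFDerivAt_snd (𝕜 := ℂ) (p := z))).fderiv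
  have e : (fun t : E => t.1 * t.2) = (Prod.fst : E → ℂ) * Prod.snd := rfl
  rw [e, h]
  simp

theorem fd_fst (z v : E) : fderiv ℂ (fun t : E => t.1) z v = v.1 := by
  have h := (hasFDerivAt_fst (𝕜 := ℂ) (p := z)).fderiv
  rw [h]
  simp

theorem fd_snd (z v : E) : fderiv ℂ (fun t : E => t.2) z v = v.2 := by
  have h := (hasFDerivAt_snd (𝕜 := ℂ) (p := z)).fderiv
  rw [h]
  simp

theorem fd_y2 (z v : E) : fderiv ℂ (fun t : E => t.2 + t.1 * t.2) z v = v.2 + (z.1 * v.2 + z.2 * v.1) := by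
  have h := ((hasFDerivAt_snd (𝕜 := ℂ) (p := z)).add
    ((hasFDerivAt_fst (𝕜 := ℂ) (p := z)).mul (hasFDerivAt_snd (𝕜 := ℂ) (p := z)))).fderiv
  have e : (fun t : E => t.2 + t.1 * t.2) = (Prod.snd : E → ℂ) + (Prod.fst : E → ℂ) * Prod.snd := rfl
  rw [e, h]
  simp

/-- system 2 -/
theorem sys2 (chi : S_CHI) (lo : S_LOPS) (ll : S_LLOG) (G h : ℂ → ℝ) (c : ℝ) (hG : IsGreen G h c) (K : ℝ)
    (hK : 2 < K) (z : E) (hz : z ∈ V 2) : ∃ ρ, PotAt (Psi G K) 2 z ρ ∧ ∀ v, v ≠ 0 → 0 < lev ρ z v := by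
  have hz' : ‖z.1 * z.2‖ < 1 / 8 := hz.1
  have hX : ∀ t : E, AnalyticAt ℂ (fun t : E => t.1 * t.2) t := fun t => analyticAt_fst.mul analyticAt_snd
  have hY : ∀ t : E, AnalyticAt ℂ (fun t : E => t.2 + t.1 * t.2) t := fun t => analyticAt_snd.add (hX t)
  have h1 : ∀ t : E, AnalyticAt ℂ (fun t : E => t.1) t := fun t => analyticAt_fst
  have h2 : ∀ t : E, AnalyticAt ℂ (fun t : E => t.1 ^ 2 * t.2) t := fun t => (analyticAt_fst.pow 2).mul analyticAt_snd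
  refine ⟨rho h K (fun t => t.1 * t.2) (fun t => t.2 + t.1 * t.2) (fun t => t.1) (fun t => t.1 ^ 2 * t.2),
    pot chi lo ll G h c hG K 2 _ _ _ _ (fun t => K * Real.log (‖t.1‖ ^ 2) + (K - 2) * Real.log (‖t.2‖ ^ 2)) z
      hX hY h1 h2 hz' (fun t => rfl) ?_ ?_, ?_⟩
  · intro t ht ht0
    have hne : t.1 * t.2 ≠ 0 := fun h => ht0 (h ▸ zero_mem)
    have hp1 : 0 < ‖t.1‖ := norm_pos_iff.2 (left_ne_zero_of_mul hne)
    have hp2 : 0 < ‖t.2‖ := norm_pos_iff.2 (right_ne_zero_of_mul hne)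
    show rho h K _ _ _ _ t - Psi G K (t.1 * t.2, t.2 + t.1 * t.2) = _
    rw [Psi_eq chi G h c hG K (t.1 * t.2) t.2 ht ht0]
    unfold rho
    have e1 : ‖t.1 * t.2‖ ^ 2 + ‖t.2‖ ^ 2 = ‖t.2‖ ^ 2 * (1 + ‖t.1‖ ^ 2) := by
      rw [norm_mul]
      ring
    have e2 : ‖t.2‖ ^ 2 + ‖t.1 * t.2‖ ^ 4 = ‖t.2‖ ^ 2 * (1 + ‖t.1 ^ 2 * t.2‖ ^ 2) := by
      rw [norm_mul, norm_mul, norm_pow]
      ring
    have e3 : ‖t.1 * t.2‖ ^ 2 = ‖t.1‖ ^ 2 * ‖t.2‖ ^ 2 := by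
      rw [norm_mul]
      ring
    rw [e1, e2, e3, Real.log_mul (by positivity) (by positivity), Real.log_mul (by positivity) (by positivity),
      Real.log_mul (by positivity) (by positivity)]
    ring
  · intro t v ht0
    have hne : t.1 * t.2 ≠ 0 := fun h => ht0 (h ▸ zero_mem)
    exact lev_comb lo ll K (K - 2) t v (left_ne_zero_of_mul hne) (right_ne_zero_of_mul hne)
  · intro v hv
    rw [(rho_prop chi lo ll G h c hG K _ _ _ _ z v (hX z) (hY z) (h1 z) (h2 z) (by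
      show ‖z.1 * z.2‖ < 1 / 2
      linarith)).2]
    have hc := hG.pos
    have t1 : 0 ≤ K * (c * ‖fderiv ℂ (fun t : E => t.1 * t.2) z v‖ ^ 2) := by positivity
    have t2 := term_nonneg (K - 2) (by linarith) (fderiv ℂ (fun t : E => t.2 + t.1 * t.2) z v) (z.2 + z.1 * z.2)
    have t3 := term_nonneg 1 zero_le_one (fderiv ℂ (fun t : E => t.1) z v) z.1
    have t4 := term_nonneg 1 zero_le_one (fderiv ℂ (fun t : E => t.1 ^ 2 * t.2) z v) (z.1 ^ 2 * z.2)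
    rw [one_mul] at t3 t4
    by_cases hv1 : v.1 = 0
    · have hv2 : v.2 ≠ 0 := fun h => hv (Prod.ext hv1 h)
      by_cases hz1 : z.1 = 0
      · have : 0 < 4 * ‖fderiv ℂ (fun t : E => t.2 + t.1 * t.2) z v‖ ^ 2 / (1 + ‖z.2 + z.1 * z.2‖ ^ 2) ^ 2 := by
          refine term_pos _ _ ?_
          rw [fd_y2, hz1, hv1]
          simpa using hv2
        have := mul_pos (by linarith : (0 : ℝ) < K - 2) this
        linarith
      · have : 0 < K * (c * ‖fderiv ℂ (fun t : E => t.1 * t.2) z v‖ ^ 2) := by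
          have h3 : fderiv ℂ (fun t : E => t.1 * t.2) z v ≠ 0 := by
            rw [fd_mul, hv1]
            simpa using ⟨hz1, hv2⟩
          have := norm_pos_iff.2 h3
          have hK' : 0 < K := by linarith
          positivity
        linarith
    · have : 0 < 4 * ‖fderiv ℂ (fun t : E => t.1) z v‖ ^ 2 / (1 + ‖z.1‖ ^ 2) ^ 2 := by
        refine term_pos _ _ ?_
        rw [fd_fst]
        exact hv1
      linarith

/-- system 3 -/
theorem sys3 (chi : S_CHI) (lo : S_LOPS) (ll : S_LLOG) (G h : ℂ → ℝ) (c : ℝ) (hG : IsGreen G h c) (K : ℝ)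
    (hK : 2 < K) (z : E) (hz : z ∈ V 3) : ∃ ρ, PotAt (Psi G K) 3 z ρ ∧ ∀ v, v ≠ 0 → 0 < lev ρ z v := by
  have hz' : ‖z.1 * z.2‖ < 1 / 8 := hz.1
  have hX : ∀ t : E, AnalyticAt ℂ (fun t : E => t.1 * t.2) t := fun t => analyticAt_fst.mul analyticAt_snd
  have hY : ∀ t : E, AnalyticAt ℂ (fun t : E => t.1 * t.2 ^ 2 + t.1 * t.2) t :=
    fun t => (analyticAt_fst.mul (analyticAt_snd.pow 2)).add (hX t)
  have h1 : ∀ t : E, AnalyticAt ℂ (fun t : E => t.2) t := fun t => analyticAt_snd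
  have h2 : ∀ t : E, AnalyticAt ℂ (fun t : E => t.1) t := fun t => analyticAt_fst
  refine ⟨rho h K (fun t => t.1 * t.2) (fun t => t.1 * t.2 ^ 2 + t.1 * t.2) (fun t => t.2) (fun t => t.1),
    pot chi lo ll G h c hG K 3 _ _ _ _ (fun t => (K - 2) * Real.log (‖t.1‖ ^ 2) + (K - 3) * Real.log (‖t.2‖ ^ 2)) z
      hX hY h1 h2 hz' (fun t => rfl) ?_ ?_, ?_⟩
  · intro t ht ht0
    have hne : t.1 * t.2 ≠ 0 := fun h => ht0 (h ▸ zero_mem)
    have hp1 : 0 < ‖t.1‖ := norm_pos_iff.2 (left_ne_zero_of_mul hne)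
    have hp2 : 0 < ‖t.2‖ := norm_pos_iff.2 (right_ne_zero_of_mul hne)
    show rho h K _ _ _ _ t - Psi G K (t.1 * t.2, t.1 * t.2 ^ 2 + t.1 * t.2) = _
    rw [Psi_eq chi G h c hG K (t.1 * t.2) (t.1 * t.2 ^ 2) ht ht0]
    unfold rho
    have e1 : ‖t.1 * t.2‖ ^ 2 + ‖t.1 * t.2 ^ 2‖ ^ 2 = ‖t.1‖ ^ 2 * ‖t.2‖ ^ 2 * (1 + ‖t.2‖ ^ 2) := by
      rw [norm_mul, norm_mul, norm_pow]
      ring
    have e2 : ‖t.1 * t.2 ^ 2‖ ^ 2 + ‖t.1 * t.2‖ ^ 4 = ‖t.1‖ ^ 2 * (‖t.2‖ ^ 2 * ‖t.2‖ ^ 2) * (1 + ‖t.1‖ ^ 2) := by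
      rw [norm_mul, norm_mul, norm_pow]
      ring
    have e3 : ‖t.1 * t.2‖ ^ 2 = ‖t.1‖ ^ 2 * ‖t.2‖ ^ 2 := by
      rw [norm_mul]
      ring
    rw [e1, e2, e3, Real.log_mul (x := ‖t.1‖ ^ 2 * ‖t.2‖ ^ 2) (by positivity) (by positivity),
      Real.log_mul (x := ‖t.1‖ ^ 2 * (‖t.2‖ ^ 2 * ‖t.2‖ ^ 2)) (by positivity) (by positivity),
      Real.log_mul (x := ‖t.1‖ ^ 2) (y := ‖t.2‖ ^ 2 * ‖t.2‖ ^ 2) (by positivity) (by positivity),
      Real.log_mul (x := ‖t.1‖ ^ 2) (y := ‖t.2‖ ^ 2) (by positivity) (by positivity),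
      Real.log_mul (x := ‖t.2‖ ^ 2) (y := ‖t.2‖ ^ 2) (by positivity) (by positivity)]
    ring
  · intro t v ht0
    have hne : t.1 * t.2 ≠ 0 := fun h => ht0 (h ▸ zero_mem)
    exact lev_comb lo ll (K - 2) (K - 3) t v (left_ne_zero_of_mul hne) (right_ne_zero_of_mul hne)
  · intro v hv
    rw [(rho_prop chi lo ll G h c hG K _ _ _ _ z v (hX z) (hY z) (h1 z) (h2 z) (by
      show ‖z.1 * z.2‖ < 1 / 2
      linarith)).2]
    have hc := hG.pos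
    have t1 : 0 ≤ K * (c * ‖fderiv ℂ (fun t : E => t.1 * t.2) z v‖ ^ 2) := by positivity
    have t2 := term_nonneg (K - 2) (by linarith) (fderiv ℂ (fun t : E => t.1 * t.2 ^ 2 + t.1 * t.2) z v)
      (z.1 * z.2 ^ 2 + z.1 * z.2)
    have t3 := term_nonneg 1 zero_le_one (fderiv ℂ (fun t : E => t.2) z v) z.2
    have t4 := term_nonneg 1 zero_le_one (fderiv ℂ (fun t : E => t.1) z v) z.1
    rw [one_mul] at t3 t4
    by_cases hv1 : v.1 = 0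
    · have hv2 : v.2 ≠ 0 := fun h => hv (Prod.ext hv1 h)
      have : 0 < 4 * ‖fderiv ℂ (fun t : E => t.2) z v‖ ^ 2 / (1 + ‖z.2‖ ^ 2) ^ 2 := by
        refine term_pos _ _ ?_
        rw [fd_snd]
        exact hv2
      linarith
    · have : 0 < 4 * ‖fderiv ℂ (fun t : E => t.1) z v‖ ^ 2 / (1 + ‖z.1‖ ^ 2) ^ 2 := by
        refine term_pos _ _ ?_
        rw [fd_fst]
        exact hv1
      linarith

/-- system 4 -/
theorem sys4 (chi : S_CHI) (lo : S_LOPS) (ll : S_LLOG) (G h : ℂ → ℝ) (c : ℝ) (hG : IsGreen G h c) (K : ℝ)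
    (hK : 2 < K) (z : E) (hz : z ∈ V 4) : ∃ ρ, PotAt (Psi G K) 4 z ρ ∧ ∀ v, v ≠ 0 → 0 < lev ρ z v := by
  have hz' : ‖z.1‖ < 1 / 8 := hz.1
  have hX : ∀ t : E, AnalyticAt ℂ (fun t : E => t.1) t := fun t => analyticAt_fst
  have hY : ∀ t : E, AnalyticAt ℂ (fun t : E => t.1 ^ 2 * t.2 + t.1) t :=
    fun t => ((analyticAt_fst.pow 2).mul analyticAt_snd).add (hX t)
  have h1 : ∀ t : E, AnalyticAt ℂ (fun t : E => t.1 * t.2) t := fun t => analyticAt_fst.mul analyticAt_snd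
  have h2 : ∀ t : E, AnalyticAt ℂ (fun t : E => t.2) t := fun t => analyticAt_snd
  refine ⟨rho h K (fun t => t.1) (fun t => t.1 ^ 2 * t.2 + t.1) (fun t => t.1 * t.2) (fun t => t.2),
    pot chi lo ll G h c hG K 4 _ _ _ _ (fun t => (K - 3) * Real.log (‖t.1‖ ^ 2)) z
      hX hY h1 h2 hz' (fun t => rfl) ?_ ?_, ?_⟩
  · intro t ht ht0
    have hne : t.1 ≠ 0 := fun h => ht0 (h ▸ zero_mem)
    have hp1 : 0 < ‖t.1‖ := norm_pos_iff.2 hne
    show rho h K _ _ _ _ t - Psi G K (t.1, t.1 ^ 2 * t.2 + t.1) = _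
    rw [Psi_eq chi G h c hG K t.1 (t.1 ^ 2 * t.2) ht ht0]
    unfold rho
    have e1 : ‖t.1‖ ^ 2 + ‖t.1 ^ 2 * t.2‖ ^ 2 = ‖t.1‖ ^ 2 * (1 + ‖t.1 * t.2‖ ^ 2) := by
      rw [norm_mul, norm_mul, norm_pow]
      ring
    have e2 : ‖t.1 ^ 2 * t.2‖ ^ 2 + ‖t.1‖ ^ 4 = ‖t.1‖ ^ 2 * ‖t.1‖ ^ 2 * (1 + ‖t.2‖ ^ 2) := by
      rw [norm_mul, norm_pow]
      ring
    rw [e1, e2, Real.log_mul (x := ‖t.1‖ ^ 2) (by positivity) (by positivity),
      Real.log_mul (x := ‖t.1‖ ^ 2 * ‖t.1‖ ^ 2) (by positivity) (by positivity),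
      Real.log_mul (x := ‖t.1‖ ^ 2) (y := ‖t.1‖ ^ 2) (by positivity) (by positivity)]
    ring
  · intro t v ht0
    have hne : t.1 ≠ 0 := fun h => ht0 (h ▸ zero_mem)
    exact lev_comb1 lo ll (K - 3) t v hne
  · intro v hv
    rw [(rho_prop chi lo ll G h c hG K _ _ _ _ z v (hX z) (hY z) (h1 z) (h2 z) (by
      show ‖z.1‖ < 1 / 2
      linarith)).2]
    have hc := hG.pos
    have hK' : 0 < K := by linarith
    have t1 : 0 ≤ K * (c * ‖fderiv ℂ (fun t : E => t.1) z v‖ ^ 2) := by positivity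
    have t2 := term_nonneg (K - 2) (by linarith) (fderiv ℂ (fun t : E => t.1 ^ 2 * t.2 + t.1) z v)
      (z.1 ^ 2 * z.2 + z.1)
    have t3 := term_nonneg 1 zero_le_one (fderiv ℂ (fun t : E => t.1 * t.2) z v) (z.1 * z.2)
    have t4 := term_nonneg 1 zero_le_one (fderiv ℂ (fun t : E => t.2) z v) z.2
    rw [one_mul] at t3 t4
    by_cases hv1 : v.1 = 0
    · have hv2 : v.2 ≠ 0 := fun h => hv (Prod.ext hv1 h)
      have : 0 < 4 * ‖fderiv ℂ (fun t : E => t.2) z v‖ ^ 2 / (1 + ‖z.2‖ ^ 2) ^ 2 := by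
        refine term_pos _ _ ?_
        rw [fd_snd]
        exact hv2
      linarith
    · have : 0 < K * (c * ‖fderiv ℂ (fun t : E => t.1) z v‖ ^ 2) := by
        rw [fd_fst]
        have := norm_pos_iff.2 hv1
        positivity
      linarith

end Pool.Agent.Q22.SP.PSI2

namespace Pool.Agent.Q22.SP

open Pool.Agent.Y184.SP

theorem t_PSI2 (chi : S_CHI) (lo : S_LOPS) (ll : S_LLOG) : S_PSI2 := by
  intro G h c hG K hK j hj z hz
  have : j = 2 ∨ j = 3 ∨ j = 4 := by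
    fin_cases j <;> simp_all
  rcases this with rfl | rfl | rfl
  · exact PSI2.sys2 chi lo ll G h c hG K hK z hz
  · exact PSI2.sys3 chi lo ll G h c hG K hK z hz
  · exact PSI2.sys4 chi lo ll G h c hG K hK z hz

end Pool.Agent.Q22.SP
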