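import Pool.Agent.Q22.SP.Stm

set_option autoImplicit false

open Set Topology Filter
open scoped ContDiff Manifold

namespace Pool.Agent.Q22.SP

open Pool.Agent.Y184.SP

namespace PSIL

theorem two_le : (2 : WithTop ℕ∞) ≤ ∞ := WithTop.coe_le_coe.2 (le_top : (2 : ℕ∞) ≤ ⊤)

theorem lap_shift (g : ℂ → ℝ) (a : ℂ) :
    Laplacian.laplacian (fun ζ : ℂ => g (a + ζ)) 0 = Laplacian.laplacian g a := by
  rw [InnerProductSpace.laplacian_eq_iteratedFDeriv_complexPlane,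
    InnerProductSpace.laplacian_eq_iteratedFDeriv_complexPlane]
  simp only [iteratedFDeriv_comp_add_left, add_zero]

theorem lev_fst (lo : S_LOPS) {G : ℂ → ℝ} {z : E} (hG : ContDiffAt ℝ ∞ G z.1) (v : E) :
    ContDiffAt ℝ ∞ (fun t : E => G t.1) z ∧
      lev (fun t : E => G t.1) z v = ‖v.1‖ ^ 2 * Laplacian.laplacian G z.1 := by
  have hc : ContDiffAt ℝ ∞ (fun t : E => G t.1) z :=
    ContDiffAt.comp z (g := G) (f := fun t : E => t.1) hG contDiffAt_fst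
  refine ⟨hc, ?_⟩
  obtain ⟨lo1, lo2, lo3, lo4, lo5, lo6⟩ := lo
  have h1 : lev (fun t : E => G t.1) z v = lev (fun t : E => G t.1) z (v.1 • ((1, 0) : E)) := by
    unfold lev
    have e : (fun ζ : ℂ => G (z + ζ • v).1) =
        fun ζ : ℂ => G (z + ζ • (v.1 • ((1, 0) : E))).1 := by
      funext ζ
      show G (z.1 + ζ • v.1) = G (z.1 + ζ • (v.1 • (1 : ℂ)))
      simp
    exact congrArg (fun f : ℂ → ℝ => Laplacian.laplacian f 0) e
  rw [h1, lo6 _ z _ v.1 (hc.of_le two_le)]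
  have h2 : lev (fun t : E => G t.1) z ((1, 0) : E) = Laplacian.laplacian G z.1 := by
    rw [← lap_shift G z.1]
    unfold lev
    have e : (fun ζ : ℂ => G (z + ζ • ((1, 0) : E)).1) = fun ζ : ℂ => G (z.1 + ζ) := by
      funext ζ
      show G (z.1 + ζ • (1 : ℂ)) = G (z.1 + ζ)
      simp
    exact congrArg (fun f : ℂ → ℝ => Laplacian.laplacian f 0) e
  rw [h2]

theorem lev_fs (ll : S_LLOG) (z v : E) :
    ContDiffAt ℝ ∞ (fun t : E => Real.log (1 + ‖t.2‖ ^ 2)) z ∧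
      lev (fun t : E => Real.log (1 + ‖t.2‖ ^ 2)) z v = 4 * ‖v.2‖ ^ 2 / (1 + ‖z.2‖ ^ 2) ^ 2 := by
  obtain ⟨ll1, ll2, ll3⟩ := ll
  have h := ll3 (fun _ : E => (1 : ℂ)) (fun t : E => t.2) z v analyticAt_const analyticAt_snd
    (Or.inl one_ne_zero)
  have e : (fun t : E => Real.log (‖(1 : ℂ)‖ ^ 2 + ‖t.2‖ ^ 2)) =
      fun t : E => Real.log (1 + ‖t.2‖ ^ 2) := by
    funext t
    rw [norm_one, one_pow]
  have f1 : fderiv ℂ (fun t : E => t.2) z v = v.2 := by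
    have : HasFDerivAt (𝕜 := ℂ) (fun t : E => t.2) (ContinuousLinearMap.snd ℂ ℂ ℂ) z :=
      hasFDerivAt_snd
    rw [this.fderiv]
    rfl
  have f2 : fderiv ℂ (fun _ : E => (1 : ℂ)) z v = 0 := by
    rw [fderiv_const_apply]
    rfl
  have h2 := h.2
  rw [f1, f2, e] at h2
  have h1 := h.1
  rw [e] at h1
  refine ⟨h1, ?_⟩
  rw [h2, norm_one, one_mul, mul_zero, sub_zero, one_pow]

end PSIL

theorem t_PSIL (_ch : S_CHI) (lo : S_LOPS) (ll : S_LLOG) (phis : S_PHIS) (psim : S_PSIM) :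
    S_PSIL := by
  intro G h c hG
  obtain ⟨M, hM0, hM⟩ := psim
  have hm : 0 < min c 4 := lt_min hG.pos (by norm_num)
  refine ⟨max 3 ((1 + M) / min c 4), lt_of_lt_of_le (by norm_num) (le_max_left _ _), ?_⟩
  intro K hK z hz v
  have hK3 : 3 ≤ K := (le_max_left _ _).trans hK
  have hKm : 1 + M ≤ K * min c 4 := by
    have := (le_max_right _ _).trans hK
    rwa [div_le_iff₀ hm] at this
  obtain ⟨p1, p2, p3, p4⟩ := phis
  have g1 := PSIL.lev_fst lo (hG.smooth z.1 hz.1) v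
  have g2 := PSIL.lev_fs ll z v
  have g3 := p3 z (Or.inl hz.1)
  have g4 := hM z hz v
  obtain ⟨lo1, lo2, lo3, lo4, lo5, lo6⟩ := lo
  rw [hG.lap z.1 hz.1] at g1
  -- the three terms
  have e1 : lev (fun t : E => (-K) * G t.1) z v = (-K) * (‖v.1‖ ^ 2 * -c) := by
    rw [lo3 _ (-K) z v (g1.1.of_le PSIL.two_le), g1.2]
  have e2 : lev (fun t : E => K * Real.log (1 + ‖t.2‖ ^ 2)) z v =
      K * (4 * ‖v.2‖ ^ 2 / (1 + ‖z.2‖ ^ 2) ^ 2) := by
    rw [lo3 _ K z v (g2.1.of_le PSIL.two_le), g2.2]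
  have s1 : ContDiffAt ℝ 2 (fun t : E => (-K) * G t.1) z :=
    (contDiffAt_const.mul g1.1).of_le PSIL.two_le
  have s2 : ContDiffAt ℝ 2 (fun t : E => K * Real.log (1 + ‖t.2‖ ^ 2)) z :=
    (contDiffAt_const.mul g2.1).of_le PSIL.two_le
  have s3 : ContDiffAt ℝ 2 (fun t : E => chi t.1 * (L1 t + L2 t)) z := g3.of_le PSIL.two_le
  have e3 : lev (fun t : E => (-K) * G t.1 + K * Real.log (1 + ‖t.2‖ ^ 2)) z v =
      (-K) * (‖v.1‖ ^ 2 * -c) + K * (4 * ‖v.2‖ ^ 2 / (1 + ‖z.2‖ ^ 2) ^ 2) := by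
    rw [lo1 _ _ z v s1 s2, e1, e2]
  have e4 : lev (fun t : E => ((-K) * G t.1 + K * Real.log (1 + ‖t.2‖ ^ 2)) +
      chi t.1 * (L1 t + L2 t)) z v =
      (-K) * (‖v.1‖ ^ 2 * -c) + K * (4 * ‖v.2‖ ^ 2 / (1 + ‖z.2‖ ^ 2) ^ 2) +
        lev (fun t : E => chi t.1 * (L1 t + L2 t)) z v := by
    rw [lo1 _ _ z v (s1.add s2) s3, e3]
  have e5 : Psi G K = fun t : E => ((-K) * G t.1 + K * Real.log (1 + ‖t.2‖ ^ 2)) +
      chi t.1 * (L1 t + L2 t) := by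
    funext t
    unfold Psi
    ring
  rw [e5, e4]
  obtain ⟨a, ha⟩ : ∃ a, a = ‖v.1‖ ^ 2 := ⟨_, rfl⟩
  obtain ⟨b, hb⟩ : ∃ b, b = ‖v.2‖ ^ 2 / (1 + ‖z.2‖ ^ 2) ^ 2 := ⟨_, rfl⟩
  have ha0 : 0 ≤ a := by rw [ha]; positivity
  have hb0 : 0 ≤ b := by rw [hb]; positivity
  have hnm : nm z v = a + b := by
    rw [ha, hb]
    rfl
  have e6 : 4 * ‖v.2‖ ^ 2 / (1 + ‖z.2‖ ^ 2) ^ 2 = 4 * b := by rw [hb]; ring
  rw [hnm] at g4 ⊢
  rw [e6, ← ha]
  have k1 : K * min c 4 * a ≤ K * c * a := by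
    apply mul_le_mul_of_nonneg_right _ ha0
    exact mul_le_mul_of_nonneg_left (min_le_left _ _) (by linarith)
  have k2 : K * min c 4 * b ≤ K * 4 * b := by
    apply mul_le_mul_of_nonneg_right _ hb0
    exact mul_le_mul_of_nonneg_left (min_le_right _ _) (by linarith)
  have k3 : (1 + M) * a ≤ K * min c 4 * a := mul_le_mul_of_nonneg_right hKm ha0
  have k4 : (1 + M) * b ≤ K * min c 4 * b := mul_le_mul_of_nonneg_right hKm hb0
  have k5 : (-K) * (a * -c) = K * c * a := by ring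
  have k6 : K * (4 * b) = K * 4 * b := by ring
  rw [k5, k6]
  nlinarith

end Pool.Agent.Q22.SP
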