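import Pool.Agent.Q22.SP.Stm
import Pool.Agent.Y625.SP.Max

/-!
# Project SP (helper22), MP_4ff127_gt: lower bound for the Levi form of `chi (L1 + L2)`
-/

set_option autoImplicit false

open Set Topology Filter
open scoped ContDiff Manifold

namespace Pool.Agent.Q22.SP

open Pool.Agent.Y184.SP

namespace PSIM

/-! ### Levi form and second derivatives -/

theorem lineD (z v : E) (e : ℂ) (t : ℝ) :
    HasDerivAt (fun s : ℝ => z + (s • e) • v) (e • v) t := by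
  have h1 : HasDerivAt (fun s : ℝ => z + s • (e • v)) ((1 : ℝ) • (e • v)) t :=
    ((hasDerivAt_id t).smul_const (e • v)).const_add z
  rw [one_smul] at h1
  have h2 : (fun s : ℝ => z + (s • e) • v) = fun s : ℝ => z + s • (e • v) := by
    funext s
    rw [smul_assoc]
  rw [h2]
  exact h1

theorem second {ρ : E → ℝ} {z : E} (hρ : ContDiffAt ℝ 2 ρ z) (v : E) (e : ℂ) :
    iteratedFDeriv ℝ 2 (fun ζ : ℂ => ρ (z + ζ • v)) 0 ![e, e] =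
      fderiv ℝ (fderiv ℝ ρ) z (e • v) (e • v) := by
  have hz : z + (((0 : ℝ) • e)) • v = z := by rw [zero_smul, zero_smul, add_zero]
  have hL : ContDiffAt ℝ 2 (fun ζ : ℂ => ρ (z + ζ • v)) 0 := by
    have h1 : ContDiffAt ℝ 2 (fun ζ : ℂ => z + ζ • v) 0 := by fun_prop
    have h2 : ContDiffAt ℝ 2 ρ ((fun ζ : ℂ => z + ζ • v) 0) := by simpa using hρ
    exact ContDiffAt.comp (0 : ℂ) h2 h1
  refine Pool.Agent.Y625.SP.lapline hL e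
    (ψ := fun t => fderiv ℝ ρ (z + (t • e) • v) (e • v)) ?_ ?_
  · have hdiff : ∀ᶠ p in 𝓝 z, DifferentiableAt ℝ ρ p := by
      have h := hρ.eventually (by simp)
      filter_upwards [h] with p hp
      exact hp.differentiableAt (by norm_num)
    have ht : Tendsto (fun s : ℝ => z + (s • e) • v) (𝓝 0) (𝓝 z) := by
      have := (lineD z v e 0).continuousAt.tendsto
      rwa [hz] at this
    filter_upwards [ht.eventually hdiff] with t htd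
    exact htd.hasFDerivAt.comp_hasDerivAt t (lineD z v e t)
  · have h5 : DifferentiableAt ℝ (fderiv ℝ ρ) z := by
      have : ContDiffAt ℝ 1 (fderiv ℝ ρ) z := hρ.fderiv_right (by norm_num)
      exact this.differentiableAt (by norm_num)
    have h6 : HasFDerivAt (fderiv ℝ ρ) (fderiv ℝ (fderiv ℝ ρ) z) (z + (((0 : ℝ) • e)) • v) := by
      rw [hz]
      exact h5.hasFDerivAt
    have h7 : HasDerivAt (fun t : ℝ => fderiv ℝ ρ (z + (t • e) • v))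
        (fderiv ℝ (fderiv ℝ ρ) z (e • v)) 0 := h6.comp_hasDerivAt (0 : ℝ) (lineD z v e 0)
    exact (ContinuousLinearMap.apply ℝ ℝ (e • v)).hasFDerivAt.comp_hasDerivAt (0 : ℝ) h7

theorem lev_formula {ρ : E → ℝ} {z : E} (hρ : ContDiffAt ℝ 2 ρ z) (v : E) :
    lev ρ z v = fderiv ℝ (fderiv ℝ ρ) z v v +
      fderiv ℝ (fderiv ℝ ρ) z (Complex.I • v) (Complex.I • v) := by
  unfold lev
  rw [InnerProductSpace.laplacian_eq_iteratedFDeriv_complexPlane]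
  simp only
  rw [second hρ v 1, second hρ v Complex.I, one_smul]

theorem lev_le {ρ : E → ℝ} {z : E} (hρ : ContDiffAt ℝ 2 ρ z) (v : E) :
    |lev ρ z v| ≤ 2 * ‖fderiv ℝ (fderiv ℝ ρ) z‖ * (‖v.1‖ ^ 2 + ‖v.2‖ ^ 2) := by
  have hv : ‖v‖ ^ 2 ≤ ‖v.1‖ ^ 2 + ‖v.2‖ ^ 2 := by
    rw [Prod.norm_def]
    rcases le_total ‖v.1‖ ‖v.2‖ with h | h
    · rw [max_eq_right h]
      have := sq_nonneg ‖v.1‖
      linarith
    · rw [max_eq_left h]
      have := sq_nonneg ‖v.2‖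
      linarith
  have hb : ∀ w : E, ‖w‖ = ‖v‖ → |fderiv ℝ (fderiv ℝ ρ) z w w| ≤
      ‖fderiv ℝ (fderiv ℝ ρ) z‖ * (‖v.1‖ ^ 2 + ‖v.2‖ ^ 2) := by
    intro w hw
    have h1 := (fderiv ℝ (fderiv ℝ ρ) z).le_opNorm₂ w w
    rw [Real.norm_eq_abs, hw] at h1
    refine h1.trans ?_
    rw [mul_assoc, ← sq]
    exact mul_le_mul_of_nonneg_left hv (ContinuousLinearMap.opNorm_nonneg _)
  have hI : ‖Complex.I • v‖ = ‖v‖ := by
    rw [norm_smul, Complex.norm_I, one_mul]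
  rw [lev_formula hρ v]
  refine (abs_add_le _ _).trans ?_
  have h1 := hb v rfl
  have h2 := hb _ hI
  linarith

theorem lev_bound {ρ : E → ℝ} {K : Set E} (hK : IsCompact K)
    (hρ : ∀ z ∈ K, ContDiffAt ℝ 2 ρ z) :
    ∃ B : ℝ, 0 ≤ B ∧ ∀ z ∈ K, ∀ v, |lev ρ z v| ≤ B * (‖v.1‖ ^ 2 + ‖v.2‖ ^ 2) := by
  have hc : ContinuousOn (fun z => fderiv ℝ (fderiv ℝ ρ) z) K := by
    intro z hz
    have h1 : ContDiffAt ℝ 1 (fderiv ℝ ρ) z := (hρ z hz).fderiv_right (by norm_num)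
    have h2 : ContDiffAt ℝ 0 (fderiv ℝ (fderiv ℝ ρ)) z := h1.fderiv_right (by norm_num)
    exact h2.continuousAt.continuousWithinAt
  obtain ⟨C, hC⟩ := IsCompact.exists_bound_of_continuousOn (E := E →L[ℝ] E →L[ℝ] ℝ) hK hc
  refine ⟨2 * |C|, by positivity, fun z hz v => (lev_le (hρ z hz) v).trans ?_⟩
  have h1 := (hC z hz).trans (le_abs_self C)
  have h2 : 0 ≤ ‖v.1‖ ^ 2 + ‖v.2‖ ^ 2 := by positivity
  exact mul_le_mul_of_nonneg_right (by linarith) h2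

/-! ### The function -/

/-- the function -/
noncomputable def gg (t : E) : ℝ := chi t.1 * (L1 t + L2 t)

theorem gg_per (hchi : S_CHI) (t : E) (l : ℂ) (hl : l ∈ Lam) : gg (t + (l, 0)) = gg t := by
  obtain ⟨-, -, h1, h2, -⟩ := hchi
  unfold gg L1 L2
  simp only [Prod.fst_add, Prod.snd_add, add_zero]
  rw [h1 t.1 l hl, h2 t.1 l hl]

theorem lev_per (hchi : S_CHI) (z v : E) : lev gg z v = lev gg (red z.1, z.2) v := by
  have hl : z.1 - red z.1 ∈ Lam := hchi.2.2.2.2.1 z.1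
  have hfun : (fun ζ : ℂ => gg (z + ζ • v)) = fun ζ : ℂ => gg ((red z.1, z.2) + ζ • v) := by
    funext ζ
    have h1 : z + ζ • v = ((red z.1, z.2) + ζ • v) + (z.1 - red z.1, 0) := by
      ext
      · simp only [Prod.fst_add]
        ring
      · simp only [Prod.snd_add]
        ring
    rw [h1]
    exact gg_per hchi _ _ hl
  unfold lev
  rw [hfun]

theorem red_red (hchi : S_CHI) (x : ℂ) : red (red x) = red x := by
  have h1 := hchi.2.2.2.1 (red x) (x - red x) (hchi.2.2.2.2.1 x)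
  rw [add_sub_cancel] at h1
  exact h1.symm

theorem red_near (hchi : S_CHI) {x : ℂ} (hx : red x = x) (h : ‖x‖ < 1 / 2) :
    ∀ᶠ x' in 𝓝 x, red x' = x' := by
  have h1 := hchi.2.2.2.2.2.2.2.2.2.2.2.2 x (by rw [hx]; exact h)
  filter_upwards [h1] with x' h'
  rw [h', hx, sub_self, sub_zero]

/-- the function in the coordinates `x`, `y`, near `|x| < 1/2` -/
noncomputable def r1 (t : E) : ℝ :=
  chi t.1 * (Real.log ((‖t.1‖ ^ 2 + ‖t.2 - t.1‖ ^ 2) / (1 + ‖t.2‖ ^ 2)) +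
    Real.log ((‖t.2 - t.1‖ ^ 2 + (‖t.1‖ ^ 2) ^ 2) / (1 + ‖t.2‖ ^ 2)))

/-- the function in the coordinates `x`, `1 / y` -/
noncomputable def r2 (t : E) : ℝ :=
  chi t.1 * (Real.log ((‖t.2 * t.1‖ ^ 2 + ‖1 - t.2 * t.1‖ ^ 2) / (1 + ‖t.2‖ ^ 2)) +
    Real.log ((‖1 - t.2 * t.1‖ ^ 2 + ‖t.2‖ ^ 2 * (‖t.1‖ ^ 2) ^ 2) / (1 + ‖t.2‖ ^ 2)))

theorem gg_r1 {t : E} (h : red t.1 = t.1) : gg t = r1 t := by
  unfold gg L1 L2 r1
  rw [h, ← pow_mul]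

theorem near1 (hchi : S_CHI) {z : E} (hx : red z.1 = z.1) (h : ‖z.1‖ < 1 / 2) :
    ∀ᶠ t in 𝓝 z, gg t = r1 t := by
  have h1 := red_near hchi hx h
  have h2 : ∀ᶠ t in 𝓝 z, red t.1 = t.1 := continuousAt_fst.eventually h1
  filter_upwards [h2] with t ht
  exact gg_r1 ht

theorem pos1 {x y : ℂ} (hx : x ≠ 0) : 0 < ‖x‖ ^ 2 + ‖y‖ ^ 2 := by
  have := norm_pos_iff.mpr hx
  positivity

theorem pos2 {x y : ℂ} (hx : x ≠ 0) : 0 < ‖y‖ ^ 2 + (‖x‖ ^ 2) ^ 2 := by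
  have := norm_pos_iff.mpr hx
  positivity

theorem r12 {x y : ℂ} (hy : y ≠ 0) : r1 (x, y) = r2 (x, y⁻¹) := by
  have hy0 : ‖y‖ ≠ 0 := norm_ne_zero_iff.mpr hy
  have e1 : ‖y⁻¹ * x‖ = ‖x‖ / ‖y‖ := by
    rw [norm_mul, norm_inv]
    ring
  have e2 : ‖1 - y⁻¹ * x‖ = ‖y - x‖ / ‖y‖ := by
    have : 1 - y⁻¹ * x = y⁻¹ * (y - x) := by
      rw [mul_sub, inv_mul_cancel₀ hy]
    rw [this, norm_mul, norm_inv]
    ring
  have e3 : ‖y⁻¹‖ = 1 / ‖y‖ := by rw [norm_inv, one_div]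
  have d1 : 0 < 1 + ‖y‖ ^ 2 := by positivity
  have f1 : (‖x‖ ^ 2 + ‖y - x‖ ^ 2) / (1 + ‖y‖ ^ 2) =
      ((‖x‖ / ‖y‖) ^ 2 + (‖y - x‖ / ‖y‖) ^ 2) / (1 + (1 / ‖y‖) ^ 2) := by
    have h1 : (‖x‖ / ‖y‖) ^ 2 + (‖y - x‖ / ‖y‖) ^ 2 = (‖x‖ ^ 2 + ‖y - x‖ ^ 2) / ‖y‖ ^ 2 := by
      rw [div_pow, div_pow, add_div]
    have h2 : 1 + (1 / ‖y‖) ^ 2 = (1 + ‖y‖ ^ 2) / ‖y‖ ^ 2 := by
      rw [div_pow, one_pow, add_div, div_self (pow_ne_zero 2 hy0), add_comm]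
    rw [h1, h2, div_div_div_cancel_right₀ (pow_ne_zero 2 hy0)]
  have f2 : (‖y - x‖ ^ 2 + (‖x‖ ^ 2) ^ 2) / (1 + ‖y‖ ^ 2) =
      ((‖y - x‖ / ‖y‖) ^ 2 + (1 / ‖y‖) ^ 2 * (‖x‖ ^ 2) ^ 2) / (1 + (1 / ‖y‖) ^ 2) := by
    have h1 : (‖y - x‖ / ‖y‖) ^ 2 + (1 / ‖y‖) ^ 2 * (‖x‖ ^ 2) ^ 2 =
        (‖y - x‖ ^ 2 + (‖x‖ ^ 2) ^ 2) / ‖y‖ ^ 2 := by
      rw [div_pow, div_pow, add_div]
      ring
    have h2 : 1 + (1 / ‖y‖) ^ 2 = (1 + ‖y‖ ^ 2) / ‖y‖ ^ 2 := by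
      rw [div_pow, one_pow, add_div, div_self (pow_ne_zero 2 hy0), add_comm]
    rw [h1, h2, div_div_div_cancel_right₀ (pow_ne_zero 2 hy0)]
  unfold r1 r2
  simp only
  rw [e1, e2, e3, f1, f2]

theorem sm_chi (hchi : S_CHI) (z : E) : ContDiffAt ℝ 2 (fun t : E => chi t.1) z := by
  have h1 : ContDiff ℝ 2 chi := contDiff_infty.mp hchi.1 2
  exact (h1.comp contDiff_fst).contDiffAt

theorem sm_den (z : E) : ContDiffAt ℝ 2 (fun t : E => 1 + ‖t.2‖ ^ 2) z :=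
  contDiffAt_const.add (contDiffAt_snd.norm_sq ℝ)

theorem den_ne (z : E) : 1 + ‖z.2‖ ^ 2 ≠ 0 := by positivity

theorem sm1 (hchi : S_CHI) {z : E} (hx : z.1 ≠ 0) : ContDiffAt ℝ 2 r1 z := by
  have h1 : ContDiffAt ℝ 2 (fun t : E => ‖t.1‖ ^ 2) z := contDiffAt_fst.norm_sq ℝ
  have h2 : ContDiffAt ℝ 2 (fun t : E => ‖t.2 - t.1‖ ^ 2) z :=
    (contDiffAt_snd.sub contDiffAt_fst).norm_sq ℝ
  refine (sm_chi hchi z).mul (ContDiffAt.add (ContDiffAt.log ?_ ?_) (ContDiffAt.log ?_ ?_))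
  · exact (h1.add h2).div (sm_den z) (den_ne z)
  · exact div_ne_zero (pos1 hx).ne' (den_ne z)
  · exact (h2.add (h1.pow 2)).div (sm_den z) (den_ne z)
  · exact div_ne_zero (pos2 hx).ne' (den_ne z)

theorem sm2 (hchi : S_CHI) {z : E} (hx : z.1 ≠ 0) : ContDiffAt ℝ 2 r2 z := by
  have h0 : ContDiffAt ℝ 2 (fun t : E => ‖t.2‖ ^ 2) z := contDiffAt_snd.norm_sq ℝ
  have h1 : ContDiffAt ℝ 2 (fun t : E => ‖t.1‖ ^ 2) z := contDiffAt_fst.norm_sq ℝ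
  have h3 : ContDiffAt ℝ 2 (fun t : E => t.2 * t.1) z := contDiffAt_snd.mul contDiffAt_fst
  have h4 : ContDiffAt ℝ 2 (fun t : E => ‖t.2 * t.1‖ ^ 2) z := h3.norm_sq ℝ
  have h5 : ContDiffAt ℝ 2 (fun t : E => ‖1 - t.2 * t.1‖ ^ 2) z :=
    (contDiffAt_const.sub h3).norm_sq ℝ
  have hx0 := norm_pos_iff.mpr hx
  refine (sm_chi hchi z).mul (ContDiffAt.add (ContDiffAt.log ?_ ?_) (ContDiffAt.log ?_ ?_))
  · exact (h4.add h5).div (sm_den z) (den_ne z)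
  · refine div_ne_zero (ne_of_gt ?_) (den_ne z)
    rcases eq_or_ne z.2 0 with hz | hz
    · rw [hz]; simp
    · exact pos1 (mul_ne_zero hz hx)
  · exact (h5.add (h0.mul (h1.pow 2))).div (sm_den z) (den_ne z)
  · refine div_ne_zero (ne_of_gt ?_) (den_ne z)
    rcases eq_or_ne z.2 0 with hz | hz
    · rw [hz]; simp
    · have := norm_pos_iff.mpr hz
      positivity

/-- the compact set -/
def KK : Set E := {p | 1 / 8 ≤ ‖p.1‖ ∧ ‖p.1‖ ≤ 1 / 4 ∧ ‖p.2‖ ≤ 1}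

theorem KK_compact : IsCompact KK := by
  refine (isCompact_closedBall (0 : E) 1).of_isClosed_subset ?_ ?_
  · have h1 : Continuous fun p : E => ‖p.1‖ := continuous_fst.norm
    have h2 : Continuous fun p : E => ‖p.2‖ := continuous_snd.norm
    exact (isClosed_le continuous_const h1).inter
      ((isClosed_le h1 continuous_const).inter (isClosed_le h2 continuous_const))
  · rintro p ⟨-, h1, h2⟩
    rw [mem_closedBall_zero_iff, Prod.norm_def]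
    exact max_le (by linarith) h2

theorem KK_ne {p : E} (hp : p ∈ KK) : p.1 ≠ 0 := by
  intro h
  have := hp.1
  rw [h, norm_zero] at this
  norm_num at this

theorem phi_an {z : E} (hz : z.2 ≠ 0) : AnalyticAt ℂ (fun t : E => ((t.1, t.2⁻¹) : E)) z :=
  analyticAt_fst.prod (analyticAt_snd.inv hz)

theorem phi_deriv {z : E} (hz : z.2 ≠ 0) (v : E) :
    fderiv ℂ (fun t : E => ((t.1, t.2⁻¹) : E)) z v = (v.1, -(z.2 ^ 2)⁻¹ * v.2) := by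
  have h1 : HasFDerivAt (fun t : E => t.1) (ContinuousLinearMap.fst ℂ ℂ ℂ) z := hasFDerivAt_fst
  have h2 : HasFDerivAt (fun t : E => t.2) (ContinuousLinearMap.snd ℂ ℂ ℂ) z := hasFDerivAt_snd
  have h3 : HasFDerivAt (fun t : E => t.2⁻¹) ((-(z.2 ^ 2)⁻¹) • ContinuousLinearMap.snd ℂ ℂ ℂ) z :=
    (hasDerivAt_inv hz).comp_hasFDerivAt z h2
  rw [(h1.prodMk h3).fderiv]
  rfl

theorem small1 {a b y : ℝ} (ha : 0 ≤ a) (hb : 0 ≤ b) (hy : 0 ≤ y) (hy1 : y ≤ 1) :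
    a + b ≤ 4 * (a + b / (1 + y ^ 2) ^ 2) := by
  have h0 : y ^ 2 ≤ 1 := by nlinarith
  have h1 : (1 + y ^ 2) ^ 2 ≤ 4 := by nlinarith [sq_nonneg y]
  have h2 : b ≤ 4 * (b / (1 + y ^ 2) ^ 2) := by
    rw [mul_div_assoc', le_div_iff₀ (by positivity)]
    nlinarith
  linarith

theorem small2 {a b y : ℝ} (ha : 0 ≤ a) (hb : 0 ≤ b) (hy1 : 1 ≤ y) :
    a + b / y ^ 4 ≤ 4 * (a + b / (1 + y ^ 2) ^ 2) := by
  have h0 : 1 ≤ y ^ 2 := by nlinarith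
  have h1 : (1 + y ^ 2) ^ 2 ≤ 4 * y ^ 4 := by nlinarith
  have h2 : b / y ^ 4 ≤ 4 * (b / (1 + y ^ 2) ^ 2) := by
    rw [mul_div_assoc', div_le_div_iff₀ (by positivity) (by positivity)]
    nlinarith
  linarith

/-- the lower bound near the poles -/
theorem inner (hchi : S_CHI) (lo : S_LOPS) (ll : S_LLOG) {z : E} (hx : red z.1 = z.1)
    (hx0 : z.1 ≠ 0) (h8 : ‖z.1‖ < 1 / 8) (v : E) : -(8 * nm z v) ≤ lev gg z v := by
  obtain ⟨lo1, lo2, lo3, lo4, -, -⟩ := lo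
  obtain ⟨A, hA⟩ : ∃ A : E → ℝ, A = fun t => Real.log (‖t.1‖ ^ 2 + ‖t.2 - t.1‖ ^ 2) := ⟨_, rfl⟩
  obtain ⟨B, hB⟩ : ∃ B : E → ℝ, B = fun t => Real.log (‖t.2 - t.1‖ ^ 2 + ‖t.1 ^ 2‖ ^ 2) :=
    ⟨_, rfl⟩
  obtain ⟨C, hC⟩ : ∃ C : E → ℝ, C = fun t => Real.log (‖(1 : ℂ)‖ ^ 2 + ‖t.2‖ ^ 2) := ⟨_, rfl⟩
  have hA1 := ll.2.2 (fun t => t.1) (fun t => t.2 - t.1) z v analyticAt_fst
    (analyticAt_snd.sub analyticAt_fst) (Or.inl hx0)
  have hB1 := ll.2.2 (fun t => t.2 - t.1) (fun t => t.1 ^ 2) z v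
    (analyticAt_snd.sub analyticAt_fst) (analyticAt_fst.pow 2) (Or.inr (pow_ne_zero 2 hx0))
  have hC1 := ll.2.2 (fun _ => (1 : ℂ)) (fun t => t.2) z v analyticAt_const analyticAt_snd
    (Or.inl one_ne_zero)
  rw [← hA] at hA1
  rw [← hB] at hB1
  rw [← hC] at hC1
  have hA2 : 0 ≤ lev A z v := by rw [hA1.2]; positivity
  have hB2 : 0 ≤ lev B z v := by rw [hB1.2]; positivity
  have hC2 : lev C z v = 4 * (‖v.2‖ ^ 2 / (1 + ‖z.2‖ ^ 2) ^ 2) := by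
    rw [hC1.2]
    have e1 : fderiv ℂ (fun t : E => t.2) z v = v.2 := by
      rw [(hasFDerivAt_snd (𝕜 := ℂ) (p := z)).fderiv]
      rfl
    have e2 : fderiv ℂ (fun _ : E => (1 : ℂ)) z v = 0 := by simp
    rw [e1, e2]
    simp only [one_mul, mul_zero, sub_zero, norm_one, one_pow]
    ring
  have hev : ∀ᶠ t in 𝓝 z, gg t = (A t + B t) - 2 * C t := by
    have h1 := near1 hchi hx (by linarith)
    have h2 : ∀ᶠ t in 𝓝 z, ‖t.1‖ < 1 / 8 := by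
      have hc : ContinuousAt (fun t : E => ‖t.1‖) z := by fun_prop
      exact hc.eventually_lt continuousAt_const h8
    have h3 : ∀ᶠ t in 𝓝 z, t.1 ≠ 0 := continuousAt_fst.eventually_ne hx0
    have h4 : ∀ᶠ t in 𝓝 z, red t.1 = t.1 :=
      continuousAt_fst.eventually (red_near hchi hx (by linarith))
    filter_upwards [h1, h2, h3, h4] with t k1 k2 k3 k4
    have hch : chi t.1 = 1 := hchi.2.2.2.2.2.2.1 t.1 (by rw [k4]; exact k2.le)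
    rw [k1, hA, hB, hC]
    unfold r1
    rw [hch, one_mul, Real.log_div (pos1 k3).ne' (den_ne t), Real.log_div (pos2 k3).ne' (den_ne t)]
    simp only [norm_one, one_pow, norm_pow]
    ring
  have s1 : ContDiffAt ℝ 2 A z := contDiffAt_infty.mp hA1.1 2
  have s2 : ContDiffAt ℝ 2 B z := contDiffAt_infty.mp hB1.1 2
  have s3 : ContDiffAt ℝ 2 C z := contDiffAt_infty.mp hC1.1 2
  rw [lo4 gg (fun t => (A t + B t) - 2 * C t) z v hev,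
    lo2 (fun t => A t + B t) (fun t => 2 * C t) z v (s1.add s2) (contDiffAt_const.mul s3),
    lo1 A B z v s1 s2, lo3 C 2 z v s3, hC2]
  unfold nm
  have := sq_nonneg ‖v.1‖
  linarith

end PSIM

open PSIM in
/-- lower bound for the Levi form of `chi (L1 + L2)` -/
theorem t_PSIM (chi : S_CHI) (lo : S_LOPS) (ll : S_LLOG) (phis : S_PHIS) : S_PSIM := by
  obtain ⟨B1, hB1, b1⟩ := lev_bound KK_compact (fun z hz => sm1 chi (KK_ne hz))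
  obtain ⟨B2, hB2, b2⟩ := lev_bound KK_compact (fun z hz => sm2 chi (KK_ne hz))
  refine ⟨8 + 4 * B1 + 4 * B2, by positivity, fun z hz v => ?_⟩
  change -((8 + 4 * B1 + 4 * B2) * nm z v) ≤ lev gg z v
  rw [lev_per chi z v]
  have hnm : nm z v = nm (red z.1, z.2) v := rfl
  rw [hnm]
  have hx : red (red z.1) = red z.1 := red_red chi z.1
  have hx0 : red z.1 ≠ 0 := fun h => hz.1 ((chi.2.2.2.2.2.2.2.2.1 z.1).mpr h)
  have hy0 : z.2 ≠ 0 := hz.2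
  obtain ⟨x, hxd⟩ : ∃ x, x = red z.1 := ⟨_, rfl⟩
  obtain ⟨y, hyd⟩ : ∃ y, y = z.2 := ⟨_, rfl⟩
  rw [← hxd] at hx hx0
  rw [← hyd] at hy0
  rw [← hxd, ← hyd]
  have hn0 : 0 ≤ nm (x, y) v := by unfold nm; positivity
  rcases lt_or_ge ‖x‖ (1 / 8) with h8 | h8
  · have h1 := inner (z := (x, y)) chi lo ll hx hx0 h8 v
    have h2 : 0 ≤ B1 * nm (x, y) v := mul_nonneg hB1 hn0
    have h3 : 0 ≤ B2 * nm (x, y) v := mul_nonneg hB2 hn0
    nlinarith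
  rcases lt_or_ge (1 / 4) ‖x‖ with h4 | h4
  · have h1 := chi.2.2.2.2.2.2.2.2.2.2.2.1 x (by rw [hx]; exact h4)
    have h2 : ∀ᶠ t in 𝓝 ((x, y) : E), gg t = 0 * (1 : ℝ) := by
      filter_upwards [(continuousAt_fst (p := ((x, y) : E))).eventually h1] with t ht
      unfold gg
      rw [ht, zero_mul, zero_mul]
    have h3 := lo.2.2.2.1 gg (fun _ => 0 * (1 : ℝ)) (x, y) v h2
    rw [h3, lo.2.2.1 (fun _ => (1 : ℝ)) 0 (x, y) v contDiffAt_const, zero_mul]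
    have : 0 ≤ (8 + 4 * B1 + 4 * B2) * nm (x, y) v := mul_nonneg (by positivity) hn0
    linarith
  · have h5 := near1 (z := (x, y)) chi hx (by show ‖x‖ < 1 / 2; linarith)
    rw [lo.2.2.2.1 gg r1 (x, y) v h5]
    rcases le_total ‖y‖ 1 with hy1 | hy1
    · have h6 := b1 (x, y) ⟨h8, h4, hy1⟩ v
      have h7 := small1 (sq_nonneg ‖v.1‖) (sq_nonneg ‖v.2‖) (norm_nonneg y) hy1
      have h8' : B1 * (‖v.1‖ ^ 2 + ‖v.2‖ ^ 2) ≤ B1 * (4 * nm (x, y) v) :=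
        mul_le_mul_of_nonneg_left h7 hB1
      have h9 := neg_abs_le (lev r1 (x, y) v)
      have h3 : 0 ≤ B2 * nm (x, y) v := mul_nonneg hB2 hn0
      nlinarith
    · have h6 : ∀ᶠ t in 𝓝 ((x, y) : E), r1 t = r2 (t.1, t.2⁻¹) := by
        have : ∀ᶠ t in 𝓝 ((x, y) : E), t.2 ≠ 0 := continuousAt_snd.eventually_ne hy0
        filter_upwards [this] with t ht
        exact r12 (x := t.1) ht
      rw [lo.2.2.2.1 r1 (fun t => r2 (t.1, t.2⁻¹)) (x, y) v h6,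
        lo.2.2.2.2.1 r2 (fun t => (t.1, t.2⁻¹)) (x, y) v (phi_an hy0) (sm2 chi hx0),
        phi_deriv (z := (x, y)) hy0 v]
      have hy2 : ‖y⁻¹‖ ≤ 1 := by
        rw [norm_inv]
        exact inv_le_one_of_one_le₀ hy1
      have h7 := b2 (x, y⁻¹) ⟨h8, h4, hy2⟩ (v.1, -(y ^ 2)⁻¹ * v.2)
      have e1 : ‖((v.1, -(y ^ 2)⁻¹ * v.2) : E).2‖ ^ 2 = ‖v.2‖ ^ 2 / ‖y‖ ^ 4 := by
        show ‖-(y ^ 2)⁻¹ * v.2‖ ^ 2 = _
        rw [norm_mul, norm_neg, norm_inv, norm_pow]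
        have : ‖y‖ ≠ 0 := norm_ne_zero_iff.mpr hy0
        field_simp
      rw [e1] at h7
      have h8' := small2 (sq_nonneg ‖v.1‖) (sq_nonneg ‖v.2‖) hy1
      have h9 : B2 * (‖v.1‖ ^ 2 + ‖v.2‖ ^ 2 / ‖y‖ ^ 4) ≤ B2 * (4 * nm (x, y) v) :=
        mul_le_mul_of_nonneg_left h8' hB2
      have h10 := neg_abs_le (lev r2 (x, y⁻¹) (v.1, -(y ^ 2)⁻¹ * v.2))
      have h3 : 0 ≤ B1 * nm (x, y) v := mul_nonneg hB1 hn0
      have h11 : |lev r2 (x, y⁻¹) (v.1, -(y ^ 2)⁻¹ * v.2)| ≤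
        B2 * (‖v.1‖ ^ 2 + ‖v.2‖ ^ 2 / ‖y‖ ^ 4) := h7
      nlinarith

end Pool.Agent.Q22.SP
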