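import Pool.Agent.Q22.SP.Stm

/-!
# Project SP (helper22), job RES (helper17): no elliptic function with one simple pole
-/

set_option autoImplicit false

open Set Topology Filter
open scoped ContDiff Manifold

namespace Pool.Agent.Q22.SP

open Pool.Agent.Y184.SP

namespace RES

open Complex MeasureTheory

/-- the open square of side 2 -/
def sq : Set ℂ := {x | |x.re| < 1 ∧ |x.im| < 1}

theorem sq_open : IsOpen sq :=
  (isOpen_lt (continuous_re.abs) continuous_const).inter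
    (isOpen_lt (continuous_im.abs) continuous_const)

theorem sq_nhds : sq ∈ 𝓝 (0 : ℂ) := sq_open.mem_nhds (by simp [sq])

theorem notMem_Lam {x : ℂ} (hx : x ∈ sq) (h0 : x ≠ 0) : x ∉ Lam := by
  rintro ⟨m, n, rfl⟩
  obtain ⟨h1, h2⟩ := hx
  simp only [add_re, intCast_re, mul_re, I_re, mul_zero, intCast_im, I_im, mul_one, sub_self,
    add_zero, add_im, mul_im, zero_add] at h1 h2
  have hm : m = 0 := by
    have : |m| < 1 := by exact_mod_cast h1
    exact Int.abs_lt_one_iff.1 this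
  have hn : n = 0 := by
    have : |n| < 1 := by exact_mod_cast h2
    exact Int.abs_lt_one_iff.1 this
  exact h0 (by simp [hm, hn])

theorem one_mem : (1 : ℂ) ∈ Lam := ⟨1, 0, by simp⟩

theorem I_mem : (I : ℂ) ∈ Lam := ⟨0, 1, by simp⟩

theorem den_pos (t : ℝ) : 0 < t ^ 2 + 1 / 4 := by positivity

theorem frac1 (t : ℝ) : 1 / ((t : ℂ) + (-(1 / 2) : ℝ) * I) - 1 / ((t : ℂ) + ((1 / 2 : ℝ) : ℂ) * I) =
    I * ((1 / (t ^ 2 + 1 / 4) : ℝ) : ℂ) := by
  have h1 : ((t : ℂ) + (-(1 / 2) : ℝ) * I) ≠ 0 := by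
    intro h
    have := congrArg Complex.im h
    simp at this
  have h2 : ((t : ℂ) + ((1 / 2 : ℝ) : ℂ) * I) ≠ 0 := by
    intro h
    have := congrArg Complex.im h
    simp at this
  have h3 : ((t : ℂ) ^ 2 + 1 / 4) ≠ 0 := by
    have := Complex.ofReal_ne_zero.2 (den_pos t).ne'
    push_cast at this
    exact this
  have h4 : ((t : ℂ) + (-(1 / 2) : ℝ) * I) * ((t : ℂ) + ((1 / 2 : ℝ) : ℂ) * I) =
      (t : ℂ) ^ 2 + 1 / 4 := by
    push_cast
    linear_combination (-(1 / 4) : ℂ) * I_sq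
  rw [div_sub_div _ _ h1 h2, h4]
  push_cast
  rw [mul_one_div]
  congr 1
  ring

theorem frac2 (t : ℝ) : 1 / (((1 / 2 : ℝ) : ℂ) + (t : ℂ) * I) - 1 / ((-(1 / 2) : ℝ) + (t : ℂ) * I) =
    ((1 / (t ^ 2 + 1 / 4) : ℝ) : ℂ) := by
  have h1 : (((1 / 2 : ℝ) : ℂ) + (t : ℂ) * I) ≠ 0 := by
    intro h
    have := congrArg Complex.re h
    simp at this
  have h2 : ((-(1 / 2) : ℝ) + (t : ℂ) * I) ≠ 0 := by
    intro h
    have := congrArg Complex.re h
    simp at this
  have h3 : ((t : ℂ) ^ 2 + 1 / 4) ≠ 0 := by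
    have := Complex.ofReal_ne_zero.2 (den_pos t).ne'
    push_cast at this
    exact this
  have h4 : (((1 / 2 : ℝ) : ℂ) + (t : ℂ) * I) * ((-(1 / 2) : ℝ) + (t : ℂ) * I) =
      -((t : ℂ) ^ 2 + 1 / 4) := by
    push_cast
    linear_combination ((t : ℂ) ^ 2) * I_sq
  rw [div_sub_div _ _ h1 h2, h4]
  push_cast
  rw [div_neg, ← neg_div]
  congr 1
  ring

/-- the contour integral of a function `k` which is differentiable on the square and is `1 / x` plus
a periodic function on the boundary does not exist -/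
theorem no_k (k g : ℂ → ℂ) (hk : DifferentiableOn ℂ k sq)
    (hkg : ∀ x, x ≠ 0 → k x = g x + 1 / x)
    (hper : ∀ x l, l ∈ Lam → g (x + l) = g x) : False := by
  have hrect : ((uIcc (-(1 / 2) : ℝ) (1 / 2)) ×ℂ (uIcc (-(1 / 2) : ℝ) (1 / 2))) ⊆ sq := by
    intro x hx
    rw [mem_reProdIm, uIcc_of_le (by norm_num), mem_Icc, mem_Icc] at hx
    refine ⟨abs_lt.2 ⟨?_, ?_⟩, abs_lt.2 ⟨?_, ?_⟩⟩ <;> linarith [hx.1.1, hx.1.2, hx.2.1, hx.2.2]
  have hC := Complex.integral_boundary_rect_eq_zero_of_differentiableOn k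
    (⟨-(1 / 2), -(1 / 2)⟩ : ℂ) (⟨1 / 2, 1 / 2⟩ : ℂ) (hk.mono hrect)
  simp only at hC
  have hcont : ContinuousOn k ((uIcc (-(1 / 2) : ℝ) (1 / 2)) ×ℂ (uIcc (-(1 / 2) : ℝ) (1 / 2))) :=
    (hk.mono hrect).continuousOn
  -- integrability on the four sides
  have hi : ∀ c : ℝ, c ∈ (uIcc (-(1 / 2) : ℝ) (1 / 2)) →
      IntervalIntegrable (fun x : ℝ => k ((x : ℂ) + (c : ℂ) * I)) volume (-(1 / 2)) (1 / 2) := by
    intro c hc
    apply ContinuousOn.intervalIntegrable
    apply hcont.comp (by fun_prop)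
    intro x hx
    rw [mem_reProdIm]
    simp only [add_re, ofReal_re, mul_re, ofReal_im, I_re, I_im, mul_zero, mul_one, sub_self,
      add_zero, add_im, mul_im, zero_add]
    exact ⟨hx, by simpa using hc⟩
  have hj : ∀ c : ℝ, c ∈ (uIcc (-(1 / 2) : ℝ) (1 / 2)) →
      IntervalIntegrable (fun y : ℝ => k ((c : ℂ) + (y : ℂ) * I)) volume (-(1 / 2)) (1 / 2) := by
    intro c hc
    apply ContinuousOn.intervalIntegrable
    apply hcont.comp (by fun_prop)
    intro x hx
    rw [mem_reProdIm]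
    simp only [add_re, ofReal_re, mul_re, ofReal_im, I_re, I_im, mul_zero, mul_one, sub_self,
      add_zero, add_im, mul_im, zero_add]
    exact ⟨hc, by simpa using hx⟩
  have hl : (-(1 / 2) : ℝ) ∈ (uIcc (-(1 / 2) : ℝ) (1 / 2)) := left_mem_uIcc
  have hr : (1 / 2 : ℝ) ∈ (uIcc (-(1 / 2) : ℝ) (1 / 2)) := right_mem_uIcc
  rw [← intervalIntegral.integral_sub (hi _ hl) (hi _ hr), add_sub_assoc, ← smul_sub,
    ← intervalIntegral.integral_sub (hj _ hr) (hj _ hl)] at hC
  have h1 : ∀ t : ℝ, k ((t : ℂ) + (-(1 / 2) : ℝ) * I) - k ((t : ℂ) + ((1 / 2 : ℝ) : ℂ) * I) =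
      I * ((1 / (t ^ 2 + 1 / 4) : ℝ) : ℂ) := by
    intro t
    have a1 : ((t : ℂ) + (-(1 / 2) : ℝ) * I) ≠ 0 := by
      intro h
      have := congrArg Complex.im h
      simp at this
    have a2 : ((t : ℂ) + ((1 / 2 : ℝ) : ℂ) * I) ≠ 0 := by
      intro h
      have := congrArg Complex.im h
      simp at this
    have a3 : g ((t : ℂ) + ((1 / 2 : ℝ) : ℂ) * I) = g ((t : ℂ) + (-(1 / 2) : ℝ) * I) := by
      rw [← hper ((t : ℂ) + (-(1 / 2) : ℝ) * I) I I_mem]
      congr 1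
      push_cast
      ring
    rw [hkg _ a1, hkg _ a2, a3, ← frac1 t]
    ring
  have h2 : ∀ t : ℝ, k (((1 / 2 : ℝ) : ℂ) + (t : ℂ) * I) - k ((-(1 / 2) : ℝ) + (t : ℂ) * I) =
      ((1 / (t ^ 2 + 1 / 4) : ℝ) : ℂ) := by
    intro t
    have a1 : (((1 / 2 : ℝ) : ℂ) + (t : ℂ) * I) ≠ 0 := by
      intro h
      have := congrArg Complex.re h
      simp at this
    have a2 : ((-(1 / 2) : ℝ) + (t : ℂ) * I) ≠ 0 := by
      intro h
      have := congrArg Complex.re h
      simp at this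
    have a3 : g (((1 / 2 : ℝ) : ℂ) + (t : ℂ) * I) = g ((-(1 / 2) : ℝ) + (t : ℂ) * I) := by
      rw [← hper ((-(1 / 2) : ℝ) + (t : ℂ) * I) 1 one_mem]
      congr 1
      push_cast
      ring
    rw [hkg _ a1, hkg _ a2, a3, ← frac2 t]
    ring
  simp only [h1, h2] at hC
  rw [intervalIntegral.integral_const_mul, intervalIntegral.integral_ofReal, smul_eq_mul,
    ← mul_add, mul_eq_zero] at hC
  have hpos : 0 < ∫ t in (-(1 / 2) : ℝ)..(1 / 2), (1 / (t ^ 2 + 1 / 4) : ℝ) := by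
    apply intervalIntegral.intervalIntegral_pos_of_pos
    · apply Continuous.intervalIntegrable
      exact continuous_const.div (by fun_prop) (fun t => (den_pos t).ne')
    · intro t
      exact one_div_pos.2 (den_pos t)
    · norm_num
  rcases hC with h | h
  · exact I_ne_zero h
  · have h' : (((∫ t in (-(1 / 2) : ℝ)..(1 / 2), (1 / (t ^ 2 + 1 / 4) : ℝ)) +
        ∫ t in (-(1 / 2) : ℝ)..(1 / 2), (1 / (t ^ 2 + 1 / 4) : ℝ) : ℝ) : ℂ) = 0 := by
      push_cast
      exact_mod_cast h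
    have h'' := Complex.ofReal_eq_zero.1 h'
    linarith

end RES

/-- there is no elliptic function with one simple pole -/
theorem t_RES : StRes := by
  intro g hg hper hlim
  set f : ℂ → ℂ := fun x => g x + 1 / x with hf
  have hd : DifferentiableOn ℂ f (RES.sq \ {0}) := by
    intro x hx
    have hx0 : x ≠ 0 := hx.2
    have h1 : DifferentiableAt ℂ g x := hg x (RES.notMem_Lam hx.1 hx0)
    have h2 : DifferentiableAt ℂ (fun x : ℂ => 1 / x) x := by
      simp only [one_div]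
      exact differentiableAt_inv hx0
    exact (h1.add h2).differentiableWithinAt
  have ho : (fun z => f z - f 0) =o[𝓝[≠] (0 : ℂ)] fun z => (z - 0)⁻¹ := by
    rw [Asymptotics.isLittleO_iff_tendsto']
    · have h1 : Tendsto (fun x : ℂ => x * g x + 1 - x * f 0) (𝓝[≠] 0) (𝓝 (-1 + 1 - 0 * f 0)) := by
        apply (hlim.add_const 1).sub
        apply Tendsto.mul_const
        exact tendsto_nhdsWithin_of_tendsto_nhds tendsto_id
      have h2 : (-1 + 1 - 0 * f 0 : ℂ) = 0 := by ring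
      rw [h2] at h1
      apply h1.congr'
      filter_upwards [self_mem_nhdsWithin] with x hx
      have hx0 : x ≠ 0 := hx
      rw [sub_zero, div_inv_eq_mul, hf]
      field_simp
    · filter_upwards [self_mem_nhdsWithin] with x hx h
      have hx0 : x ≠ 0 := hx
      exact absurd h (inv_ne_zero (by simpa using hx0))
  have hk := Complex.differentiableOn_update_limUnder_of_isLittleO RES.sq_nhds hd ho
  refine RES.no_k _ g hk (fun x hx => ?_) hper
  rw [Function.update_of_ne hx]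

end Pool.Agent.Q22.SP
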