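import Pool.Agent.Q22.SP.Stm
import Pool.Agent.Y625.SP.Max

/-!
# Project SP (helper22): RING, the lower bound for `near` in the ring `1/8 ≤ |x| ≤ 1/4`
-/

set_option autoImplicit false

open Set Topology Filter
open scoped ContDiff

namespace Pool.Agent.Q22.SP.RING

open Pool.Agent.Y184.SP Pool.Agent.Q22.SP

/-- the Laplacian along a complex line by the second derivative -/
theorem lap_gen {F : Type*} [NormedAddCommGroup F] [NormedSpace ℂ F] [NormedSpace ℝ F]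
    [IsScalarTower ℝ ℂ F] {f : F → ℝ} {z : F} (h : ContDiffAt ℝ 2 f z) (v : F) :
    Laplacian.laplacian (fun ζ : ℂ => f (z + ζ • v)) 0 = fderiv ℝ (fderiv ℝ f) z v v +
      fderiv ℝ (fderiv ℝ f) z (Complex.I • v) (Complex.I • v) := by
  have hdiff : ∀ᶠ z' in 𝓝 z, DifferentiableAt ℝ f z' := by
    filter_upwards [h.eventually (by simp)] with z' hz'
    exact hz'.differentiableAt (by norm_num)
  have hf : DifferentiableAt ℝ (fderiv ℝ f) z := by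
    have : ContDiffAt ℝ 1 (fderiv ℝ f) z := h.fderiv_right (by norm_num)
    exact this.differentiableAt (by norm_num)
  have hL : ContDiffAt ℝ 2 (fun ζ : ℂ => f (z + ζ • v)) 0 := by
    have h1 : ContDiffAt ℝ 2 (fun ζ : ℂ => z + ζ • v) 0 := by
      have h3 : IsBoundedLinearMap ℝ (fun ζ : ℂ => ζ • v) :=
        ((ContinuousLinearMap.toSpanSingleton ℂ v).restrictScalars ℝ).isBoundedLinearMap
      exact contDiffAt_const.add h3.contDiff.contDiffAt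
    have h2 : ContDiffAt ℝ 2 f (z + (0 : ℂ) • v) := by rw [zero_smul, add_zero]; exact h
    exact h2.comp (0 : ℂ) h1
  have key : ∀ e : ℂ, iteratedFDeriv ℝ 2 (fun ζ : ℂ => f (z + ζ • v)) 0 ![e, e] =
      fderiv ℝ (fderiv ℝ f) z (e • v) (e • v) := by
    intro e
    have hline : ∀ t : ℝ, HasDerivAt (fun s : ℝ => z + (s • e) • v) (e • v) t := by
      intro t
      have h1 : HasDerivAt (fun s : ℝ => s • (e • v)) ((1 : ℝ) • (e • v)) t :=
        (hasDerivAt_id t).smul_const (e • v)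
      have h2 := h1.const_add z
      rw [one_smul] at h2
      refine h2.congr_of_eventuallyEq (Eventually.of_forall fun s => ?_)
      simp only [smul_assoc]
    have ht0 : Tendsto (fun s : ℝ => z + (s • e) • v) (𝓝 0) (𝓝 z) := by
      have := (hline 0).continuousAt.tendsto
      simpa using this
    refine Pool.Agent.Y625.SP.lapline hL e (ψ := fun t => fderiv ℝ f (z + (t • e) • v) (e • v)) ?_ ?_
    · filter_upwards [ht0.eventually hdiff] with t ht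
      exact ht.hasFDerivAt.comp_hasDerivAt t (hline t)
    · have h6 : HasFDerivAt (fderiv ℝ f) (fderiv ℝ (fderiv ℝ f) z) (z + ((0 : ℝ) • e) • v) := by
        rw [zero_smul, zero_smul, add_zero]; exact hf.hasFDerivAt
      have h7 : HasDerivAt (fun t : ℝ => fderiv ℝ f (z + (t • e) • v))
          (fderiv ℝ (fderiv ℝ f) z (e • v)) 0 := h6.comp_hasDerivAt (0 : ℝ) (hline 0)
      exact (ContinuousLinearMap.apply ℝ ℝ (e • v)).hasFDerivAt.comp_hasDerivAt (0 : ℝ) h7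
  rw [InnerProductSpace.laplacian_eq_iteratedFDeriv_complexPlane]
  simp only
  rw [key 1, key Complex.I, one_smul]

theorem D2_mul {f g : E → ℝ} {z : E} (hf : ContDiffAt ℝ 2 f z) (hg : ContDiffAt ℝ 2 g z) (v : E) :
    fderiv ℝ (fderiv ℝ (fun t => f t * g t)) z v v =
      f z * fderiv ℝ (fderiv ℝ g) z v v + g z * fderiv ℝ (fderiv ℝ f) z v v +
        2 * (fderiv ℝ f z v * fderiv ℝ g z v) := by
  have d1 : ∀ {f : E → ℝ}, ContDiffAt ℝ 2 f z → ∀ᶠ z' in 𝓝 z, DifferentiableAt ℝ f z' := by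
    intro f hf
    filter_upwards [hf.eventually (by simp)] with z' hz'
    exact hz'.differentiableAt (by norm_num)
  have d2 : ∀ {f : E → ℝ}, ContDiffAt ℝ 2 f z → DifferentiableAt ℝ (fderiv ℝ f) z := by
    intro f hf
    have : ContDiffAt ℝ 1 (fderiv ℝ f) z := hf.fderiv_right (by norm_num)
    exact this.differentiableAt (by norm_num)
  have h1 : fderiv ℝ (fun t => f t * g t) =ᶠ[𝓝 z]
      fun t => f t • fderiv ℝ g t + g t • fderiv ℝ f t := by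
    filter_upwards [d1 hf, d1 hg] with t h2 h3
    exact fderiv_fun_mul h2 h3
  have h2 := (((d1 hf).self_of_nhds.hasFDerivAt.smul (d2 hg).hasFDerivAt).add
    ((d1 hg).self_of_nhds.hasFDerivAt.smul (d2 hf).hasFDerivAt))
  have h3 := h2.congr_of_eventuallyEq h1
  rw [h3.fderiv]
  simp only [add_apply, smul_apply, smul_eq_mul, ContinuousLinearMap.smulRight_apply]
  ring

theorem lev_mul {f g : E → ℝ} {z : E} (hf : ContDiffAt ℝ 2 f z) (hg : ContDiffAt ℝ 2 g z) (v : E) :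
    lev (fun t => f t * g t) z v = f z * lev g z v + g z * lev f z v +
      2 * (fderiv ℝ f z v * fderiv ℝ g z v +
        fderiv ℝ f z (Complex.I • v) * fderiv ℝ g z (Complex.I • v)) := by
  unfold lev
  rw [lap_gen (hf.mul hg) v, lap_gen hf v, lap_gen hg v, D2_mul hf hg, D2_mul hf hg]
  ring

theorem chi_bd (hc : ContDiff ℝ ∞ chi) : ∃ M : ℝ, 0 ≤ M ∧ ∀ x : ℂ, ‖x‖ ≤ 1 →
    ‖fderiv ℝ chi x‖ ≤ M ∧ ‖fderiv ℝ (fderiv ℝ chi) x‖ ≤ M := by
  have h1 : ContDiff ℝ ∞ (fderiv ℝ chi) := hc.fderiv_right (by simp)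
  have h2 : ContDiff ℝ ∞ (fderiv ℝ (fderiv ℝ chi)) := h1.fderiv_right (by simp)
  obtain ⟨a, ha⟩ := (isCompact_closedBall (0 : ℂ) 1).exists_bound_of_continuousOn
    h1.continuous.continuousOn
  have h3 : Continuous (fun x : ℂ => ‖fderiv ℝ (fderiv ℝ chi) x‖) :=
    Continuous.norm (E := ℂ →L[ℝ] ℂ →L[ℝ] ℝ) h2.continuous
  obtain ⟨b, hb⟩ := (isCompact_closedBall (0 : ℂ) 1).exists_bound_of_continuousOn
    h3.continuousOn
  refine ⟨max 0 (max a b), le_max_left _ _, fun x hx => ⟨?_, ?_⟩⟩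
  · exact (ha x (by simpa using hx)).trans ((le_max_left _ _).trans (le_max_right _ _))
  · have h4 := hb x (by simpa using hx)
    exact (Real.le_norm_self _).trans (h4.trans ((le_max_right _ _).trans (le_max_right _ _)))

theorem lev_chi (hc : ContDiff ℝ ∞ chi) {M : ℝ}
    (hM : ∀ x : ℂ, ‖x‖ ≤ 1 → ‖fderiv ℝ chi x‖ ≤ M ∧ ‖fderiv ℝ (fderiv ℝ chi) x‖ ≤ M)
    (z v : E) (hz : ‖z.1‖ ≤ 1) : |lev (fun t : E => chi t.1) z v| ≤ 2 * M * ‖v.1‖ ^ 2 := by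
  have h1 : lev (fun t : E => chi t.1) z v =
      Laplacian.laplacian (fun ζ : ℂ => chi (z.1 + ζ • v.1)) 0 := rfl
  have h2 : ContDiffAt ℝ 2 chi z.1 :=
    hc.contDiffAt.of_le (WithTop.coe_le_coe.2 (le_top : (2 : ℕ∞) ≤ ⊤))
  rw [h1, lap_gen h2 v.1]
  have h3 : ∀ w : ℂ, ‖w‖ = ‖v.1‖ → |fderiv ℝ (fderiv ℝ chi) z.1 w w| ≤ M * ‖v.1‖ ^ 2 := by
    intro w hw
    have h4 := ContinuousLinearMap.le_opNorm₂ (fderiv ℝ (fderiv ℝ chi) z.1) w w
    rw [Real.norm_eq_abs, hw] at h4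
    have h5 := (hM z.1 hz).2
    have h6 : 0 ≤ ‖v.1‖ ^ 2 := by positivity
    nlinarith
  have h4 := h3 v.1 rfl
  have h5 := h3 (Complex.I • v.1) (by simp)
  exact (abs_add_le _ _).trans (by linarith)

/-- the function in the logarithm -/
noncomputable def q (k : ℝ) (t : E) : ℝ := ‖t.2 / t.1 - 1‖ ^ 2 + k * ‖t.1‖ ^ 2

theorem q_bd {k : ℝ} (hk : 0 ≤ k) {x y : ℂ} (hx : 1 / 8 ≤ ‖x‖) (hx' : ‖x‖ ≤ 1 / 4)
    (hy : ‖y‖ ≤ 1 / 32) : 9 / 16 ≤ q k (x, y) ∧ |Real.log (q k (x, y))| ≤ 32 * ‖y‖ + 2 * k := by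
  have hx0 : 0 < ‖x‖ := by linarith
  obtain ⟨r, hr⟩ : ∃ r, r = ‖y / x‖ := ⟨_, rfl⟩
  have hr0 : 0 ≤ r := by rw [hr]; positivity
  have hr1 : r ≤ 8 * ‖y‖ := by
    rw [hr, norm_div, div_le_iff₀ hx0]
    nlinarith [norm_nonneg y]
  have hr2 : r ≤ 1 / 4 := by linarith
  obtain ⟨s, hs⟩ : ∃ s, s = ‖y / x - 1‖ := ⟨_, rfl⟩
  have hs1 : 1 - r ≤ s := by
    have := norm_sub_norm_le (1 : ℂ) (y / x)
    rw [norm_one, norm_sub_rev] at this
    rw [hs, hr]; exact this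
  have hs2 : s ≤ 1 + r := by
    have := norm_sub_le (y / x) (1 : ℂ)
    rw [norm_one] at this
    rw [hs, hr]; linarith
  have hq : q k (x, y) = s ^ 2 + k * ‖x‖ ^ 2 := by rw [hs]; rfl
  have hkx : 0 ≤ k * ‖x‖ ^ 2 := by positivity
  have hx2 : ‖x‖ ^ 2 ≤ 1 := by nlinarith
  have hkx2 : k * ‖x‖ ^ 2 ≤ k := by nlinarith
  have hq1 : 9 / 16 ≤ q k (x, y) := by rw [hq]; nlinarith
  refine ⟨hq1, ?_⟩
  have hqp : 0 < q k (x, y) := by linarith
  rw [abs_le]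
  constructor
  · have h1 := Real.log_le_sub_one_of_pos (inv_pos.mpr hqp)
    rw [Real.log_inv] at h1
    have h2 : (q k (x, y))⁻¹ - 1 ≤ 32 * ‖y‖ + 2 * k := by
      have h3 : (q k (x, y))⁻¹ ≤ 1 + (32 * ‖y‖ + 2 * k) := by
        rw [inv_le_comm₀ hqp (by positivity), inv_le_iff_one_le_mul₀ (by positivity)]
        have h4 : 1 - 16 * ‖y‖ ≤ q k (x, y) := by
          rw [hq]
          nlinarith
        have h5 := norm_nonneg y
        nlinarith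
      linarith
    linarith
  · have h1 := Real.log_le_sub_one_of_pos hqp
    have h2 : q k (x, y) ≤ 1 + (32 * ‖y‖ + 2 * k) := by
      rw [hq]
      nlinarith
    linarith

/-- the derivative of the function in the logarithm -/
theorem dq_bd {k : ℝ} (hk : 0 ≤ k) {x y : ℂ} (hx : 1 / 8 ≤ ‖x‖) (hx' : ‖x‖ ≤ 1 / 4)
    (hy : ‖y‖ ≤ 1 / 32) (v : E) : |fderiv ℝ (fun t => Real.log (q k t)) (x, y) v| ≤
      36 * ‖v.2‖ + (300 * ‖y‖ + 2 * k) * ‖v.1‖ := by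
  have hx0 : x ≠ 0 := by
    intro h
    rw [h, norm_zero] at hx
    linarith
  have hq1 := (q_bd hk hx hx' hy).1
  have hqp : q k (x, y) ≠ 0 := by linarith
  have h1 : HasFDerivAt (fun t : E => t.1) (ContinuousLinearMap.fst ℂ ℂ ℂ) (x, y) :=
    hasFDerivAt_fst
  have h2 : HasFDerivAt (fun t : E => t.2) (ContinuousLinearMap.snd ℂ ℂ ℂ) (x, y) :=
    hasFDerivAt_snd
  have h3 : HasFDerivAt (fun t : E => (t.1)⁻¹)
      ((-(x ^ 2)⁻¹ : ℂ) • (ContinuousLinearMap.fst ℂ ℂ ℂ)) (x, y) :=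
    (hasDerivAt_inv hx0).comp_hasFDerivAt (x, y) h1
  have h4 := ((h2.mul h3).sub_const (1 : ℂ)).restrictScalars ℝ
  have h5 := h4.norm_sq
  have h6 := ((h1.restrictScalars ℝ).norm_sq).const_mul k
  have h7 := h5.add h6
  have h8 : HasFDerivAt (fun t => Real.log (q k t)) _ (x, y) :=
    HasFDerivAt.log h7 hqp
  rw [h8.fderiv]
  obtain ⟨w, hw⟩ : ∃ w : ℂ, w = y * (-(x ^ 2)⁻¹ * v.1) + x⁻¹ * v.2 := ⟨_, rfl⟩
  have e1 : ((q k (x, y))⁻¹ • ((2 : ℕ) • (innerSL ℝ (y * x⁻¹ - 1)).comp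
      ((y • ((-(x ^ 2)⁻¹ : ℂ) • (ContinuousLinearMap.fst ℂ ℂ ℂ)) +
      x⁻¹ • ContinuousLinearMap.snd ℂ ℂ ℂ).restrictScalars ℝ) +
      k • ((2 : ℕ) • (innerSL ℝ x).comp ((ContinuousLinearMap.fst ℂ ℂ ℂ).restrictScalars ℝ)))) v =
      (q k (x, y))⁻¹ * (2 * inner ℝ (y * x⁻¹ - 1) w + k * (2 * inner ℝ x v.1)) := by
    rw [hw]
    simp only [smul_apply, add_apply, ContinuousLinearMap.comp_apply,
      ContinuousLinearMap.coe_restrictScalars', ContinuousLinearMap.coe_fst',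
      ContinuousLinearMap.coe_snd', innerSL_apply_apply, nsmul_eq_mul, smul_eq_mul, Nat.cast_ofNat]
  refine le_trans (le_of_eq (congrArg abs e1)) ?_
  have hxp : 0 < ‖x‖ := by linarith
  have hxi : ‖x‖⁻¹ ≤ 8 := by
    rw [inv_le_comm₀ hxp (by norm_num)]
    linarith
  have hxi0 : 0 ≤ ‖x‖⁻¹ := by positivity
  have hw1 : ‖w‖ ≤ 64 * ‖y‖ * ‖v.1‖ + 8 * ‖v.2‖ := by
    rw [hw]
    refine (norm_add_le _ _).trans ?_
    rw [norm_mul, norm_mul, norm_mul, norm_neg, norm_inv, norm_inv, norm_pow]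
    have h9 : (‖x‖ ^ 2)⁻¹ ≤ 64 := by
      rw [← inv_pow]
      calc (‖x‖⁻¹) ^ 2 ≤ 8 ^ 2 := pow_le_pow_left₀ hxi0 hxi 2
        _ = 64 := by norm_num
    have h10 : ‖y‖ * ((‖x‖ ^ 2)⁻¹ * ‖v.1‖) ≤ 64 * ‖y‖ * ‖v.1‖ := by
      have : (‖x‖ ^ 2)⁻¹ * (‖y‖ * ‖v.1‖) ≤ 64 * (‖y‖ * ‖v.1‖) :=
        mul_le_mul_of_nonneg_right h9 (by positivity)
      nlinarith
    have h11 : ‖x‖⁻¹ * ‖v.2‖ ≤ 8 * ‖v.2‖ := mul_le_mul_of_nonneg_right hxi (norm_nonneg _)
    linarith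
  have hg : ‖y * x⁻¹ - 1‖ ≤ 5 / 4 := by
    refine (norm_sub_le _ _).trans ?_
    rw [norm_one, norm_mul, norm_inv]
    have : ‖y‖ * ‖x‖⁻¹ ≤ 1 / 32 * 8 := mul_le_mul hy hxi hxi0 (by norm_num)
    linarith
  have i1 : |inner ℝ (y * x⁻¹ - 1) w| ≤ 5 / 4 * (64 * ‖y‖ * ‖v.1‖ + 8 * ‖v.2‖) :=
    (abs_real_inner_le_norm _ _).trans (mul_le_mul hg hw1 (norm_nonneg _) (by norm_num))
  have i2 : |inner ℝ x v.1| ≤ 1 / 4 * ‖v.1‖ :=
    (abs_real_inner_le_norm _ _).trans (mul_le_mul_of_nonneg_right hx' (norm_nonneg _))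
  have i3 : |2 * inner ℝ (y * x⁻¹ - 1) w + k * (2 * inner ℝ x v.1)| ≤
      2 * (5 / 4 * (64 * ‖y‖ * ‖v.1‖ + 8 * ‖v.2‖)) + k * (2 * (1 / 4 * ‖v.1‖)) := by
    refine (abs_add_le _ _).trans (add_le_add ?_ ?_)
    · rw [abs_mul, abs_two]
      linarith
    · rw [abs_mul, abs_mul, abs_two, abs_of_nonneg hk]
      exact mul_le_mul_of_nonneg_left (by linarith) hk
  have hqi : (q k (x, y))⁻¹ ≤ 16 / 9 := by
    rw [inv_le_comm₀ (by linarith) (by norm_num)]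
    norm_num
    linarith
  have hqi0 : 0 ≤ (q k (x, y))⁻¹ := inv_nonneg.mpr (by linarith)
  rw [abs_mul, abs_of_nonneg hqi0]
  refine (mul_le_mul hqi i3 (abs_nonneg _) (by norm_num)).trans ?_
  have n1 : 0 ≤ ‖y‖ * ‖v.1‖ := by positivity
  have n2 : 0 ≤ k * ‖v.1‖ := by positivity
  have n3 : 0 ≤ ‖v.2‖ := by positivity
  nlinarith

theorem near_eq (hc : S_CHI) (k C : ℝ) {x y : ℂ} (hx' : ‖x‖ ≤ 1 / 4) :
    ∀ᶠ t in 𝓝 ((x, y) : E), near k C t = chi t.1 * Real.log (q k t) + C * ‖t.2‖ ^ 2 := by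
  obtain ⟨_, _, _, _, _, h6, _⟩ := hc
  have h1 : ∀ᶠ t in 𝓝 ((x, y) : E), ‖t.1‖ < 1 / 2 := by
    have : ContinuousAt (fun t : E => ‖t.1‖) (x, y) := by fun_prop
    exact this.eventually_lt continuousAt_const (by linarith : ‖((x, y) : E).1‖ < 1 / 2)
  filter_upwards [h1] with t ht
  have h2 : red t.1 = t.1 := by
    have := h6 t.1 0 ⟨0, 0, by simp⟩ (by rw [sub_zero]; exact ht)
    rw [this, sub_zero]
  unfold near q
  rw [h2]

end Pool.Agent.Q22.SP.RING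

namespace Pool.Agent.Q22.SP

open Pool.Agent.Y184.SP RING

theorem t_RING (chi : S_CHI) (lo : S_LOPS) (ll : S_LLOG) : S_RING := by
  intro ε hε
  obtain ⟨M, hM0, hM⟩ := chi_bd chi.1
  have hM1 : 0 < M + 1 := by linarith
  obtain ⟨k, hk⟩ : ∃ k, k = min 1 (ε / (60 * (M + 1))) := ⟨_, rfl⟩
  obtain ⟨η, hη⟩ : ∃ η, η = min (1 / 32) (ε / (8000 * (M + 1))) := ⟨_, rfl⟩
  have hk0 : 0 < k := by rw [hk]; exact lt_min (by norm_num) (by positivity)
  have hη0 : 0 < η := by rw [hη]; exact lt_min (by norm_num) (by positivity)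
  have hk1 : k * M ≤ ε / 60 := by
    have h1 : k ≤ ε / (60 * (M + 1)) := by rw [hk]; exact min_le_right _ _
    rw [le_div_iff₀ (by positivity)] at h1
    nlinarith
  have hη1 : η * M ≤ ε / 8000 := by
    have h1 : η ≤ ε / (8000 * (M + 1)) := by rw [hη]; exact min_le_right _ _
    rw [le_div_iff₀ (by positivity)] at h1
    nlinarith
  obtain ⟨C, hC⟩ : ∃ C, C = (144 * M) ^ 2 / (8 * ε) := ⟨_, rfl⟩
  have hC0 : 0 ≤ C := by rw [hC]; positivity
  refine ⟨k, C, η, hk0, by rw [hk]; exact min_le_left _ _, hC0, hη0, ?_⟩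
  intro x y hx hx' hy v
  have hy' : ‖y‖ ≤ 1 / 32 := hy.le.trans (by rw [hη]; exact min_le_left _ _)
  have hx0 : x ≠ 0 := by
    intro h
    rw [h, norm_zero] at hx
    linarith
  obtain ⟨l1, l2, l3, l4, l5, l6⟩ := lo
  obtain ⟨g1, g2, g3⟩ := ll
  have inf2 : (2 : WithTop ℕ∞) ≤ ∞ := WithTop.coe_le_coe.2 (le_top : (2 : ℕ∞) ≤ ⊤)
  -- the two functions
  have hu : ContDiffAt ℝ 2 (fun t : E => Pool.Agent.Y184.SP.chi t.1) (x, y) := by
    have h1 : ContDiffAt ℝ ∞ (fun t : E => Pool.Agent.Y184.SP.chi t.1) (x, y) :=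
      (chi.1.comp contDiff_fst).contDiffAt
    exact h1.of_le inf2
  have hg3 := g3 (fun t : E => t.2 / t.1 - 1) (fun t : E => ((Real.sqrt k : ℝ) : ℂ) * t.1) (x, y) v
    (by
      have h1 : AnalyticAt ℂ (fun t : E => t.1) (x, y) := analyticAt_fst
      have h2 : AnalyticAt ℂ (fun t : E => t.2) (x, y) := analyticAt_snd
      exact (h2.div h1 hx0).sub analyticAt_const)
    (analyticAt_const.mul analyticAt_fst)
    (Or.inr (mul_ne_zero (by
      rw [Ne, Complex.ofReal_eq_zero]; exact (Real.sqrt_pos.mpr hk0).ne') hx0))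
  have hqq : (fun t : E => Real.log (‖t.2 / t.1 - 1‖ ^ 2 + ‖((Real.sqrt k : ℝ) : ℂ) * t.1‖ ^ 2)) =
      fun t => Real.log (q k t) := by
    funext t
    unfold q
    rw [norm_mul, mul_pow, Complex.norm_real, Real.norm_eq_abs, sq_abs, Real.sq_sqrt hk0.le]
  rw [hqq] at hg3
  have hP : ContDiffAt ℝ 2 (fun t => Real.log (q k t)) (x, y) := hg3.1.of_le inf2
  have hP0 : 0 ≤ lev (fun t => Real.log (q k t)) (x, y) v := by
    rw [hg3.2]
    positivity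
  have hsq := g2 (fun t : E => t.2) (x, y) v analyticAt_snd
  have hsq2 : ContDiffAt ℝ 2 (fun t : E => ‖t.2‖ ^ 2) (x, y) := hsq.1.of_le inf2
  have hfs : fderiv ℂ (fun t : E => t.2) (x, y) v = v.2 := by
    rw [fderiv_snd]
    rfl
  rw [l4 _ _ _ _ (near_eq chi k C hx'), l1 _ _ _ _ (hu.mul hP) (contDiffAt_const.mul hsq2),
    l3 _ C _ _ hsq2, hsq.2, hfs, lev_mul hu hP v]
  have hxn : ‖x‖ ≤ 1 := by linarith
  have hfu : ∀ w : E, |fderiv ℝ (fun t : E => Pool.Agent.Y184.SP.chi t.1) (x, y) w| ≤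
      M * ‖w.1‖ := by
    intro w
    have h1 : HasFDerivAt (fun t : E => Pool.Agent.Y184.SP.chi t.1)
        ((fderiv ℝ Pool.Agent.Y184.SP.chi x).comp (ContinuousLinearMap.fst ℝ ℂ ℂ)) (x, y) := by
      have h2 : HasFDerivAt Pool.Agent.Y184.SP.chi (fderiv ℝ Pool.Agent.Y184.SP.chi x) x :=
        (chi.1.contDiffAt.differentiableAt (by simp)).hasFDerivAt
      exact HasFDerivAt.comp (g := Pool.Agent.Y184.SP.chi) (f := fun t : E => t.1) (x, y)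
        h2 hasFDerivAt_fst
    rw [h1.fderiv]
    have h2 := ContinuousLinearMap.le_opNorm (fderiv ℝ Pool.Agent.Y184.SP.chi x) w.1
    rw [Real.norm_eq_abs] at h2
    exact h2.trans (mul_le_mul_of_nonneg_right (hM x hxn).1 (norm_nonneg _))
  have hIv : ‖(Complex.I • v).1‖ = ‖v.1‖ ∧ ‖(Complex.I • v).2‖ = ‖v.2‖ := by
    constructor <;> simp
  have u1 := hfu v
  have u2 := hfu (Complex.I • v)
  rw [hIv.1] at u2
  have p1 := dq_bd hk0.le hx hx' hy' v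
  have p2 := dq_bd hk0.le hx hx' hy' (Complex.I • v)
  rw [hIv.1, hIv.2] at p2
  have p0 := (q_bd hk0.le hx hx' hy').2
  have c0 := (chi.2.1 x).1
  have lu := lev_chi chi.1 hM (x, y) v hxn
  have hnm : ‖v.1‖ ^ 2 ≤ nm (x, y) v := by
    unfold nm
    have : 0 ≤ ‖v.2‖ ^ 2 / (1 + ‖y‖ ^ 2) ^ 2 := by positivity
    linarith
  obtain ⟨a, ha⟩ : ∃ a, a = ‖v.1‖ := ⟨_, rfl⟩
  obtain ⟨b, hb⟩ : ∃ b, b = ‖v.2‖ := ⟨_, rfl⟩
  obtain ⟨Y, hY⟩ : ∃ Y, Y = ‖y‖ := ⟨_, rfl⟩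
  have ha0 : 0 ≤ a := by rw [ha]; positivity
  have hb0 : 0 ≤ b := by rw [hb]; positivity
  have hY0 : 0 ≤ Y := by rw [hY]; positivity
  simp only [← ha, ← hb, ← hY] at u1 u2 p1 p2 p0 lu hnm hy hy' ⊢
  have hYM : Y * M ≤ ε / 8000 := le_trans (mul_le_mul_of_nonneg_right hy.le hM0) hη1
  have t1 : 0 ≤ Pool.Agent.Y184.SP.chi x * lev (fun t => Real.log (q k t)) (x, y) v :=
    mul_nonneg c0 hP0
  have t2 : |Real.log (q k (x, y)) * lev (fun t : E => Pool.Agent.Y184.SP.chi t.1) (x, y) v| ≤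
      (32 * Y + 2 * k) * (2 * M * a ^ 2) := by
    rw [abs_mul]
    exact mul_le_mul p0 lu (abs_nonneg _) (by positivity)
  have t3 : |fderiv ℝ (fun t : E => Pool.Agent.Y184.SP.chi t.1) (x, y) v *
      fderiv ℝ (fun t => Real.log (q k t)) (x, y) v| ≤
      (M * a) * (36 * b + (300 * Y + 2 * k) * a) := by
    rw [abs_mul]
    exact mul_le_mul u1 p1 (abs_nonneg _) (by positivity)
  have t4 : |fderiv ℝ (fun t : E => Pool.Agent.Y184.SP.chi t.1) (x, y) (Complex.I • v) *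
      fderiv ℝ (fun t => Real.log (q k t)) (x, y) (Complex.I • v)| ≤
      (M * a) * (36 * b + (300 * Y + 2 * k) * a) := by
    rw [abs_mul]
    exact mul_le_mul u2 p2 (abs_nonneg _) (by positivity)
  have t2' := (abs_le.mp t2).1
  have t3' := (abs_le.mp t3).1
  have t4' := (abs_le.mp t4).1
  have t5 : 144 * M * a * b ≤ ε / 2 * a ^ 2 + C * (4 * b ^ 2) := by
    rw [hC]
    have h1 : (144 * M) ^ 2 / (8 * ε) * (4 * b ^ 2) = (144 * M * b) ^ 2 / (2 * ε) := by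
      field_simp
      ring
    rw [h1]
    have h2 : 0 ≤ (ε * a - 144 * M * b) ^ 2 / (2 * ε) := by positivity
    have h3 : (ε * a - 144 * M * b) ^ 2 / (2 * ε) =
        ε / 2 * a ^ 2 - 144 * M * a * b + (144 * M * b) ^ 2 / (2 * ε) := by
      field_simp
      ring
    linarith
  have t6 : (1264 * (Y * M) + 12 * (k * M)) * a ^ 2 ≤ ε / 2 * a ^ 2 :=
    mul_le_mul_of_nonneg_right (by linarith) (by positivity)
  have t7 : ε * a ^ 2 ≤ ε * nm (x, y) v := mul_le_mul_of_nonneg_left hnm hε.le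
  linarith

end Pool.Agent.Q22.SP
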