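import Pool.Agent.Q22.SP.Stm

set_option autoImplicit false

open Set Topology Filter
open scoped ContDiff Manifold

namespace Pool.Agent.Q22.SP

open Pool.Agent.Y184.SP

/-- the number `exp (-2π)` -/
noncomputable def sigQ : ℂ := ((Real.exp (-(2 * Real.pi)) : ℝ) : ℂ)

theorem norm_sigQ : ‖sigQ‖ = Real.exp (-(2 * Real.pi)) := by
  unfold sigQ
  rw [Complex.norm_real, Real.norm_eq_abs, abs_of_pos (Real.exp_pos _)]

theorem norm_sigQ_lt : ‖sigQ‖ < 1 := by
  rw [norm_sigQ, Real.exp_lt_one_iff]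
  have := Real.pi_pos
  linarith

theorem sigQ_eq : sigQ = Complex.exp (-(2 * Real.pi)) := by
  unfold sigQ
  push_cast
  rfl

theorem sigQ_pow (n : ℕ) : sigQ ^ n = Complex.exp (-(2 * Real.pi * n)) := by
  rw [sigQ_eq, ← Complex.exp_nat_mul]
  congr 1
  ring

/-- the infinite product `∏ (1 - Q^n z)` -/
noncomputable def sigP (z : ℂ) : ℂ := ∏' n : ℕ, (1 + -(sigQ ^ n * z))

theorem sigP_summable (z : ℂ) : Summable fun n : ℕ => ‖-(sigQ ^ n * z)‖ := by
  have h : (fun n : ℕ => ‖-(sigQ ^ n * z)‖) = fun n : ℕ => ‖sigQ‖ ^ n * ‖z‖ := by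
    funext n
    rw [norm_neg, norm_mul, norm_pow]
  rw [h]
  exact (summable_geometric_of_lt_one (norm_nonneg _) norm_sigQ_lt).mul_right _

theorem sigP_mult (z : ℂ) : Multipliable fun n : ℕ => (1 + -(sigQ ^ n * z)) :=
  multipliable_one_add_of_summable (sigP_summable z)

theorem sigP_zero_iff (z : ℂ) : sigP z = 0 ↔ ∃ n : ℕ, sigQ ^ n * z = 1 := by
  constructor
  · intro h
    by_contra hcon
    push Not at hcon
    refine tprod_one_add_ne_zero_of_summable (f := fun n : ℕ => -(sigQ ^ n * z)) ?_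
      (sigP_summable z) h
    intro n hn
    apply hcon n
    linear_combination -hn
  · rintro ⟨n, hn⟩
    unfold sigP
    apply tprod_of_exists_eq_zero
    exact ⟨n, by rw [hn]; ring⟩

theorem sigP_step (z : ℂ) : sigP z = (1 - z) * sigP (sigQ * z) := by
  unfold sigP
  rw [tprod_eq_zero_mul']
  · congr 1
    · rw [pow_zero, one_mul, sub_eq_add_neg]
    · refine tprod_congr fun n => ?_
      rw [pow_succ, mul_assoc]
  · have h := sigP_mult (sigQ * z)
    refine h.congr fun n => ?_
    rw [pow_succ, mul_assoc]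

theorem sigP_diff : Differentiable ℂ sigP := by
  have h1 : HasProdLocallyUniformlyOn (fun (n : ℕ) (z : ℂ) => 1 + -(sigQ ^ n * z)) sigP
      Set.univ := by
    apply hasProdLocallyUniformlyOn_of_forall_compact isOpen_univ
    intro K _ hK
    obtain ⟨C, hC⟩ := hK.isBounded.exists_norm_le
    refine ((summable_geometric_of_lt_one (norm_nonneg _) norm_sigQ_lt).mul_right
      C).hasProdUniformlyOn_nat_one_add hK (.of_forall fun n x hx => ?_) (fun _ => by fun_prop)
    rw [norm_neg, norm_mul, norm_pow]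
    exact mul_le_mul_of_nonneg_left (hC x hx) (by positivity)
  have h2 : DifferentiableOn ℂ sigP Set.univ :=
    h1.differentiableOn (.of_forall fun s => by
      simpa [Finset.prod_fn] using DifferentiableOn.finsetProd (fun _ _ => by fun_prop))
      isOpen_univ
  exact differentiableOn_univ.1 h2

/-- the function of SIG -/
noncomputable def sigF (x : ℂ) : ℂ :=
  Complex.exp (-(Real.pi * Complex.I * x)) *
    (sigP (Complex.exp (2 * Real.pi * Complex.I * x)) *
      sigP (sigQ * Complex.exp (-(2 * Real.pi * Complex.I * x))))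

theorem sigF_diff : Differentiable ℂ sigF := by
  unfold sigF
  have := sigP_diff
  fun_prop

theorem exp_eq_one_iff' (n : ℕ) (x : ℂ) :
    sigQ ^ n * Complex.exp (2 * Real.pi * Complex.I * x) = 1 ↔
      ∃ k : ℤ, x = k - n * Complex.I := by
  rw [sigQ_pow, ← Complex.exp_add, Complex.exp_eq_one_iff]
  have hpi : (Real.pi : ℂ) ≠ 0 := by exact_mod_cast Real.pi_ne_zero
  have hI := Complex.I_sq
  constructor
  · rintro ⟨k, hk⟩
    refine ⟨k, ?_⟩
    have h1 : (2 * Real.pi * Complex.I : ℂ) * (x - (k - n * Complex.I)) = 0 := by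
      linear_combination hk + (2 * Real.pi * n : ℂ) * hI
    rcases mul_eq_zero.1 h1 with h2 | h2
    · exact absurd h2 (by simp [hpi])
    · linear_combination h2
  · rintro ⟨k, rfl⟩
    refine ⟨k, ?_⟩
    linear_combination (-(2 * Real.pi * n : ℂ)) * hI

theorem exp_eq_one_iff'' (n : ℕ) (x : ℂ) :
    sigQ ^ n * (sigQ * Complex.exp (-(2 * Real.pi * Complex.I * x))) = 1 ↔
      ∃ k : ℤ, x = k + ((n : ℂ) + 1) * Complex.I := by
  have h := exp_eq_one_iff' (n + 1) (-x)
  have e : sigQ ^ n * (sigQ * Complex.exp (-(2 * Real.pi * Complex.I * x))) =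
      sigQ ^ (n + 1) * Complex.exp (2 * Real.pi * Complex.I * -x) := by
    rw [pow_succ, mul_neg]
    ring
  rw [e, h]
  constructor
  · rintro ⟨k, hk⟩
    refine ⟨-k, ?_⟩
    push_cast at hk ⊢
    linear_combination -hk
  · rintro ⟨k, hk⟩
    refine ⟨-k, ?_⟩
    push_cast
    linear_combination -hk

theorem sigF_zero_iff (x : ℂ) : sigF x = 0 ↔ x ∈ Lam := by
  unfold sigF
  rw [mul_eq_zero, mul_eq_zero, sigP_zero_iff, sigP_zero_iff]
  constructor
  · rintro (h | ⟨n, h⟩ | ⟨n, h⟩)
    · exact absurd h (Complex.exp_ne_zero _)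
    · obtain ⟨k, rfl⟩ := (exp_eq_one_iff' n x).1 h
      exact ⟨k, -n, by push_cast; ring⟩
    · obtain ⟨k, rfl⟩ := (exp_eq_one_iff'' n x).1 h
      exact ⟨k, n + 1, by push_cast; ring⟩
  · rintro ⟨a, b, rfl⟩
    right
    rcases le_or_gt b 0 with hb | hb
    · left
      obtain ⟨n, hn⟩ := Int.eq_ofNat_of_zero_le (neg_nonneg.2 hb)
      refine ⟨n, (exp_eq_one_iff' n _).2 ⟨a, ?_⟩⟩
      have : (b : ℂ) = -(n : ℂ) := by
        have h1 : b = -(n : ℤ) := by omega
        rw [h1]; push_cast; rfl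
      rw [this]; ring
    · right
      obtain ⟨n, hn⟩ := Int.eq_ofNat_of_zero_le (show 0 ≤ b - 1 by omega)
      refine ⟨n, (exp_eq_one_iff'' n _).2 ⟨a, ?_⟩⟩
      have : (b : ℂ) = (n : ℂ) + 1 := by
        have h1 : b = (n : ℤ) + 1 := by omega
        rw [h1]; push_cast; rfl
      rw [this]

theorem sigF_one (x : ℂ) : ‖sigF (x + 1)‖ = ‖sigF x‖ := by
  unfold sigF
  have e1 : Complex.exp (2 * Real.pi * Complex.I * (x + 1)) =
      Complex.exp (2 * Real.pi * Complex.I * x) := by
    rw [mul_add, mul_one, Complex.exp_add, Complex.exp_two_pi_mul_I, mul_one]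
  have e2 : Complex.exp (-(2 * Real.pi * Complex.I * (x + 1))) =
      Complex.exp (-(2 * Real.pi * Complex.I * x)) := by
    rw [Complex.exp_neg, Complex.exp_neg, e1]
  have e3 : ‖Complex.exp (-(Real.pi * Complex.I * (x + 1)))‖ =
      ‖Complex.exp (-(Real.pi * Complex.I * x))‖ := by
    rw [Complex.norm_exp, Complex.norm_exp]
    congr 1
    simp
  rw [e1, e2, norm_mul, e3, ← norm_mul]

theorem sigF_I (x : ℂ) : sigF (x + Complex.I) =
    -(Complex.exp Real.pi * Complex.exp (-(2 * Real.pi * Complex.I * x))) * sigF x := by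
  have hz : Complex.exp (2 * Real.pi * Complex.I * x) *
      Complex.exp (-(2 * Real.pi * Complex.I * x)) = 1 := by
    rw [← Complex.exp_add, add_neg_cancel, Complex.exp_zero]
  have hI := Complex.I_sq
  have e1 : Complex.exp (2 * Real.pi * Complex.I * (x + Complex.I)) =
      sigQ * Complex.exp (2 * Real.pi * Complex.I * x) := by
    rw [sigQ_eq, ← Complex.exp_add]
    congr 1
    linear_combination (2 * Real.pi : ℂ) * hI
  have e2 : sigQ * Complex.exp (-(2 * Real.pi * Complex.I * (x + Complex.I))) =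
      Complex.exp (-(2 * Real.pi * Complex.I * x)) := by
    rw [sigQ_eq, ← Complex.exp_add]
    congr 1
    linear_combination (-(2 * Real.pi : ℂ)) * hI
  have e3 : Complex.exp (-(Real.pi * Complex.I * (x + Complex.I))) =
      Complex.exp Real.pi * Complex.exp (-(Real.pi * Complex.I * x)) := by
    rw [← Complex.exp_add]
    congr 1
    linear_combination (-(Real.pi : ℂ)) * hI
  unfold sigF
  rw [e1, e2, e3, sigP_step (Complex.exp (-(2 * Real.pi * Complex.I * x))),
    sigP_step (Complex.exp (2 * Real.pi * Complex.I * x))]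
  set a := Complex.exp (2 * Real.pi * Complex.I * x)
  set b := Complex.exp (-(2 * Real.pi * Complex.I * x))
  set c := Complex.exp (-(Real.pi * Complex.I * x))
  linear_combination (-(Complex.exp Real.pi * c * sigP (sigQ * a) * sigP (sigQ * b))) * hz

theorem sigF_deriv : deriv sigF 0 ≠ 0 := by
  have hP := sigP_diff
  let R : ℂ → ℂ := fun x => Complex.exp (-(Real.pi * Complex.I * x)) *
    (sigP (sigQ * Complex.exp (2 * Real.pi * Complex.I * x)) *
      sigP (sigQ * Complex.exp (-(2 * Real.pi * Complex.I * x))))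
  have hR : Differentiable ℂ R := by
    simp only [R]
    fun_prop
  have h1 : sigF = fun x => (1 - Complex.exp (2 * Real.pi * Complex.I * x)) * R x := by
    funext x
    simp only [R]
    unfold sigF
    rw [sigP_step (Complex.exp (2 * Real.pi * Complex.I * x))]
    ring
  have h2 : HasDerivAt (fun x : ℂ => 1 - Complex.exp (2 * Real.pi * Complex.I * x))
      (-(2 * Real.pi * Complex.I)) 0 := by
    have h3 : HasDerivAt (fun x : ℂ => 2 * Real.pi * Complex.I * x) (2 * Real.pi * Complex.I) 0 := by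
      simpa using (hasDerivAt_id (0 : ℂ)).const_mul (2 * Real.pi * Complex.I)
    have h4 := (h3.cexp).const_sub 1
    simpa using h4
  have h5 : HasDerivAt sigF (-(2 * Real.pi * Complex.I) * R 0 +
      (1 - Complex.exp (2 * Real.pi * Complex.I * 0)) * deriv R 0) 0 := by
    rw [h1]
    exact h2.mul (hR 0).hasDerivAt
  rw [h5.deriv]
  have h6 : (1 - Complex.exp (2 * Real.pi * Complex.I * 0)) = 0 := by simp
  rw [h6, zero_mul, add_zero]
  have hQ : sigP sigQ ≠ 0 := by
    intro h
    obtain ⟨n, hn⟩ := (sigP_zero_iff _).1 h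
    have h7 := congrArg norm hn
    rw [norm_mul, norm_pow, norm_one] at h7
    have h8 : ‖sigQ‖ ^ n * ‖sigQ‖ < 1 := by
      have h9 : ‖sigQ‖ ^ n ≤ 1 := pow_le_one₀ (norm_nonneg _) norm_sigQ_lt.le
      have h10 := norm_nonneg sigQ
      nlinarith [norm_sigQ_lt]
    linarith
  have h11 : R 0 = sigP sigQ * sigP sigQ := by
    simp only [R]
    simp
  rw [h11]
  have hpi : (Real.pi : ℂ) ≠ 0 := by exact_mod_cast Real.pi_ne_zero
  have h12 : (-(2 * Real.pi * Complex.I) : ℂ) ≠ 0 := by simp [hpi]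
  exact mul_ne_zero h12 (mul_ne_zero hQ hQ)

theorem t_SIG : S_SIG := by
  refine ⟨sigF, sigF_diff, sigF_zero_iff, sigF_deriv, sigF_one, fun x => ?_⟩
  rw [sigF_I, norm_mul, norm_neg, norm_mul, Complex.norm_exp, Complex.norm_exp, ← Real.exp_add]
  congr 2
  simp
  ring

end Pool.Agent.Q22.SP
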