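import Pool.Agent.Q22.SP.Stm

/-!
# Project SP (helper22), job TRE (helper256): transitions at exceptional points
-/

set_option autoImplicit false

open Set Topology Filter
open scoped ContDiff Manifold

namespace Pool.Agent.Q22.SP

open Pool.Agent.Y184.SP

namespace TRE

theorem PP0 (z : E) : PP 0 z = .ord (cls z.1) (some z.2) := rfl

theorem PP1 (z : E) : PP 1 z = .ord (cls z.1) (if z.2 = 0 then none else some z.2⁻¹) := by
  simp [PP]

theorem PP2 (z : E) (h : z.2 ≠ 0) : PP 2 z = .ord (cls (tr 2 z).1) (some (tr 2 z).2) := by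
  simp [PP, h]

theorem PP2' (z : E) (h : z.2 = 0) : PP 2 z = .e1 (some z.1) := by
  simp [PP, h]

theorem PP3 (z : E) (h : z.1 ≠ 0) (h' : z.2 ≠ 0) :
    PP 3 z = .ord (cls (tr 3 z).1) (some (tr 3 z).2) := by
  simp [PP, h, h']

theorem PP3a (z : E) (h : z.1 = 0) : PP 3 z = .e1 (if z.2 = 0 then none else some z.2⁻¹) := by
  simp [PP, h]

theorem PP3b (z : E) (h : z.1 ≠ 0) (h' : z.2 = 0) : PP 3 z = .e2 z.1⁻¹ := by
  simp [PP, h, h']

theorem PP4 (z : E) (h : z.1 ≠ 0) : PP 4 z = .ord (cls (tr 4 z).1) (some (tr 4 z).2) := by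
  simp [PP, h]

theorem PP4' (z : E) (h : z.1 = 0) : PP 4 z = .e2 z.2 := by
  simp [PP, h]

theorem nonord (i : Fin 5) (z : E) (h : ∀ x y, PP i z ≠ .ord x y) :
    (i = 2 ∧ z.2 = 0) ∨ (i = 3 ∧ z.1 = 0) ∨ (i = 3 ∧ z.1 ≠ 0 ∧ z.2 = 0) ∨ (i = 4 ∧ z.1 = 0) := by
  fin_cases i
  · exact absurd (PP0 z) (h _ _)
  · exact absurd (PP1 z) (h _ _)
  · left
    refine ⟨rfl, ?_⟩
    by_contra hz
    exact h _ _ (PP2 z hz)
  · right
    by_cases hz : z.1 = 0
    · exact Or.inl ⟨rfl, hz⟩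
    · refine Or.inr (Or.inl ⟨rfl, hz, ?_⟩)
      by_contra hz'
      exact h _ _ (PP3 z hz hz')
  · right; right; right
    refine ⟨rfl, ?_⟩
    by_contra hz
    exact h _ _ (PP4 z hz)

theorem idcase (j : Fin 5) (z z' : E) (h : z = z') : ∃ φ : E → E, AnalyticAt ℂ φ z ∧ φ z = z' ∧
    ∀ᶠ t in 𝓝 z, PP j (φ t) = PP j t :=
  ⟨fun t => t, analyticAt_id, h, Eventually.of_forall fun _ => rfl⟩

end TRE

/-- Job TRE. -/
theorem t_TRE : S_TRE := by
  intro i j z z' _ _ h hn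
  have hn' : ∀ x y, PP j z' ≠ .ord x y := by
    intro x y hh
    exact hn x y (h.trans hh)
  have hfst : AnalyticAt ℂ (fun t : E => t.1) z := analyticAt_fst
  have hsnd : AnalyticAt ℂ (fun t : E => t.2) z := analyticAt_snd
  have c1 : z.1 ≠ 0 → ∀ᶠ t in 𝓝 z, t.1 ≠ 0 := fun hz =>
    continuous_fst.continuousAt.eventually_ne hz
  have c2 : z.2 ≠ 0 → ∀ᶠ t in 𝓝 z, t.2 ≠ 0 := fun hz =>
    continuous_snd.continuousAt.eventually_ne hz
  rcases TRE.nonord i z hn with ⟨rfl, hz⟩ | ⟨rfl, hz⟩ | ⟨rfl, hz, hzb⟩ | ⟨rfl, hz⟩ <;>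
    rcases TRE.nonord j z' hn' with ⟨rfl, hz'⟩ | ⟨rfl, hz'⟩ | ⟨rfl, hz', hzb'⟩ | ⟨rfl, hz'⟩
  -- (2,2)
  · rw [TRE.PP2' z hz, TRE.PP2' z' hz', Pt.e1.injEq, Option.some.injEq] at h
    exact TRE.idcase 2 z z' (Prod.ext h (hz.trans hz'.symm))
  -- (2,3a)
  · rw [TRE.PP2' z hz, TRE.PP3a z' hz', Pt.e1.injEq] at h
    by_cases h0 : z'.2 = 0
    · rw [if_pos h0] at h
      simp at h
    · rw [if_neg h0, Option.some.injEq] at h
      have hz1 : z.1 ≠ 0 := by rw [h]; exact inv_ne_zero h0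
      refine ⟨fun t => (t.1 ^ 2 * t.2, t.1⁻¹), ((hfst.pow 2).mul hsnd).prod (hfst.inv hz1), ?_, ?_⟩
      · refine Prod.ext ?_ ?_
        · show z.1 ^ 2 * z.2 = z'.1
          rw [hz, hz', mul_zero]
        · show z.1⁻¹ = z'.2
          rw [h, inv_inv]
      · refine (c1 hz1).mono fun t ht => ?_
        by_cases ht2 : t.2 = 0
        · rw [TRE.PP2' t ht2]
          refine (TRE.PP3a (t.1 ^ 2 * t.2, t.1⁻¹) (by simp [ht2])).trans ?_
          show Pt.e1 (if t.1⁻¹ = 0 then none else some (t.1⁻¹)⁻¹) = _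
          rw [if_neg (inv_ne_zero ht), inv_inv]
        · rw [TRE.PP2 t ht2]
          refine (TRE.PP3 (t.1 ^ 2 * t.2, t.1⁻¹) (mul_ne_zero (pow_ne_zero 2 ht) ht2)
            (inv_ne_zero ht)).trans ?_
          have e : tr 3 (t.1 ^ 2 * t.2, t.1⁻¹) = tr 2 t := by
            refine Prod.ext ?_ ?_
            · show t.1 ^ 2 * t.2 * t.1⁻¹ = t.1 * t.2
              field_simp
            · show t.1 ^ 2 * t.2 * t.1⁻¹ ^ 2 + t.1 ^ 2 * t.2 * t.1⁻¹ = t.2 + t.1 * t.2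
              field_simp
          rw [e]
  -- (2,3b)
  · rw [TRE.PP2' z hz, TRE.PP3b z' hz' hzb'] at h
    simp at h
  -- (2,4)
  · rw [TRE.PP2' z hz, TRE.PP4' z' hz'] at h
    simp at h
  -- (3a,2)
  · rw [TRE.PP3a z hz, TRE.PP2' z' hz', Pt.e1.injEq] at h
    by_cases h0 : z.2 = 0
    · rw [if_pos h0] at h
      simp at h
    · rw [if_neg h0, Option.some.injEq] at h
      refine ⟨fun t => (t.2⁻¹, t.1 * t.2 ^ 2), (hsnd.inv h0).prod (hfst.mul (hsnd.pow 2)), ?_, ?_⟩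
      · refine Prod.ext h ?_
        show z.1 * z.2 ^ 2 = z'.2
        rw [hz, hz', zero_mul]
      · refine (c2 h0).mono fun t ht => ?_
        by_cases ht1 : t.1 = 0
        · rw [TRE.PP3a t ht1, if_neg ht]
          exact TRE.PP2' (t.2⁻¹, t.1 * t.2 ^ 2) (by simp [ht1])
        · rw [TRE.PP3 t ht1 ht]
          refine (TRE.PP2 (t.2⁻¹, t.1 * t.2 ^ 2) (mul_ne_zero ht1 (pow_ne_zero 2 ht))).trans ?_
          have e : tr 2 (t.2⁻¹, t.1 * t.2 ^ 2) = tr 3 t := by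
            refine Prod.ext ?_ ?_
            · show t.2⁻¹ * (t.1 * t.2 ^ 2) = t.1 * t.2
              field_simp
            · show t.1 * t.2 ^ 2 + t.2⁻¹ * (t.1 * t.2 ^ 2) = t.1 * t.2 ^ 2 + t.1 * t.2
              field_simp
          rw [e]
  -- (3a,3a)
  · rw [TRE.PP3a z hz, TRE.PP3a z' hz', Pt.e1.injEq] at h
    refine TRE.idcase 3 z z' (Prod.ext (hz.trans hz'.symm) ?_)
    by_cases h0 : z.2 = 0
    · by_cases h0' : z'.2 = 0
      · rw [h0, h0']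
      · rw [if_pos h0, if_neg h0'] at h
        simp at h
    · by_cases h0' : z'.2 = 0
      · rw [if_neg h0, if_pos h0'] at h
        simp at h
      · rw [if_neg h0, if_neg h0', Option.some.injEq] at h
        exact inv_injective h
  -- (3a,3b)
  · rw [TRE.PP3a z hz, TRE.PP3b z' hz' hzb'] at h
    simp at h
  -- (3a,4)
  · rw [TRE.PP3a z hz, TRE.PP4' z' hz'] at h
    simp at h
  -- (3b,2)
  · rw [TRE.PP3b z hz hzb, TRE.PP2' z' hz'] at h
    simp at h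
  -- (3b,3a)
  · rw [TRE.PP3b z hz hzb, TRE.PP3a z' hz'] at h
    simp at h
  -- (3b,3b)
  · rw [TRE.PP3b z hz hzb, TRE.PP3b z' hz' hzb', Pt.e2.injEq] at h
    exact TRE.idcase 3 z z' (Prod.ext (inv_injective h) (hzb.trans hzb'.symm))
  -- (3b,4)
  · rw [TRE.PP3b z hz hzb, TRE.PP4' z' hz', Pt.e2.injEq] at h
    refine ⟨fun t => (t.1 * t.2, t.1⁻¹), (hfst.mul hsnd).prod (hfst.inv hz), ?_, ?_⟩
    · refine Prod.ext ?_ h
      show z.1 * z.2 = z'.1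
      rw [hzb, hz', mul_zero]
    · refine (c1 hz).mono fun t ht => ?_
      by_cases ht2 : t.2 = 0
      · rw [TRE.PP3b t ht ht2]
        exact TRE.PP4' (t.1 * t.2, t.1⁻¹) (by simp [ht2])
      · rw [TRE.PP3 t ht ht2]
        refine (TRE.PP4 (t.1 * t.2, t.1⁻¹) (mul_ne_zero ht ht2)).trans ?_
        have e : tr 4 (t.1 * t.2, t.1⁻¹) = tr 3 t := by
          refine Prod.ext rfl ?_
          show (t.1 * t.2) ^ 2 * t.1⁻¹ + t.1 * t.2 = t.1 * t.2 ^ 2 + t.1 * t.2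
          field_simp
        rw [e]
  -- (4,2)
  · rw [TRE.PP4' z hz, TRE.PP2' z' hz'] at h
    simp at h
  -- (4,3a)
  · rw [TRE.PP4' z hz, TRE.PP3a z' hz'] at h
    simp at h
  -- (4,3b)
  · rw [TRE.PP4' z hz, TRE.PP3b z' hz' hzb', Pt.e2.injEq] at h
    have hz2 : z.2 ≠ 0 := by rw [h]; exact inv_ne_zero hz'
    refine ⟨fun t => (t.2⁻¹, t.1 * t.2), (hsnd.inv hz2).prod (hfst.mul hsnd), ?_, ?_⟩
    · refine Prod.ext ?_ ?_
      · show z.2⁻¹ = z'.1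
        rw [h, inv_inv]
      · show z.1 * z.2 = z'.2
        rw [hz, hzb', zero_mul]
    · refine (c2 hz2).mono fun t ht => ?_
      by_cases ht1 : t.1 = 0
      · rw [TRE.PP4' t ht1]
        refine (TRE.PP3b (t.2⁻¹, t.1 * t.2) (inv_ne_zero ht) (by simp [ht1])).trans ?_
        show Pt.e2 (t.2⁻¹)⁻¹ = _
        rw [inv_inv]
      · rw [TRE.PP4 t ht1]
        refine (TRE.PP3 (t.2⁻¹, t.1 * t.2) (inv_ne_zero ht) (mul_ne_zero ht1 ht)).trans ?_
        have e : tr 3 (t.2⁻¹, t.1 * t.2) = tr 4 t := by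
          refine Prod.ext ?_ ?_
          · show t.2⁻¹ * (t.1 * t.2) = t.1
            field_simp
          · show t.2⁻¹ * (t.1 * t.2) ^ 2 + t.2⁻¹ * (t.1 * t.2) = t.1 ^ 2 * t.2 + t.1
            field_simp
        rw [e]
  -- (4,4)
  · rw [TRE.PP4' z hz, TRE.PP4' z' hz', Pt.e2.injEq] at h
    exact TRE.idcase 4 z z' (Prod.ext (hz.trans hz'.symm) h)

end Pool.Agent.Q22.SP
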