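import Pool.Agent.Q22.SP.Stm

/-!
# Project SP (helper22), job TRO (helper256): transitions at ordinary points
-/

set_option autoImplicit false

open Set Topology Filter
open scoped ContDiff Manifold

namespace Pool.Agent.Q22.SP

open Pool.Agent.Y184.SP

namespace TRO

theorem lam_zero : (0 : ℂ) ∈ Lam := ⟨0, 0, by simp⟩

theorem lam_add {a b : ℂ} (ha : a ∈ Lam) (hb : b ∈ Lam) : a + b ∈ Lam := by
  obtain ⟨m, n, rfl⟩ := ha
  obtain ⟨m', n', rfl⟩ := hb
  exact ⟨m + m', n + n', by push_cast; ring⟩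

theorem lam_neg {a : ℂ} (ha : a ∈ Lam) : -a ∈ Lam := by
  obtain ⟨m, n, rfl⟩ := ha
  exact ⟨-m, -n, by push_cast; ring⟩

theorem lam_sub {a b : ℂ} (ha : a ∈ Lam) (hb : b ∈ Lam) : a - b ∈ Lam := by
  rw [sub_eq_add_neg]
  exact lam_add ha (lam_neg hb)

theorem mem_cls_self (x : ℂ) : x ∈ cls x := by
  show x - x ∈ Lam
  rw [sub_self]
  exact lam_zero

theorem cls_add {x l : ℂ} (hl : l ∈ Lam) : cls (x + l) = cls x := by
  ext t
  show t - (x + l) ∈ Lam ↔ t - x ∈ Lam
  constructor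
  · intro h
    have := lam_add h hl
    convert this using 1
    ring
  · intro h
    have := lam_sub h hl
    convert this using 1
    ring

theorem sub_mem_of_cls {x x' : ℂ} (h : cls x = cls x') : x' - x ∈ Lam := by
  have : x' ∈ cls x := by
    rw [h]
    exact mem_cls_self x'
  exact this

theorem PP0 (z : E) : PP 0 z = .ord (cls z.1) (some z.2) := rfl

theorem PP1 (z : E) (h : z.2 ≠ 0) : PP 1 z = .ord (cls z.1) (some z.2⁻¹) := by
  simp [PP, h]

theorem PP1' (z : E) (h : z.2 = 0) : PP 1 z = .ord (cls z.1) none := by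
  simp [PP, h]

theorem PP2 (z : E) (h : z.2 ≠ 0) : PP 2 z = .ord (cls (tr 2 z).1) (some (tr 2 z).2) := by
  simp [PP, h]

theorem PP2' (z : E) (h : z.2 = 0) : PP 2 z = .e1 (some z.1) := by
  simp [PP, h]

theorem PP3 (z : E) (h : z.1 ≠ 0) (h' : z.2 ≠ 0) :
    PP 3 z = .ord (cls (tr 3 z).1) (some (tr 3 z).2) := by
  simp [PP, h, h']

theorem PP3a (z : E) (h : z.1 = 0) : PP 3 z = .e1 (if z.2 = 0 then none else some z.2⁻¹) := by
  simp [PP, h]

theorem PP3b (z : E) (h : z.1 ≠ 0) (h' : z.2 = 0) : PP 3 z = .e2 z.1⁻¹ := by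
  simp [PP, h, h']

theorem PP4 (z : E) (h : z.1 ≠ 0) : PP 4 z = .ord (cls (tr 4 z).1) (some (tr 4 z).2) := by
  simp [PP, h]

theorem PP4' (z : E) (h : z.1 = 0) : PP 4 z = .e2 z.2 := by
  simp [PP, h]

/-- the source -/
theorem source (i : Fin 5) (z : E) (x : Set ℂ) (y : ℂ) (h : PP i z = .ord x (some y)) :
    AnalyticAt ℂ (tr i) z ∧ (tr i z).2 = y ∧ cls (tr i z).1 = x ∧
      ∀ᶠ t in 𝓝 z, PP i t = .ord (cls (tr i t).1) (some (tr i t).2) := by
  have hfst : AnalyticAt ℂ (fun t : E => t.1) z := analyticAt_fst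
  have hsnd : AnalyticAt ℂ (fun t : E => t.2) z := analyticAt_snd
  have c1 : ∀ {z : E}, z.1 ≠ 0 → ∀ᶠ t in 𝓝 z, t.1 ≠ 0 := fun hz =>
    continuous_fst.continuousAt.eventually_ne hz
  have c2 : ∀ {z : E}, z.2 ≠ 0 → ∀ᶠ t in 𝓝 z, t.2 ≠ 0 := fun hz =>
    continuous_snd.continuousAt.eventually_ne hz
  fin_cases i
  · have h' : Pt.ord (cls z.1) (some z.2) = .ord x (some y) := h
    rw [Pt.ord.injEq, Option.some.injEq] at h'
    exact ⟨analyticAt_id, h'.2, h'.1, Eventually.of_forall fun t => rfl⟩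
  · by_cases hz : z.2 = 0
    · have h' := h
      rw [show PP ((fun i => i) ⟨1, by norm_num⟩) z = _ from PP1' z hz] at h'
      simp at h'
    · have h' : Pt.ord (cls z.1) (some z.2⁻¹) = .ord x (some y) := (PP1 z hz).symm.trans h
      rw [Pt.ord.injEq, Option.some.injEq] at h'
      exact ⟨hfst.prod (hsnd.inv hz), h'.2, h'.1, (c2 hz).mono fun t ht => PP1 t ht⟩
  · by_cases hz : z.2 = 0
    · have h' : Pt.e1 (some z.1) = .ord x (some y) := (PP2' z hz).symm.trans h
      simp at h'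
    · have h' : Pt.ord (cls (tr 2 z).1) (some (tr 2 z).2) = .ord x (some y) :=
        (PP2 z hz).symm.trans h
      rw [Pt.ord.injEq, Option.some.injEq] at h'
      exact ⟨(hfst.mul hsnd).prod (hsnd.add (hfst.mul hsnd)), h'.2, h'.1,
        (c2 hz).mono fun t ht => PP2 t ht⟩
  · by_cases hz : z.1 = 0
    · have h' : Pt.e1 (if z.2 = 0 then none else some z.2⁻¹) = .ord x (some y) :=
        (PP3a z hz).symm.trans h
      simp at h'
    · by_cases hz' : z.2 = 0
      · have h' : Pt.e2 z.1⁻¹ = .ord x (some y) := (PP3b z hz hz').symm.trans h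
        simp at h'
      · have h' : Pt.ord (cls (tr 3 z).1) (some (tr 3 z).2) = .ord x (some y) :=
          (PP3 z hz hz').symm.trans h
        rw [Pt.ord.injEq, Option.some.injEq] at h'
        exact ⟨(hfst.mul hsnd).prod ((hfst.mul (hsnd.pow 2)).add (hfst.mul hsnd)), h'.2, h'.1,
          ((c1 hz).and (c2 hz')).mono fun t ht => PP3 t ht.1 ht.2⟩
  · by_cases hz : z.1 = 0
    · have h' : Pt.e2 z.2 = .ord x (some y) := (PP4' z hz).symm.trans h
      simp at h'
    · have h' : Pt.ord (cls (tr 4 z).1) (some (tr 4 z).2) = .ord x (some y) :=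
        (PP4 z hz).symm.trans h
      rw [Pt.ord.injEq, Option.some.injEq] at h'
      exact ⟨hfst.prod (((hfst.pow 2).mul hsnd).add hfst), h'.2, h'.1,
        (c1 hz).mono fun t ht => PP4 t ht⟩

/-- the target -/
theorem target (j : Fin 5) (z : E) (x : Set ℂ) (y : ℂ) (h : PP j z = .ord x (some y)) :
    ∃ inv : E → E, AnalyticAt ℂ inv (tr j z) ∧ inv (tr j z) = z ∧
      ∀ᶠ s in 𝓝 (tr j z), PP j (inv s) = .ord (cls s.1) (some s.2) := by
  have hfst : ∀ z : E, AnalyticAt ℂ (fun t : E => t.1) z := fun z => analyticAt_fst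
  have hsnd : ∀ z : E, AnalyticAt ℂ (fun t : E => t.2) z := fun z => analyticAt_snd
  have c1 : ∀ {z : E}, z.1 ≠ 0 → ∀ᶠ t in 𝓝 z, t.1 ≠ 0 := fun hz =>
    continuous_fst.continuousAt.eventually_ne hz
  have c2 : ∀ {z : E}, z.2 ≠ 0 → ∀ᶠ t in 𝓝 z, t.2 ≠ 0 := fun hz =>
    continuous_snd.continuousAt.eventually_ne hz
  have c3 : ∀ {z : E}, z.2 - z.1 ≠ 0 → ∀ᶠ t in 𝓝 z, t.2 - t.1 ≠ 0 := fun hz =>
    (continuous_snd.sub continuous_fst).continuousAt.eventually_ne hz
  fin_cases j
  · exact ⟨fun s => s, analyticAt_id, rfl, Eventually.of_forall fun t => rfl⟩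
  · by_cases hz : z.2 = 0
    · have h' : Pt.ord (cls z.1) none = .ord x (some y) := (PP1' z hz).symm.trans h
      simp at h'
    · have h2 : (tr 1 z).2 ≠ 0 := inv_ne_zero hz
      refine ⟨fun s => (s.1, s.2⁻¹), (hfst _).prod ((hsnd _).inv h2), ?_, ?_⟩
      · show (z.1, (z.2⁻¹)⁻¹) = z
        rw [inv_inv]
      · refine (c2 h2).mono fun s hs => ?_
        refine (PP1 (s.1, s.2⁻¹) (inv_ne_zero hs)).trans ?_
        show Pt.ord (cls s.1) (some (s.2⁻¹)⁻¹) = _
        rw [inv_inv]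
  · by_cases hz : z.2 = 0
    · have h' : Pt.e1 (some z.1) = .ord x (some y) := (PP2' z hz).symm.trans h
      simp at h'
    · have e1 : (tr 2 z).2 - (tr 2 z).1 = z.2 := by
        show z.2 + z.1 * z.2 - z.1 * z.2 = z.2
        ring
      have h2 : (tr 2 z).2 - (tr 2 z).1 ≠ 0 := by rw [e1]; exact hz
      refine ⟨fun s => (s.1 / (s.2 - s.1), s.2 - s.1),
        ((hfst _).div ((hsnd _).sub (hfst _)) h2).prod ((hsnd _).sub (hfst _)), ?_, ?_⟩
      · show ((tr 2 z).1 / ((tr 2 z).2 - (tr 2 z).1), (tr 2 z).2 - (tr 2 z).1) = z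
        rw [e1]
        refine Prod.ext ?_ rfl
        show z.1 * z.2 / z.2 = z.1
        field_simp
      · refine (c3 h2).mono fun s hs => ?_
        refine (PP2 (s.1 / (s.2 - s.1), s.2 - s.1) hs).trans ?_
        have e2 : tr 2 (s.1 / (s.2 - s.1), s.2 - s.1) = s := by
          refine Prod.ext ?_ ?_
          · show s.1 / (s.2 - s.1) * (s.2 - s.1) = s.1
            exact div_mul_cancel₀ _ hs
          · show (s.2 - s.1) + s.1 / (s.2 - s.1) * (s.2 - s.1) = s.2
            rw [div_mul_cancel₀ _ hs]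
            ring
        rw [e2]
  · by_cases hz : z.1 = 0
    · have h' : Pt.e1 (if z.2 = 0 then none else some z.2⁻¹) = .ord x (some y) :=
        (PP3a z hz).symm.trans h
      simp at h'
    · by_cases hz' : z.2 = 0
      · have h' : Pt.e2 z.1⁻¹ = .ord x (some y) := (PP3b z hz hz').symm.trans h
        simp at h'
      · have e0 : (tr 3 z).1 = z.1 * z.2 := rfl
        have e1 : (tr 3 z).2 - (tr 3 z).1 = z.1 * z.2 ^ 2 := by
          show z.1 * z.2 ^ 2 + z.1 * z.2 - z.1 * z.2 = z.1 * z.2 ^ 2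
          ring
        have h1 : (tr 3 z).1 ≠ 0 := mul_ne_zero hz hz'
        have h2 : (tr 3 z).2 - (tr 3 z).1 ≠ 0 := by
          rw [e1]; exact mul_ne_zero hz (pow_ne_zero 2 hz')
        refine ⟨fun s => (s.1 ^ 2 / (s.2 - s.1), (s.2 - s.1) / s.1),
          (((hfst _).pow 2).div ((hsnd _).sub (hfst _)) h2).prod
            (((hsnd _).sub (hfst _)).div (hfst _) h1), ?_, ?_⟩
        · show ((tr 3 z).1 ^ 2 / ((tr 3 z).2 - (tr 3 z).1),
            ((tr 3 z).2 - (tr 3 z).1) / (tr 3 z).1) = z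
          rw [e1, e0]
          refine Prod.ext ?_ ?_
          · show (z.1 * z.2) ^ 2 / (z.1 * z.2 ^ 2) = z.1
            field_simp
          · show z.1 * z.2 ^ 2 / (z.1 * z.2) = z.2
            field_simp
        · refine ((c1 h1).and (c3 h2)).mono fun s hs => ?_
          have hs1 := hs.1
          have hs2 := hs.2
          refine (PP3 (s.1 ^ 2 / (s.2 - s.1), (s.2 - s.1) / s.1)
            (div_ne_zero (pow_ne_zero 2 hs1) hs2) (div_ne_zero hs2 hs1)).trans ?_
          have e2 : tr 3 (s.1 ^ 2 / (s.2 - s.1), (s.2 - s.1) / s.1) = s := by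
            have e3 : s.1 ^ 2 / (s.2 - s.1) * ((s.2 - s.1) / s.1) = s.1 := by
              field_simp
            refine Prod.ext e3 ?_
            show s.1 ^ 2 / (s.2 - s.1) * ((s.2 - s.1) / s.1) ^ 2 +
              s.1 ^ 2 / (s.2 - s.1) * ((s.2 - s.1) / s.1) = s.2
            rw [pow_two ((s.2 - s.1) / s.1), ← mul_assoc, e3, mul_div_cancel₀ _ hs1]
            ring
          rw [e2]
  · by_cases hz : z.1 = 0
    · have h' : Pt.e2 z.2 = .ord x (some y) := (PP4' z hz).symm.trans h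
      simp at h'
    · have h1 : (tr 4 z).1 ≠ 0 := hz
      have e1 : (tr 4 z).2 - (tr 4 z).1 = z.1 ^ 2 * z.2 := by
        show z.1 ^ 2 * z.2 + z.1 - z.1 = z.1 ^ 2 * z.2
        ring
      refine ⟨fun s => (s.1, (s.2 - s.1) / s.1 ^ 2),
        (hfst _).prod (((hsnd _).sub (hfst _)).div ((hfst _).pow 2) (pow_ne_zero 2 h1)), ?_, ?_⟩
      · show ((tr 4 z).1, ((tr 4 z).2 - (tr 4 z).1) / (tr 4 z).1 ^ 2) = z
        rw [e1]
        refine Prod.ext rfl ?_
        show z.1 ^ 2 * z.2 / z.1 ^ 2 = z.2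
        field_simp
      · refine (c1 h1).mono fun s hs => ?_
        refine (PP4 (s.1, (s.2 - s.1) / s.1 ^ 2) hs).trans ?_
        have e2 : tr 4 (s.1, (s.2 - s.1) / s.1 ^ 2) = s := by
          refine Prod.ext rfl ?_
          show s.1 ^ 2 * ((s.2 - s.1) / s.1 ^ 2) + s.1 = s.2
          rw [mul_div_cancel₀ _ (pow_ne_zero 2 hs)]
          ring
        rw [e2]

/-- the value `none` -/
theorem none_case (i : Fin 5) (z : E) (x : Set ℂ) (h : PP i z = .ord x none) :
    i = 1 ∧ z.2 = 0 ∧ cls z.1 = x := by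
  fin_cases i
  · have h' : Pt.ord (cls z.1) (some z.2) = .ord x none := h
    simp at h'
  · by_cases hz : z.2 = 0
    · have h' : Pt.ord (cls z.1) none = .ord x none := (PP1' z hz).symm.trans h
      rw [Pt.ord.injEq] at h'
      exact ⟨rfl, hz, h'.1⟩
    · have h' : Pt.ord (cls z.1) (some z.2⁻¹) = .ord x none := (PP1 z hz).symm.trans h
      simp at h'
  · by_cases hz : z.2 = 0
    · have h' : Pt.e1 (some z.1) = .ord x none := (PP2' z hz).symm.trans h
      simp at h'
    · have h' : Pt.ord (cls (tr 2 z).1) (some (tr 2 z).2) = .ord x none :=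
        (PP2 z hz).symm.trans h
      simp at h'
  · by_cases hz : z.1 = 0
    · have h' : Pt.e1 (if z.2 = 0 then none else some z.2⁻¹) = .ord x none :=
        (PP3a z hz).symm.trans h
      simp at h'
    · by_cases hz' : z.2 = 0
      · have h' : Pt.e2 z.1⁻¹ = .ord x none := (PP3b z hz hz').symm.trans h
        simp at h'
      · have h' : Pt.ord (cls (tr 3 z).1) (some (tr 3 z).2) = .ord x none :=
          (PP3 z hz hz').symm.trans h
        simp at h'
  · by_cases hz : z.1 = 0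
    · have h' : Pt.e2 z.2 = .ord x none := (PP4' z hz).symm.trans h
      simp at h'
    · have h' : Pt.ord (cls (tr 4 z).1) (some (tr 4 z).2) = .ord x none :=
        (PP4 z hz).symm.trans h
      simp at h'

end TRO

/-- Job TRO. -/
theorem t_TRO : S_TRO := by
  intro i j z z' x y _ _ h h'
  rcases y with _ | y
  · obtain ⟨rfl, hz, hx⟩ := TRO.none_case i z x h
    obtain ⟨rfl, hz', hx'⟩ := TRO.none_case j z' x h'
    have hl : z'.1 - z.1 ∈ Lam := TRO.sub_mem_of_cls (hx.trans hx'.symm)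
    refine ⟨fun t => (t.1 + (z'.1 - z.1), t.2),
      (analyticAt_fst.add analyticAt_const).prod analyticAt_snd, ?_,
      Eventually.of_forall fun t => ?_⟩
    · refine Prod.ext ?_ ?_
      · show z.1 + (z'.1 - z.1) = z'.1
        ring
      · show z.2 = z'.2
        rw [hz, hz']
    · by_cases ht : t.2 = 0
      · refine (TRO.PP1' (t.1 + (z'.1 - z.1), t.2) ht).trans ?_
        rw [TRO.PP1' t ht, TRO.cls_add hl]
      · refine (TRO.PP1 (t.1 + (z'.1 - z.1), t.2) ht).trans ?_
        rw [TRO.PP1 t ht, TRO.cls_add hl]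
  · obtain ⟨ha, hy, hx, he⟩ := TRO.source i z x y h
    obtain ⟨_, hy', hx', _⟩ := TRO.source j z' x y h'
    obtain ⟨inv, hia, hiz, hie⟩ := TRO.target j z' x y h'
    have hl : (tr j z').1 - (tr i z).1 ∈ Lam := TRO.sub_mem_of_cls (hx.trans hx'.symm)
    set l := (tr j z').1 - (tr i z).1 with hldef
    have hshift : tr i z + (l, 0) = tr j z' := by
      refine Prod.ext ?_ ?_
      · show (tr i z).1 + l = (tr j z').1
        rw [hldef]
        ring
      · show (tr i z).2 + 0 = (tr j z').2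
        rw [hy, hy', add_zero]
    have hsh : AnalyticAt ℂ (fun t => tr i t + (l, 0)) z := ha.add analyticAt_const
    have hia' : AnalyticAt ℂ (fun t => inv (tr i t + (l, 0))) z :=
      AnalyticAt.fun_comp (f := fun t => tr i t + (l, 0)) (by rw [hshift]; exact hia) hsh
    refine ⟨fun t => inv (tr i t + (l, 0)), hia', ?_, ?_⟩
    · show inv (tr i z + (l, 0)) = z'
      rw [hshift, hiz]
    · have hcont : Tendsto (fun t => tr i t + (l, 0)) (𝓝 z) (𝓝 (tr j z')) := by
        have := hsh.continuousAt.tendsto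
        rwa [hshift] at this
      filter_upwards [he, hcont.eventually hie] with t ht ht'
      rw [ht, ht']
      show Pt.ord (cls ((tr i t).1 + l)) (some ((tr i t).2 + 0)) = _
      rw [TRO.cls_add hl, add_zero]

end Pool.Agent.Q22.SP
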