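import Pool.Agent.Q22.SP.Stm

/-!
# Project SP (helper22), job TRW: comparison of coordinate systems on `W` (helper142)
-/

set_option autoImplicit false

open Set Topology Filter
open scoped ContDiff Manifold

namespace Pool.Agent.Q22.SP

open Pool.Agent.Y184.SP

namespace TRW

theorem zero_mem : (0 : ℂ) ∈ Lam := ⟨0, 0, by simp⟩

theorem sub_mem {a b : ℂ} (ha : a ∈ Lam) (hb : b ∈ Lam) : a - b ∈ Lam := by
  obtain ⟨m, n, rfl⟩ := ha
  obtain ⟨m', n', rfl⟩ := hb
  exact ⟨m - m', n - n', by push_cast; ring⟩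

theorem cls_eq {a b : ℂ} (h : cls a = cls b) : b - a ∈ Lam := by
  have h1 : b ∈ cls b := by
    show b - b ∈ Lam
    rw [sub_self]
    exact zero_mem
  rw [← h] at h1
  exact h1

theorem ne_of_notMem {a : ℂ} (h : a ∉ Lam) : a ≠ 0 := by
  rintro rfl
  exact h zero_mem

/-- the point with coordinates in `W` -/
theorem pp_of_W (i : Fin 5) (z : E) (h : tr i z ∈ W) :
    PP i z = .ord (cls (tr i z).1) (some (tr i z).2) := by
  fin_cases i
  · rfl
  · have h2 : z.2 ≠ 0 := by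
      have : z.2⁻¹ ≠ 0 := h.2
      simpa using this
    show Pt.ord (cls z.1) (if z.2 = 0 then none else some z.2⁻¹) = _
    rw [if_neg h2]
    rfl
  · have h1 : z.1 * z.2 ≠ 0 := ne_of_notMem h.1
    have h2 : z.2 ≠ 0 := right_ne_zero_of_mul h1
    show (if z.2 = 0 then Pt.e1 (some z.1) else .ord (cls (tr 2 z).1) (some (tr 2 z).2)) = _
    rw [if_neg h2]
    rfl
  · have h1 : z.1 * z.2 ≠ 0 := ne_of_notMem h.1
    have h2 : z.2 ≠ 0 := right_ne_zero_of_mul h1
    have h3 : z.1 ≠ 0 := left_ne_zero_of_mul h1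
    show (if z.1 = 0 then Pt.e1 (if z.2 = 0 then none else some z.2⁻¹) else
      if z.2 = 0 then Pt.e2 z.1⁻¹ else .ord (cls (tr 3 z).1) (some (tr 3 z).2)) = _
    rw [if_neg h3, if_neg h2]
    rfl
  · have h1 : z.1 ≠ 0 := ne_of_notMem h.1
    show (if z.1 = 0 then Pt.e2 z.2 else .ord (cls (tr 4 z).1) (some (tr 4 z).2)) = _
    rw [if_neg h1]
    rfl

theorem of_pp (j : Fin 5) (z : E) (X : Set ℂ) (y : ℂ) (h : PP j z = .ord X (some y)) :
    X = cls (tr j z).1 ∧ y = (tr j z).2 := by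
  fin_cases j
  · have h' : Pt.ord (cls z.1) (some z.2) = .ord X (some y) := h
    rw [Pt.ord.injEq, Option.some.injEq] at h'
    exact ⟨h'.1.symm, h'.2.symm⟩
  · have h' : Pt.ord (cls z.1) (if z.2 = 0 then none else some z.2⁻¹) = .ord X (some y) := h
    rw [Pt.ord.injEq] at h'
    split_ifs at h' with h2
    · exact absurd h'.2 (by simp)
    · exact ⟨h'.1.symm, (Option.some.inj h'.2).symm⟩
  · have h' : (if z.2 = 0 then Pt.e1 (some z.1) else .ord (cls (tr 2 z).1) (some (tr 2 z).2)) =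
      .ord X (some y) := h
    split_ifs at h' with h2
    rw [Pt.ord.injEq, Option.some.injEq] at h'
    exact ⟨h'.1.symm, h'.2.symm⟩
  · have h' : (if z.1 = 0 then Pt.e1 (if z.2 = 0 then none else some z.2⁻¹) else
      if z.2 = 0 then Pt.e2 z.1⁻¹ else .ord (cls (tr 3 z).1) (some (tr 3 z).2)) =
      .ord X (some y) := h
    split_ifs at h' with h2 h3
    rw [Pt.ord.injEq, Option.some.injEq] at h'
    exact ⟨h'.1.symm, h'.2.symm⟩
  · have h' : (if z.1 = 0 then Pt.e2 z.2 else .ord (cls (tr 4 z).1) (some (tr 4 z).2)) =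
      .ord X (some y) := h
    split_ifs at h' with h2
    rw [Pt.ord.injEq, Option.some.injEq] at h'
    exact ⟨h'.1.symm, h'.2.symm⟩

end TRW

open TRW in
theorem t_TRW : S_TRW := by
  intro i j z z' _ _ hPP hW
  rw [pp_of_W i z hW] at hPP
  obtain ⟨h1, h2⟩ := of_pp j z' _ _ hPP.symm
  have h3 := cls_eq h1
  refine ⟨⟨fun h4 => hW.1 ?_, ?_⟩, h2.symm, h3⟩
  · have h5 := sub_mem h4 h3
    rwa [sub_sub_cancel] at h5
  · rw [← h2]
    exact hW.2

end Pool.Agent.Q22.SP
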