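import Pool.Agent.Q22.SP.FIN
import Pool.Agent.Y625.SP.Max
import Pool.Agent.Q22.SP.LDISC
import Pool.Agent.Q22.SP.LOPS
import Pool.Agent.Q22.SP.LLOG
import Pool.Agent.Q22.SP.CHI
import Pool.Agent.Q22.SP.DENS
import Pool.Agent.Q22.SP.CLEV
import Pool.Agent.Q22.SP.GEXT
import Pool.Agent.Q22.SP.SIG
import Pool.Agent.Q22.SP.GRE
import Pool.Agent.Q22.SP.LIOU
import Pool.Agent.Q22.SP.RES
import Pool.Agent.Q22.SP.PHIS
import Pool.Agent.Q22.SP.PHI0
import Pool.Agent.Q22.SP.PHI1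
import Pool.Agent.Q22.SP.PHI2
import Pool.Agent.Q22.SP.PSIM
import Pool.Agent.Q22.SP.PSIL
import Pool.Agent.Q22.SP.PSI0
import Pool.Agent.Q22.SP.PSI2
import Pool.Agent.Q22.SP.PSI
import Pool.Agent.Q22.SP.RING
import Pool.Agent.Q22.SP.NEAR
import Pool.Agent.Q22.SP.CMP
import Pool.Agent.Q22.SP.FARL
import Pool.Agent.Q22.SP.FARE
import Pool.Agent.Q22.SP.NEARE
import Pool.Agent.Q22.SP.NEF
import Pool.Agent.Q22.SP.BIGL
import Pool.Agent.Q22.SP.BIG
import Pool.Agent.Q22.SP.HARM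
import Pool.Agent.Q22.SP.N1
import Pool.Agent.Q22.SP.N2
import Pool.Agent.Q22.SP.N3
import Pool.Agent.Q22.SP.N4
import Pool.Agent.Q22.SP.NOT
import Pool.Agent.Q22.SP.GLUE
import Pool.Agent.Q22.SP.TRW
import Pool.Agent.Q22.SP.INJ
import Pool.Agent.Q22.SP.TRO
import Pool.Agent.Q22.SP.TRE
import Pool.Agent.Q22.SP.HAUS
import Pool.Agent.Q22.SP.COMP
import Pool.Agent.Q22.SP.CONN
import Pool.Agent.Q22.SP.DISCC
import Pool.Agent.Q22.SP.FORM
import Pool.Agent.Q22.SP.REPV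
import Pool.Agent.Q22.SP.FUN
import Pool.Agent.Q22.SP.FUNR
import Pool.Agent.Q22.SP.INEQ2
import Pool.Agent.Q22.SP.INEQR
import Pool.Agent.Q22.SP.ACL
import Pool.Agent.Q22.SP.ALIM

set_option autoImplicit false

open Set Topology Filter
open scoped ContDiff Manifold

namespace Pool.Agent.Q22.SP

open Pool.Agent.Y184.SP

namespace ALL

theorem lo : S_LOPS := t_LOPS t_LDISC
theorem ll : S_LLOG := t_LLOG t_LDISC lo
theorem clev : S_CLEV := t_CLEV t_DENS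
theorem gext : S_GEXT := t_GEXT t_DENS
theorem stG : StG := t_GRE t_SIG
theorem phis : S_PHIS := t_PHIS t_CHI ll
theorem phi : ∀ j, ∀ z ∈ V j, ∃ ρ, PotAt Phi j z ρ := by
  intro j z hz
  rcases Nat.lt_or_ge j.1 2 with h | h
  · rcases Nat.lt_or_ge j.1 1 with h0 | h0
    · have : j = 0 := by ext; simpa using h0
      subst this
      exact t_PHI0 t_CHI lo ll phis z hz
    · have : j = 1 := by ext; simp; omega
      subst this
      exact t_PHI1 t_CHI lo ll phis z hz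
  · exact t_PHI2 t_CHI lo ll j h z hz
theorem psi : StPsi :=
  t_PSI lo t_DENS clev phis (t_PSIL t_CHI lo ll phis (t_PSIM t_CHI lo ll phis))
    (t_PSI0 t_CHI lo ll phis) (t_PSI2 t_CHI lo ll)
theorem farl : S_FARL := t_FARL lo ll
theorem fare : S_FARE := t_FARE t_CHI ll phis
theorem nef : StNef :=
  t_NEF t_CHI lo phis (t_NEAR t_CHI lo ll (t_RING t_CHI lo ll)) (t_CMP t_CHI)
    Pool.Agent.Y625.SP.max_thm farl fare (t_NEARE t_CHI ll phis)
theorem big : StBig := t_BIG t_CHI lo ll phis farl fare (t_BIGL t_CHI)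
theorem n1 : S_N1 := t_N1 t_LIOU t_HARM t_CHI lo ll t_DENS clev phis
theorem nt : StNot :=
  t_NOT t_CHI lo t_DENS clev phis t_RES gext (t_N2 t_LIOU t_CHI lo ll t_DENS clev phis) t_N3
    (t_N4 t_CHI ll t_DENS phis) n1
theorem repv : S_REPV2 := t_REPV t_LDISC lo t_DENS clev

end ALL

open ALL

/-- the final statement of the project -/
theorem final : S_FINAL :=
  t_FIN t_CHI lo t_DENS stG phis phi psi nef big nt t_GLUE t_INJ t_TRO t_TRE
    (t_HAUS t_DENS t_INJ t_TRW) t_COMP (t_CONN t_DENS t_TRW) t_DISCC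
    (t_FORM t_LDISC lo t_DENS clev t_TRW t_TRO t_TRE t_DISCC) repv
    (t_FUN t_DENS gext t_TRW t_TRO t_TRE t_DISCC) (t_FUNR t_DENS t_TRW t_DISCC)
    (t_INEQ2 t_LDISC lo t_DENS clev repv t_DISCC) (t_INEQR lo t_DENS repv t_DISCC)
    (t_ACL t_DENS t_TRW) (t_ALIM t_DENS (t_ACL t_DENS t_TRW))

end Pool.Agent.Q22.SP
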