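import Pool.Agent.Q22.SP.Stm
import Pool.Agent.Q22.SP.REPV

set_option autoImplicit false

open Set Topology Filter
open scoped ContDiff Manifold

namespace Pool.Agent.Q22.SP

open Pool.Agent.Y184.SP

namespace FIN

theorem W_open_near (dens : S_DENS) {z : E} (hz : z ∈ W) : ∀ᶠ t in 𝓝 z, t ∈ W := by
  have h0 : z ∈ V 0 := Or.inl hz.1
  have := ((dens 0).2 z h0).2 hz
  exact this.mono fun t ht => ht.1

theorem smooth_of_ext (dens : S_DENS) {u : E → ℝ} {z : E} (hz : z ∈ W) (h : ExtAt u 0 z) :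
    ContDiffAt ℝ ∞ u z := by
  obtain ⟨f, hf, he⟩ := h
  have hf0 : ContDiffAt ℝ ∞ f z := hf.self_of_nhds
  refine hf0.congr_of_eventuallyEq ?_
  filter_upwards [he, W_open_near dens hz] with t ht htW
  exact (ht htW).symm

theorem glu (inj : S_INJ) (tro : S_TRO) (tre : S_TRE) : Glu UU (fun i : Idx => PP i.1) where
  op i := (inj i).1
  inj i := (inj i).2
  tr i j z z' hz hz' h := by
    by_cases hc : ∀ x y, PP i.1 z ≠ .ord x y
    · exact tre i.1 j.1 z z' hz.1 hz'.1 h hc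
    · push Not at hc
      obtain ⟨x, y, hxy⟩ := hc
      exact tro i.1 j.1 z z' x y hz.1 hz'.1 hxy (h ▸ hxy)

theorem per_Psi (chi' : S_CHI) {G h : ℂ → ℝ} {c : ℝ} (hG : IsGreen G h c) (K : ℝ) :
    Per (Psi G K) := by
  intro x y l hl
  have h1 := hG.per x l hl
  have h2 := chi'.2.2.1 x l hl
  have h3 := chi'.2.2.2.1 x l hl
  simp only [Psi, L1, L2, h1, h2, h3]

theorem smooth_Psi (phis : S_PHIS) {G h : ℂ → ℝ} {c : ℝ} (hG : IsGreen G h c) (K : ℝ) {z : E}
    (hz : z ∈ W) : ContDiffAt ℝ ∞ (Psi G K) z := by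
  have h1 : ContDiffAt ℝ ∞ (fun t : E => G t.1) z :=
    (hG.smooth z.1 hz.1).comp z contDiffAt_fst
  have h2 : ContDiffAt ℝ ∞ (fun t : E => Real.log (1 + ‖t.2‖ ^ 2)) z := by
    refine ContDiffAt.log ?_ (by positivity)
    exact contDiffAt_const.add ((contDiffAt_snd (𝕜 := ℝ)).norm_sq ℝ)
  have h3 := phis.2.2.1 z (Or.inl hz.1)
  unfold Psi
  exact ((contDiffAt_const.mul h1).neg.add (contDiffAt_const.mul h2)).add h3

end FIN

open FIN

/-- the assembly -/
theorem t_FIN (chi' : S_CHI) (lo : S_LOPS) (dens : S_DENS) (stG : StG) (phis : S_PHIS)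
    (stPhi : ∀ j, ∀ z ∈ V j, ∃ ρ, PotAt Phi j z ρ) (stPsi : StPsi) (nef : StNef) (big : StBig)
    (nt : StNot) (glue : S_GLUE) (inj : S_INJ) (tro : S_TRO) (tre : S_TRE) (haus : S_HAUS)
    (comp : S_COMP) (conn : S_CONN) (discc : S_DISCC) (form : S_FORM) (repv : S_REPV2)
    (fn : S_FUN) (funr : S_FUNR) (ineq : S_INEQ) (ineqr : S_INEQR) (acl : S_ACL)
    (alim : S_ALIM) : S_FINAL := by
  obtain ⟨G, h, c, hG⟩ := stG
  obtain ⟨K, c0, hK, hc0, hlev, hpot⟩ := stPsi G h c hG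
  have hne : ∃ i : Idx, (UU i).Nonempty := by
    refine ⟨(1, 0), (0, 0), trivial, fun _ => ?_⟩
    simp
  obtain ⟨Y, τ, κ, Q, hpar, heqv⟩ := glue Idx Pt UU (fun i => PP i.1) ⟨(0, 0)⟩ hne (glu inj tro tre)
  have hS : Surf Y Q := ⟨hpar, heqv⟩
  obtain ⟨θ, hθ⟩ := form Y Q hS Phi phis.1 (fun z hz => phis.2.1 z hz.1) stPhi
  obtain ⟨Ω, hΩ⟩ := form Y Q hS (Psi G K) (per_Psi chi' hG K) (fun z hz => smooth_Psi phis hG K hz)
    (fun j z hz => (hpot j z hz).imp fun ρ hρ => hρ.1)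
  have hadd : ∀ U : E → ℝ, ∀ z ∈ W, ContDiffAt ℝ ∞ (fun t => U t - Phi t) z → ∀ v,
      lev Phi z v + lev (fun t => U t - Phi t) z v = lev U z v := by
    intro U z hz hs v
    have h1 := lo.1 Phi (fun t => U t - Phi t) z v
      ((phis.2.1 z hz.1).of_le (by norm_cast))
      (hs.of_le (by norm_cast))
    rw [← h1]
    congr 1
    funext t
    ring
  refine ⟨Y, τ, κ, hpar.man, haus Y Q hS, comp Y Q hS, conn Y Q hS, Ω, θ, ?_, ?_, ?_, ?_⟩
  · intro f hf hd
    obtain ⟨i, z, hz, hQ⟩ := hpar.surj (f 0)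
    obtain ⟨F, hF, hF0, hfF, hd'⟩ := (discc Y Q hS).1 i z hz f hf hQ.symm
    obtain ⟨ρ, hρ, hpos⟩ := hpot i.1 z hz.1
    rw [repv Y Q hS (Psi G K) Ω hΩ (fun z hz => smooth_Psi phis hG K hz) i z hz ρ hρ f F hf hF hF0
      hfF]
    exact hpos _ fun h0 => hd (hd' h0)
  · intro ε hε
    obtain ⟨U, hper, hext, hl⟩ := nef G h c hG (ε * c0) (mul_pos hε hc0)
    have hperu : Per (fun z => U z - Phi z) := by
      intro x y l hl'
      show U (x + l, y) - Phi (x + l, y) = U (x, y) - Phi (x, y)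
      rw [hper x y l hl', phis.1 x y l hl']
    obtain ⟨w, hw, hwe⟩ := fn Y Q hS (fun z => U z - Phi z) univ hperu isOpen_univ
      (fun i z hz _ => hext i.1 z hz.1)
    have hsm : ∀ z ∈ W, ContDiffAt ℝ ∞ (fun t => U t - Phi t) z := fun z hz =>
      smooth_of_ext dens hz (hext 0 z (Or.inl hz.1))
    refine ⟨w, fun p => hw p trivial, fun f hf => ?_⟩
    have key := ineq Y Q hS Phi (Psi G K) (fun z => U z - Phi z) θ Ω w univ (-ε) isOpen_univ hθ hΩ
      (fun z hz => ⟨phis.2.1 z hz.1, smooth_Psi phis hG K hz, hsm z hz⟩) hw hwe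
      (fun z hz v => by
        rw [hadd U z hz (hsm z hz) v]
        have h1 := hl z hz v
        have h2 := mul_le_mul_of_nonneg_left (hlev z hz v) hε.le
        nlinarith) f hf trivial
    linarith
  · obtain ⟨δ, U, hδ, hper, hl, hext, hlim⟩ := big G h c hG K hK
    have hperu : Per (fun z => U z - Phi z) := by
      intro x y l hl'
      show U (x + l, y) - Phi (x + l, y) = U (x, y) - Phi (x, y)
      rw [hper x y l hl', phis.1 x y l hl']
    obtain ⟨hcl, hde, hA⟩ := acl Y Q hS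
    obtain ⟨w, hw, hwe⟩ := fn Y Q hS (fun z => U z - Phi z) (AA Q)ᶜ hperu hcl.isOpen_compl
      (fun i z hz hq => hext i.1 z hz.1 fun hon => hq ((hA i z hz).2 hon))
    have hsm : ∀ z ∈ W, ContDiffAt ℝ ∞ (fun t => U t - Phi t) z := fun z hz =>
      smooth_of_ext dens hz (hext 0 z (Or.inl hz.1) fun hon => hz.2 hon.2)
    refine ⟨AA Q, hcl, hde, δ, w, hδ, fun p hp => hw p hp, ?_, ?_⟩
    · exact alim Y Q hS (fun z => U z - Phi z) w (fun p hp => (hw p hp).continuousAt)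
        (fun i z hz hq hW => hwe i z hz hq hW) hlim
    · intro f hf hf0
      exact ineq Y Q hS Phi (Psi G K) (fun z => U z - Phi z) θ Ω w (AA Q)ᶜ δ hcl.isOpen_compl hθ hΩ
        (fun z hz => ⟨phis.2.1 z hz.1, smooth_Psi phis hG K hz, hsm z hz⟩) hw hwe
        (fun z hz v => by
          rw [hadd U z hz (hsm z hz) v]
          exact hl z hz v) f hf hf0
  · rintro ⟨w, hw, hpos⟩
    obtain ⟨u, hper, hext, hrep⟩ := funr Y Q hS w hw
    exact nt u hper hext (ineqr Y Q hS Phi u θ w hθ (fun z hz => phis.2.1 z hz.1) hw hrep hpos)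

end Pool.Agent.Q22.SP
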