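import Pool.Agent.Q22.SP.Stm

/-!
# Project SP (helper22), MP_4ff127_gt: potentials of the class in the coordinate system `1`
-/

set_option autoImplicit false

open Set Topology Filter
open scoped ContDiff Manifold

namespace Pool.Agent.Q22.SP

open Pool.Agent.Y184.SP

namespace PHI1

/-- combinations of logarithms of absolute values of analytic functions have Levi form `0` -/
theorem lev_comb (lo : S_LOPS) (ll : S_LLOG) (a b : ℝ) (f g : E → ℂ) (z v : E)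
    (hf : AnalyticAt ℂ f z) (hg : AnalyticAt ℂ g z) (hf0 : f z ≠ 0) (hg0 : g z ≠ 0) :
    lev (fun t => a * Real.log (‖f t‖ ^ 2) + b * Real.log (‖g t‖ ^ 2)) z v = 0 := by
  obtain ⟨h1, h2⟩ := ll.1 f z v hf hf0
  obtain ⟨h3, h4⟩ := ll.1 g z v hg hg0
  have h1' : ContDiffAt ℝ 2 (fun t => Real.log (‖f t‖ ^ 2)) z := h1.of_le (WithTop.coe_le_coe.2 le_top)
  have h3' : ContDiffAt ℝ 2 (fun t => Real.log (‖g t‖ ^ 2)) z := h3.of_le (WithTop.coe_le_coe.2 le_top)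
  have e1 := lo.1 (fun t => a * Real.log (‖f t‖ ^ 2)) (fun t => b * Real.log (‖g t‖ ^ 2)) z v
    (contDiffAt_const.mul h1') (contDiffAt_const.mul h3')
  rw [e1, lo.2.2.1 _ a z v h1', lo.2.2.1 _ b z v h3', h2, h4]
  ring

/-- criterion for potentials -/
theorem potAt_of (lo : S_LOPS) (ll : S_LLOG) (Φ : E → ℝ) (j : Fin 5) (z : E) (ρ : E → ℝ) (a b : ℝ)
    (f g : E → ℂ) (hρ : SmAt ρ z) (hf : ∀ t, AnalyticAt ℂ f t) (hg : ∀ t, AnalyticAt ℂ g t)
    (h : ∀ᶠ z' in 𝓝 z, tr j z' ∈ W → f z' ≠ 0 ∧ g z' ≠ 0)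
    (he : ∀ᶠ t in 𝓝 z, f t ≠ 0 → g t ≠ 0 →
      ρ t - Φ (tr j t) = a * Real.log (‖f t‖ ^ 2) + b * Real.log (‖g t‖ ^ 2)) :
    PotAt Φ j z ρ := by
  refine ⟨hρ, ?_⟩
  filter_upwards [h, he.eventually_nhds] with z' hz' hez hW v
  obtain ⟨hf0, hg0⟩ := hz' hW
  have hfe : ∀ᶠ t in 𝓝 z', f t ≠ 0 := (hf z').continuousAt.eventually_ne hf0
  have hge : ∀ᶠ t in 𝓝 z', g t ≠ 0 := (hg z').continuousAt.eventually_ne hg0
  rw [lo.2.2.2.1 (fun t => ρ t - Φ (tr j t))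
    (fun t => a * Real.log (‖f t‖ ^ 2) + b * Real.log (‖g t‖ ^ 2)) z' v
    (by filter_upwards [hez, hfe, hge] with t h1 h2 h3 using h1 h2 h3)]
  exact lev_comb lo ll a b f g z' v (hf z') (hg z') hf0 hg0

theorem an_fst (z : E) : AnalyticAt ℂ (fun t : E => t.1) z := analyticAt_fst

theorem an_snd (z : E) : AnalyticAt ℂ (fun t : E => t.2) z := analyticAt_snd

theorem an_sub (l : ℂ) (z : E) : AnalyticAt ℂ (fun t : E => t.1 - l) z :=
  (an_fst z).sub analyticAt_const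

theorem an_A (l : ℂ) (z : E) : AnalyticAt ℂ (fun t : E => t.2 * (t.1 - l)) z :=
  (an_snd z).mul (an_sub l z)

theorem an_B (l : ℂ) (z : E) : AnalyticAt ℂ (fun t : E => 1 - t.2 * (t.1 - l)) z :=
  analyticAt_const.sub (an_A l z)

theorem an_C (l : ℂ) (z : E) : AnalyticAt ℂ (fun t : E => t.2 * (t.1 - l) ^ 2) z :=
  (an_snd z).mul ((an_sub l z).pow 2)

theorem sm_q (ll : S_LLOG) (z : E) : ContDiffAt ℝ ∞ (fun t : E => Real.log (1 + ‖t.2‖ ^ 2)) z := by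
  have h := (ll.2.2 (fun _ : E => (1 : ℂ)) (fun t : E => t.2) z 0 analyticAt_const (an_snd z)
    (Or.inl one_ne_zero)).1
  simpa using h

theorem sm_1 (ll : S_LLOG) (l : ℂ) (z : E) : ContDiffAt ℝ ∞
    (fun t : E => Real.log (‖t.2 * (t.1 - l)‖ ^ 2 + ‖1 - t.2 * (t.1 - l)‖ ^ 2)) z := by
  refine (ll.2.2 _ _ z 0 (an_A l z) (an_B l z) ?_).1
  by_cases h : z.2 * (z.1 - l) = 0
  · right
    simp only [h]
    norm_num
  · exact Or.inl h

theorem sm_2 (ll : S_LLOG) (l : ℂ) (z : E) : ContDiffAt ℝ ∞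
    (fun t : E => Real.log (‖1 - t.2 * (t.1 - l)‖ ^ 2 + ‖t.2 * (t.1 - l) ^ 2‖ ^ 2)) z := by
  refine (ll.2.2 _ _ z 0 (an_B l z) (an_C l z) ?_).1
  by_cases h : z.2 * (z.1 - l) ^ 2 = 0
  · left
    have : z.2 * (z.1 - l) = 0 := by
      rcases mul_eq_zero.mp h with h | h
      · rw [h, zero_mul]
      · rw [pow_eq_zero_iff (by norm_num : (2 : ℕ) ≠ 0) |>.mp h, mul_zero]
    simp only [this]
    norm_num
  · exact Or.inr h

theorem sm_chi (chi' : S_CHI) (z : E) : ContDiffAt ℝ ∞ (fun t : E => chi t.1) z :=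
  (chi'.1.contDiffAt).comp z contDiffAt_fst

theorem sm_log (ll : S_LLOG) (l : ℂ) (z : E) (h : z.1 - l ≠ 0) :
    ContDiffAt ℝ ∞ (fun t : E => Real.log (‖t.1 - l‖ ^ 2)) z :=
  (ll.1 _ z 0 (an_sub l z) h).1

/-- the function `log (1 + |y|²)` at `y = 1 / t` -/
theorem q_inv (t : ℂ) (ht : t ≠ 0) :
    Real.log (1 + ‖t⁻¹‖ ^ 2) = Real.log (1 + ‖t‖ ^ 2) - Real.log (‖t‖ ^ 2) := by
  have h : 0 < ‖t‖ := norm_pos_iff.mpr ht
  rw [← Real.log_div (by positivity) (by positivity)]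
  congr 1
  rw [norm_inv]
  field_simp
  ring

/-- the function `L2` at `y = 1 / t` -/
theorem L2_inv (x t l : ℂ) (hr : red x = x - l) (ht : t ≠ 0) :
    L2 (x, t⁻¹) = Real.log (‖1 - t * (x - l)‖ ^ 2 + ‖t * (x - l) ^ 2‖ ^ 2)
      - Real.log (1 + ‖t‖ ^ 2) := by
  have h : 0 < ‖t‖ := norm_pos_iff.mpr ht
  have hN : 0 < ‖1 - t * (x - l)‖ ^ 2 + ‖t * (x - l) ^ 2‖ ^ 2 := by
    by_cases h0 : t * (x - l) ^ 2 = 0
    · have : t * (x - l) = 0 := by
        rcases mul_eq_zero.mp h0 with h | h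
        · rw [h, zero_mul]
        · rw [pow_eq_zero_iff (by norm_num : (2 : ℕ) ≠ 0) |>.mp h, mul_zero]
      rw [this]
      have : (0 : ℝ) ≤ ‖t * (x - l) ^ 2‖ ^ 2 := by positivity
      simp only [sub_zero, norm_one]
      linarith
    · have : 0 < ‖t * (x - l) ^ 2‖ := norm_pos_iff.mpr h0
      positivity
  unfold L2
  simp only [hr]
  rw [← Real.log_div (by positivity) (by positivity)]
  congr 1
  have e1 : t⁻¹ - (x - l) = t⁻¹ * (1 - t * (x - l)) := by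
    field_simp
  rw [e1, norm_mul, norm_inv, norm_mul, norm_pow]
  field_simp
  ring

/-- the function `L1` at `y = 1 / t` -/
theorem L1_inv (x t l : ℂ) (hr : red x = x - l) (ht : t ≠ 0) :
    L1 (x, t⁻¹) = Real.log (‖t * (x - l)‖ ^ 2 + ‖1 - t * (x - l)‖ ^ 2)
      - Real.log (1 + ‖t‖ ^ 2) := by
  have h : 0 < ‖t‖ := norm_pos_iff.mpr ht
  have hN : 0 < ‖t * (x - l)‖ ^ 2 + ‖1 - t * (x - l)‖ ^ 2 := by
    by_cases h0 : t * (x - l) = 0
    · rw [h0]
      simp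
    · have : 0 < ‖t * (x - l)‖ := norm_pos_iff.mpr h0
      positivity
  unfold L1
  simp only [hr]
  rw [← Real.log_div (by positivity) (by positivity)]
  congr 1
  have e1 : t⁻¹ - (x - l) = t⁻¹ * (1 - t * (x - l)) := by
    field_simp
  rw [e1, norm_mul, norm_inv, norm_mul]
  field_simp
  ring

/-- the function `Φ` at `y = 1 / t` -/
theorem Phi_inv (t : E) (l : ℂ) (hr : red t.1 = t.1 - l) (ht : t.2 ≠ 0) :
    Phi (tr 1 t) = 3 * (Real.log (1 + ‖t.2‖ ^ 2) - Real.log (‖t.2‖ ^ 2)) +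
      chi t.1 * (Real.log (‖1 - t.2 * (t.1 - l)‖ ^ 2 + ‖t.2 * (t.1 - l) ^ 2‖ ^ 2)
        - Real.log (1 + ‖t.2‖ ^ 2) - Real.log (‖t.1 - l‖ ^ 2)) := by
  have e : tr 1 t = (t.1, t.2⁻¹) := rfl
  unfold Phi
  rw [e]
  simp only [L2_inv t.1 t.2 l hr ht, q_inv t.2 ht, hr]

theorem tr1_mem {t : E} (h : tr 1 t ∈ W) : t.1 ∉ Lam ∧ t.2 ≠ 0 := by
  have e : tr 1 t = (t.1, t.2⁻¹) := rfl
  rw [e] at h
  exact ⟨h.1, fun h0 => h.2 (by simp [h0])⟩

end PHI1

open PHI1 in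
theorem t_PHI1 (chi : S_CHI) (lo : S_LOPS) (ll : S_LLOG) (_ : S_PHIS) : S_PHI1 := by
  intro z _
  obtain ⟨chi1, -, -, -, chi5, chi6, chi7, chi8, chi9, chi10, chi11, chi12, chi13⟩ := id chi
  by_cases ha : 1 / 4 < ‖red z.1‖
  · -- `chi = 0` near the point
    have hchi : ∀ᶠ t : E in 𝓝 z, Pool.Agent.Y184.SP.chi t.1 = 0 :=
      continuousAt_fst.eventually (chi12 z.1 ha)
    refine ⟨fun t => 3 * Real.log (1 + ‖t.2‖ ^ 2),
      potAt_of lo ll Phi 1 z _ 3 0 (fun t => t.2) (fun _ => 1)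
        (Eventually.of_forall fun t => contDiffAt_const.mul (sm_q ll t)) an_snd
        (fun _ => analyticAt_const)
        (Eventually.of_forall fun t ht => ⟨(tr1_mem ht).2, one_ne_zero⟩) ?_⟩
    filter_upwards [hchi] with t ht h0 _
    have e : tr 1 t = (t.1, t.2⁻¹) := rfl
    unfold Phi
    rw [e]
    simp only [ht, q_inv t.2 h0]
    ring
  · push Not at ha
    have hb : ‖red z.1‖ < 1 / 2 := by linarith
    set l : ℂ := z.1 - red z.1 with hl
    have hlm : l ∈ Lam := chi5 z.1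
    have hred : ∀ᶠ t : E in 𝓝 z, red t.1 = t.1 - l :=
      continuousAt_fst.eventually (chi13 z.1 hb)
    by_cases hc : z.1 ∈ Lam
    · -- on the lattice
      have hr0 : red z.1 = 0 := (chi9 z.1).mp hc
      have hzl : z.1 = l := by rw [hl, hr0, sub_zero]
      have hchi : ∀ᶠ t : E in 𝓝 z, Pool.Agent.Y184.SP.chi t.1 = 1 := by
        have h1 : ∀ᶠ t : E in 𝓝 z, ‖t.1 - l‖ < 1 / 8 := by
          have hcont : ContinuousAt (fun t : E => ‖t.1 - l‖) z := by fun_prop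
          refine hcont.eventually (gt_mem_nhds ?_)
          simp only [hzl, sub_self, norm_zero]
          norm_num
        filter_upwards [hred, h1] with t h2 h3
        exact chi7 t.1 (by rw [h2]; exact h3.le)
      refine ⟨fun t => 2 * Real.log (1 + ‖t.2‖ ^ 2) +
          Real.log (‖1 - t.2 * (t.1 - l)‖ ^ 2 + ‖t.2 * (t.1 - l) ^ 2‖ ^ 2),
        potAt_of lo ll Phi 1 z _ 3 1 (fun t => t.2) (fun t => t.1 - l)
          (Eventually.of_forall fun t => (contDiffAt_const.mul (sm_q ll t)).add (sm_2 ll l t))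
          an_snd (an_sub l)
          (Eventually.of_forall fun t ht => ⟨(tr1_mem ht).2, fun h => (tr1_mem ht).1 ?_⟩) ?_⟩
      · rw [sub_eq_zero] at h
        rw [h]
        exact hlm
      · filter_upwards [hchi, hred] with t h1 h2 h3 _
        rw [Phi_inv t l h2 h3, h1]
        ring
    · -- off the lattice
      have hne : z.1 - l ≠ 0 := by
        rw [sub_ne_zero]
        rintro h
        exact hc (h ▸ hlm)
      have hne' : ∀ᶠ t : E in 𝓝 z, t.1 - l ≠ 0 := (an_sub l z).continuousAt.eventually_ne hne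
      refine ⟨fun t => 3 * Real.log (1 + ‖t.2‖ ^ 2) + Pool.Agent.Y184.SP.chi t.1 *
          (Real.log (‖1 - t.2 * (t.1 - l)‖ ^ 2 + ‖t.2 * (t.1 - l) ^ 2‖ ^ 2)
            - Real.log (1 + ‖t.2‖ ^ 2) - Real.log (‖t.1 - l‖ ^ 2)),
        potAt_of lo ll Phi 1 z _ 3 0 (fun t => t.2) (fun _ => 1) ?_ an_snd
          (fun _ => analyticAt_const)
          (Eventually.of_forall fun t ht => ⟨(tr1_mem ht).2, one_ne_zero⟩) ?_⟩
      · filter_upwards [hne'] with t ht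
        exact (contDiffAt_const.mul (sm_q ll t)).add
          ((sm_chi chi t).mul (((sm_2 ll l t).sub (sm_q ll t)).sub (sm_log ll l t ht)))
      · filter_upwards [hred] with t h2 h3 _
        rw [Phi_inv t l h2 h3]
        ring

end Pool.Agent.Q22.SP
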