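import Pool.Agent.Y184.SP.Base

/-!
# Project SP (helper22), MP_4ff127_gt: statements

A nef and big class on a compact Kähler surface without smooth semipositive representative.
The surface `X` is the blow-up of `B × ℙ¹` (`B = ℂ/ℤ[i]`, coordinates `x`, `y`) at `(0,0)` and at the
point of the exceptional curve in the direction of `y = x`; the five coordinate systems `V j`, `tr j`
are those of `Pool.Agent.Y184.SP.Base`. The file `Base` also contains the statements `StG`, `StLiou`,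
`StRes`, `StPhi`, `StPsi`, `StNear`, `StComp`, `StMax` (proved: `Pool.Agent.Y625.SP.max_thm`),
`StNef`, `StBig`, `StNot`, which are jobs too.
Notation in the proofs: `Λ = Lam`, `w = y - x`, `lev ρ z v` = the Levi form = `4 ∂∂̄ρ(v, v̄)`;
`red x` is `x - l` with `l ∈ Λ` the nearest lattice point.
-/

set_option autoImplicit false

open Set Topology Filter
open scoped ContDiff Manifold

namespace Pool.Agent.Q22.SP

open Pool.Agent.Y184.SP

/-! ## A. Tools for the Levi form -/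

/-- LDISC: the Laplacian of `ρ ∘ F` at `0` for an analytic disc `F` is the Levi form of `ρ` at
`F 0` in the direction `F'(0)`.
Proof. `F ζ = F 0 + ζ a + O(ζ^2)`, `a = F'(0)`. By
`InnerProductSpace.laplacian_eq_iteratedFDeriv_complexPlane` the Laplacian is the sum of the second
derivatives of `t ↦ ρ (F (t e))` at `0` for `e = 1, i`, and this second derivative is
`D²ρ(a e, a e) + Dρ(e² F''(0))`; the second terms for `e = 1, i` cancel as `1² + i² = 0`. The first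
terms give `lev ρ (F 0) a` (the case `F ζ = F 0 + ζ a`). (See `lapline` in
`Pool/Agent/Y625/SP/Max.lean` for the second derivatives along a line.) -/
def S_LDISC : Prop := ∀ (ρ : E → ℝ) (F : ℂ → E), AnalyticAt ℂ F 0 → ContDiffAt ℝ 2 ρ (F 0) →
  Laplacian.laplacian (fun ζ : ℂ => ρ (F ζ)) 0 = lev ρ (F 0) (deriv F 0)

/-- LOPS: sums, multiples, germs, chain rule (from `S_LDISC`, with `F ζ = φ (z + ζ v)`). The germ
rule: `lev` depends only on the function near `z` (Laplacian of eventually equal functions). -/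
def S_LOPS : Prop :=
  (∀ (f g : E → ℝ) (z v : E), ContDiffAt ℝ 2 f z → ContDiffAt ℝ 2 g z →
    lev (fun t => f t + g t) z v = lev f z v + lev g z v) ∧
  (∀ (f g : E → ℝ) (z v : E), ContDiffAt ℝ 2 f z → ContDiffAt ℝ 2 g z →
    lev (fun t => f t - g t) z v = lev f z v - lev g z v) ∧
  (∀ (f : E → ℝ) (c : ℝ) (z v : E), ContDiffAt ℝ 2 f z →
    lev (fun t => c * f t) z v = c * lev f z v) ∧
  (∀ (f g : E → ℝ) (z v : E), (∀ᶠ t in 𝓝 z, f t = g t) → lev f z v = lev g z v) ∧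
  (∀ (ρ : E → ℝ) (φ : E → E) (z v : E), AnalyticAt ℂ φ z → ContDiffAt ℝ 2 ρ (φ z) →
    lev (fun t => ρ (φ t)) z v = lev ρ (φ z) (fderiv ℂ φ z v)) ∧
  (∀ (f : E → ℝ) (z v : E) (a : ℂ), ContDiffAt ℝ 2 f z → lev f z (a • v) = ‖a‖ ^ 2 * lev f z v)

/-- LLOG: logarithms of analytic functions (smoothness and Levi form).
Proof. Along the line `F ζ = f (z + ζ v)`, `G ζ = g (z + ζ v)`. `log |F|²` is harmonic
(`AnalyticAt.harmonicAt_log_norm`). `|F|²`: Laplacian `4 |F'|²`. If `F 0 ≠ 0` then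
`log (|F|² + |G|²) = log |F|² + log (1 + |G/F|²)` and for `h = G/F` analytic the Laplacian of
`log (1 + |h|²)` is `4 |h'|² / (1 + |h|²)²` (by `S_LDISC` with `ρ (a, b) = log (1 + |a|²)` it is enough
to treat `h ζ = h₀ + ζ h₁`, two second derivatives of `log` of a quadratic polynomial in `t`);
`h' = (G' F - G F') / F²`. If `F 0 = 0` then `G 0 ≠ 0`, symmetric. -/
def S_LLOG : Prop :=
  (∀ (f : E → ℂ) (z v : E), AnalyticAt ℂ f z → f z ≠ 0 →
    ContDiffAt ℝ ∞ (fun t => Real.log (‖f t‖ ^ 2)) z ∧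
    lev (fun t => Real.log (‖f t‖ ^ 2)) z v = 0) ∧
  (∀ (f : E → ℂ) (z v : E), AnalyticAt ℂ f z → ContDiffAt ℝ ∞ (fun t => ‖f t‖ ^ 2) z ∧
    lev (fun t => ‖f t‖ ^ 2) z v = 4 * ‖fderiv ℂ f z v‖ ^ 2) ∧
  (∀ (f g : E → ℂ) (z v : E), AnalyticAt ℂ f z → AnalyticAt ℂ g z → (f z ≠ 0 ∨ g z ≠ 0) →
    ContDiffAt ℝ ∞ (fun t => Real.log (‖f t‖ ^ 2 + ‖g t‖ ^ 2)) z ∧
    lev (fun t => Real.log (‖f t‖ ^ 2 + ‖g t‖ ^ 2)) z v =
      4 * ‖f z * fderiv ℂ g z v - g z * fderiv ℂ f z v‖ ^ 2 / (‖f z‖ ^ 2 + ‖g z‖ ^ 2) ^ 2)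

/-- CHI: the functions `red` and `chi`.
Proof. `red` is exactly `Λ`-periodic (`round_add_intCast`). For `l ∈ Λ` and `|x - l| < 1/2` the real
and imaginary part of `x - l` are in `(-1/2, 1/2)`, so `red x = x - l`. So `chi x = bump (x - l)` for
`|x - l| < 1/2`; if `|x - l| ≥ 1/4` for all `l ∈ Λ` then `|red x| ≥ 1/4` (`x - red x ∈ Λ`) and
`chi x = 0`. Smoothness: if `|x - l| < 1/2` for some `l`, then `chi = bump (· - l)` near `x`; if
`|x - l| > 1/4` for all `l ∈ Λ` then `chi = 0` near `x` (`Λ` is closed and discrete: only finitely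
many `l` are near `x`; or `|red x'| ≥ dist` is an infimum, a continuous function). -/
def S_CHI : Prop := ContDiff ℝ ∞ chi ∧ (∀ x, 0 ≤ chi x ∧ chi x ≤ 1) ∧
  (∀ x l, l ∈ Lam → chi (x + l) = chi x) ∧ (∀ x l, l ∈ Lam → red (x + l) = red x) ∧
  (∀ x, x - red x ∈ Lam) ∧ (∀ x l, l ∈ Lam → ‖x - l‖ < 1 / 2 → red x = x - l) ∧
  (∀ x, ‖red x‖ ≤ 1 / 8 → chi x = 1) ∧ (∀ x, 1 / 4 ≤ ‖red x‖ → chi x = 0) ∧
  (∀ x, x ∈ Lam ↔ red x = 0) ∧ (∀ x, ∀ l ∈ Lam, ‖red x‖ ≤ ‖x - l‖) ∧ IsClosed Lam ∧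
  (∀ x, 1 / 4 < ‖red x‖ → ∀ᶠ x' in 𝓝 x, chi x' = 0) ∧
  (∀ x, ‖red x‖ < 1 / 2 → ∀ᶠ x' in 𝓝 x, red x' = x' - (x - red x))

/-- DENS: the sets `V j` are open, and the points `z` with `tr j z ∈ W` are open and dense in `V j`.
Proof. `V 0`: `Λ` is closed. Density: near a point of `V j` the condition `tr j z ∈ W` is
`z.1 ∉ Λ`, `z.2 ≠ 0` for `j = 0`, `1` (in the case `j = 1` `z.2⁻¹ ≠ 0`), and for `j ≥ 2`, as
`|x| < 1/8` (for `j = 2, 3` `x = z.1 z.2`, for `j = 4` `x = z.1`), it is `x ≠ 0` and `y ≠ 0`, where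
`y = z.2 (1 + z.1)`, `z.1 z.2 (1 + z.2)`, `z.1 (1 + z.1 z.2)`. So it is enough that for a finite number of
polynomials none of which vanishes identically one can find points near `z` where none vanishes: for
`j = 2` take `(z.1 + s, z.2 + s)` with small real `s > 0`, which avoids finitely many values of `s` (each
polynomial is a nonzero polynomial in `s`: `z.2 + s`, `z.1 + s`, `1 + z.1 + s`, ...; for `j = 4` the
polynomial `1 + (z.1 + s) (z.2 + s)` has degree 2 in `s`). -/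
def S_DENS : Prop := ∀ j, IsOpen (V j) ∧ ∀ z ∈ V j,
  z ∈ closure {z' | z' ∈ V j ∧ tr j z' ∈ W} ∧ (tr j z ∈ W → ∀ᶠ z' in 𝓝 z, tr j z' ∈ W ∧ AnalyticAt ℂ (tr j) z')

/-- CLEV: inequalities between Levi forms pass to the closure.
Proof. `z' ↦ lev ρ z' v` is continuous at `z` for `ρ` smooth near `z` (it is
`D²ρ(z')(v,v) + D²ρ(z')(iv,iv)`, see `InnerProductSpace.laplacian_eq_iteratedFDeriv_complexPlane`), and
`z` is in the closure of the points `z'` with `tr j z' ∈ W` (`S_DENS`). -/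
def S_CLEV : Prop := ∀ (j : Fin 5) (z : E), z ∈ V j → ∀ (ρ : E → ℝ) (v : E) (a : ℝ), SmAt ρ z →
  (∀ᶠ z' in 𝓝 z, tr j z' ∈ W → a ≤ lev ρ z' v) → a ≤ lev ρ z v

/-- GEXT: the local extensions of `u ∘ tr j` fit together.
Proof. For `z ∈ V j` let `f_z` be the function of `ExtAt u j z`. Put `w z = f_z z`. For `z'` near `z`
(in `V j`) the functions `f_z` and `f_{z'}` agree near `z'` on the points with `tr j ∈ W` and are
continuous near `z'`, and `z'` is in the closure of these points (`S_DENS`), so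
`w z' = f_{z'} z' = f_z z'`. So `w = f_z` near `z`, smooth. If `tr j z ∈ W` then the condition in
`ExtAt` at the point `z` itself (`Eventually.self_of_nhds`) is `w z = u (tr j z)`. -/
def S_GEXT : Prop := ∀ (u : E → ℝ) (j : Fin 5) (O : Set E), O ⊆ V j → IsOpen O →
  (∀ z ∈ O, ExtAt u j z) → ∃ w : E → ℝ, (∀ z ∈ O, ContDiffAt ℝ ∞ w z) ∧
    ∀ z ∈ O, tr j z ∈ W → w z = u (tr j z)

/-! ## B. The Green function, the Kähler form, the class -/

/-- SIG: an entire function with simple zeros on `Λ`.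
Proof. `f x = sin (π x) ∏_{n ≥ 1} (1 - Q^n z) (1 - Q^n z⁻¹)`, `z = exp (2 π i x)`, `Q = exp (-2π)`
(locally uniformly convergent product); replacing `x` by `x + i` replaces `z` by `Q z` and
`f (x + i) = - exp (π) z⁻¹ f x`, `|z⁻¹| = exp (2 π Im x)`. Zeros: `sin (π x) = 0` iff `x ∈ ℤ`, and
`Q^n z = 1` iff `x ∈ ℤ - i n`, `Q^n z⁻¹ = 1` iff `x ∈ ℤ + i n`; the infinite product of the other
factors is not `0`. `f'(0) = π ∏ (1 - Q^n)² ≠ 0`. (Alternatively the Weierstrass sigma function of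
`Pool/Agent/H171R3/FV/Sig.lean` times `exp (a x²)`.) -/
def S_SIG : Prop := ∃ f : ℂ → ℂ, Differentiable ℂ f ∧ (∀ x, f x = 0 ↔ x ∈ Lam) ∧
  deriv f 0 ≠ 0 ∧ (∀ x, ‖f (x + 1)‖ = ‖f x‖) ∧
  ∀ x, ‖f (x + Complex.I)‖ = Real.exp (Real.pi * (2 * x.im + 1)) * ‖f x‖

/-- GRE: the Green function. Proof. `G x = log |f x|² - 2 π (Im x)²` is `Λ`-periodic, smooth off `Λ`
with Laplacian `-4π`; `c = 4π`; `h x = log |f x / x|² - 2 π (Im x)²` (`f' 0` in place of `f x / x` at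
`0`; for `0 < |x| < 1/2` `f x ≠ 0`; `x ↦ f x / x` extended is `dslope f 0`, entire). -/
def S_GRE : Prop := S_SIG → StG

/-- PHIS: `Φ` is smooth at the points with `x ∉ Λ`, `L1`, `L2` times `chi` as well; `Φ` is periodic.
Proof. If `|red x| < 1/2` then `red x' = x' - l` near `x` with `l = x - red x`, `red x ≠ 0`, and
`|y - red x|² + |red x|⁴ > 0`; if `|red x| > 1/4` then `chi = 0` near `x` (`S_CHI`). -/
def S_PHIS : Prop := Per Phi ∧ (∀ z : E, z.1 ∉ Lam → ContDiffAt ℝ ∞ Phi z) ∧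
  (∀ z : E, z.1 ∉ Lam ∨ z.2 ≠ 0 → ContDiffAt ℝ ∞ (fun t => chi t.1 * (L1 t + L2 t)) z) ∧
  (∀ k C : ℝ, 0 < k → ∀ z : E, z.1 ∉ Lam → ContDiffAt ℝ ∞ (near k C) z)

/-- PHI0: potentials of the class in the coordinate system `0`.
Proof. `z = (x, y)`. If `x ∉ Λ`: `ρ = Φ` (`S_PHIS`; the difference `Φ - Φ` is `0`). If `x = l ∈ Λ`, `y ≠ 0`:
`chi = 1` near `x`, `ρ = 3 log (1 + |y|²) + L2` with `red x' = x' - l`, smooth as
`|y - (x' - l)|² + |x' - l|⁴ ≠ 0` near the point, and `ρ - Φ = log |x' - l|²` near `z` off `x' = l`, with Levi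
form `0` (`S_LLOG`). -/
def S_PHI0 : Prop := ∀ z ∈ V 0, ∃ ρ, PotAt Phi 0 z ρ

/-- PHI1: in the coordinate system `1`, `(x, t)` with `y = 1/t`.
Proof. `log (1 + |1/t|²) = log (1 + |t|²) - log |t|²` and with `r = red x`
`L2 (x, 1/t) = log ((|1 - t r|² + |t|² |r|⁴) / (1 + |t|²))` for `t ≠ 0`. If `x ∉ Λ` take
`ρ = 3 log (1 + |t|²) + chi x (log ((|1 - t r|² + |t|² |r|⁴) / (1 + |t|²)) - log |r|²)`, if `x ∈ Λ` the same without
`log |r|²` (`chi = 1` near `x`). The difference to `Φ ∘ tr 1` is `3 log |t|²` resp. `3 log |t|² + log |r|²` at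
the points with `t ≠ 0`, `x ∉ Λ`. Smoothness near `z`: `|1 - t r|² + |t|² |r|⁴ ≠ 0` if `r ≠ 0` (`t = 0`: it is `1`) and
if `r = 0` (it is `1`). -/
def S_PHI1 : Prop := ∀ z ∈ V 1, ∃ ρ, PotAt Phi 1 z ρ

/-- PHI2: in the coordinate systems `2`, `3`, `4`, where `|x| < 1/8`, so `chi = 1` and `red x = x`
near the point, and `Φ = 2 log (1 + |y|²) + log (|w|² + |x|⁴) - log |x|²` (`x, y` the components of `tr j z`).
Proof. `2`: `|w|² + |x|⁴ = |η|² (1 + |ξ² η|²)`, `|x|² = |ξ η|²`: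
`ρ = 2 log (1 + |y|²) + log (1 + |ξ² η|²)`, difference `log |ξ|²`. `3`: `|w|² + |x|⁴ = |ξ η²|² (1 + |ξ|²)`,
`ρ = 2 log (1 + |y|²) + log (1 + |ξ|²)`, difference `- log |η|²`. `4`: `|w|² + |x|⁴ = |ξ²|² (1 + |η|²)`,
`ρ = 2 log (1 + |y|²) + log (1 + |η|²)`, difference `- log |ξ|²`. -/
def S_PHI2 : Prop := ∀ j : Fin 5, 2 ≤ j → ∀ z ∈ V j, ∃ ρ, PotAt Phi j z ρ

/-- PSIM: lower bound for the Levi form of `chi (L1 + L2)`.
Proof. By periodicity `red x = x` or `|red x| ≥ 1/4 ...`: if `|red x| > 1/4` the function is `0` near `z`. If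
`|red x| < 1/8` then near `z` it is `log (|x|² + |w|²) + log (|w|² + |x²|²) - 2 log (1 + |y|²)` (shifted by `l`),
so its Levi form is `≥ - 8 |v.2|² / (1 + |y|²)²` (`S_LLOG`). In the remaining closed region
`1/8 ≤ |red x| ≤ 1/4` the function is smooth on a neighbourhood of the compact set
`{1/8 ≤ |x| ≤ 1/4} × ℙ¹`: for `|y| ≤ 1` the coefficients of the Levi form (`D²ρ`) are bounded on the compact set
`{1/8 ≤ |x| ≤ 1/4} × {|y| ≤ 1}` and `nm z v ≥ (|v.1|² + |v.2|²)/4`; for `|y| ≥ 1` use the coordinate `t = 1/y`,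
`|t| ≤ 1` (`S_LOPS` chain rule for `(x, y) ↦ (x, 1/y)`), in which the function is
`chi x (log ((|t x|² + |1 - t x|²) / (1 + |t|²)) + log ((|1 - t x|² + |t|² |x|⁴) / (1 + |t|²)))`, smooth near the compact set,
and `nm z v = |v.1|² + |s|² / (1 + |t|²)²` for the vector `s = - v.2 / y²`. -/
def S_PSIM : Prop := ∃ M : ℝ, 0 ≤ M ∧ ∀ z ∈ W, ∀ v,
  -(M * nm z v) ≤ lev (fun t => chi t.1 * (L1 t + L2 t)) z v

/-- PSIL: the Levi form of `Ψ`, for all large `K`.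
Proof. On `W`: `lev Ψ z v = K c |v.1|² + 4 K |v.2|² / (1 + |y|²)² + lev (chi (L1 + L2)) z v`
(`lev (G ∘ fst) z v = Δ G · |v.1|² = - c |v.1|²` by `S_LDISC`/direct, `S_LLOG`), which is
`≥ (K min(c, 4) - M) nm z v`. -/
def S_PSIL : Prop := ∀ (G h : ℂ → ℝ) (c : ℝ), IsGreen G h c → ∃ K0 : ℝ, 2 < K0 ∧
  ∀ K, K0 ≤ K → ∀ z ∈ W, ∀ v, nm z v ≤ lev (Psi G K) z v

/-- PSI0: potentials of `dd^c Ψ` in the coordinate systems `0` and `1` (all `K`).
Proof. As `S_PHI0`, `S_PHI1`: at `x ∉ Λ`, system `0`: `ρ = Ψ`. At `x = l ∈ Λ`, `y ≠ 0`, system `0`: replace `- K G x` by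
`- K h (x - l)` (`G x = log |x - l|² + h (x - l)` near `l`). System `1`: in addition replace
`K log (1 + |y|²)` by `K log (1 + |t|²)`, and `L1`, `L2` by
`log ((|t r|² + |1 - t r|²)/(1 + |t|²))`, `log ((|1 - t r|² + |t|² |r|⁴)/(1 + |t|²))`. -/
def S_PSI0 : Prop := ∀ (G h : ℂ → ℝ) (c : ℝ), IsGreen G h c → ∀ K : ℝ,
  (∀ z ∈ V 0, ∃ ρ, PotAt (Psi G K) 0 z ρ) ∧ ∀ z ∈ V 1, ∃ ρ, PotAt (Psi G K) 1 z ρ

/-- PSI2: potentials with positive Levi form in the coordinate systems `2`, `3`, `4`, for `K > 2`.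
Proof. With `x`, `y` the components of `tr j z`, `|x| < 1/8`, `chi = 1`, `G x = log |x|² + h x`:
`Ψ = - K log |x|² - K h x + (K - 2) log (1 + |y|²) + log (|x|² + |w|²) + log (|w|² + |x|⁴)`.
`2`: `|x|² + |w|² = |η|² (1 + |ξ|²)`, `ρ = -K h x + (K-2) log (1+|y|²) + log (1 + |ξ|²) + log (1 + |ξ² η|²)`.
`3`: `|x|² + |w|² = |ξ η|² (1 + |η|²)`, `ρ = -K h x + (K-2) log (1+|y|²) + log (1 + |η|²) + log (1 + |ξ|²)`.
`4`: `|x|² + |w|² = |ξ|² (1 + |ξ η|²)`, `ρ = -K h x + (K-2) log (1+|y|²) + log (1 + |ξ η|²) + log (1 + |η|²)`.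
The differences to `Ψ ∘ tr j` are combinations of `log |ξ|²`, `log |η|²`. The Levi form of `- K h (x)` is
`K c |dx(v)|²` (`Δ h = - c` on `|x| < 1/2`, also at `x = 0` by continuity), the other terms are `≥ 0`. In `3` the last two
terms give `4 |v.2|²/(1+|η|²)² + 4 |v.1|²/(1+|ξ|²)² > 0`. In `4`: `K c |v.1|² + 4 |v.2|²/(1+|η|²)² > 0`. In `2`: if
`v.1 ≠ 0` the term `log (1 + |ξ|²)`; if `v.1 = 0`, `v.2 ≠ 0` then `dx(v) = ξ v.2`, `dy(v) = (1 + ξ) v.2` and one of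
them is not `0`. -/
def S_PSI2 : Prop := ∀ (G h : ℂ → ℝ) (c : ℝ), IsGreen G h c → ∀ K : ℝ, 2 < K →
  ∀ j : Fin 5, 2 ≤ j → ∀ z ∈ V j, ∃ ρ, PotAt (Psi G K) j z ρ ∧ ∀ v, v ≠ 0 → 0 < lev ρ z v

/-- PSI: `StPsi` from the parts. `K = K0`, `c0 = 1`. In the systems `0`, `1` the positivity is
`nm z v ≤ lev ρ z v` resp. `|v.1|² + |v.2|²/(1 + |t|²)² ≤ lev ρ z v` by `S_CLEV` (applied to `ρ` minus the constant... more
precisely: for fixed `v` the function `z' ↦ lev ρ z' v - nm z' v` is continuous at `z`; one can also apply `S_CLEV` with any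
`a < nm z v`, as `nm z' v > a` near `z`). In the system `1` at the points `z'` with `tr 1 z' ∈ W`:
`lev ρ z' v = lev (Ψ ∘ tr 1) z' v = lev Ψ (tr 1 z') (v.1, - v.2 / t²) ≥ nm (x, 1/t) (v.1, - v.2/t²) =
|v.1|² + |v.2|²/(1 + |t|²)²`. -/
def S_PSI : Prop := S_PSIL → S_PSI0 → S_PSI2 → StPsi

/-! ## C. Nef and big -/

/-- RING: the lower bound in the ring `1/8 ≤ |x| ≤ 1/4`.
Proof. There `near = chi ψ + C |y|²` with `ψ = log q`, `q = |y/x - 1|² + k |x|²`, `q = 1 + k |x|²` at `y = 0`.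
`lev (chi ψ) z v = ψ lev chi + 2 (cross terms) + chi lev ψ`, `lev ψ ≥ 0` (`S_LLOG` with `f = y/x - 1`, `g = √k x`).
Let `M` bound the first two derivatives of `chi` on the ring. `|ψ| ≤ A (k + |y|)`, `|∂_x ψ| ≤ A (k + |y|)`,
`|∂_y ψ| ≤ A` for `|y| ≤ 1/32`, `k ≤ 1`, `A` absolute. So with `a = |v.1|`, `b = |v.2|`:
`lev (chi ψ) ≥ - A' (k + |y|) a² - A' a b ≥ - (A' (k + η) + ε/2) a² - (A'²/(2 ε)) b²`. Choose `k`, `η` with
`A' (k + η) ≤ ε/2` and `C ≥ A'²/(2ε)` (`lev (C |y|²) = 4 C b²`), so `≥ - ε a² ≥ - ε nm`. -/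
def S_RING : Prop := ∀ ε : ℝ, 0 < ε → ∃ k C η : ℝ, 0 < k ∧ k ≤ 1 ∧ 0 ≤ C ∧ 0 < η ∧
  ∀ x y : ℂ, 1 / 8 ≤ ‖x‖ → ‖x‖ ≤ 1 / 4 → ‖y‖ < η → ∀ v, -(ε * nm (x, y) v) ≤ lev (near k C) (x, y) v

/-- NEAR: `StNear` from `S_RING`. Periodicity: near `(x, y)` the function `near` is its translate, so one may
replace `x` by `red x` (if `|red x| < 1/2`). `|red x| < 1/8`: `near = log (|w/x|² + |√k x|²) + C |y|²` near the point,
Levi form `≥ 0`. `|red x| > 1/4`: `near = C |y|²` near the point. Else `S_RING`. -/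
def S_NEAR : Prop := S_RING → StNear

/-- FARL: the Levi form of `far`, and smoothness. -/
def S_FARL : Prop := ∀ (G h : ℂ → ℝ) (c : ℝ), IsGreen G h c → ∀ A : ℝ, ∀ z ∈ W,
  ContDiffAt ℝ ∞ (far G A) z ∧
  ∀ v, lev (far G A) z v = c * ‖v.1‖ ^ 2 + 2 * ‖v.2‖ ^ 2 / (1 + ‖z.2‖ ^ 2) ^ 2

/-- FARE: `far - Φ` extends at the points which are not on the curve `y = 0` or an exceptional curve, and so
does `chi (L1 + L2)`.
Proof. System `1` (`y = 1/t`): `far - Φ = - 5/2 log (1 + |t|²) - (G x - chi x log |r|²) + A - chi x log ((|1 - t r|² + |t|²|r|⁴)/(1 + |t|²))`,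
`r = red x`; `G - chi log |red|²` extends smoothly: near `l ∈ Λ` it is `h (x - l)` off `l` (`chi = 1` near `l`). Systems
`j ≠ 1`: `y ≠ 0` at `z`, where `(x, y) = tr j z`, and then `w`, `x` are not both `0`... : `far - Φ =
5/2 log |y|² - 5/2 log (1 + |y|²) - (G x - chi x log |r|²) + A - chi x L2 (x,y)`, all terms smooth functions of `(x, y)`
near a point with `y ≠ 0` (`L2` where `chi ≠ 0`: `|y - r|² + |r|⁴ ≠ 0`); compose with `tr j` (polynomial). The same for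
`chi (L1 + L2)`. -/
def S_FARE : Prop := ∀ (G h : ℂ → ℝ) (c : ℝ), IsGreen G h c → ∀ (A : ℝ) (j : Fin 5), ∀ z ∈ V j,
  ¬ onA j z → ExtAt (fun z => far G A z - Phi z) j z ∧
    ExtAt (fun z => chi z.1 * (L1 z + L2 z)) j z

/-- NEARE: `near - Φ` extends in all systems but `1`.
Proof. System `0`: at `x ∉ Λ` both are smooth (`S_PHIS`). At `x = l ∈ Λ`, `y ≠ 0` (`l = 0` for simplicity):
`near - Φ = log (|w|² + k |x|⁴) - log (|w|² + |x|⁴) + C |y|² - 2 log (1 + |y|²)` near `z` off `x = 0`, smooth.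
Systems `2`, `3`, `4`: the same formula, and `(|w|² + k |x|⁴)/(|w|² + |x|⁴)` is `(1 + k |ξ²η|²)/(1 + |ξ²η|²)`,
`(1 + k |ξ|²)/(1 + |ξ|²)`, `(k + |η|²)/(1 + |η|²)`. -/
def S_NEARE : Prop := ∀ k C : ℝ, 0 < k → ∀ j : Fin 5, j ≠ 1 → ∀ z ∈ V j,
  ExtAt (fun z => near k C z - Phi z) j z

/-- the function `U` of the proof that the class is nef -/
noncomputable def Un (G : ℂ → ℝ) (k C A s : ℝ) (m : ℝ → ℝ) (z : E) : ℝ :=
  if ‖z.2‖ < s then near k C z + m (far G A z - near k C z) else far G A z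

/-- NEF: `StNef` from the parts.
Proof. Given `ε`: `k`, `C`, `η` from `StNear`, then `A`, `η1 < η2 < η` from `StComp`, `m` from `StMax`;
`U = Un G k C A η m`. It is `near` for `|y| ≤ η1` (`m r = 0` for `r ≤ -1`), `far` for `|y| ≥ η2`
(`m r = r` for `r ≥ 1`), and the formula `near + m (far - near)` holds for `|y| < η`. Per: `S_PHIS`-type
periodicity of `G`, `chi`, `red`. Levi form at `z ∈ W`: if `|y| < η` use `StMax` with `t = -(ε nm z v)` (`f = far`,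
`g = near`, `S_FARL`, `StNear`, smoothness `S_PHIS`), if `|y| > η2` it is that of `far`, `≥ 0`.
Extension at `z ∈ V j`: if `j = 1` and `z.2 = 0`, or `|y| > η2` at `z` (`y` the second component of `tr j z`): `U = far` at
the points near `z`, `S_FARE`. If `j ≠ 1` and `|y| < η1`: `U = near` near `z`, `S_NEARE` (this contains `onA`). Else
`0 < |y| < η` : `U - Φ = (near - Φ) + m ((far - Φ) - (near - Φ))` near `z`, `S_FARE` and `S_NEARE` (for `j = 1` and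
`z.2 ≠ 0` pass to the system `0`: `tr 1 = (z.1, z.2⁻¹)` is analytic near `z` and `ExtAt _ 0 (tr 1 z)` gives `ExtAt _ 1 z`). -/
def S_NEF : Prop := StNear → StComp → StMax → S_FARL → S_FARE → S_NEARE → StNef

/-- BIGL: the function `U` of the proof that the class is big tends to `-∞` relative to `Φ` at the curves `onA`.
Proof. `U = far G 0 + δ chi (L1 + L2)`; `chi (L1 + L2)` is bounded above near `(0,0)` (and near all points with
`|y| < 1`). At `y → 0`, `x → x0 ∉ Λ`: `far → -∞` and `Φ`, `chi (L1 + L2)` are continuous at `(x0, 0)`. At a point `z` with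
`tr j z = (x, y)`, `x = l ∈ Λ`, `y = 0` (`l = 0` for `j ≥ 2`): near it `chi = 1` and
`far - Φ = 5/2 log |y|² - 5/2 log (1 + |y|²) - h(x - l) - log (|w|² + |r|⁴) + log(1+|y|²)` with `r = red x`, `w = y - r`, and
`|w|² + |r|⁴ ≥ |y|⁴ / 16` for `|y| ≤ 1` (`|r| ≥ |y|/2` or `|w| ≥ |y|/2`), so it is `≤ 1/2 log |y|² + const → -∞`. (In the
system `0`, `z ∈ V 0` with `y = 0` has `x ∉ Λ`.) -/
def S_BIGL : Prop := ∀ (G h : ℂ → ℝ) (c : ℝ), IsGreen G h c → ∀ δ : ℝ, 0 < δ →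
  ∀ j, ∀ z ∈ V j, onA j z →
    Tendsto (fun z' => far G 0 (tr j z') + δ * (chi (tr j z').1 * (L1 (tr j z') + L2 (tr j z')))
      - Phi (tr j z')) (𝓝[{z' | tr j z' ∈ W}] z) atBot

/-- BIG: `StBig` from the parts. `U = far G 0 + δ chi (L1 + L2)`, `δ = min (1/K) (1/(2K))= 1/(2K)`:
`lev U = c |v.1|² + 2 |v.2|²/(1+|y|²)² + δ lev (chi (L1 + L2))`,
`δ lev Ψ = δ K c |v.1|² + 4 δ K |v.2|²/(1+|y|²)² + δ lev (chi (L1 + L2))`. -/
def S_BIG : Prop := S_FARL → S_FARE → S_BIGL → StBig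

/-! ## D. There is no semipositive representative -/

/-- a candidate: `u0`, `u2`, `u3` are the extensions of `u` in the coordinate systems `0`, `2`, `3` -/
structure Cand (u u0 u2 u3 : E → ℝ) : Prop where
  per : Per u
  s0 : ∀ z ∈ V 0, ContDiffAt ℝ ∞ u0 z
  e0 : ∀ z ∈ W, u0 z = u z
  s2 : ∀ z ∈ V 2, ContDiffAt ℝ ∞ u2 z
  e2 : ∀ z ∈ V 2, tr 2 z ∈ W → u2 z = u (tr 2 z)
  s3 : ∀ z ∈ V 3, ContDiffAt ℝ ∞ u3 z
  e3 : ∀ z ∈ V 3, tr 3 z ∈ W → u3 z = u (tr 3 z)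
  pos : ∀ z ∈ W, ∀ v, 0 ≤ lev (fun z' => Phi z' + u z') z v

/-- HARM: a bounded smooth function on `ℂ` with Laplacian `≥ 0` is constant (derivative `0`).
Proof. `StLiou`: `Δ v = 0`. `v²` is bounded and `Δ (v²) = 2 |∇ v|² ≥ 0`, so `Δ (v²) = 0` by `StLiou`, so
`∇ v = 0`. -/
def S_HARM : Prop := StLiou → ∀ v : ℂ → ℝ, ContDiff ℝ ∞ v → (∃ K, ∀ x, |v x| ≤ K) →
  (∀ x, 0 ≤ Laplacian.laplacian v x) → ∀ x a : ℂ, fderiv ℝ v x a = 0

/-- N1: `u2` is constant on the curve `η = 0`.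
Proof. `f ξ = u2 (ξ, 0)`, smooth on `ℂ`. (1) Bounded: for `ξ ≠ 0` `f ξ = u3 (0, 1/ξ)`, since for small `η ≠ 0`
`tr 2 (ξ, η) = tr 3 (ξ² η, 1/ξ) ∈ W` (if `ξ ≠ 0, -1`), so `u2 (ξ, η) = u3 (ξ² η, 1/ξ)`, `η → 0` (for `ξ = -1` by continuity in
`ξ`); `u3 (0, ·)` is bounded on the closed unit disc and `f` on the closed unit disc. (2) `Δ f ≥ 0`: near a
point `(ξ, η)` of `V 2` with `tr 2 ∈ W`, `Φ (tr 2) = ρ - log |ξ|²` with
`ρ = 2 log (1 + |η (1 + ξ)|²) + log (1 + |ξ² η|²)`, and `lev (Φ ∘ tr 2 + u ∘ tr 2) ≥ 0` there (chain rule and `pos`), so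
`lev (ρ + u2) ≥ 0`; by `S_CLEV` also at `(ξ, 0)`; in the direction `(1, 0)` the function `ρ` is constant `= 0` on `η = 0`, so
`0 ≤ lev u2 (ξ, 0) (1, 0) = Δ f ξ`. (3) `S_HARM`. -/
def S_N1 : Prop := ∀ u u0 u2 u3 : E → ℝ, Cand u u0 u2 u3 → ∀ ξ a : ℂ,
  fderiv ℝ u2 (ξ, 0) (a, 0) = 0

/-- N2: `Φ + u0` has Levi form `0` along the curve `y = 0`.
Proof. `v x = chi x log (1 + |red x|²) + u0 (x, 0)` for `x ∉ Λ`, and near `l ∈ Λ` `v x = log (1 + |x - l|²) + u2 (-1, -(x - l))`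
(for `0 < |x - l| < 1/8`: `u0 (x, 0) = u2 (-1, -(x-l))`, from `tr 2 (x'/(y - x'), y - x') = (x', y)`, `x' = x - l`, and
periodicity, first for small `y ≠ 0`, then `y → 0`). So (with this value at `l`) `v` is smooth on `ℂ` and periodic, so
bounded; `Φ (x, 0) = chi x log (1 + |red x|²)` for `x ∉ Λ` so `Δ v x = lev (Φ + u0) (x, 0) (1, 0) ≥ 0` for `x ∉ Λ`
(`S_CLEV` in the system `0` and `pos`), and on `Λ` by continuity. `StLiou`. -/
def S_N2 : Prop := ∀ u u0 u2 u3 : E → ℝ, Cand u u0 u2 u3 → ∀ x : ℂ, x ∉ Lam →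
  lev (fun z => Phi z + u0 z) (x, 0) (1, 0) = 0

/-- the complex derivative `∂ρ/∂y` at `(x, 0)` -/
noncomputable def dy (ρ : E → ℝ) (x : ℂ) : ℂ :=
  ((fderiv ℝ ρ (x, 0) (0, 1) : ℝ) - Complex.I * (fderiv ℝ ρ (x, 0) (0, Complex.I) : ℝ)) / 2

/-- N3: if the Levi form is semipositive and vanishes in the direction `(1, 0)` along `y = 0`, then `∂ρ/∂y` is
holomorphic.
Proof. `B = D²ρ (x, 0)` (symmetric). `lev ρ (x,0) v = B(v, v) + B(iv, iv)`. For `v = (1, s b)`, `s` real,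
`0 ≤ lev = 0 + 2 s (B(e₁, b e₂) + B(i e₁, i b e₂)) + s² (..)` for all `s`, so `B(e₁, b e₂) + B(i e₁, i b e₂) = 0` for all `b`. With
`g = dy ρ`, `Dg(a) = (B(a e₁, e₂) - i B(a e₁, i e₂))/2`: `b = 1` gives `B(i e₁, i e₂) = - B(e₁, e₂)`, `b = -i` gives
`B(i e₁, e₂) = B(e₁, i e₂)`, so `Dg(i) = i Dg(1)`, the Cauchy–Riemann equation. -/
def S_N3 : Prop := ∀ (ρ : E → ℝ) (O : Set ℂ), IsOpen O → (∀ x ∈ O, ContDiffAt ℝ ∞ ρ (x, 0)) →
  (∀ x ∈ O, ∀ v, 0 ≤ lev ρ (x, 0) v) → (∀ x ∈ O, lev ρ (x, 0) (1, 0) = 0) →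
  ∀ x ∈ O, DifferentiableAt ℂ (dy ρ) x

/-- N4: the residue.
Proof. For `0 < |x| < 1/8`: near `(x, 0)` `Φ = 2 log (1 + |y|²) + log (|y - x|² + |x|⁴) - log |x|²`, and
`dy` of it is `- conj x / (|x|² + |x|⁴) = - 1 / (x (1 + |x|²))`. `u0 (x', y) = u2 (x'/(y - x'), y - x')` near `(x, 0)` (both
continuous, equal on `W`), whose derivative in the direction `(0, b)` at `(x, 0)` is `Du2(-1, -x)(- b/x, b)`. So
`x dy(u0)(x) = ` `-` (the `∂_ξ`-derivative of `u2` at `(-1, -x)`) `+ x ·` (the `∂_η`-derivative) `→ 0` by `S_N1` (the derivatives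
of `u2` are continuous at `(-1, 0)`, and `∂_ξ u2 (-1, 0) = 0`). -/
def S_N4 : Prop := S_N1 → ∀ u u0 u2 u3 : E → ℝ, Cand u u0 u2 u3 →
  Tendsto (fun x => x * dy (fun z => Phi z + u0 z) x) (𝓝[≠] 0) (𝓝 (-1))

/-- NOT: `StNot` from the parts. `S_GEXT` gives `u0`, `u2`, `u3`; `g = dy (Φ + u0)` is holomorphic off `Λ`
(`S_N3` with `O` the complement of `Λ`; `lev ≥ 0` at `(x, 0)` by `S_CLEV`), periodic (`Φ`, `u0` are periodic near
`(x, 0)`), and `x g x → -1`: `StRes`. -/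
def S_NOT : Prop := StRes → S_GEXT → S_N2 → S_N3 → S_N4 → S_N1 → StNot

/-! ## E. The surface -/

/-- the points of the surface: the point `(x mod Λ, y)` with `y ∈ ℙ¹` (`none = ∞`) outside of the centre of the
blow-up; the points of the first exceptional curve (coordinate `x / w`), and the points of the second one outside the first
(coordinate `w / x²`) -/
inductive Pt : Type
  | ord (x : Set ℂ) (y : Option ℂ) : Pt
  | e1 (s : Option ℂ) : Pt
  | e2 (s : ℂ) : Pt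

/-- the class of `x` modulo `Λ` -/
def cls (x : ℂ) : Set ℂ := {x' | x' - x ∈ Lam}

open Classical in
/-- the point with given coordinates in the five coordinate systems -/
noncomputable def PP : Fin 5 → E → Pt
  | 0 => fun z => .ord (cls z.1) (some z.2)
  | 1 => fun z => .ord (cls z.1) (if z.2 = 0 then none else some z.2⁻¹)
  | 2 => fun z => if z.2 = 0 then .e1 (some z.1) else .ord (cls (tr 2 z).1) (some (tr 2 z).2)
  | 3 => fun z => if z.1 = 0 then .e1 (if z.2 = 0 then none else some z.2⁻¹) else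
      if z.2 = 0 then .e2 z.1⁻¹ else .ord (cls (tr 3 z).1) (some (tr 3 z).2)
  | 4 => fun z => if z.1 = 0 then .e2 z.2 else .ord (cls (tr 4 z).1) (some (tr 4 z).2)

/-- the index set of the charts -/
abbrev Idx : Type := Fin 5 × ℂ

/-- the domains of the charts: in the systems `0` and `1` we restrict `x` to a disc of radius `1/2` -/
def UU (i : Idx) : Set E := {z | z ∈ V i.1 ∧ (i.1 < 2 → ‖z.1 - i.2‖ < 1 / 2)}

section

variable {Y : Type} [TopologicalSpace Y] [ChartedSpace E Y]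

/-- `Q i`, restricted to `U i`, are local coordinates of the complex manifold `Y` -/
structure Params {I : Type} (Y : Type) [TopologicalSpace Y] [ChartedSpace E Y] (U : I → Set E)
    (Q : I → E → Y) : Prop where
  man : IsManifold 𝓘(ℂ, E) ω Y
  surj : ∀ y, ∃ i, ∃ z ∈ U i, Q i z = y
  smooth : ∀ i, ∀ z ∈ U i, ContMDiffAt 𝓘(ℂ, E) 𝓘(ℂ, E) ω (Q i) z
  opn : ∀ i, ∀ O ⊆ U i, IsOpen O → IsOpen (Q i '' O)
  inv : ∀ i, ∀ z ∈ U i, ∃ c : Y → E, c (Q i z) = z ∧ ContMDiffAt 𝓘(ℂ, E) 𝓘(ℂ, E) ω c (Q i z) ∧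
    (∀ᶠ q in 𝓝 (Q i z), Q i (c q) = q) ∧ ∀ᶠ t in 𝓝 z, c (Q i t) = t

/-- `Y` is the surface -/
structure Surf (Y : Type) [TopologicalSpace Y] [ChartedSpace E Y] (Q : Idx → E → Y) : Prop where
  par : Params Y UU Q
  eqv : ∀ i j z z', z ∈ UU i → z' ∈ UU j → (Q i z = Q j z' ↔ PP i.1 z = PP j.1 z')

end

/-- the gluing condition -/
structure Glu {I M : Type} (U : I → Set E) (P : I → E → M) : Prop where
  op : ∀ i, IsOpen (U i)
  inj : ∀ i, InjOn (P i) (U i)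
  tr : ∀ i j z z', z ∈ U i → z' ∈ U j → P i z = P j z' →
    ∃ φ : E → E, AnalyticAt ℂ φ z ∧ φ z = z' ∧ ∀ᶠ t in 𝓝 z, P j (φ t) = P i t

/-- GLUE: gluing of charts.
Proof. `Y = {m : M // ∃ i, ∃ z ∈ U i, P i z = m}` with the topology: `S` is open iff
`{z ∈ U i | P i z ∈ S}` is open for all `i`. For `O ⊆ U i` open the image `P i '' O` is open: a point `z'` of
`{z' ∈ U j | P j z' ∈ P i '' O}` has `P j z' = P i z`, `z ∈ O`, take `φ` for `(j, i, z', z)`; for `t` near `z'` `φ t` is near `z` so in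
`O`, and `P i (φ t) = P j t`. So `P i` is an open embedding of `U i` (injective, continuous, open) and its inverse is a
chart `OpenPartialHomeomorph Y E` with source `P i '' U i`, target `U i`. Atlas: all these charts; `chartAt y`: choose
`i` with `y ∈ P i '' U i`. Transition maps from `i` to `j` near `z`: equal to `φ` near `z` (`φ t ∈ U j` for `t` near `z`, and
`P j` is injective on `U j`), analytic, so in `contDiffGroupoid ω` (`contDiffOn` of analytic functions; use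
`isManifold_of_contDiffOn`). `Q i z = P i z` for `z ∈ U i` (anything else outside). -/
def S_GLUE : Prop := ∀ (I M : Type) (U : I → Set E) (P : I → E → M), Nonempty I → (∃ i, (U i).Nonempty) →
  Glu U P → ∃ (Y : Type) (_ : TopologicalSpace Y) (_ : ChartedSpace E Y) (Q : I → E → Y),
    Params Y U Q ∧ ∀ i j z z', z ∈ U i → z' ∈ U j → (Q i z = Q j z' ↔ P i z = P j z')

/-- TRW: comparison of two coordinate systems at the points of `W`.
Proof. If `tr i z ∈ W`, `z ∈ V i`, then `PP i z = ord (cls (tr i z).1) (some (tr i z).2)` (for `i = 1` `z.2 ≠ 0` as `z.2⁻¹ ≠ 0`;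
for `i ≥ 2` the coordinate equal to `0` would give `x = 0 ∈ Λ`). Conversely `PP j z' = ord _ (some y)` gives
`(tr j z').2 = y`, `cls (tr j z').1 = cls (tr i z).1`, so `(tr j z').1 - (tr i z).1 ∈ Λ`. -/
def S_TRW : Prop := ∀ (i j : Fin 5) (z z' : E), z ∈ V i → z' ∈ V j → PP i z = PP j z' → tr i z ∈ W →
  tr j z' ∈ W ∧ (tr j z').2 = (tr i z).2 ∧ (tr j z').1 - (tr i z).1 ∈ Lam

/-- INJ: the charts are injective and their domains open.
Proof. System `0`, `1`: two points with `x - x' ∈ Λ`, `|x - x'| < 1` have `x = x'` (nonzero elements of `Λ` have norm `≥ 1`).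
Systems `2`, `3`, `4`: `|x| < 1/8` so `x` is determined by `cls x`; `ord`: `2`: `η = y - x ≠ 0`, `ξ = x/η`; `3`: `ξ η = x ≠ 0`,
`η = (y - x)/x`; `4`: `ξ = x`, `η = (y - x)/x²`. -/
def S_INJ : Prop := ∀ i : Idx, IsOpen (UU i) ∧ InjOn (PP i.1) (UU i)

/-- TRO: transitions at ordinary points.
Proof. `PP i z = ord (cls x) (some y)`, `(x, y) = tr i z`, `(x', y) = tr j z'` with `x' = x + l`, `l ∈ Λ`; near `z` the point `PP i t` is
`ord (cls (tr i t).1) (some (tr i t).2)` with `tr i` analytic near `z` (`i = 1`: `z.2 ≠ 0`; `i = 2`: `z.2 ≠ 0`; `3`: `z.1, z.2 ≠ 0`;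
`4`: `z.1 ≠ 0`). `φ t = inv_j ((tr i t).1 + l, (tr i t).2)` where `inv_0 = id`, `inv_1 (x, y) = (x, 1/y)` (`y ≠ 0`),
`inv_2 (x, y) = (x/(y-x), y-x)` (`y - x = z'.2 ≠ 0`), `inv_3 (x, y) = (x²/(y-x), (y-x)/x)` (`x, y - x ≠ 0`),
`inv_4 (x, y) = (x, (y-x)/x²)` (`x ≠ 0`). The case of the value `ord _ none`: `i = j = 1`, `z.2 = z'.2 = 0`,
`φ t = (t.1 + l, t.2)`. -/
def S_TRO : Prop := ∀ (i j : Fin 5) (z z' : E) (x : Set ℂ) (y : Option ℂ), z ∈ V i → z' ∈ V j →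
  PP i z = .ord x y → PP j z' = .ord x y →
  ∃ φ : E → E, AnalyticAt ℂ φ z ∧ φ z = z' ∧ ∀ᶠ t in 𝓝 z, PP j (φ t) = PP i t

/-- TRE: transitions at exceptional points.
Proof. `e1 s`: `i, j ∈ {2, 3}`; `i = j`: `z = z'`, `φ = id` (`S_INJ`-type computation). `i = 2`, `j = 3`: `z = (ξ, 0)`, `ξ ≠ 0`
(`s = some ξ`, and `s = some η'⁻¹` with `z' = (0, η')`, `η' ≠ 0`), `φ (ξ, η) = (ξ² η, 1/ξ)`. `i = 3`, `j = 2`:
`φ (ξ, η) = (1/η, ξ η²)`. `e2 s`: `i, j ∈ {3, 4}`: `i = 3`, `j = 4`: `z = (ξ, 0)`, `ξ ≠ 0`, `φ (ξ, η) = (ξ η, 1/ξ)`;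
`i = 4`, `j = 3`: `z = (0, η)`, `η = s = ξ'⁻¹ ≠ 0`: `φ (ξ, η) = (1/η, ξ η)`. Check in each case that `PP j (φ t) = PP i t` for all `t`
near `z` (exceptional points go to exceptional points, ordinary ones have the same `x`, `y`). -/
def S_TRE : Prop := ∀ (i j : Fin 5) (z z' : E), z ∈ V i → z' ∈ V j → PP i z = PP j z' →
  (∀ x y, PP i z ≠ .ord x y) →
  ∃ φ : E → E, AnalyticAt ℂ φ z ∧ φ z = z' ∧ ∀ᶠ t in 𝓝 z, PP j (φ t) = PP i t

/-- HAUS: the surface is Hausdorff.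
Proof. Two points `Q i z ≠ Q j z'`; if they had no disjoint neighbourhoods there would be a filter/sequences
`z_n → z` in `UU i`, `z'_n → z'` in `UU j` with `PP i z_n = PP j z'_n`; we show `PP i z = PP j z'`. The map
`β : (cls x, y) ∈ B × ℙ¹` is continuous in all systems (`(cls 0, 0)` at exceptional points): write `(x_n, y_n)`, `(x'_n, y'_n)` for the
coordinates (`tr`), so `y_n = y'_n`, `x'_n - x_n ∈ Λ` convergent so constant `= l` for large `n`. If the limit `β` of the two is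
not `(0,0)` mod `Λ` then both points are ordinary with the same `(cls x, y)` (including `y = ∞`: then `i = j = 1`, or
`y_n → ∞` is impossible in the systems `≠ 1`). If `β = (0,0)`: `i, j ∈ {2,3,4}` (a point of `V 0` over `(0,0)` does not exist),
`x_n = x'_n` (`|x| < 1/8`), `w_n = w'_n`. `(2,2)`: `η = η'` in the limit and both are `0` (`η = w → 0`), the points are `e1 ξ`, `e1 ξ'`; the
`n`-th points are equal as elements of `UU 2` (injectivity), so `ξ = ξ'`. Same for `(3,3)`, `(4,4)`. `(2,3)`: `PP 2 (ξ_n, η_n) = PP 3 (ξ'_n, η'_n)`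
implies `ξ_n η'_n = 1` (for ordinary points `ξ = x/w`, `η' = w/x`; for `e1`-points by definition), and `ξ'_n = ξ_n² η_n`; so in the limit
`ξ η' = 1`, `ξ' = ξ² η`, `η = 0` so `ξ' = 0` and the points are equal. `(2,4)`: `ξ_n² η_n η'_n = 1` (ordinary; `e1` is never `e2`), the limit is
`0 = 1`. `(3,4)`: `ξ_n η'_n = 1`, `ξ'_n = ξ_n η_n`; the limit has `ξ η' = 1`, `ξ' = x = 0 = ξ η` so `η = 0`: `e2 ξ⁻¹ = e2 η'`. -/
def S_HAUS : Prop := ∀ (Y : Type) [TopologicalSpace Y] [ChartedSpace E Y] (Q : Idx → E → Y), Surf Y Q →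
  T2Space Y

/-- COMP: the surface is compact.
Proof. `Y` is the union of finitely many images `Q i '' K` of compact `K ⊆ UU i`, `Q i` continuous there. With `r = 1/10`:
every point of `W`/every ordinary point has a representative `x = red x`, `|Re x|, |Im x| ≤ 1/2`. (a) `|y| ≤ 1` and
(`|x| ≥ r` or `|y| ≥ r`): system `0`, `K_a = {|Re x|,|Im x| ≤ 1/2, |x - a| ≤ 2/5, |y| ≤ 1, |x| ≥ r or |y| ≥ r}` with `a` in the nine
points `{0, ±1/3} + i {0, ±1/3}` (every `x` of the square is at distance `≤ 2/5` of one of them), `Q (0, a)`. If `x` is in the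
square and `|x| ≥ r` then `x ∉ Λ`. (b) `|y| ≥ 1` or `y = ∞`: system `1`, `|t| ≤ 1`. (c) `|x| ≤ r`, `|y| ≤ r`, so `|w| ≤ 2 r`... take
`r = 1/20` to have `|w| ≤ 1/10`: if `|x| ≤ |w|`, `w ≠ 0`: system `2`, `{|ξ| ≤ 1, |η| ≤ 1/10}`; if `|x|² ≤ |w| ≤ |x|`, `x ≠ 0`: system `3`,
`ξ = x²/w`, `η = w/x`, `{|ξ| ≤ 1, |η| ≤ 1, |ξ η| ≤ 1/10}`; if `|w| ≤ |x|²`, `x ≠ 0`: system `4`, `{|ξ| ≤ 1/10, |η| ≤ 1}`. (d) exceptional points:
`e1 (some s)`, `|s| ≤ 1` in (2); `|s| ≥ 1` or `none` in (3) with `ξ = 0`, `η = 1/s`; `e2 s`: `|s| ≤ 1` in (4), `|s| ≥ 1`: (3) with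
`η = 0`, `ξ = 1/s`. -/
def S_COMP : Prop := ∀ (Y : Type) [TopologicalSpace Y] [ChartedSpace E Y] (Q : Idx → E → Y), Surf Y Q →
  CompactSpace Y

/-- CONN: the surface is connected.
Proof. `V 0` is the complement of a countable set in `ℂ²`, so connected (`Set.Countable.isPathConnected_compl_of_one_lt_rank`; the
real dimension is 4). The map `g : V 0 → Y`, `g z = Q (0, z.1) z` is continuous on `V 0` (near `z` it is `Q (0, z.1)`, by `eqv`), so its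
image is connected, and it contains all `Q i z` with `tr i z ∈ W` (`eqv` with `tr i z`); these are dense in `Y` (`S_DENS`, continuity of `Q i`),
so `Y` is the closure of the image. -/
def S_CONN : Prop := ∀ (Y : Type) [TopologicalSpace Y] [ChartedSpace E Y] (Q : Idx → E → Y), Surf Y Q →
  ConnectedSpace Y

/-! ## F. Forms on complex surfaces (definitions of the final statement) -/

section

variable {Y : Type} [TopologicalSpace Y] [ChartedSpace E Y]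

/-- `f` is (near `0`) a holomorphic disc in the complex manifold `Y` -/
def IsDisc (f : ℂ → Y) : Prop := ContMDiffAt 𝓘(ℂ, ℂ) 𝓘(ℂ, E) ω f 0

/-- A smooth closed real `(1,1)`-form on the complex surface `Y`, given by its local potentials: it
is `dd^c (pot p)` near `p`, where the function `pot p` is smooth near `p`. For `q` near `p` the
functions `pot p` and `pot q` have the same Laplacian at `q` along all discs through `q`. -/
structure Form (Y : Type) [TopologicalSpace Y] [ChartedSpace E Y] where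
  pot : Y → Y → ℝ
  smooth : ∀ p, ∀ᶠ q in 𝓝 p, ContMDiffAt 𝓘(ℝ, E) 𝓘(ℝ, ℝ) ∞ (pot p) q
  compat : ∀ p, ∀ᶠ q in 𝓝 p, ∀ f : ℂ → Y, IsDisc f → f 0 = q →
    Laplacian.laplacian (fun ζ : ℂ => pot p (f ζ) - pot q (f ζ)) 0 = 0

/-- The value of the form on the tangent vector of the disc `f` at `f 0` (up to a constant factor,
`θ (v, J v)` for the tangent vector `v` of `f` at `0`). -/
noncomputable def Form.val (θ : Form Y) (f : ℂ → Y) : ℝ :=
  Laplacian.laplacian (fun ζ : ℂ => θ.pot (f 0) (f ζ)) 0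

/-- The form is positive (a Kähler form). -/
def Form.IsKahler (Ω : Form Y) : Prop :=
  ∀ f : ℂ → Y, IsDisc f → mfderiv 𝓘(ℂ, ℂ) 𝓘(ℂ, E) f 0 ≠ 0 → 0 < Ω.val f

/-- The class of `θ` is nef: it contains forms `θ + dd^c u ≥ - ε Ω`. -/
def IsNef (Ω θ : Form Y) : Prop := ∀ ε : ℝ, 0 < ε → ∃ u : Y → ℝ,
  ContMDiff 𝓘(ℝ, E) 𝓘(ℝ, ℝ) ∞ u ∧
    ∀ f : ℂ → Y, IsDisc f → -(ε * Ω.val f) ≤ θ.val f + Laplacian.laplacian (fun ζ : ℂ => u (f ζ)) 0

/-- The class of `θ` is big, with a Kähler current which is smooth outside the closed set `A`: the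
function `ψ` is smooth outside `A` and has the limit `-∞` at the points of `A`, and
`θ + dd^c ψ ≥ δ Ω` outside `A`. -/
def BigOff (Ω θ : Form Y) (A : Set Y) : Prop :=
  IsClosed A ∧ Dense Aᶜ ∧ ∃ (δ : ℝ) (ψ : Y → ℝ), 0 < δ ∧
    (∀ p, p ∉ A → ContMDiffAt 𝓘(ℝ, E) 𝓘(ℝ, ℝ) ∞ ψ p) ∧
    (∀ p ∈ A, Tendsto ψ (𝓝[Aᶜ] p) atBot) ∧
    ∀ f : ℂ → Y, IsDisc f → f 0 ∉ A →
      δ * Ω.val f ≤ θ.val f + Laplacian.laplacian (fun ζ : ℂ => ψ (f ζ)) 0

/-- The class of `θ` contains a smooth semipositive form. -/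
def HasSemipositive (θ : Form Y) : Prop := ∃ u : Y → ℝ, ContMDiff 𝓘(ℝ, E) 𝓘(ℝ, ℝ) ∞ u ∧
    ∀ f : ℂ → Y, IsDisc f → 0 ≤ θ.val f + Laplacian.laplacian (fun ζ : ℂ => u (f ζ)) 0

/-- `θ` is the form `dd^c Φ`: in the coordinates `Q i` its potentials are potentials of `dd^c Φ` -/
def Rep (Q : Idx → E → Y) (Φ : E → ℝ) (θ : Form Y) : Prop :=
  ∀ i : Idx, ∀ z ∈ UU i, ∃ ρ : E → ℝ, PotAt Φ i.1 z ρ ∧ ∀ᶠ t in 𝓝 z, θ.pot (Q i z) (Q i t) = ρ t

/-- `w` is the function `u` on the surface, on the part `W` -/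
def RepF (Q : Idx → E → Y) (u : E → ℝ) (w : Y → ℝ) : Prop :=
  ∀ i : Idx, ∀ z ∈ UU i, tr i.1 z ∈ W → w (Q i z) = u (tr i.1 z)

/-- the points of the surface on the curve `y = 0` and the exceptional curves -/
def AA (Q : Idx → E → Y) : Set Y := {p | ∃ i : Idx, ∃ z ∈ UU i, onA i.1 z ∧ Q i z = p}

end

/-- DISCC: discs in coordinates.
Proof. `F = c ∘ f` with `c` the local inverse of `Q i` at `z` (`Params.inv`): analytic at `0`
(`ContMDiffAt` between normed spaces is `ContDiffAt ℂ ω`, which is `AnalyticAt`), `Q i (F ζ) = f ζ` near `0`. `deriv F 0 = 0`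
implies `mfderiv f 0 = 0` (chain rule for `f = Q i ∘ F` near `0`, `Q i` is differentiable at `z`). Conversely for
`F` analytic at `0` with `F 0 ∈ UU i` the map `Q i ∘ F` is a disc. -/
def S_DISCC : Prop := ∀ (Y : Type) [TopologicalSpace Y] [ChartedSpace E Y] (Q : Idx → E → Y), Surf Y Q →
  (∀ (i : Idx) (z : E), z ∈ UU i → ∀ f : ℂ → Y, IsDisc f → f 0 = Q i z →
    ∃ F : ℂ → E, AnalyticAt ℂ F 0 ∧ F 0 = z ∧ (∀ᶠ ζ in 𝓝 (0 : ℂ), f ζ = Q i (F ζ)) ∧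
      (deriv F 0 = 0 → mfderiv 𝓘(ℂ, ℂ) 𝓘(ℂ, E) f 0 = 0)) ∧
  (∀ (i : Idx) (F : ℂ → E), F 0 ∈ UU i → AnalyticAt ℂ F 0 → IsDisc fun ζ => Q i (F ζ)) ∧
  (∀ (i : Idx) (z : E) (w : Y → ℝ), z ∈ UU i →
    (ContMDiffAt 𝓘(ℝ, E) 𝓘(ℝ, ℝ) ∞ w (Q i z) ↔ ContDiffAt ℝ ∞ (fun t => w (Q i t)) z))

/-- FORM: the form `dd^c Φ` on the surface.
Proof. For `p ∈ Y` choose `(i, z)` with `z ∈ UU i`, `Q i z = p`, a potential `ρ` (hypothesis) and the local inverse `c` of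
`Q i`; `pot p q = ρ (c q)`. For another representation `(j, z')` of `p` there is `φ` analytic near `z'` with `φ z' = z` and
`PP i (φ t) = PP j t`, so `Q i (φ t) = Q j t` near `z'` (`S_TRO`, `S_TRE` with `UU i` open), so `pot p (Q j t) = ρ (φ t)` near `z'`, and `ρ ∘ φ` is a
potential of `dd^c Φ` in the system `j`: smooth near `z'`, and for `t` near `z'` with `tr j t ∈ W`: `tr i (φ t) ∈ W` and
`Φ (tr j t) = Φ (tr i (φ t))` (`S_TRW`, `Per`; this holds for all points near `t` as well), so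
`lev (ρ ∘ φ - Φ ∘ tr j) t v = lev (ρ - Φ ∘ tr i) (φ t) (Dφ v) = 0` (`S_LOPS`; `Φ` is smooth on `W`). This is `Rep`. Compat: `q = Q i t` near `p`,
`f = Q i ∘ F` (`S_DISCC`), `pot p ∘ Q i = ρ` near `t`, `pot q ∘ Q i = ρ'` near `t` with `ρ'` a potential at `t` (`Rep`), so
`lev (ρ - ρ') t' v = 0` at the points `t'` near `t` with `tr i t' ∈ W`, and by `S_CLEV` (for `ρ - ρ'` and `ρ' - ρ`) at `t`; `S_LDISC`. -/
def S_FORM : Prop := ∀ (Y : Type) [TopologicalSpace Y] [ChartedSpace E Y] (Q : Idx → E → Y), Surf Y Q →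
  ∀ Φ : E → ℝ, Per Φ → (∀ z ∈ W, ContDiffAt ℝ ∞ Φ z) → (∀ j, ∀ z ∈ V j, ∃ ρ, PotAt Φ j z ρ) →
  ∃ θ : Form Y, Rep Q Φ θ

/-- REPV: the value of the form in coordinates.
Proof. `f = Q i ∘ F` near `0`; `θ.val f = Δ (ρ₀ ∘ F)(0)` with the function `ρ₀` of `Rep`, `= lev ρ₀ z (F' 0)` by `S_LDISC`; and
`lev ρ z v = lev ρ₀ z v` for any other potential `ρ`, by `S_CLEV` for `± (ρ - ρ₀)`. The last part: for `z ∈ UU i` and any `v ∈ E` there is a disc
with `F' 0 = v` (`F ζ = z + ζ v`). -/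
def S_REPV : Prop := ∀ (Y : Type) [TopologicalSpace Y] [ChartedSpace E Y] (Q : Idx → E → Y), Surf Y Q →
  ∀ (Φ : E → ℝ) (θ : Form Y), Rep Q Φ θ → ∀ (i : Idx) (z : E), z ∈ UU i → ∀ ρ, PotAt Φ i.1 z ρ →
  ∀ (f : ℂ → Y) (F : ℂ → E), IsDisc f → AnalyticAt ℂ F 0 → F 0 = z → (∀ᶠ ζ in 𝓝 (0 : ℂ), f ζ = Q i (F ζ)) →
  θ.val f = lev ρ z (deriv F 0)

/-- FUN: functions on the surface from functions on `W`, on an open set.
Proof. `O ⊆ Y` open such that `ExtAt u i z` for all `z ∈ UU i` with `Q i z ∈ O`. For each `i` `S_GEXT` (with the open set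
`{z ∈ UU i | Q i z ∈ O}`) gives `w_i`. If `Q i z = Q j z'` is in `O` then `w_i z = w_j z'`: with the transition `φ` (`S_TRO`, `S_TRE`)
`w_i t = u (tr i t) = u (tr j (φ t)) = w_j (φ t)` for `t` near `z` with `tr i t ∈ W` (`S_TRW`, `Per`), both sides are continuous at `z`, `S_DENS`.
So `w (Q i z) = w_i z` is well defined on `O`; outside `O` put `w = 0`. Smooth: `w ∘ Q i = w_i` near `z` (`S_DISCC`, third part).
`RepF` for the points in `O`. -/
def S_FUN : Prop := ∀ (Y : Type) [TopologicalSpace Y] [ChartedSpace E Y] (Q : Idx → E → Y), Surf Y Q →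
  ∀ (u : E → ℝ) (O : Set Y), Per u → IsOpen O → (∀ i : Idx, ∀ z ∈ UU i, Q i z ∈ O → ExtAt u i.1 z) →
  ∃ w : Y → ℝ, (∀ p ∈ O, ContMDiffAt 𝓘(ℝ, E) 𝓘(ℝ, ℝ) ∞ w p) ∧
    ∀ i : Idx, ∀ z ∈ UU i, Q i z ∈ O → tr i.1 z ∈ W → w (Q i z) = u (tr i.1 z)

/-- FUNR: functions on `W` from functions on the surface.
Proof. `u z = w (Q (0, z.1) z)` for `z ∈ W` (then `z ∈ UU (0, z.1)`), `u z = 0` for `z ∉ W`. Periodic: `PP 0` is periodic in `x`, `eqv`.
`ExtAt u j z` with the function `t ↦ w (Q (j, z.1) t)` (smooth near `z`, `S_DISCC`); for `t` near `z` with `tr j t ∈ W`: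
`Q (j, z.1) t = Q (0, (tr j t).1) (tr j t)` by `eqv`. -/
def S_FUNR : Prop := ∀ (Y : Type) [TopologicalSpace Y] [ChartedSpace E Y] (Q : Idx → E → Y), Surf Y Q →
  ∀ w : Y → ℝ, ContMDiff 𝓘(ℝ, E) 𝓘(ℝ, ℝ) ∞ w → ∃ u : E → ℝ, Per u ∧ Ext u ∧ RepF Q u w

/-- INEQ: transfer of inequalities from `W` to the surface.
Proof. `f 0 = Q i z`, `f = Q i ∘ F` near `0`, `v = F'(0)`. By `S_REPV` `Ω.val f = lev ρ' z v`, `θ.val f = lev ρ z v`, and the Laplacian of `w ∘ f` is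
`lev (w ∘ Q i) z v` (`S_LDISC`; `w ∘ Q i` smooth near `z` since `O` is open). The function `ρ + w ∘ Q i - c ρ'` is smooth near `z` and at the points `t` near
`z` with `tr i t ∈ W` its Levi form is `lev ((Φ + u - c Ψ) ∘ tr i) t v = lev (Φ + u - c Ψ) (tr i t) (D tr v) ≥ 0` (`w (Q i t) = u (tr i t)` near such points;
`S_LOPS`, `S_DENS` for the analyticity of `tr i`; `u` is smooth on `W`: hypothesis). `S_CLEV`. -/
def S_INEQ : Prop := ∀ (Y : Type) [TopologicalSpace Y] [ChartedSpace E Y] (Q : Idx → E → Y), Surf Y Q →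
  ∀ (Φ Ψ u : E → ℝ) (θ Ω : Form Y) (w : Y → ℝ) (O : Set Y) (c : ℝ), IsOpen O → Rep Q Φ θ → Rep Q Ψ Ω →
  (∀ z ∈ W, ContDiffAt ℝ ∞ Φ z ∧ ContDiffAt ℝ ∞ Ψ z ∧ ContDiffAt ℝ ∞ u z) →
  (∀ p ∈ O, ContMDiffAt 𝓘(ℝ, E) 𝓘(ℝ, ℝ) ∞ w p) →
  (∀ i : Idx, ∀ z ∈ UU i, Q i z ∈ O → tr i.1 z ∈ W → w (Q i z) = u (tr i.1 z)) →
  (∀ z ∈ W, ∀ v, c * lev Ψ z v ≤ lev Φ z v + lev u z v) →
  ∀ f : ℂ → Y, IsDisc f → f 0 ∈ O →
    c * Ω.val f ≤ θ.val f + Laplacian.laplacian (fun ζ : ℂ => w (f ζ)) 0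

/-- INEQR: the converse for semipositivity.
Proof. `z ∈ W`, `v`: `i = (0, z.1)`, the disc `ζ ↦ Q i (z + ζ v)`; `θ.val` is `lev ρ z v = lev Φ z v` (`S_REPV`, `PotAt` at the point `z`
itself), and `w (Q i t) = u t` near `z`. -/
def S_INEQR : Prop := ∀ (Y : Type) [TopologicalSpace Y] [ChartedSpace E Y] (Q : Idx → E → Y), Surf Y Q →
  ∀ (Φ u : E → ℝ) (θ : Form Y) (w : Y → ℝ), Rep Q Φ θ →
  (∀ z ∈ W, ContDiffAt ℝ ∞ Φ z) → ContMDiff 𝓘(ℝ, E) 𝓘(ℝ, ℝ) ∞ w → RepF Q u w →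
  (∀ f : ℂ → Y, IsDisc f → 0 ≤ θ.val f + Laplacian.laplacian (fun ζ : ℂ => w (f ζ)) 0) →
  ∀ z ∈ W, ∀ v, 0 ≤ lev (fun z' => Φ z' + u z') z v

/-- ACL: the curves `AA` form a closed set with dense complement, and the local description.
Proof. `onA` is compatible with the equivalence: for `z ∈ UU i`, `z' ∈ UU j` with `PP i z = PP j z'`: `onA i z ↔ onA j z'`
(`onA i z` iff `PP i z` is exceptional or `ord _ (some 0)`: for `i ≠ 1`, `(tr i z).2 = 0`: in the systems `2, 3, 4` at exceptional points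
`tr i z = (0, 0)`, at ordinary points `(tr i z).2` is the `y`; in the system `1`, `some z.2⁻¹` is never `some 0` for `z.2 ≠ 0`). So the
complement of `AA` is the union of the sets `Q i '' {z ∈ UU i | ¬ onA i z}`, open as `tr i` is continuous for `i ≠ 1`. It contains the
points with `tr i z ∈ W`, which are dense (`S_DENS`). -/
def S_ACL : Prop := ∀ (Y : Type) [TopologicalSpace Y] [ChartedSpace E Y] (Q : Idx → E → Y), Surf Y Q →
  IsClosed (AA Q) ∧ Dense (AA Q)ᶜ ∧ ∀ i : Idx, ∀ z ∈ UU i, (Q i z ∈ AA Q ↔ onA i.1 z)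

/-- ALIM: limits at the curves.
Proof. `p = Q i z`, `onA i z`. Given `R`: there is an open neighbourhood `N ⊆ UU i` of `z` with `u (tr i t) < R` for all `t ∈ N` with `tr i t ∈ W`. For
`q = Q i t`, `t ∈ N`, `q ∉ AA`: `w` is continuous at `q`, and `q` is a limit of points `Q i t'`, `t' ∈ N`, `tr i t' ∈ W` (`S_DENS`), where
`w = u (tr i t') < R`; so `w q ≤ R`. `Q i '' N` is a neighbourhood of `p`. -/
def S_ALIM : Prop := ∀ (Y : Type) [TopologicalSpace Y] [ChartedSpace E Y] (Q : Idx → E → Y), Surf Y Q →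
  ∀ (u : E → ℝ) (w : Y → ℝ), (∀ p, p ∉ AA Q → ContinuousAt w p) →
  (∀ i : Idx, ∀ z ∈ UU i, Q i z ∉ AA Q → tr i.1 z ∈ W → w (Q i z) = u (tr i.1 z)) →
  (∀ j, ∀ z ∈ V j, onA j z → Tendsto (fun z' => u (tr j z')) (𝓝[{z' | tr j z' ∈ W}] z) atBot) →
  ∀ p ∈ AA Q, Tendsto w (𝓝[(AA Q)ᶜ] p) atBot

/-- the final statement -/
def S_FINAL : Prop := ∃ (Y : Type) (_ : TopologicalSpace Y) (_ : ChartedSpace E Y),
  IsManifold 𝓘(ℂ, E) ω Y ∧ T2Space Y ∧ CompactSpace Y ∧ ConnectedSpace Y ∧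
  ∃ Ω θ : Form Y, Ω.IsKahler ∧ IsNef Ω θ ∧ (∃ A : Set Y, BigOff Ω θ A) ∧ ¬ HasSemipositive θ

end Pool.Agent.Q22.SP
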